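import Pool.Agent.Y854.GM.WinV

/-! Borel-Cantelli for windows around `α v_n`, with sets of bad integers depending on the scale. -/

set_option autoImplicit false

open Finset Filter Topology MeasureTheory

namespace Pool.Agent.V11326.WA

open scoped ENNReal NNReal

/-- one finite set, one index -/
theorem vol_le (S : Set ℕ) (hS : S.Finite) {v L : ℝ} (hv : 0 < v) :
    volume {α : ℝ | ∃ N ∈ S, |(N : ℝ) - α * v| ≤ L} ≤ ENNReal.ofReal (2 * ((S.ncard : ℝ) * L / v)) := by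
  classical
  have hsub : {α : ℝ | ∃ N ∈ S, |(N : ℝ) - α * v| ≤ L} ⊆
      ⋃ N ∈ hS.toFinset, Metric.closedBall ((N : ℝ) / v) (L / v) := by
    rintro α ⟨N, hN, hw⟩
    rw [Set.mem_iUnion₂]
    refine ⟨N, by simpa using hN, ?_⟩
    rw [Metric.mem_closedBall, Real.dist_eq]
    have h1 : α - (N : ℝ) / v = -((N : ℝ) - α * v) / v := by
      field_simp
      ring
    rw [h1, abs_div, abs_neg, abs_of_pos hv]
    exact (div_le_div_iff_of_pos_right hv).2 hw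
  calc volume {α : ℝ | ∃ N ∈ S, |(N : ℝ) - α * v| ≤ L}
      ≤ volume (⋃ N ∈ hS.toFinset, Metric.closedBall ((N : ℝ) / v) (L / v)) := measure_mono hsub
    _ ≤ ∑ N ∈ hS.toFinset, volume (Metric.closedBall ((N : ℝ) / v) (L / v)) := measure_biUnion_finset_le _ _
    _ = ∑ N ∈ hS.toFinset, ENNReal.ofReal (2 * (L / v)) := by
        apply Finset.sum_congr rfl
        intro N _
        rw [Real.volume_closedBall]
    _ = ENNReal.ofReal (2 * ((S.ncard : ℝ) * L / v)) := by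
        rw [Finset.sum_const, nsmul_eq_mul, ← ENNReal.ofReal_natCast, ← ENNReal.ofReal_mul (Nat.cast_nonneg _),
          Set.ncard_eq_toFinset_card _ hS]
        congr 1
        ring

/-- **Borel-Cantelli.** Let `S n` be finite sets of integers for which `∑ #(S n) L_n / v_n` converges. For almost all `α`
and all large `n` no `N` in `S n` satisfies `|N - α v_n| ≤ L_n`. -/
theorem ae_fin (S : ℕ → Set ℕ) (hS : ∀ n, (S n).Finite) {v L : ℕ → ℝ} (hv : ∀ n, 1 ≤ v n) (hL0 : ∀ n, 0 ≤ L n)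
    {c : ℕ → ℝ} (hc : ∀ᶠ n in atTop, ((S n).ncard : ℝ) * L n / v n ≤ c n) (hsum : Summable c) :
    ∀ᵐ α : ℝ, ∃ n₀ : ℕ, ∀ n : ℕ, n₀ ≤ n → ∀ N ∈ S n, L n < |(N : ℝ) - α * v n| := by
  have hsum' : Summable (fun n => ((S n).ncard : ℝ) * L n / v n) := by
    refine Summable.of_norm_bounded_eventually_nat hsum ?_
    filter_upwards [hc] with n hn
    rw [Real.norm_eq_abs, abs_of_nonneg]
    · exact hn
    · have := hv n
      have := hL0 n
      positivity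
  have h0 : volume {α : ℝ | ∃ᶠ n in atTop, α ∈ {α : ℝ | ∃ N ∈ S n, |(N : ℝ) - α * v n| ≤ L n}} = 0 := by
    apply measure_setOfPred_frequently_eq_zero
    have h1 : Summable (fun n => 2 * (((S n).ncard : ℝ) * L n / v n)) := hsum'.mul_left _
    have h2 : ∑' n, volume {α : ℝ | ∃ N ∈ S n, |(N : ℝ) - α * v n| ≤ L n} ≤
        ∑' n, ENNReal.ofReal (2 * (((S n).ncard : ℝ) * L n / v n)) :=
      ENNReal.tsum_le_tsum (fun n => vol_le (S n) (hS n) (lt_of_lt_of_le one_pos (hv n)))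
    exact ne_top_of_le_ne_top h1.tsum_ofReal_ne_top h2
  have h3 : ∀ᵐ α : ℝ, ¬ ∃ᶠ n in atTop, α ∈ {α : ℝ | ∃ N ∈ S n, |(N : ℝ) - α * v n| ≤ L n} := by
    rw [ae_iff]
    simpa only [not_not] using h0
  filter_upwards [h3] with α hα
  rw [Filter.not_frequently] at hα
  obtain ⟨n₀, hn₀⟩ := hα.exists_forall_of_atTop
  refine ⟨n₀, fun n hn N hN => ?_⟩
  by_contra hcon
  exact hn₀ n hn ⟨N, hN, not_lt.1 hcon⟩

open Pool.Agent.Y854.GM in
/-- Finite sets `S A n` of integers with `O (v_n ^ s)` elements for each `A`. For `α > 0` outside a set of dimension at most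
`(s + τ) / (1 - θ)` there is `A ≥ α` such that for all large `n` no `N` in `S A n` satisfies `|N - α v_n| ≤ v_n ^ θ`. -/
theorem dim_sets (S : ℕ → ℕ → Set ℕ) (hS : ∀ A n, (S A n).Finite) {v : ℕ → ℝ} {s τ θ : ℝ} (hpos : ∀ n, 1 ≤ v n)
    (hτ : 0 ≤ τ) (hv : ExpLe v τ) (hs : 0 ≤ s) (hθ1 : θ < 1)
    (hcount : ∀ A : ℕ, ∃ (K : ℝ) (n₁ : ℕ), ∀ n : ℕ, n₁ ≤ n → ((S A n).ncard : ℝ) ≤ K * (v n) ^ s) :
    ∃ E : Set ℝ, dimH E ≤ ENNReal.ofReal ((s + τ) / (1 - θ)) ∧ ∀ α : ℝ, 0 < α → α ∉ E →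
      ∃ A : ℕ, α ≤ A ∧ ∃ n0 : ℕ, ∀ n : ℕ, n0 ≤ n → ∀ N ∈ S A n, (v n) ^ θ < |(N : ℝ) - α * v n| := by
  have hall : ∀ A : ℕ, ∃ E : Set ℝ, dimH E ≤ ENNReal.ofReal ((s + τ) / (1 - θ)) ∧ ∀ α : ℝ, 0 < α → α ∉ E →
      ∃ n0 : ℕ, ∀ n : ℕ, n0 ≤ n → ∀ N ∈ S A n, 1 * (v n) ^ θ < |(N : ℝ) - α * v n| := by
    intro A
    obtain ⟨K, n₁, hK⟩ := hcount A
    refine windowsV (fun n => S A n) (fun _ (N : ℕ) => (N : ℝ)) 1 hpos hτ hv hs hθ1 ?_
    intro A' ε hε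
    refine ⟨|K|, n₁, fun n hn => ?_⟩
    have hsub : {t : ℕ | t ∈ S A n ∧ (t : ℝ) ≤ ((A' : ℝ) + 1) * v n} ⊆ S A n := fun t ht => ht.1
    refine ⟨(hS A n).subset hsub, ?_⟩
    have hn0 : 0 < v n := lt_of_lt_of_le one_pos (hpos n)
    calc (({t : ℕ | t ∈ S A n ∧ (t : ℝ) ≤ ((A' : ℝ) + 1) * v n}.ncard : ℕ) : ℝ) ≤ ((S A n).ncard : ℝ) := by
          exact_mod_cast Set.ncard_le_ncard hsub (hS A n)
      _ ≤ K * (v n) ^ s := hK n hn
      _ ≤ |K| * (v n) ^ (s + ε) := by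
          apply mul_le_mul (le_abs_self K) _ (Real.rpow_nonneg hn0.le _) (abs_nonneg K)
          exact Real.rpow_le_rpow_of_exponent_le (hpos n) (by linarith)
  choose E hE1 hE2 using hall
  refine ⟨⋃ A, E A, ?_, fun α hα hαE => ?_⟩
  · rw [dimH_iUnion]
    exact iSup_le hE1
  · obtain ⟨A, hA⟩ := exists_nat_ge α
    obtain ⟨n0, hn0⟩ := hE2 A α hα (fun h => hαE (Set.mem_iUnion.2 ⟨A, h⟩))
    refine ⟨A, hA, n0, fun n hn N hN => ?_⟩
    have := hn0 n hn N hN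
    rwa [one_mul] at this

end Pool.Agent.V11326.WA
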