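import Mathlib

/-!
# Ramsey's theorem for pairs with finitely many colours, and its product version
-/

set_option autoImplicit false

namespace Pool.Agent.V11326.ProdRamsey

open Finset

theorem endhom {C : Type} [Fintype C] [DecidableEq C] (L : ℕ) :
    ∃ N : ℕ, ∀ (χ : ℕ → ℕ → C) (S : Finset ℕ), N ≤ S.card →
      ∃ f : Fin L → ℕ, StrictMono f ∧ (∀ i, f i ∈ S) ∧
        ∀ i j k, i < j → i < k → χ (f i) (f j) = χ (f i) (f k) := by
  induction L with
  | zero =>
    refine ⟨0, fun χ S _ => ⟨fun i => i.elim0, fun i => i.elim0, fun i => i.elim0,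
      fun i => i.elim0⟩⟩
  | succ L ih =>
    obtain ⟨N, hN⟩ := ih
    refine ⟨1 + Fintype.card C * N, ?_⟩
    intro χ S hS
    have hne : S.Nonempty := by rw [← card_pos]; omega
    set s0 := S.min' hne with hs0
    have hs0m : s0 ∈ S := S.min'_mem hne
    set S' := S.erase s0 with hS'
    have hS'c : Fintype.card C * N ≤ S'.card := by
      rw [hS', card_erase_of_mem hs0m]; omega
    haveI : Nonempty C := ⟨χ 0 0⟩
    obtain ⟨c, _, hc⟩ := Finset.exists_le_card_fiber_of_mul_le_card_of_maps_to
      (s := S') (t := (univ : Finset C)) (f := χ s0) (n := N) (fun _ _ => mem_univ _)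
      univ_nonempty (by rw [card_univ]; exact hS'c)
    obtain ⟨f', hf'm, hf'S, hf'h⟩ := hN χ _ hc
    have hlt : ∀ i, s0 < f' i := by
      intro i
      have h1 := hf'S i
      rw [mem_filter, hS', mem_erase] at h1
      exact lt_of_le_of_ne (S.min'_le _ h1.1.2) (Ne.symm h1.1.1)
    have hcol : ∀ i, χ s0 (f' i) = c := fun i => (mem_filter.mp (hf'S i)).2
    refine ⟨Fin.cons s0 f', ?_, ?_, ?_⟩
    · intro i j hij
      induction j using Fin.cases with
      | zero => exact absurd hij (Fin.not_lt_zero i)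
      | succ j =>
        induction i using Fin.cases with
        | zero => simpa using hlt j
        | succ i => simpa using hf'm (Fin.succ_lt_succ_iff.mp hij)
    · intro i
      induction i using Fin.cases with
      | zero => simpa using hs0m
      | succ i =>
        have h1 := hf'S i
        rw [mem_filter, hS', mem_erase] at h1
        simpa using h1.1.2
    · intro i j k hij hik
      induction j using Fin.cases with
      | zero => exact absurd hij (Fin.not_lt_zero i)
      | succ j =>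
        induction k using Fin.cases with
        | zero => exact absurd hik (Fin.not_lt_zero i)
        | succ k =>
          induction i using Fin.cases with
          | zero => simp only [Fin.cons_zero, Fin.cons_succ, hcol]
          | succ i =>
            simp only [Fin.cons_succ]
            exact hf'h i j k (Fin.succ_lt_succ_iff.mp hij) (Fin.succ_lt_succ_iff.mp hik)

theorem ramsey {C : Type} [Fintype C] [DecidableEq C] (M : ℕ) :
    ∃ N : ℕ, ∀ χ : ℕ → ℕ → C, ∃ f : Fin M → ℕ, StrictMono f ∧ (∀ i, f i < N) ∧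
      ∃ c, ∀ i j, i < j → χ (f i) (f j) = c := by
  obtain ⟨N, hN⟩ := endhom (C := C) (Fintype.card C * M + 1)
  refine ⟨N, ?_⟩
  intro χ
  obtain ⟨f, hfm, hfS, hfh⟩ := hN χ (range N) (by rw [card_range])
  haveI : Nonempty C := ⟨χ 0 0⟩
  obtain ⟨c, _, hc⟩ := Finset.exists_le_card_fiber_of_mul_le_card_of_maps_to
      (s := (univ : Finset (Fin (Fintype.card C * M)))) (t := (univ : Finset C))
      (f := fun i => χ (f i.castSucc) (f (Fin.last _))) (n := M) (fun _ _ => mem_univ _)
      univ_nonempty (by rw [card_univ, card_univ, Fintype.card_fin])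
  obtain ⟨T, hTs, hTc⟩ := Finset.exists_subset_card_eq hc
  let g := T.orderEmbOfFin hTc
  refine ⟨fun i => f (g i).castSucc, ?_, ?_, c, ?_⟩
  · intro i j hij
    exact hfm (Fin.castSucc_lt_castSucc_iff.mpr (g.strictMono hij))
  · intro i
    exact mem_range.mp (hfS _)
  · intro i j hij
    have h1 := hTs (T.orderEmbOfFin_mem hTc i)
    rw [mem_filter] at h1
    have h2 := hfh (g i).castSucc (g j).castSucc (Fin.last _)
      (Fin.castSucc_lt_castSucc_iff.mpr (g.strictMono hij)) (Fin.castSucc_lt_last _)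
    rw [h2]
    exact h1.2

theorem prod_ramsey {C : Type} [Fintype C] [DecidableEq C] (M : ℕ) :
    ∃ N : ℕ, ∀ χ : ℕ → ℕ → ℕ → ℕ → C, ∃ f g : Fin M → ℕ, StrictMono f ∧ StrictMono g ∧
      (∀ i, f i < N) ∧ (∀ i, g i < N) ∧
      ∃ c, ∀ i j k l, i < j → k < l → χ (f i) (f j) (g k) (g l) = c := by
  classical
  obtain ⟨N1, hN1⟩ := ramsey (C := C) M
  obtain ⟨N2, hN2⟩ := ramsey (C := Fin N1 → Fin N1 → C) M
  refine ⟨max N1 N2, ?_⟩
  intro χ
  obtain ⟨f, hfm, hfN, Φ, hΦ⟩ := hN2 (fun x x' => fun y y' => χ x x' y y')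
  obtain ⟨g, hgm, hgN, c, hc⟩ := hN1 (fun y y' =>
    if h : y < N1 ∧ y' < N1 then Φ ⟨y, h.1⟩ ⟨y', h.2⟩ else χ 0 0 0 0)
  refine ⟨f, g, hfm, hgm, fun i => (hfN i).trans_le (le_max_right _ _),
    fun i => (hgN i).trans_le (le_max_left _ _), c, ?_⟩
  intro i j k l hij hkl
  have h1 := hc k l hkl
  rw [dif_pos ⟨hgN k, hgN l⟩] at h1
  have h2 := hΦ i j hij
  have h3 := congrFun (congrFun h2 ⟨g k, hgN k⟩) ⟨g l, hgN l⟩
  rw [← h1, ← h3]

end Pool.Agent.V11326.ProdRamsey
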