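import Mathlib
import Pool.Agent.V11326.ProdRamsey

/-!
# Ordered hypermatchings and patterns: definitions and the order-theoretic core

Vertices are natural numbers, edges are finite sets of natural numbers, an `r`-pattern is given by
the set of positions (0-indexed) of its letters `A`.
-/

set_option autoImplicit false

namespace Pool.Agent.V11326.OrdPat

open Finset

/-- The positions, counted from `0`, of the elements of `E` in the increasing listing of
`E ∪ F`. -/
def pos (E F : Finset ℕ) : Finset ℕ :=
  E.image (fun x => ((E ∪ F).filter (· < x)).card)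

/-- `P` is (the set of positions of the letters `A` of) an `r`-pattern: a word of length `2r`
over `{A, B}` with `r` letters `A`, the first letter being `A`. -/
def IsPattern (r : ℕ) (P : Finset ℕ) : Prop :=
  P ⊆ range (2 * r) ∧ P.card = r ∧ 0 ∈ P

/-- The disjoint sets `E`, `F` form the pattern `P`: the positions, in the increasing listing of
`E ∪ F`, of the elements of the one of the two sets that contains the smallest element (position
`0`) are exactly the positions of the letters `A` of `P`. -/
def Forms (P E F : Finset ℕ) : Prop :=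
  (0 ∈ pos E F ∧ pos E F = P) ∨ (0 ∈ pos F E ∧ pos F E = P)

/-- `S` is an ordered `r`-matching (on its own vertex set): a family of pairwise disjoint
`r`-element sets. -/
def IsMatching (r : ℕ) (S : Finset (Finset ℕ)) : Prop :=
  (∀ E ∈ S, E.card = r) ∧ ∀ E ∈ S, ∀ F ∈ S, E ≠ F → Disjoint E F

/-- Any two distinct edges of `S` form a pattern of `Ps`. -/
def IsClique (Ps : Finset (Finset ℕ)) (S : Finset (Finset ℕ)) : Prop :=
  ∀ E ∈ S, ∀ F ∈ S, E ≠ F → ∃ P ∈ Ps, Forms P E F

/-- There are arbitrarily large `{P}`-cliques. -/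
def Collectable (r : ℕ) (P : Finset ℕ) : Prop :=
  ∀ m : ℕ, ∃ S : Finset (Finset ℕ), IsMatching r S ∧ S.card = m ∧ IsClique {P} S

/-- The word `P` is cut by the points `2d`, `d ∈ D`, into consecutive blocks, each of the form
`A^t B^t` or `B^t A^t`, `t ≥ 1`. (Cut points `0 = d₀ < d₁ < … < d_s = r` correspond to the ordered
partition `(d₁ - d₀, …, d_s - d_{s-1})` of `r`, which is the composition `λ_P`.) -/
def SplitsAt (r : ℕ) (P D : Finset ℕ) : Prop :=
  0 ∈ D ∧ r ∈ D ∧ D ⊆ range (r + 1) ∧
    ∀ d ∈ D, ∀ d' ∈ D, d < d' → (∀ x ∈ D, x ≤ d ∨ d' ≤ x) →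
      (∀ i, 2 * d ≤ i → i < 2 * d' → (i ∈ P ↔ i < d + d')) ∨
      (∀ i, 2 * d ≤ i → i < 2 * d' → (i ∈ P ↔ d + d' ≤ i))

/-- Two patterns are harmonious: they are distinct, both collectable, and have the same
composition. -/
def Harmonious (r : ℕ) (P Q : Finset ℕ) : Prop :=
  P ≠ Q ∧ Collectable r P ∧ Collectable r Q ∧ ∃ D, SplitsAt r P D ∧ SplitsAt r Q D

/-! ### Counting and enumerating elements -/

/-- the number of elements of `E` below `t` -/
def cnt (E : Finset ℕ) (t : ℕ) : ℕ := (E.filter (· < t)).card

/-- the `i`-th element of `E` (counted from `0`) -/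
noncomputable def v (E : Finset ℕ) (i : ℕ) : ℕ := Nat.nth (fun x => x ∈ E) i

theorem cnt_eq_count (E : Finset ℕ) (t : ℕ) : cnt E t = Nat.count (fun x => x ∈ E) t := by
  unfold cnt
  rw [Nat.count_eq_card_filter_range]
  congr 1
  ext x
  simp only [mem_filter, mem_range]
  tauto

theorem v_mem {E : Finset ℕ} {i : ℕ} (h : i < E.card) : v E i ∈ E := by
  unfold v
  exact Nat.nth_mem i (fun hf => by
    have h0 : hf.toFinset = E := by
      ext x
      rw [Set.Finite.mem_toFinset]
      exact Iff.rfl
    rw [h0]; exact h)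

theorem cnt_v {E : Finset ℕ} {i : ℕ} (h : i < E.card) : cnt E (v E i) = i := by
  rw [cnt_eq_count]
  exact Nat.count_nth (fun hf => by
    have h0 : hf.toFinset = E := by
      ext x
      rw [Set.Finite.mem_toFinset]
      exact Iff.rfl
    rw [h0]; exact h)

theorem v_lt_iff {E : Finset ℕ} {i : ℕ} (h : i < E.card) (t : ℕ) : v E i < t ↔ i < cnt E t := by
  constructor
  · intro hlt
    have h1 := Nat.count_strict_mono (p := fun x => x ∈ E) (v_mem h) hlt
    rw [← cnt_eq_count, ← cnt_eq_count, cnt_v h] at h1
    exact h1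
  · intro hlt
    rw [cnt_eq_count] at hlt
    exact Nat.nth_lt_of_lt_count hlt

theorem v_strict {E : Finset ℕ} {i j : ℕ} (hij : i < j) (h : j < E.card) : v E i < v E j := by
  rw [v_lt_iff (hij.trans h), cnt_v h]
  exact hij

theorem cnt_le (E : Finset ℕ) (t : ℕ) : cnt E t ≤ E.card := card_filter_le _ _

theorem cnt_lt_of_mem {E : Finset ℕ} {x : ℕ} (h : x ∈ E) : cnt E x < E.card := by
  unfold cnt
  refine card_lt_card ⟨filter_subset _ _, fun hs => ?_⟩
  have := hs h
  rw [mem_filter] at this
  exact lt_irrefl _ this.2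

theorem v_cnt {E : Finset ℕ} {x : ℕ} (h : x ∈ E) : v E (cnt E x) = x := by
  rw [cnt_eq_count]
  exact Nat.nth_count (p := fun x => x ∈ E) h

theorem cnt_mono (E : Finset ℕ) {s t : ℕ} (h : s ≤ t) : cnt E s ≤ cnt E t := by
  unfold cnt
  apply card_le_card
  intro x hx
  rw [mem_filter] at hx ⊢
  exact ⟨hx.1, hx.2.trans_le h⟩

/-! ### The positions -/

theorem rank_eq {E F : Finset ℕ} (hd : Disjoint E F) (x : ℕ) :
    ((E ∪ F).filter (· < x)).card = cnt E x + cnt F x := by
  unfold cnt
  rw [filter_union, card_union_of_disjoint]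
  exact disjoint_filter_filter hd

/-- the number of letters `A` among the first `m` letters -/
def NN (P : Finset ℕ) (m : ℕ) : ℕ := (P.filter (· < m)).card

theorem NN_pos {E F : Finset ℕ} (hd : Disjoint E F) {i : ℕ} (hi : i < E.card) (m : ℕ) :
    i < NN (pos E F) m ↔ i + cnt F (v E i) < m := by
  have hinj : Set.InjOn (fun x => ((E ∪ F).filter (· < x)).card) (E : Set ℕ) := by
    intro x hx y hy he
    simp only [rank_eq hd] at he
    rcases lt_trichotomy x y with h | h | h
    · have h1 : cnt E x < cnt E y := by
        rw [← v_lt_iff (cnt_lt_of_mem (mem_coe.mp hx)), v_cnt (mem_coe.mp hx)]; exact h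
      have h2 := cnt_mono F h.le
      omega
    · exact h
    · have h1 : cnt E y < cnt E x := by
        rw [← v_lt_iff (cnt_lt_of_mem (mem_coe.mp hy)), v_cnt (mem_coe.mp hy)]; exact h
      have h2 := cnt_mono F h.le
      omega
  have h0 : NN (pos E F) m = (E.filter (fun x => cnt E x + cnt F x < m)).card := by
    unfold NN pos
    rw [filter_image]
    rw [card_image_of_injOn]
    · congr 1
      apply filter_congr
      intro x _
      rw [rank_eq hd]
    · intro x hx y hy he
      exact hinj (mem_coe.mpr (mem_filter.mp (mem_coe.mp hx)).1)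
        (mem_coe.mpr (mem_filter.mp (mem_coe.mp hy)).1) he
  rw [h0]
  constructor
  · intro h
    by_contra hcon
    have hsub : E.filter (fun x => cnt E x + cnt F x < m) ⊆ E.filter (· < v E i) := by
      intro x hx
      rw [mem_filter] at hx ⊢
      refine ⟨hx.1, ?_⟩
      by_contra hge
      push Not at hge
      have h1 := cnt_mono E hge
      have h2 := cnt_mono F hge
      rw [cnt_v hi] at h1
      omega
    have h1 := card_le_card hsub
    have h2 : (E.filter (· < v E i)).card = i := cnt_v hi
    omega
  · intro h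
    have hsub : (range (i + 1)).image (v E) ⊆ E.filter (fun x => cnt E x + cnt F x < m) := by
      intro x hx
      rw [mem_image] at hx
      obtain ⟨j, hj, rfl⟩ := hx
      rw [mem_range] at hj
      have hj' : j < E.card := by omega
      rw [mem_filter, cnt_v hj']
      refine ⟨v_mem hj', ?_⟩
      have h1 : v E j ≤ v E i := by
        rcases Nat.lt_or_ge j i with h2 | h2
        · exact (v_strict h2 hi).le
        · have : j = i := by omega
          rw [this]
      have h2 := cnt_mono F h1
      omega
    have h1 := card_le_card hsub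
    rw [card_image_of_injOn, card_range] at h1
    · omega
    · intro a ha b hb he
      simp only [coe_range, Set.mem_Iio] at ha hb
      rcases lt_trichotomy a b with h2 | h2 | h2
      · have := v_strict h2 (show b < E.card by omega)
        omega
      · exact h2
      · have := v_strict h2 (show a < E.card by omega)
        omega

/-- comparison of two vertices read off from the pattern -/
theorem lt_iff {E F : Finset ℕ} (hd : Disjoint E F) {i j : ℕ} (hi : i < E.card)
    (hj : j < F.card) : v F j < v E i ↔ ¬ (i < NN (pos E F) (i + j + 1)) := by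
  rw [v_lt_iff hj, NN_pos hd hi]
  omega

theorem v_ne {E F : Finset ℕ} (hd : Disjoint E F) {i j : ℕ} (hi : i < E.card)
    (hj : j < F.card) : v E i ≠ v F j := by
  intro he
  have h1 := v_mem hi
  have h2 := v_mem hj
  rw [← he] at h2
  exact (Finset.disjoint_left.mp hd h1) h2

theorem lt_iff' {E F : Finset ℕ} (hd : Disjoint E F) {i j : ℕ} (hi : i < E.card)
    (hj : j < F.card) : v E i < v F j ↔ i < NN (pos E F) (i + j + 1) := by
  have h1 := lt_iff hd hi hj
  have h2 := v_ne hd hi hj
  omega

/-- `P` is balanced at `g`: among the first `2g` letters, `g` are letters `A` -/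
def Bal (P : Finset ℕ) (g : ℕ) : Prop := NN P (2 * g) = g

theorem bal_iff {r : ℕ} {E F : Finset ℕ} (hE : E.card = r) (hF : F.card = r)
    (hd : Disjoint E F) {g : ℕ} (hg : 1 ≤ g) (hgr : g < r) :
    Bal (pos E F) g ↔ (v E (g - 1) < v F g ∧ v F (g - 1) < v E g) := by
  have h1 := lt_iff' (E := E) (F := F) hd (i := g - 1) (j := g) (by omega) (by omega)
  have h2 := lt_iff (E := E) (F := F) hd (i := g) (j := g - 1) (by omega) (by omega)
  rw [h1, h2]
  have e1 : g - 1 + g + 1 = 2 * g := by omega
  have e2 : g + (g - 1) + 1 = 2 * g := by omega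
  rw [e1, e2]
  unfold Bal
  omega

theorem bal_zero (P : Finset ℕ) : Bal P 0 := by
  unfold Bal NN
  simp

theorem bal_top {r : ℕ} {P : Finset ℕ} (hP : IsPattern r P) : Bal P r := by
  unfold Bal NN
  rw [filter_true_of_mem, hP.2.1]
  intro x hx
  exact mem_range.mp (hP.1 hx)

/-! ### From `Forms` to `pos` -/

theorem pos_of_forms {P E F : Finset ℕ} (hE : 0 < E.card) (hF : 0 < F.card)
    (h : Forms P E F) (hlt : v E 0 < v F 0) : pos E F = P := by
  rcases h with h | h
  · exact h.2
  · exfalso
    have h1 := h.1
    unfold pos at h1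
    rw [mem_image] at h1
    obtain ⟨x, hx, hx0⟩ := h1
    rw [card_eq_zero] at hx0
    have h2 : v E 0 ∉ (F ∪ E).filter (· < x) := by rw [hx0]; exact notMem_empty _
    rw [mem_filter, not_and] at h2
    have h3 := h2 (mem_union_right _ (v_mem hE))
    have h4 : v F 0 ≤ x := by
      by_contra hc
      push Not at hc
      have h5 : ¬ (v F 0 < x + 1) → False := by
        intro h6
        rw [v_lt_iff hF] at h6
        apply h6
        unfold cnt
        rw [card_pos]
        exact ⟨x, by rw [mem_filter]; exact ⟨hx, Nat.lt_succ_self x⟩⟩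
      exact h5 (by omega)
    omega

theorem Forms.symm {P E F : Finset ℕ} (h : Forms P E F) : Forms P F E := Or.symm h

end Pool.Agent.V11326.OrdPat
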