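import Mathlib
import Pool.Agent.V11326.OrdPat

/-!
# Lower bound for cliques over a collectable pattern: counting matchings avoiding a family of edges
-/

set_option autoImplicit false

namespace Pool.Agent.V11326.OrdLower

open Finset Pool.Agent.V11326.OrdPat

open Classical in
/-- families of `k` pairwise disjoint `r`-subsets of `V`, all members satisfying `q` -/
noncomputable def PM (r : ℕ) (q : Finset ℕ → Prop) (V : Finset ℕ) (k : ℕ) :
    Finset (Finset (Finset ℕ)) :=
  ((V.powersetCard r).powerset).filter (fun M => (IsMatching r M ∧ M.card = k) ∧ ∀ E ∈ M, q E)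

theorem mem_PM {r : ℕ} {q : Finset ℕ → Prop} {V : Finset ℕ} {k : ℕ} {M : Finset (Finset ℕ)} :
    M ∈ PM r q V k ↔ (∀ E ∈ M, E ⊆ V) ∧ IsMatching r M ∧ M.card = k ∧ ∀ E ∈ M, q E := by
  classical
  unfold PM
  rw [mem_filter, mem_powerset]
  constructor
  · rintro ⟨h1, ⟨h2, h3⟩, h4⟩
    exact ⟨fun E hE => (mem_powersetCard.mp (h1 hE)).1, h2, h3, h4⟩
  · rintro ⟨h1, h2, h3, h4⟩
    exact ⟨fun E hE => mem_powersetCard.mpr ⟨h1 E hE, h2.1 E hE⟩, ⟨h2, h3⟩, h4⟩

open Classical in
theorem card_PM_mem {r : ℕ} (hr : 1 ≤ r) {q : Finset ℕ → Prop} {V : Finset ℕ} {k : ℕ}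
    {E : Finset ℕ} (hE : E ∈ V.powersetCard r) (hq : q E) :
    ((PM r q V (k + 1)).filter (fun M => E ∈ M)).card = (PM r q (V \ E) k).card := by
  rw [mem_powersetCard] at hE
  have hne : E.Nonempty := by rw [← card_pos]; omega
  refine card_nbij' (fun M => M.erase E) (fun M => insert E M) ?_ ?_ ?_ ?_
  · intro M hM
    rw [mem_coe, mem_filter, mem_PM] at hM
    rw [mem_coe, mem_PM]
    obtain ⟨⟨h1, h2, h3, h4⟩, h5⟩ := hM
    refine ⟨?_, ⟨?_, ?_⟩, ?_, ?_⟩
    · intro F hF
      rw [mem_erase] at hF
      rw [subset_sdiff]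
      exact ⟨h1 F hF.2, h2.2 F hF.2 E h5 hF.1⟩
    · intro F hF
      exact h2.1 F (mem_of_mem_erase hF)
    · intro F hF F' hF' hne'
      exact h2.2 F (mem_of_mem_erase hF) F' (mem_of_mem_erase hF') hne'
    · rw [card_erase_of_mem h5, h3]; rfl
    · intro F hF
      exact h4 F (mem_of_mem_erase hF)
  · intro M hM
    rw [mem_coe, mem_PM] at hM
    rw [mem_coe, mem_filter, mem_PM]
    obtain ⟨h1, h2, h3, h4⟩ := hM
    have hdis : ∀ F ∈ M, Disjoint F E := by
      intro F hF
      have := h1 F hF
      rw [subset_sdiff] at this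
      exact this.2
    have hnot : E ∉ M := by
      intro hEM
      have := hdis E hEM
      rw [disjoint_self] at this
      exact hne.ne_empty this
    refine ⟨⟨?_, ⟨?_, ?_⟩, ?_, ?_⟩, mem_insert_self _ _⟩
    · intro F hF
      rw [mem_insert] at hF
      rcases hF with rfl | hF
      · exact hE.1
      · exact (h1 F hF).trans sdiff_subset
    · intro F hF
      rw [mem_insert] at hF
      rcases hF with rfl | hF
      · exact hE.2
      · exact h2.1 F hF
    · intro F hF F' hF' hne'
      rw [mem_insert] at hF hF'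
      rcases hF with rfl | hF
      · rcases hF' with rfl | hF'
        · exact absurd rfl hne'
        · exact (hdis F' hF').symm
      · rcases hF' with rfl | hF'
        · exact hdis F hF
        · exact h2.2 F hF F' hF' hne'
    · rw [card_insert_of_notMem hnot, h3]
    · intro F hF
      rw [mem_insert] at hF
      rcases hF with rfl | hF
      · exact hq
      · exact h4 F hF
  · intro M hM
    rw [mem_coe, mem_filter] at hM
    exact insert_erase hM.2
  · intro M hM
    rw [mem_coe, mem_PM] at hM
    obtain ⟨h1, h2, h3, h4⟩ := hM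
    apply erase_insert
    intro hEM
    have := h1 E hEM
    rw [subset_sdiff] at this
    have := this.2
    rw [disjoint_self] at this
    exact hne.ne_empty this

open Classical in
theorem double {r : ℕ} (hr : 1 ≤ r) (q : Finset ℕ → Prop) (V : Finset ℕ) (k : ℕ) :
    (k + 1) * (PM r q V (k + 1)).card =
      ∑ E ∈ (V.powersetCard r).filter q, (PM r q (V \ E) k).card := by
  have h1 : (k + 1) * (PM r q V (k + 1)).card = ∑ M ∈ PM r q V (k + 1), M.card := by
    rw [mul_comm, sum_const_nat]
    intro M hM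
    rw [mem_PM] at hM
    exact hM.2.2.1
  rw [h1]
  have h2 : ∀ M ∈ PM r q V (k + 1), M.card =
      ∑ E ∈ (V.powersetCard r).filter q, if E ∈ M then 1 else 0 := by
    intro M hM
    rw [mem_PM] at hM
    rw [← card_filter]
    congr 1
    ext E
    simp only [mem_filter, mem_powersetCard]
    constructor
    · intro hE
      exact ⟨⟨⟨hM.1 E hE, hM.2.1.1 E hE⟩, hM.2.2.2 E hE⟩, hE⟩
    · intro hE
      exact hE.2
  rw [sum_congr rfl h2, sum_comm]
  apply sum_congr rfl
  intro E hE
  rw [mem_filter] at hE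
  rw [← card_PM_mem hr hE.1 hE.2, card_filter]

theorem double_top {r : ℕ} (hr : 1 ≤ r) (V : Finset ℕ) (k : ℕ) :
    (k + 1) * (PM r (fun _ => True) V (k + 1)).card =
      ∑ E ∈ V.powersetCard r, (PM r (fun _ => True) (V \ E) k).card := by
  have h := double hr (fun _ => True) V k
  rw [h]
  apply sum_congr ?_ (fun _ _ => rfl)
  ext E
  simp

/-- all matchings -/
theorem card_top {r : ℕ} (hr : 1 ≤ r) (k : ℕ) : ∀ V W : Finset ℕ, V.card = r * k →
    W.card = r * k → (PM r (fun _ => True) V k).card = (PM r (fun _ => True) W k).card := by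
  classical
  induction k with
  | zero =>
    intro V W _ _
    have h : ∀ V : Finset ℕ, PM r (fun _ => True) V 0 = {∅} := by
      intro V
      ext M
      rw [mem_PM, mem_singleton, card_eq_zero]
      constructor
      · rintro ⟨-, -, h, -⟩; exact h
      · rintro rfl
        refine ⟨by simp, ⟨by simp, by simp⟩, rfl, by simp⟩
    rw [h, h]
  | succ k ih =>
    intro V W hV hW
    have hstep : ∀ V : Finset ℕ, V.card = r * (k + 1) →
        ∀ E ∈ V.powersetCard r, (V \ E).card = r * k := by
      intro V hV E hE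
      rw [mem_powersetCard] at hE
      rw [card_sdiff_of_subset hE.1, hV, hE.2]
      rw [Nat.mul_succ]; omega
    have hne : (V.powersetCard r).Nonempty := by
      rw [powersetCard_nonempty, hV]
      nlinarith
    obtain ⟨E0, hE0⟩ := hne
    have hc := hstep V hV E0 hE0
    have h4 : ∀ W : Finset ℕ, W.card = r * (k + 1) →
        ∑ E ∈ W.powersetCard r, (PM r (fun _ => True) (W \ E) k).card =
        (r * (k + 1)).choose r * (PM r (fun _ => True) (V \ E0) k).card := by
      intro W hW
      rw [sum_congr rfl (fun E hE => ih (W \ E) (V \ E0) (hstep W hW E hE) hc), sum_const,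
        card_powersetCard, hW, smul_eq_mul]
    have h5 : (k + 1) * (PM r (fun _ => True) V (k + 1)).card =
        (k + 1) * (PM r (fun _ => True) W (k + 1)).card := by
      rw [double_top hr, double_top hr, h4 V hV, h4 W hW]
    exact Nat.eq_of_mul_eq_mul_left (Nat.succ_pos k) h5

/-- The number of perfect `r`-matchings of a set with `r k` elements. -/
noncomputable def GG (r k : ℕ) : ℕ := (PM r (fun _ => True) (range (r * k)) k).card

theorem card_PM_top {r : ℕ} (hr : 1 ≤ r) {k : ℕ} {V : Finset ℕ} (hV : V.card = r * k) :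
    (PM r (fun _ => True) V k).card = GG r k :=
  card_top hr k V _ hV (card_range _)

theorem GG_succ {r : ℕ} (hr : 1 ≤ r) (k : ℕ) :
    (k + 1) * GG r (k + 1) = (r * (k + 1)).choose r * GG r k := by
  have h : ∀ E ∈ (range (r * (k + 1))).powersetCard r,
      (PM r (fun _ => True) (range (r * (k + 1)) \ E) k).card = GG r k := by
    intro E hE
    rw [mem_powersetCard] at hE
    apply card_PM_top hr
    rw [card_sdiff_of_subset hE.1, card_range, hE.2, Nat.mul_succ]; omega
  have h2 := double_top hr (range (r * (k + 1))) k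
  rw [sum_congr rfl h, sum_const, card_powersetCard, card_range, smul_eq_mul] at h2
  exact h2

theorem PM_le_top {r : ℕ} (hr : 1 ≤ r) (q : Finset ℕ → Prop) {V : Finset ℕ} {k : ℕ}
    (hV : V.card = r * k) : (PM r q V k).card ≤ GG r k := by
  rw [← card_PM_top hr hV]
  apply card_le_card
  intro M hM
  rw [mem_PM] at hM ⊢
  exact ⟨hM.1, hM.2.1, hM.2.2.1, fun _ _ => trivial⟩

open Classical in
/-- If, as long as at most `r a` vertices have been removed from `V0`, at least `g` of the
`r`-subsets violate `q`, then all edges satisfy `q` with probability at most `(1 - g/C)^a`. -/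
theorem avoid {r n : ℕ} (hr : 1 ≤ r) (q : Finset ℕ → Prop) {V0 : Finset ℕ}
    (hV0 : V0.card = r * n) {a : ℕ} {g C : ℝ} (hg : 0 ≤ g) (hC : 0 < C)
    (hCn : ((r * n).choose r : ℝ) ≤ C) (hgC : g ≤ C)
    (hbad : ∀ V ⊆ V0, (V0 \ V).card ≤ r * a →
      g ≤ (((V.powersetCard r).filter (fun E => ¬ q E)).card : ℝ)) :
    ∀ b k : ℕ, b ≤ a → k + a = n + b → ∀ V ⊆ V0, V.card = r * k → 
      ((PM r q V k).card : ℝ) ≤ (1 - g / C) ^ b * (GG r k : ℝ) := by
  intro b
  induction b with
  | zero =>
    intro k _ _ V _ hV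
    rw [pow_zero, one_mul]
    exact_mod_cast PM_le_top hr q hV
  | succ b ih =>
    intro k hb hk V hVV hV
    rcases k with _ | k
    · -- impossible unless a = n + b + 1, b + 1 ≤ a
      have h1 : (V0 \ V).card ≤ r * a := by
        rw [card_sdiff_of_subset hVV, hV0, hV, Nat.mul_zero, Nat.sub_zero]
        apply Nat.mul_le_mul_left
        omega
      have h2 := hbad V hVV h1
      have h3 : ((V.powersetCard r).filter (fun E => ¬ q E)).card = 0 := by
        rw [card_eq_zero, filter_eq_empty_iff]
        intro E hE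
        rw [mem_powersetCard] at hE
        have := card_le_card hE.1
        rw [hV, hE.2] at this
        omega
      rw [h3] at h2
      have hg0 : g = 0 := le_antisymm (by exact_mod_cast h2) hg
      rw [hg0, zero_div, sub_zero, one_pow, one_mul]
      exact_mod_cast PM_le_top hr q hV
    · have hrem : (V0 \ V).card ≤ r * a := by
        rw [card_sdiff_of_subset hVV, hV0, hV, ← Nat.mul_sub]
        apply Nat.mul_le_mul_left
        omega
      have h1 := hbad V hVV hrem
      have h2 := double hr q V k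
      have h3 : (((V.powersetCard r).filter q).card : ℝ) ≤ ((r * (k + 1)).choose r : ℝ) - g := by
        have h4 := Finset.card_filter_add_card_filter_not (s := V.powersetCard r) q
        rw [card_powersetCard, hV] at h4
        have h5 : (((V.powersetCard r).filter q).card : ℝ) +
            (((V.powersetCard r).filter (fun E => ¬ q E)).card : ℝ) =
            ((r * (k + 1)).choose r : ℝ) := by exact_mod_cast h4
        linarith
      have hmono : ((r * (k + 1)).choose r : ℝ) ≤ C := by
        refine le_trans ?_ hCn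
        exact_mod_cast Nat.choose_le_choose r (Nat.mul_le_mul_left r (by omega))
      have h6 : ((k : ℝ) + 1) * ((PM r q V (k + 1)).card : ℝ) ≤
          (((r * (k + 1)).choose r : ℝ) - g) * ((1 - g / C) ^ b * (GG r k : ℝ)) := by
        have h7 : ((k : ℝ) + 1) * ((PM r q V (k + 1)).card : ℝ) =
            ∑ E ∈ (V.powersetCard r).filter q, ((PM r q (V \ E) k).card : ℝ) := by
          exact_mod_cast h2
        rw [h7]
        calc ∑ E ∈ (V.powersetCard r).filter q, ((PM r q (V \ E) k).card : ℝ)
            ≤ ∑ E ∈ (V.powersetCard r).filter q, ((1 - g / C) ^ b * (GG r k : ℝ)) := by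
              apply sum_le_sum
              intro E hE
              rw [mem_filter, mem_powersetCard] at hE
              apply ih k (by omega) (by omega) (V \ E) (sdiff_subset.trans hVV)
              rw [card_sdiff_of_subset hE.1.1, hV, hE.1.2, Nat.mul_succ]; omega
          _ = (((V.powersetCard r).filter q).card : ℝ) * ((1 - g / C) ^ b * (GG r k : ℝ)) := by
              rw [sum_const, nsmul_eq_mul]
          _ ≤ _ := by
              apply mul_le_mul_of_nonneg_right h3
              have : 0 ≤ 1 - g / C := by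
                rw [sub_nonneg, div_le_one hC]; exact hgC
              positivity
      have hGs : ((k : ℝ) + 1) * (GG r (k + 1) : ℝ) =
          ((r * (k + 1)).choose r : ℝ) * (GG r k : ℝ) := by exact_mod_cast GG_succ hr k
      have hfrac : ((r * (k + 1)).choose r : ℝ) - g ≤
          ((r * (k + 1)).choose r : ℝ) * (1 - g / C) := by
        have h8 : ((r * (k + 1)).choose r : ℝ) * (g / C) ≤ g := by
          rw [mul_div_assoc', div_le_iff₀ hC, mul_comm]
          exact mul_le_mul_of_nonneg_left hmono hg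
        linarith
      have hρ : 0 ≤ 1 - g / C := by
        rw [sub_nonneg, div_le_one hC]; exact hgC
      have h9 : ((k : ℝ) + 1) * ((PM r q V (k + 1)).card : ℝ) ≤
          ((k : ℝ) + 1) * ((1 - g / C) ^ (b + 1) * (GG r (k + 1) : ℝ)) := by
        calc _ ≤ _ := h6
          _ ≤ (((r * (k + 1)).choose r : ℝ) * (1 - g / C)) *
              ((1 - g / C) ^ b * (GG r k : ℝ)) := by
              apply mul_le_mul_of_nonneg_right hfrac
              positivity
          _ = (1 - g / C) ^ (b + 1) * (((r * (k + 1)).choose r : ℝ) * (GG r k : ℝ)) := by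
              ring
          _ = _ := by rw [← hGs]; ring
      exact le_of_mul_le_mul_left h9 (by positivity)

/-! ### Blow-up of a clique -/

/-- the box of the vertex `u` -/
def box (U : Finset ℕ) (h u : ℕ) : Finset ℕ := Ico (2 * h * cnt U u) (2 * h * cnt U u + 2 * h)

/-- the vertex of `U` whose box contains `x` -/
noncomputable def phi (U : Finset ℕ) (h x : ℕ) : ℕ := v U (x / (2 * h))

theorem phi_box {U : Finset ℕ} {h u x : ℕ} (hh : 1 ≤ h) (hu : u ∈ U) (hx : x ∈ box U h u) :
    phi U h x = u := by
  unfold box at hx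
  rw [mem_Ico] at hx
  unfold phi
  have h1 : x / (2 * h) = cnt U u := by
    apply Nat.div_eq_of_lt_le
    · rw [mul_comm]; exact hx.1
    · calc x < 2 * h * cnt U u + 2 * h := hx.2
        _ = (cnt U u + 1) * (2 * h) := by ring
  rw [h1]
  exact v_cnt hu

theorem box_sub {U : Finset ℕ} {h u : ℕ} (hu : u ∈ U) : box U h u ⊆ range (2 * h * U.card) := by
  intro x hx
  unfold box at hx
  rw [mem_Ico] at hx
  rw [mem_range]
  have h1 := cnt_lt_of_mem hu
  calc x < 2 * h * cnt U u + 2 * h := hx.2
    _ = 2 * h * (cnt U u + 1) := by ring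
    _ ≤ _ := Nat.mul_le_mul_left _ h1

theorem box_card (U : Finset ℕ) (h u : ℕ) : (box U h u).card = 2 * h := by
  unfold box
  rw [Nat.card_Ico]
  omega

theorem phi_mono {U : Finset ℕ} {h x y : ℕ} (hh : 1 ≤ h) (hxy : x ≤ y)
    (hy : y < 2 * h * U.card) : phi U h x ≤ phi U h y := by
  unfold phi
  have h1 : x / (2 * h) ≤ y / (2 * h) := Nat.div_le_div_right hxy
  have h2 : y / (2 * h) < U.card := by
    rw [Nat.div_lt_iff_lt_mul (by omega), mul_comm]
    exact hy
  rcases h1.eq_or_lt with h3 | h3
  · rw [h3]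
  · exact (v_strict h3 h2).le

/-- `E` meets exactly the boxes of the vertices of `e`, each in one point -/
def Ty (U : Finset ℕ) (h : ℕ) (e E : Finset ℕ) : Prop :=
  E ⊆ range (2 * h * U.card) ∧ E.card = e.card ∧ E.image (phi U h) = e

theorem ty_inj {U : Finset ℕ} {h : ℕ} {e E : Finset ℕ} (hE : Ty U h e E) :
    Set.InjOn (phi U h) (E : Set ℕ) := by
  rw [← card_image_iff, hE.2.2, hE.2.1]

theorem ty_strict {U : Finset ℕ} {h : ℕ} (hh : 1 ≤ h) {e e' E E' : Finset ℕ}
    (hd : Disjoint e e') (hE : Ty U h e E) (hE' : Ty U h e' E') {x y : ℕ}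
    (hx : x ∈ E ∪ E') (hy : y ∈ E ∪ E') (hxy : x < y) : phi U h x < phi U h y := by
  have hne : phi U h x ≠ phi U h y := by
    intro heq
    rw [mem_union] at hx hy
    rw [disjoint_left] at hd
    have him : ∀ z ∈ E, phi U h z ∈ e := fun z hz => by
      rw [← hE.2.2]; exact mem_image_of_mem _ hz
    have him' : ∀ z ∈ E', phi U h z ∈ e' := fun z hz => by
      rw [← hE'.2.2]; exact mem_image_of_mem _ hz
    rcases hx with hx | hx <;> rcases hy with hy | hy
    · exact hxy.ne (ty_inj hE hx hy heq)
    · apply hd (him x hx)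
      rw [heq]; exact him' y hy
    · apply hd (him y hy)
      rw [← heq]; exact him' x hx
    · exact hxy.ne (ty_inj hE' hx hy heq)
  have hyU : y < 2 * h * U.card := by
    rw [mem_union] at hy
    rcases hy with hy | hy
    · exact mem_range.mp (hE.1 hy)
    · exact mem_range.mp (hE'.1 hy)
  exact lt_of_le_of_ne (phi_mono hh hxy.le hyU) hne

theorem pos_type {U : Finset ℕ} {h : ℕ} (hh : 1 ≤ h) {e e' E E' : Finset ℕ}
    (hd : Disjoint e e') (hE : Ty U h e E) (hE' : Ty U h e' E') : pos E E' = pos e e' := by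
  have hmono : ∀ x ∈ E ∪ E', ∀ y ∈ E ∪ E', (phi U h x < phi U h y ↔ x < y) := by
    intro x hx y hy
    constructor
    · intro hlt
      by_contra hnot
      rcases (not_lt.mp hnot).eq_or_lt with h1 | h1
      · rw [h1] at hlt; exact lt_irrefl _ hlt
      · exact lt_asymm hlt (ty_strict hh hd hE hE' hy hx h1)
    · exact ty_strict hh hd hE hE' hx hy
  have hinj : Set.InjOn (phi U h) ((E ∪ E' : Finset ℕ) : Set ℕ) := by
    intro x hx y hy hxy
    rcases lt_trichotomy x y with h1 | h1 | h1
    · exact absurd hxy (ty_strict hh hd hE hE' hx hy h1).ne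
    · exact h1
    · exact absurd hxy (ty_strict hh hd hE hE' hy hx h1).ne'
  unfold pos
  have hu : e ∪ e' = (E ∪ E').image (phi U h) := by
    rw [image_union, hE.2.2, hE'.2.2]
  rw [hu]
  conv_rhs => rw [← hE.2.2]
  rw [image_image]
  apply image_congr
  intro x hx
  have hx' : x ∈ E ∪ E' := mem_union_left _ hx
  simp only [Function.comp]
  rw [filter_image, card_image_of_injOn]
  · congr 1
    apply filter_congr
    intro y hy
    exact (hmono y hy x hx').symm
  · intro a ha b hb hab
    rw [mem_coe, mem_filter] at ha hb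
    exact hinj ha.1 hb.1 hab

theorem forms_type {U : Finset ℕ} {h : ℕ} (hh : 1 ≤ h) {P e e' E E' : Finset ℕ}
    (hd : Disjoint e e') (hE : Ty U h e E) (hE' : Ty U h e' E') (hP : Forms P e e') :
    Forms P E E' := by
  unfold Forms at hP ⊢
  rw [pos_type hh hd hE hE', pos_type hh hd.symm hE' hE]
  exact hP

open Classical in
theorem card_type {U : Finset ℕ} {h : ℕ} (hh : 1 ≤ h) {e : Finset ℕ} (he : e ⊆ U)
    (V : Finset ℕ) :
    ∏ u ∈ e, (V ∩ box U h u).card ≤
      ((V.powersetCard e.card).filter (fun E => Ty U h e E)).card := by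
  rw [← card_pi]
  apply card_le_card_of_injOn (fun f => e.attach.image (fun u => f u.1 u.2))
  · intro f hf
    rw [mem_coe, mem_pi] at hf
    have hphi : ∀ u (hu : u ∈ e), phi U h (f u hu) = u := fun u hu =>
      phi_box hh (he hu) (mem_inter.mp (hf u hu)).2
    have hcard : (e.attach.image (fun u => f u.1 u.2)).card = e.card := by
      rw [card_image_of_injective, card_attach]
      intro u u' huu
      have h1 := hphi u.1 u.2
      have h2 := hphi u'.1 u'.2
      apply Subtype.ext
      rw [← h1, ← h2]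
      exact congrArg _ huu
    rw [mem_coe, mem_filter, mem_powersetCard]
    refine ⟨⟨?_, hcard⟩, ?_, hcard, ?_⟩
    · intro x hx
      rw [mem_image] at hx
      obtain ⟨u, _, rfl⟩ := hx
      exact (mem_inter.mp (hf u.1 u.2)).1
    · intro x hx
      rw [mem_image] at hx
      obtain ⟨u, _, rfl⟩ := hx
      exact box_sub (he u.2) (mem_inter.mp (hf u.1 u.2)).2
    · ext x
      rw [mem_image]
      constructor
      · rintro ⟨y, hy, rfl⟩
        rw [mem_image] at hy
        obtain ⟨u, _, rfl⟩ := hy
        rw [hphi u.1 u.2]; exact u.2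
      · intro hx
        exact ⟨f x hx, mem_image.mpr ⟨⟨x, hx⟩, mem_attach _ _, rfl⟩, hphi x hx⟩
  · intro f hf g hg hfg
    rw [mem_coe, mem_pi] at hf hg
    funext u hu
    have h1 : f u hu ∈ e.attach.image (fun u => f u.1 u.2) :=
      mem_image.mpr ⟨⟨u, hu⟩, mem_attach _ _, rfl⟩
    have h2 : f u hu ∈ e.attach.image (fun u => g u.1 u.2) := by
      have := hfg
      simp only at this
      rwa [← this]
    rw [mem_image] at h2
    obtain ⟨u', _, hu'⟩ := h2
    have h3 : phi U h (f u hu) = u := phi_box hh (he hu) (mem_inter.mp (hf u hu)).2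
    have h4 : phi U h (g u'.1 u'.2) = u'.1 :=
      phi_box hh (he u'.2) (mem_inter.mp (hg u'.1 u'.2)).2
    have h5 : u'.1 = u := by rw [← h4, hu', h3]
    obtain ⟨w, hw⟩ := u'
    simp only at h5 hu'
    subst h5
    exact hu'.symm

/-! ### The number of edges of a type in `J` -/

open Classical in
theorem box_disj {U : Finset ℕ} {h : ℕ} (hh : 1 ≤ h) {u u' : ℕ} (hu : u ∈ U) (hu' : u' ∈ U)
    (hne : u ≠ u') : Disjoint (box U h u) (box U h u') := by
  rw [disjoint_left]
  intro x hx hx'
  apply hne
  rw [← phi_box hh hu hx, ← phi_box hh hu' hx']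

open Classical in
theorem spoiled {U : Finset ℕ} {h : ℕ} (hh : 1 ≤ h) {V V0 : Finset ℕ}
    (hV0 : range (2 * h * U.card) ⊆ V0) :
    (U.filter (fun u => (V ∩ box U h u).card < h)).card * h ≤ (V0 \ V).card := by
  calc (U.filter (fun u => (V ∩ box U h u).card < h)).card * h
      = ∑ u ∈ U.filter (fun u => (V ∩ box U h u).card < h), h := by
        rw [sum_const, smul_eq_mul]
    _ ≤ ∑ u ∈ U.filter (fun u => (V ∩ box U h u).card < h), (box U h u \ V).card := by
        apply sum_le_sum
        intro u hu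
        rw [mem_filter] at hu
        have h1 := card_sdiff_add_card_inter (box U h u) V
        rw [box_card] at h1
        have h2 := hu.2
        rw [inter_comm] at h2
        omega
    _ = ((U.filter (fun u => (V ∩ box U h u).card < h)).biUnion
          (fun u => box U h u \ V)).card := by
        rw [card_biUnion]
        intro u hu u' hu' hne
        rw [mem_coe, mem_filter] at hu hu'
        exact (box_disj hh hu.1 hu'.1 hne).mono sdiff_subset sdiff_subset
    _ ≤ _ := by
        apply card_le_card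
        intro x hx
        rw [mem_biUnion] at hx
        obtain ⟨u, hu, hx⟩ := hx
        rw [mem_filter] at hu
        rw [mem_sdiff] at hx ⊢
        exact ⟨hV0 (box_sub hu.1 hx.1), hx.2⟩

open Classical in
theorem many_types {r : ℕ} {S : Finset (Finset ℕ)} (hS : IsMatching r S)
    {h : ℕ} (hh : 1 ≤ h) {V V0 : Finset ℕ} {U : Finset ℕ} (hU : ∀ e ∈ S, e ⊆ U)
    (hV0 : range (2 * h * U.card) ⊆ V0)
    {J : Finset (Finset ℕ)} (hJ : J ⊆ S) {a : ℕ} (ha : (V0 \ V).card ≤ r * a)
    (ham : 4 * (r * a) ≤ S.card * h) (hJc : 3 * S.card ≤ 4 * J.card) :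
    S.card * h ^ r ≤
      2 * ((V.powersetCard r).filter (fun E => ¬ ¬ ∃ e ∈ J, Ty U h e E)).card := by
  set Sp := U.filter (fun u => (V ∩ box U h u).card < h) with hSp
  have h1 : Sp.card * h ≤ (V0 \ V).card := spoiled hh hV0
  have h2 : 4 * Sp.card ≤ S.card := by
    have h3 : 4 * Sp.card * h ≤ S.card * h := by
      calc 4 * Sp.card * h = 4 * (Sp.card * h) := by ring
        _ ≤ 4 * (r * a) := by omega
        _ ≤ _ := ham
    exact Nat.le_of_mul_le_mul_right h3 hh
  -- unspoiled types
  set J' := J.filter (fun e => Disjoint e Sp) with hJ'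
  have h4 : (J.filter (fun e => ¬ Disjoint e Sp)).card ≤ Sp.card := by
    have hex : ∀ e ∈ J.filter (fun e => ¬ Disjoint e Sp), ∃ u, u ∈ e ∧ u ∈ Sp := by
      intro e he
      rw [mem_filter, not_disjoint_iff] at he
      exact he.2
    choose! f hf using hex
    apply card_le_card_of_injOn f
    · intro e he
      exact (hf e he).2
    · intro e he e' he' hee
      by_contra hne
      have h5 := hS.2 e (hJ (mem_filter.mp he).1) e' (hJ (mem_filter.mp he').1) hne
      rw [disjoint_left] at h5
      apply h5 (hf e he).1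
      rw [hee]; exact (hf e' he').1
  have h6 := Finset.card_filter_add_card_filter_not (s := J) (fun e => Disjoint e Sp)
  have h7 : S.card ≤ 2 * J'.card := by
    have : J'.card + (J.filter (fun e => ¬ Disjoint e Sp)).card = J.card := h6
    omega
  have h8 : J'.card * h ^ r ≤
      ((V.powersetCard r).filter (fun E => ¬ ¬ ∃ e ∈ J, Ty U h e E)).card := by
    calc J'.card * h ^ r = ∑ e ∈ J', h ^ r := by rw [sum_const, smul_eq_mul]
      _ ≤ ∑ e ∈ J', ((V.powersetCard r).filter (fun E => Ty U h e E)).card := by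
          apply sum_le_sum
          intro e he
          have he' := (mem_filter.mp he)
          have hec : e.card = r := hS.1 e (hJ he'.1)
          have h9 := card_type hh (hU e (hJ he'.1)) V (h := h)
          rw [hec] at h9
          refine le_trans ?_ h9
          calc h ^ r = ∏ u ∈ e, h := by rw [prod_const, hec]
            _ ≤ _ := by
                apply prod_le_prod'
                intro u hu
                by_contra hlt
                have h10 : u ∈ Sp := mem_filter.mpr ⟨hU e (hJ he'.1) hu, not_le.mp hlt⟩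
                exact (disjoint_left.mp he'.2) hu h10
      _ = (J'.biUnion (fun e => (V.powersetCard r).filter (fun E => Ty U h e E))).card := by
          rw [card_biUnion]
          intro e _ e' _ hne
          rw [Function.onFun, disjoint_left]
          intro E hE hE'
          rw [mem_filter] at hE hE'
          apply hne
          rw [← hE.2.2.2, ← hE'.2.2.2]
      _ ≤ _ := by
          apply card_le_card
          intro E hE
          rw [mem_biUnion] at hE
          obtain ⟨e, he, hE⟩ := hE
          rw [mem_filter] at hE ⊢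
          exact ⟨hE.1, not_not.mpr ⟨e, (mem_filter.mp he).1, hE.2⟩⟩
  calc S.card * h ^ r ≤ 2 * J'.card * h ^ r := Nat.mul_le_mul_right _ h7
    _ = 2 * (J'.card * h ^ r) := by ring
    _ ≤ _ := Nat.mul_le_mul_left _ h8

open Classical in
/-- Matchings in which few types occur are rare. -/
theorem few_hits {r n : ℕ} (hr : 1 ≤ r) {S : Finset (Finset ℕ)} (hS : IsMatching r S)
    {h a : ℕ} (hh : 1 ≤ h) {U : Finset ℕ} (hU : ∀ e ∈ S, e ⊆ U) (hUc : U.card = r * S.card)
    (hS1 : 1 ≤ S.card) (hn : 2 * h * S.card ≤ n) (ham : 4 * (r * a) ≤ S.card * h) :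
    (((PM r (fun _ => True) (range (r * n)) n).filter
      (fun M => 4 * (S.filter (fun e => ∃ E ∈ M, Ty U h e E)).card < S.card)).card : ℝ) ≤
      2 ^ S.card * ((1 - ((S.card : ℝ) / 2 * h ^ r) / ((r * n : ℕ) : ℝ) ^ r) ^ a * (GG r n : ℝ)) := by
  have hsub : (PM r (fun _ => True) (range (r * n)) n).filter
      (fun M => 4 * (S.filter (fun e => ∃ E ∈ M, Ty U h e E)).card < S.card) ⊆
      (S.powerset.filter (fun J => 3 * S.card ≤ 4 * J.card)).biUnion
        (fun J => PM r (fun E => ¬ ∃ e ∈ J, Ty U h e E) (range (r * n)) n) := by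
    intro M hM
    rw [mem_filter, mem_PM] at hM
    rw [mem_biUnion]
    refine ⟨S.filter (fun e => ¬ ∃ E ∈ M, Ty U h e E), ?_, ?_⟩
    · rw [mem_filter, mem_powerset]
      refine ⟨filter_subset _ _, ?_⟩
      have h1 := Finset.card_filter_add_card_filter_not (s := S) (fun e => ∃ E ∈ M, Ty U h e E)
      have h2 := hM.2
      omega
    · rw [mem_PM]
      refine ⟨hM.1.1, hM.1.2.1, hM.1.2.2.1, ?_⟩
      rintro E hE ⟨e, he, hty⟩
      exact (mem_filter.mp he).2 ⟨E, hE, hty⟩
  have hbound : ∀ J ∈ S.powerset.filter (fun J => 3 * S.card ≤ 4 * J.card),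
      ((PM r (fun E => ¬ ∃ e ∈ J, Ty U h e E) (range (r * n)) n).card : ℝ) ≤
        (1 - ((S.card : ℝ) / 2 * h ^ r) / ((r * n : ℕ) : ℝ) ^ r) ^ a * (GG r n : ℝ) := by
    intro J hJ
    rw [mem_filter, mem_powerset] at hJ
    have hn1 : 1 ≤ n := by
      have : 1 ≤ 2 * h * S.card := Nat.mul_pos (by omega) hS1
      omega
    have hC : (0 : ℝ) < ((r * n : ℕ) : ℝ) ^ r := by
      have : 0 < r * n := Nat.mul_pos hr hn1
      positivity
    have hCn : ((r * n).choose r : ℝ) ≤ ((r * n : ℕ) : ℝ) ^ r := by
      exact_mod_cast Nat.choose_le_pow (r * n) r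
    have hbad : ∀ V ⊆ range (r * n), (range (r * n) \ V).card ≤ r * a →
        ((S.card : ℝ) / 2 * h ^ r) ≤ (((V.powersetCard r).filter
          (fun E => ¬ ¬ ∃ e ∈ J, Ty U h e E)).card : ℝ) := by
      intro V _ hV
      have hV0 : range (2 * h * U.card) ⊆ range (r * n) := by
        intro x hx
        rw [mem_range] at hx ⊢
        rw [hUc] at hx
        calc x < 2 * h * (r * S.card) := hx
          _ = r * (2 * h * S.card) := by ring
          _ ≤ _ := Nat.mul_le_mul_left _ hn
      have h1 := many_types hS hh hU hV0 hJ.1 hV ham hJ.2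
      have h2 : (S.card : ℝ) * h ^ r ≤ 2 * (((V.powersetCard r).filter
          (fun E => ¬ ¬ ∃ e ∈ J, Ty U h e E)).card : ℝ) := by exact_mod_cast h1
      linarith
    have hgC : ((S.card : ℝ) / 2 * h ^ r) ≤ ((r * n : ℕ) : ℝ) ^ r := by
      refine (hbad (range (r * n)) Subset.rfl (by simp)).trans (le_trans ?_ hCn)
      have := card_filter_le ((range (r * n)).powersetCard r)
        (fun E => ¬ ¬ ∃ e ∈ J, Ty U h e E)
      rw [card_powersetCard, card_range] at this
      exact_mod_cast this
    refine avoid hr (fun E => ¬ ∃ e ∈ J, Ty U h e E) (card_range _) (by positivity) hC hCn hgC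
      ?_ a n le_rfl rfl (range (r * n)) Subset.rfl (card_range _)
    intro V h1 h2
    convert hbad V h1 h2
  have hrho : 0 ≤ (1 - ((S.card : ℝ) / 2 * h ^ r) / ((r * n : ℕ) : ℝ) ^ r) ^ a * (GG r n : ℝ) := by
    have h1 := hbound S (by rw [mem_filter]; exact ⟨mem_powerset_self _, by omega⟩)
    exact le_trans (by positivity) h1
  calc _ ≤ (((S.powerset.filter (fun J => 3 * S.card ≤ 4 * J.card)).biUnion
        (fun J => PM r (fun E => ¬ ∃ e ∈ J, Ty U h e E) (range (r * n)) n)).card : ℝ) := by
        exact_mod_cast card_le_card hsub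
    _ ≤ ∑ J ∈ S.powerset.filter (fun J => 3 * S.card ≤ 4 * J.card),
        ((PM r (fun E => ¬ ∃ e ∈ J, Ty U h e E) (range (r * n)) n).card : ℝ) := by
        exact_mod_cast card_biUnion_le
    _ ≤ ∑ J ∈ S.powerset.filter (fun J => 3 * S.card ≤ 4 * J.card),
        ((1 - ((S.card : ℝ) / 2 * h ^ r) / ((r * n : ℕ) : ℝ) ^ r) ^ a * (GG r n : ℝ)) :=
        sum_le_sum hbound
    _ = ((S.powerset.filter (fun J => 3 * S.card ≤ 4 * J.card)).card : ℝ) *
        ((1 - ((S.card : ℝ) / 2 * h ^ r) / ((r * n : ℕ) : ℝ) ^ r) ^ a * (GG r n : ℝ)) := by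
        rw [sum_const, nsmul_eq_mul]
    _ ≤ _ := by
        apply mul_le_mul_of_nonneg_right _ hrho
        have h1 := card_filter_le S.powerset (fun J => 3 * S.card ≤ 4 * J.card)
        rw [card_powerset] at h1
        exact_mod_cast h1

open Classical in
/-- The edges of the occurring types contain a large clique. -/
theorem clique_of_hits {r : ℕ} {S : Finset (Finset ℕ)} (hS : IsMatching r S) {P : Finset ℕ}
    (hP : IsClique {P} S) {Ps : Finset (Finset ℕ)} (hPs : P ∈ Ps)
    {h : ℕ} (hh : 1 ≤ h) {U : Finset ℕ} (M : Finset (Finset ℕ)) :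
    ∃ K : Finset (Finset ℕ), K ⊆ M ∧ IsClique Ps K ∧
      K.card = (S.filter (fun e => ∃ E ∈ M, Ty U h e E)).card := by
  have hex : ∀ e ∈ S.filter (fun e => ∃ E ∈ M, Ty U h e E), ∃ E, E ∈ M ∧ Ty U h e E := by
    intro e he
    exact (mem_filter.mp he).2
  choose! f hf using hex
  refine ⟨(S.filter (fun e => ∃ E ∈ M, Ty U h e E)).image f, ?_, ?_, ?_⟩
  · intro E hE
    rw [mem_image] at hE
    obtain ⟨e, he, rfl⟩ := hE
    exact (hf e he).1
  · intro E hE E' hE' hne
    rw [mem_image] at hE hE'
    obtain ⟨e, he, rfl⟩ := hE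
    obtain ⟨e', he', rfl⟩ := hE'
    have hee : e ≠ e' := fun h => hne (by rw [h])
    obtain ⟨Q, hQ, hforms⟩ := hP e (mem_filter.mp he).1 e' (mem_filter.mp he').1 hee
    rw [mem_singleton] at hQ
    subst hQ
    exact ⟨Q, hPs, forms_type hh (hS.2 e (mem_filter.mp he).1 e' (mem_filter.mp he').1 hee)
      (hf e he).2 (hf e' he').2 hforms⟩
  · apply card_image_of_injOn
    intro e he e' he' hee
    rw [← (hf e he).2.2.2, ← (hf e' he').2.2.2, hee]

end Pool.Agent.V11326.OrdLower
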