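import Mathlib

/-!
# The linear bound for matrices avoiding a permutation matrix (Marcus–Tardos), and the
exponential bound for the number of such matrices (Klazar's argument)

Matrices are finite sets of cells `(x, y) ∈ ℕ × ℕ`.
-/

set_option autoImplicit false

namespace Pool.Agent.V11326.MarTar

open Finset

/-- The 0-1 matrix `A` does not contain the permutation matrix of `τ`. -/
def Avoids {K : ℕ} (τ : Equiv.Perm (Fin K)) (A : Finset (ℕ × ℕ)) : Prop :=
  ¬ ∃ f g : Fin K → ℕ, StrictMono f ∧ StrictMono g ∧ ∀ i, (f i, g (τ i)) ∈ A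

theorem Avoids.subset {K : ℕ} {τ : Equiv.Perm (Fin K)} {A B : Finset (ℕ × ℕ)}
    (h : Avoids τ A) (hBA : B ⊆ A) : Avoids τ B := by
  rintro ⟨f, g, hf, hg, hm⟩
  exact h ⟨f, g, hf, hg, fun i => hBA (hm i)⟩

/-- Contraction of a matrix: cells are grouped in `L × L` blocks. -/
def blk (L : ℕ) (p : ℕ × ℕ) : ℕ × ℕ := (p.1 / L, p.2 / L)

theorem Avoids.contract {K : ℕ} {τ : Equiv.Perm (Fin K)} {A : Finset (ℕ × ℕ)}
    (h : Avoids τ A) (L : ℕ) : Avoids τ (A.image (blk L)) := by
  rintro ⟨f, g, hf, hg, hm⟩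
  have hch : ∀ i, ∃ p ∈ A, blk L p = (f i, g (τ i)) := by
    intro i
    have := hm i
    rw [mem_image] at this
    exact this
  choose p hp hpb using hch
  have h1 : ∀ i, (p i).1 / L = f i := fun i => by
    have := congrArg Prod.fst (hpb i); exact this
  have h2 : ∀ i, (p i).2 / L = g (τ i) := fun i => by
    have := congrArg Prod.snd (hpb i); exact this
  refine h ⟨fun i => (p i).1, fun j => (p (τ.symm j)).2, ?_, ?_, ?_⟩
  · intro i j hij
    have h3 := hf hij
    rw [← h1 i, ← h1 j] at h3
    exact Nat.lt_of_div_lt_div h3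
  · intro i j hij
    have h3 := hg hij
    have e1 := h2 (τ.symm i)
    have e2 := h2 (τ.symm j)
    rw [Equiv.apply_symm_apply] at e1 e2
    rw [← e1, ← e2] at h3
    exact Nat.lt_of_div_lt_div h3
  · intro i
    simp only [Equiv.symm_apply_apply]
    exact hp i

/-- the columns (second coordinates) of the cells of `A` in the block `(i, j)` -/
def cols (L : ℕ) (A : Finset (ℕ × ℕ)) (i j : ℕ) : Finset ℕ :=
  (A.filter (fun p => p.1 / L = i ∧ p.2 / L = j)).image Prod.snd

/-- the rows (first coordinates) of the cells of `A` in the block `(i, j)` -/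
def rows (L : ℕ) (A : Finset (ℕ × ℕ)) (i j : ℕ) : Finset ℕ :=
  (A.filter (fun p => p.1 / L = i ∧ p.2 / L = j)).image Prod.fst

theorem wide_bound {K : ℕ} (τ : Equiv.Perm (Fin K)) {A : Finset (ℕ × ℕ)} (h : Avoids τ A)
    {L : ℕ} (hL : 0 < L) (N j : ℕ) :
    ((range N).filter (fun i => K ≤ (cols L A i j).card)).card ≤ K * 2 ^ L := by
  classical
  by_contra hcon
  push Not at hcon
  set W := (range N).filter (fun i => K ≤ (cols L A i j).card) with hW
  have hmaps : ∀ i ∈ W, cols L A i j ∈ (Finset.Ico (j * L) ((j + 1) * L)).powerset := by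
    intro i _
    rw [mem_powerset]
    intro y hy
    unfold cols at hy
    rw [mem_image] at hy
    obtain ⟨p, hp, rfl⟩ := hy
    rw [mem_filter] at hp
    rw [mem_Ico]
    have h1 := hp.2.2
    constructor
    · rw [← h1]; exact Nat.div_mul_le_self _ _
    · rw [← h1]
      exact Nat.lt_mul_of_div_lt (Nat.lt_succ_self (p.2 / L)) hL
  have hcard : ((Finset.Ico (j * L) ((j + 1) * L)).powerset).card * K < W.card := by
    rw [card_powerset, Nat.card_Ico]
    have : (j + 1) * L - j * L = L := by
      rw [Nat.add_mul, one_mul]; omega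
    rw [this, mul_comm]; exact hcon
  obtain ⟨C, _, hC⟩ := Finset.exists_lt_card_fiber_of_mul_lt_card_of_maps_to hmaps hcard
  set F := W.filter (fun i => cols L A i j = C) with hF
  obtain ⟨F', hF'F, hF'c⟩ := Finset.exists_subset_card_eq hC.le
  -- a member of the fiber shows that `C` is large
  have hCK : K ≤ C.card := by
    have hne : F.Nonempty := by
      rw [← Finset.card_pos]; omega
    obtain ⟨i0, hi0⟩ := hne
    rw [hF, mem_filter, hW, mem_filter] at hi0
    rw [← hi0.2]; exact hi0.1.2
  obtain ⟨C', hC'C, hC'c⟩ := Finset.exists_subset_card_eq hCK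
  let f0 := F'.orderEmbOfFin hF'c
  let g0 := C'.orderEmbOfFin hC'c
  have hmem : ∀ a b : Fin K, ∃ x, (x, g0 b) ∈ A ∧ x / L = f0 a := by
    intro a b
    have ha : f0 a ∈ F := hF'F (Finset.orderEmbOfFin_mem _ _ _)
    have hb : g0 b ∈ C := hC'C (Finset.orderEmbOfFin_mem _ _ _)
    rw [hF, mem_filter] at ha
    rw [← ha.2] at hb
    unfold cols at hb
    rw [mem_image] at hb
    obtain ⟨p, hp, hpb⟩ := hb
    rw [mem_filter] at hp
    refine ⟨p.1, ?_, hp.2.1⟩
    rw [← hpb]; exact hp.1
  have hch : ∀ a : Fin K, ∃ x, (x, g0 (τ a)) ∈ A ∧ x / L = f0 a := fun a => hmem a (τ a)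
  choose x hx hxd using hch
  refine h ⟨x, fun b => g0 b, ?_, ?_, hx⟩
  · intro a b hab
    have : f0 a < f0 b := f0.strictMono hab
    rw [← hxd a, ← hxd b] at this
    exact Nat.lt_of_div_lt_div this
  · intro a b hab
    exact g0.strictMono hab

theorem avoids_swap {K : ℕ} {τ : Equiv.Perm (Fin K)} {A : Finset (ℕ × ℕ)} (h : Avoids τ A) :
    Avoids τ.symm (A.image Prod.swap) := by
  rintro ⟨f, g, hf, hg, hm⟩
  refine h ⟨g, f, hg, hf, ?_⟩
  intro i
  have := hm (τ i)
  rw [Equiv.symm_apply_apply, mem_image] at this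
  obtain ⟨p, hp, hpe⟩ := this
  have h1 : p.2 = f (τ i) := congrArg Prod.fst hpe
  have h2 : p.1 = g i := congrArg Prod.snd hpe
  have : p = (g i, f (τ i)) := Prod.ext h2 h1
  rw [← this]; exact hp

theorem rows_eq (L : ℕ) (A : Finset (ℕ × ℕ)) (i j : ℕ) :
    rows L A i j = cols L (A.image Prod.swap) j i := by
  unfold rows cols
  ext y
  simp only [mem_image, mem_filter]
  constructor
  · rintro ⟨p, ⟨hp, h1, h2⟩, rfl⟩
    exact ⟨p.swap, ⟨⟨p, hp, rfl⟩, h2, h1⟩, rfl⟩
  · rintro ⟨q, ⟨⟨p, hp, rfl⟩, h1, h2⟩, rfl⟩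
    exact ⟨p, ⟨hp, h2, h1⟩, rfl⟩

theorem tall_bound {K : ℕ} (τ : Equiv.Perm (Fin K)) {A : Finset (ℕ × ℕ)} (h : Avoids τ A)
    {L : ℕ} (hL : 0 < L) (N i : ℕ) :
    ((range N).filter (fun j => K ≤ (rows L A i j).card)).card ≤ K * 2 ^ L := by
  have := wide_bound τ.symm (avoids_swap h) hL N i
  simpa only [rows_eq] using this

/-- One step of the Marcus–Tardos recursion. -/
theorem step {K : ℕ} (hK : 0 < K) (τ : Equiv.Perm (Fin K)) {A : Finset (ℕ × ℕ)}
    (h : Avoids τ A) {L : ℕ} (hL : 0 < L) {N : ℕ}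
    (hA : A.image (blk L) ⊆ range N ×ˢ range N) :
    A.card ≤ (K - 1) ^ 2 * (A.image (blk L)).card + L ^ 2 * (2 * (N * (K * 2 ^ L))) := by
  classical
  set B := A.image (blk L) with hB
  set Bw := B.filter (fun b => K ≤ (cols L A b.1 b.2).card) with hBw
  set Bt := B.filter (fun b => K ≤ (rows L A b.1 b.2).card) with hBt
  have hBwc : Bw.card ≤ N * (K * 2 ^ L) := by
    have h1 : Bw.card ≤ (K * 2 ^ L) * (range N).card := by
      refine Finset.card_le_mul_card_image_of_maps_to (f := Prod.snd) ?_ _ ?_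
      · intro b hb
        rw [hBw, mem_filter] at hb
        exact (mem_product.mp (hA hb.1)).2
      · intro j _
        refine le_trans ?_ (wide_bound τ h hL N j)
        refine Finset.card_le_card_of_injOn Prod.fst ?_ ?_
        · intro b hb
          simp only [coe_filter, Set.mem_ofPred_eq, hBw, mem_filter] at hb
          have h2 := (mem_product.mp (hA hb.1.1)).1
          simp only [coe_filter, Set.mem_ofPred_eq]
          refine ⟨h2, ?_⟩
          rw [← hb.2]; exact hb.1.2
        · intro b hb b' hb' he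
          simp only [coe_filter, Set.mem_ofPred_eq] at hb hb'
          exact Prod.ext he (by rw [hb.2, hb'.2])
    rw [card_range] at h1
    linarith [mul_comm (K * 2 ^ L) N]
  have hBtc : Bt.card ≤ N * (K * 2 ^ L) := by
    have h1 : Bt.card ≤ (K * 2 ^ L) * (range N).card := by
      refine Finset.card_le_mul_card_image_of_maps_to (f := Prod.fst) ?_ _ ?_
      · intro b hb
        rw [hBt, mem_filter] at hb
        exact (mem_product.mp (hA hb.1)).1
      · intro i _
        refine le_trans ?_ (tall_bound τ h hL N i)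
        refine Finset.card_le_card_of_injOn Prod.snd ?_ ?_
        · intro b hb
          simp only [coe_filter, Set.mem_ofPred_eq, hBt, mem_filter] at hb
          have h2 := (mem_product.mp (hA hb.1.1)).2
          simp only [coe_filter, Set.mem_ofPred_eq]
          refine ⟨h2, ?_⟩
          rw [← hb.2]; exact hb.1.2
        · intro b hb b' hb' he
          simp only [coe_filter, Set.mem_ofPred_eq] at hb hb'
          exact Prod.ext (by rw [hb.2, hb'.2]) he
    rw [card_range] at h1
    linarith [mul_comm (K * 2 ^ L) N]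
  -- fibers
  have hfib : ∀ b, (A.filter (fun p => blk L p = b)) =
      A.filter (fun p => p.1 / L = b.1 ∧ p.2 / L = b.2) := by
    intro b
    apply Finset.filter_congr
    intro p _
    unfold blk
    rw [Prod.ext_iff]
  have hsum : A.card = ∑ b ∈ B, (A.filter (fun p => blk L p = b)).card :=
    Finset.card_eq_sum_card_image (blk L) A
  have hsmall : ∀ b ∈ B, b ∉ Bw ∪ Bt →
      (A.filter (fun p => blk L p = b)).card ≤ (K - 1) ^ 2 := by
    intro b hb hnb
    rw [mem_union, not_or, hBw, hBt, mem_filter, mem_filter] at hnb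
    have h1 : (cols L A b.1 b.2).card ≤ K - 1 := by
      have : ¬ K ≤ (cols L A b.1 b.2).card := fun hc => hnb.1 ⟨hb, hc⟩
      omega
    have h2 : (rows L A b.1 b.2).card ≤ K - 1 := by
      have : ¬ K ≤ (rows L A b.1 b.2).card := fun hc => hnb.2 ⟨hb, hc⟩
      omega
    have h3 : (A.filter (fun p => blk L p = b)) ⊆ rows L A b.1 b.2 ×ˢ cols L A b.1 b.2 := by
      rw [hfib]
      intro p hp
      rw [mem_product]
      exact ⟨mem_image_of_mem _ hp, mem_image_of_mem _ hp⟩
    refine (card_le_card h3).trans ?_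
    rw [card_product, sq]
    exact Nat.mul_le_mul h2 h1
  have hbig : ∀ b, (A.filter (fun p => blk L p = b)).card ≤ L ^ 2 := by
    intro b
    have h3 : (A.filter (fun p => blk L p = b)) ⊆
        (Finset.Ico (b.1 * L) ((b.1 + 1) * L)) ×ˢ (Finset.Ico (b.2 * L) ((b.2 + 1) * L)) := by
      rw [hfib]
      intro p hp
      rw [mem_filter] at hp
      rw [mem_product, mem_Ico, mem_Ico]
      refine ⟨⟨?_, ?_⟩, ?_, ?_⟩
      · rw [← hp.2.1]; exact Nat.div_mul_le_self _ _
      · rw [← hp.2.1]; exact Nat.lt_mul_of_div_lt (Nat.lt_succ_self _) hL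
      · rw [← hp.2.2]; exact Nat.div_mul_le_self _ _
      · rw [← hp.2.2]; exact Nat.lt_mul_of_div_lt (Nat.lt_succ_self _) hL
    refine (card_le_card h3).trans ?_
    rw [card_product, Nat.card_Ico, Nat.card_Ico, sq]
    have e1 : ∀ a, (a + 1) * L - a * L = L := fun a => by rw [Nat.add_mul, one_mul]; omega
    rw [e1, e1]
  rw [hsum]
  have hle : ∀ b ∈ B, (A.filter (fun p => blk L p = b)).card ≤
      (K - 1) ^ 2 + (if b ∈ Bw ∪ Bt then L ^ 2 else 0) := by
    intro b hb
    by_cases hc : b ∈ Bw ∪ Bt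
    · rw [if_pos hc]; exact (hbig b).trans (Nat.le_add_left _ _)
    · rw [if_neg hc, add_zero]; exact hsmall b hb hc
  refine (sum_le_sum hle).trans ?_
  rw [sum_add_distrib, sum_const, smul_eq_mul, ← sum_filter, sum_const, smul_eq_mul]
  have h4 : (B.filter (fun b => b ∈ Bw ∪ Bt)).card ≤ 2 * (N * (K * 2 ^ L)) := by
    refine (card_le_card (t := Bw ∪ Bt) ?_).trans ?_
    · intro b hb
      rw [mem_filter] at hb
      exact hb.2
    · refine (card_union_le _ _).trans ?_
      omega
  have h5 := Nat.mul_le_mul_right (L ^ 2) h4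
  calc B.card * (K - 1) ^ 2 + (B.filter (fun b => b ∈ Bw ∪ Bt)).card * L ^ 2
      ≤ B.card * (K - 1) ^ 2 + 2 * (N * (K * 2 ^ L)) * L ^ 2 := Nat.add_le_add_left h5 _
    _ = _ := by ring

theorem image_blk_subset {L N A'} {A : Finset (ℕ × ℕ)} (hA' : A' = L * N)
    (hA : A ⊆ range A' ×ˢ range A') : A.image (blk L) ⊆ range N ×ˢ range N := by
  intro b hb
  rw [mem_image] at hb
  obtain ⟨p, hp, rfl⟩ := hb
  have h1 := mem_product.mp (hA hp)
  rw [mem_range, mem_range] at h1
  rw [mem_product, mem_range, mem_range]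
  unfold blk
  constructor
  · exact Nat.div_lt_of_lt_mul (by rw [← hA']; exact h1.1)
  · exact Nat.div_lt_of_lt_mul (by rw [← hA']; exact h1.2)

/-- **Marcus–Tardos** along powers of two, for patterns whose size is a power of two. -/
theorem linear_bound {K κ : ℕ} (hKdef : K = 2 ^ κ) (τ : Equiv.Perm (Fin K)) :
    ∃ c : ℕ, 1 ≤ c ∧ ∀ t : ℕ, ∀ A : Finset (ℕ × ℕ), A ⊆ range (2 ^ t) ×ˢ range (2 ^ t) →
      Avoids τ A → A.card ≤ c * 2 ^ t := by
  have hK : 0 < K := by rw [hKdef]; positivity
  set L := 2 ^ (2 * κ) with hLdef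
  have hL : 0 < L := by positivity
  have hLK : L = K ^ 2 := by rw [hLdef, hKdef, mul_comm, pow_mul]
  set Dd := L ^ 2 * (2 * (K * 2 ^ L)) with hDd
  refine ⟨L + Dd, by omega, ?_⟩
  intro t
  induction t using Nat.strong_induction_on with
  | _ t ih =>
    intro A hA hav
    by_cases ht : t < 2 * κ
    · -- trivial bound
      have h1 : A.card ≤ 2 ^ t * 2 ^ t := by
        refine (card_le_card hA).trans ?_
        rw [card_product, card_range]
      refine h1.trans ?_
      apply Nat.mul_le_mul_right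
      have : 2 ^ t ≤ 2 ^ (2 * κ) := Nat.pow_le_pow_right (by norm_num) ht.le
      omega
    · push Not at ht
      by_cases hκ : κ = 0
      · -- K = 1 : nothing is allowed
        have hA0 : A = ∅ := by
          by_contra hne
          obtain ⟨p, hp⟩ := Finset.nonempty_iff_ne_empty.mpr hne
          subst hκ
          refine hav ⟨fun _ => p.1, fun _ => p.2, ?_, ?_, fun i => hp⟩
          · intro i j hij
            have hi := i.2; have hj := j.2
            rw [pow_zero] at hKdef
            have : (i : ℕ) < j := hij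
            omega
          · intro i j hij
            have hi := i.2; have hj := j.2
            rw [pow_zero] at hKdef
            have : (i : ℕ) < j := hij
            omega
        rw [hA0, card_empty]; exact Nat.zero_le _
      · obtain ⟨s, hs⟩ := Nat.exists_eq_add_of_le ht
        have hst : s < t := by omega
        have h2t : 2 ^ t = L * 2 ^ s := by rw [hs, pow_add]
        have hB := image_blk_subset h2t hA
        have h1 := step hK τ hav hL hB
        have h2 := ih s hst _ hB (hav.contract L)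
        -- arithmetic
        obtain ⟨k, hk⟩ : ∃ k, K = k + 1 := ⟨K - 1, by omega⟩
        have hk' : K - 1 = k := by omega
        rw [hk'] at h1
        have hLk : L = (k + 1) ^ 2 := by rw [hLK, hk]
        have h3 : A.card ≤ k ^ 2 * ((L + Dd) * 2 ^ s) + Dd * 2 ^ s := by
          calc A.card ≤ k ^ 2 * (A.image (blk L)).card + L ^ 2 * (2 * (2 ^ s * (K * 2 ^ L))) := h1
            _ ≤ k ^ 2 * ((L + Dd) * 2 ^ s) + L ^ 2 * (2 * (2 ^ s * (K * 2 ^ L))) :=
                Nat.add_le_add_right (Nat.mul_le_mul_left _ h2) _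
            _ = _ := by rw [hDd]; ring
        refine h3.trans ?_
        rw [h2t]
        have h4 : k ^ 2 * (L + Dd) + Dd ≤ (L + Dd) * L := by
          rw [hLk]
          nlinarith [Nat.zero_le Dd, Nat.zero_le k]
        calc k ^ 2 * ((L + Dd) * 2 ^ s) + Dd * 2 ^ s = (k ^ 2 * (L + Dd) + Dd) * 2 ^ s := by ring
          _ ≤ ((L + Dd) * L) * 2 ^ s := Nat.mul_le_mul_right _ h4
          _ = _ := by ring

open Classical in
/-- **Klazar's argument**: exponentially many `2^t × 2^t` matrices avoid `τ`. -/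
theorem count_bound {K κ : ℕ} (hKdef : K = 2 ^ κ) (τ : Equiv.Perm (Fin K)) :
    ∃ c : ℕ, ∀ t : ℕ,
      ((range (2 ^ t) ×ˢ range (2 ^ t)).powerset.filter (Avoids τ)).card ≤ 16 ^ (c * 2 ^ t) := by
  obtain ⟨c, hc1, hc⟩ := linear_bound hKdef τ
  refine ⟨c, ?_⟩
  intro t
  induction t with
  | zero =>
    refine (card_filter_le _ _).trans ?_
    rw [card_powerset, card_product, card_range, pow_zero, mul_one, mul_one, pow_one]
    calc 2 ≤ 16 ^ 1 := by norm_num
      _ ≤ 16 ^ c := Nat.pow_le_pow_right (by norm_num) hc1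
  | succ t ih =>
    set T1 := (range (2 ^ (t + 1)) ×ˢ range (2 ^ (t + 1))).powerset.filter (Avoids τ) with hT1
    set T0 := (range (2 ^ t) ×ˢ range (2 ^ t)).powerset.filter (Avoids τ) with hT0
    have h1 : T1.card ≤ 16 ^ (c * 2 ^ t) * T0.card := by
      refine Finset.card_le_mul_card_image_of_maps_to (f := fun A => A.image (blk 2)) ?_ _ ?_
      · intro A hA
        rw [hT1, mem_filter, mem_powerset] at hA
        rw [hT0, mem_filter, mem_powerset]
        exact ⟨image_blk_subset (by rw [pow_succ, mul_comm]) hA.1,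
          hA.2.contract 2⟩
      · intro B hB
        rw [hT0, mem_filter, mem_powerset] at hB
        have hBc := hc t B hB.1 hB.2
        have hsub : T1.filter (fun A => A.image (blk 2) = B) ⊆
            (B.biUnion (fun b => ({2 * b.1, 2 * b.1 + 1} : Finset ℕ) ×ˢ
              ({2 * b.2, 2 * b.2 + 1} : Finset ℕ))).powerset := by
          intro A hA
          rw [mem_filter] at hA
          rw [mem_powerset]
          intro p hp
          rw [mem_biUnion]
          refine ⟨blk 2 p, ?_, ?_⟩
          · rw [← hA.2]; exact mem_image_of_mem _ hp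
          · unfold blk
            rw [mem_product]
            simp only [mem_insert, mem_singleton]
            omega
        refine (card_le_card hsub).trans ?_
        rw [card_powerset]
        have h4 : (B.biUnion (fun b => ({2 * b.1, 2 * b.1 + 1} : Finset ℕ) ×ˢ
              ({2 * b.2, 2 * b.2 + 1} : Finset ℕ))).card ≤ B.card * 4 := by
          refine Finset.card_biUnion_le_card_mul _ _ _ ?_
          intro b _
          rw [card_product]
          have e1 : ∀ m : ℕ, ({2 * m, 2 * m + 1} : Finset ℕ).card ≤ 2 := fun m => card_le_two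
          calc _ ≤ 2 * 2 := Nat.mul_le_mul (e1 _) (e1 _)
            _ = 4 := by norm_num
        calc 2 ^ (B.biUnion (fun b => ({2 * b.1, 2 * b.1 + 1} : Finset ℕ) ×ˢ
              ({2 * b.2, 2 * b.2 + 1} : Finset ℕ))).card ≤ 2 ^ (B.card * 4) :=
                Nat.pow_le_pow_right (by norm_num) h4
          _ = 16 ^ B.card := by rw [mul_comm, pow_mul]; norm_num
          _ ≤ 16 ^ (c * 2 ^ t) := Nat.pow_le_pow_right (by norm_num) hBc
    refine h1.trans ?_
    calc 16 ^ (c * 2 ^ t) * T0.card ≤ 16 ^ (c * 2 ^ t) * 16 ^ (c * 2 ^ t) :=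
          Nat.mul_le_mul_left _ ih
      _ = 16 ^ (c * 2 ^ (t + 1)) := by rw [← pow_add]; congr 1; ring

end Pool.Agent.V11326.MarTar
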