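import Mathlib
import Pool.Agent.V11326.OrdPat

/-!
# Collectable patterns split into blocks at their balanced points; large grids are impossible
-/

set_option autoImplicit false

namespace Pool.Agent.V11326.OrdPat

open Finset

theorem NN_split (P : Finset ℕ) {a b : ℕ} (hab : a ≤ b) :
    NN P b = NN P a + (P.filter (fun x => a ≤ x ∧ x < b)).card := by
  unfold NN
  rw [← card_union_of_disjoint]
  · congr 1
    ext x
    simp only [mem_filter, mem_union]
    constructor
    · rintro ⟨h1, h2⟩
      rcases Nat.lt_or_ge x a with h | h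
      · exact Or.inl ⟨h1, h⟩
      · exact Or.inr ⟨h1, h, h2⟩
    · rintro (⟨h1, h2⟩ | ⟨h1, _, h2⟩)
      · exact ⟨h1, h2.trans_le hab⟩
      · exact ⟨h1, h2⟩
  · rw [disjoint_left]
    intro x hx hx'
    rw [mem_filter] at hx hx'
    omega

theorem seg_le (P : Finset ℕ) (a b : ℕ) :
    (P.filter (fun x => a ≤ x ∧ x < b)).card ≤ b - a := by
  rw [← Nat.card_Ico]
  apply card_le_card
  intro x hx
  rw [mem_filter] at hx
  rw [mem_Ico]; exact hx.2

theorem seg_full {P : Finset ℕ} {a b : ℕ} (h : b - a ≤ (P.filter (fun x => a ≤ x ∧ x < b)).card)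
    {i : ℕ} (h1 : a ≤ i) (h2 : i < b) : i ∈ P := by
  have hsub : P.filter (fun x => a ≤ x ∧ x < b) ⊆ Ico a b := by
    intro x hx
    rw [mem_filter] at hx
    rw [mem_Ico]; exact hx.2
  have heq := eq_of_subset_of_card_le hsub (by rw [Nat.card_Ico]; exact h)
  have : i ∈ P.filter (fun x => a ≤ x ∧ x < b) := by
    rw [heq, mem_Ico]; exact ⟨h1, h2⟩
  exact (mem_filter.mp this).1

theorem seg_empty {P : Finset ℕ} {a b : ℕ} (h : (P.filter (fun x => a ≤ x ∧ x < b)).card = 0)
    {i : ℕ} (h1 : a ≤ i) (h2 : i < b) : i ∉ P := by
  intro hi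
  rw [card_eq_zero] at h
  have : i ∈ P.filter (fun x => a ≤ x ∧ x < b) := mem_filter.mpr ⟨hi, h1, h2⟩
  rw [h] at this
  exact notMem_empty _ this

theorem exists_sorted3 {r : ℕ} (hr : 1 ≤ r) {S : Finset (Finset ℕ)} (hS : IsMatching r S)
    (h3 : S.card = 3) : ∃ e ∈ S, ∃ f ∈ S, ∃ g ∈ S, v e 0 < v f 0 ∧ v f 0 < v g 0 := by
  obtain ⟨x, y, z, hxy, hxz, hyz, rfl⟩ := card_eq_three.mp h3
  have hx : x ∈ ({x, y, z} : Finset (Finset ℕ)) := by simp
  have hy : y ∈ ({x, y, z} : Finset (Finset ℕ)) := by simp
  have hz : z ∈ ({x, y, z} : Finset (Finset ℕ)) := by simp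
  have cx := hS.1 x hx
  have cy := hS.1 y hy
  have cz := hS.1 z hz
  have n1 := v_ne (hS.2 x hx y hy hxy) (i := 0) (j := 0) (by omega) (by omega)
  have n2 := v_ne (hS.2 x hx z hz hxz) (i := 0) (j := 0) (by omega) (by omega)
  have n3 := v_ne (hS.2 y hy z hz hyz) (i := 0) (j := 0) (by omega) (by omega)
  rcases lt_or_gt_of_ne n1 with h1 | h1 <;> rcases lt_or_gt_of_ne n2 with h2 | h2 <;>
    rcases lt_or_gt_of_ne n3 with h4 | h4
  · exact ⟨x, hx, y, hy, z, hz, h1, h4⟩
  · exact ⟨x, hx, z, hz, y, hy, h2, h4⟩
  · omega
  · exact ⟨z, hz, x, hx, y, hy, h2, h1⟩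
  · exact ⟨y, hy, x, hx, z, hz, h1, h2⟩
  · omega
  · exact ⟨y, hy, z, hz, x, hx, h4, h2⟩
  · exact ⟨z, hz, y, hy, x, hx, h4, h1⟩

/-- A collectable pattern splits into blocks at its balanced points. -/
theorem coll_splits {r : ℕ} (hr : 1 ≤ r) {P : Finset ℕ} (hP : IsPattern r P)
    (hc : Collectable r P) {D : Finset ℕ} (hD : ∀ d, d ∈ D ↔ d ≤ r ∧ Bal P d) :
    SplitsAt r P D := by
  obtain ⟨S, hS, hS3, hcl⟩ := hc 3
  obtain ⟨e, he, f, hf, g, hg, hef, hfg⟩ := exists_sorted3 hr hS hS3
  have neq : ∀ {a b : Finset ℕ}, v a 0 < v b 0 → a ≠ b := by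
    intro a b h hab
    rw [hab] at h; exact lt_irrefl _ h
  have key : ∀ {a b : Finset ℕ}, a ∈ S → b ∈ S → v a 0 < v b 0 →
      (∀ i j, i < r → j < r → ((v b j < v a i ↔ ¬ (i < NN P (i + j + 1))) ∧
        (v a i < v b j ↔ i < NN P (i + j + 1)))) := by
    intro a b ha hb hab i j hi hj
    have ca := hS.1 a ha
    have cb := hS.1 b hb
    have hd := hS.2 a ha b hb (neq hab)
    obtain ⟨P', hP', hfo⟩ := hcl a ha b hb (neq hab)
    rw [mem_singleton] at hP'
    subst hP'
    have hp := pos_of_forms (by omega) (by omega) hfo hab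
    have h1 := lt_iff hd (i := i) (j := j) (by omega) (by omega)
    have h2 := lt_iff' hd (i := i) (j := j) (by omega) (by omega)
    rw [hp] at h1 h2
    exact ⟨h1, h2⟩
  have kef := key he hf hef
  have kfg := key hf hg hfg
  have keg := key he hg (hef.trans hfg)
  set T : ℕ → ℕ → Prop := fun i j => i < NN P (i + j + 1) with hT
  have ce := hS.1 e he
  have cf := hS.1 f hf
  have cg := hS.1 g hg
  -- monotonicity of `T`
  have Tmono : ∀ i j i' j', i < r → j' < r → i' ≤ i → j ≤ j' → T i j → T i' j' := by
    intro i j i' j' hi hj' hii hjj hT1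
    have h1 := (kef i j hi (by omega)).2.mpr hT1
    refine (kef i' j' (by omega) hj').2.mp ?_
    have h2 : v e i' ≤ v e i := by
      rcases Nat.lt_or_ge i' i with h | h
      · exact (v_strict h (by omega)).le
      · have : i' = i := by omega
        rw [this]
    have h3 : v f j ≤ v f j' := by
      rcases Nat.lt_or_ge j j' with h | h
      · exact (v_strict h (by omega)).le
      · have : j' = j := by omega
        rw [this]
    omega
  have hbal : ∀ m, 1 ≤ m → m < r → (Bal P m ↔ (T (m - 1) m ∧ ¬ T m (m - 1))) := by
    intro m hm hmr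
    have hd := hS.2 e he f hf (neq hef)
    have h1 := bal_iff ce cf hd hm hmr
    obtain ⟨P', hP', hfo⟩ := hcl e he f hf (neq hef)
    rw [mem_singleton] at hP'
    subst hP'
    rw [pos_of_forms (by omega) (by omega) hfo hef] at h1
    rw [h1, (kef (m - 1) m (by omega) (by omega)).2, (kef m (m - 1) (by omega) (by omega)).1]
  refine ⟨?_, ?_, ?_, ?_⟩
  · rw [hD]; exact ⟨by omega, bal_zero P⟩
  · rw [hD]; exact ⟨le_rfl, bal_top hP⟩
  · intro d hd
    rw [hD] at hd
    rw [mem_range]; omega
  · intro d hd d' hd' hdd hcons
    rw [hD] at hd hd'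
    have hnb : ∀ m, d < m → m < d' → ¬ (T (m - 1) m ∧ ¬ T m (m - 1)) := by
      intro m hm1 hm2 hb
      have : m ∈ D := by
        rw [hD]
        exact ⟨by omega, (hbal m (by omega) (by omega)).mpr hb⟩
      rcases hcons m this with h | h <;> omega
    have hBd : NN P (2 * d) = d := hd.2
    have hBd' : NN P (2 * d') = d' := hd'.2
    have hs1 := NN_split P (a := 2 * d) (b := d + d') (by omega)
    have hs2 := NN_split P (a := d + d') (b := 2 * d') (by omega)
    have hl1 := seg_le P (2 * d) (d + d')
    have hl2 := seg_le P (d + d') (2 * d')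
    by_cases hfirst : T d d
    · left
      have hind : ∀ m, d ≤ m → m < d' → T m m ∧ (d < m → T m (m - 1)) := by
        intro m hm
        induction m, hm using Nat.le_induction with
        | base => intro _; exact ⟨hfirst, fun h => absurd h (lt_irrefl _)⟩
        | succ m hm ih =>
          intro hmd
          have h1 := (ih (by omega)).1
          have h2 : T m (m + 1) := Tmono m m m (m + 1) (by omega) (by omega) le_rfl (by omega) h1
          have h3 := hnb (m + 1) (by omega) hmd
          rw [Nat.add_sub_cancel] at h3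
          have h4 : T (m + 1) m := by
            by_contra hc4
            exact h3 ⟨h2, hc4⟩
          refine ⟨Tmono (m + 1) m (m + 1) (m + 1) (by omega) (by omega) le_rfl (by omega) h4, ?_⟩
          intro _
          rw [Nat.add_sub_cancel]; exact h4
      have hlast : T (d' - 1) d := by
        by_contra hcon
        have hex : ∃ s, d < s ∧ ¬ T s d := by
          refine ⟨d' - 1, ?_, hcon⟩
          by_contra hle
          have : d' - 1 = d := by omega
          rw [this] at hcon
          exact hcon hfirst
        classical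
        have hs := Nat.find_spec hex
        set s := Nat.find hex with hsdef
        have hsle : s ≤ d' - 1 := by
          apply Nat.find_min' hex
          refine ⟨?_, hcon⟩
          by_contra hle
          have : d' - 1 = d := by omega
          rw [this] at hcon
          exact hcon hfirst
        have hprev : T (s - 1) d := by
          rcases Nat.lt_or_ge d (s - 1) with h | h
          · have := Nat.find_min hex (m := s - 1) (by omega)
            by_contra hc5
            exact this ⟨h, hc5⟩
          · have : s - 1 = d := by omega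
            rw [this]; exact hfirst
        have h1 := (hind s (by omega) (by omega)).2 hs.1
        have c1 := (kef s (s - 1) (by omega) (by omega)).2.mpr h1
        have c2 := (kfg (s - 1) d (by omega) (by omega)).2.mpr hprev
        have c3 := (keg s d (by omega) (by omega)).1.mpr hs.2
        omega
      have hN : d' ≤ NN P (d + d') := by
        have h1 : d' - 1 < NN P (d' - 1 + d + 1) := hlast
        have e1 : d' - 1 + d + 1 = d + d' := by omega
        rw [e1] at h1
        omega
      intro i hi1 hi2
      constructor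
      · intro hiP
        by_contra hge
        push Not at hge
        exact seg_empty (a := d + d') (b := 2 * d') (by omega) hge hi2 hiP
      · intro hlt
        exact seg_full (a := 2 * d) (b := d + d') (by omega) hi1 hlt
    · right
      have hind : ∀ m, d ≤ m → m < d' → ¬ T m m ∧ (d < m → ¬ T (m - 1) m) := by
        intro m hm
        induction m, hm using Nat.le_induction with
        | base => intro _; exact ⟨hfirst, fun h => absurd h (lt_irrefl _)⟩
        | succ m hm ih =>
          intro hmd
          have h1 := (ih (by omega)).1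
          have h2 : ¬ T (m + 1) m := fun hc2 =>
            h1 (Tmono (m + 1) m m m (by omega) (by omega) (by omega) le_rfl hc2)
          have h3 := hnb (m + 1) (by omega) hmd
          rw [Nat.add_sub_cancel] at h3
          have h4 : ¬ T m (m + 1) := fun hc4 => h3 ⟨hc4, h2⟩
          refine ⟨fun hc5 => h4 (Tmono (m + 1) (m + 1) m (m + 1) (by omega) (by omega)
            (by omega) le_rfl hc5), ?_⟩
          intro _
          rw [Nat.add_sub_cancel]; exact h4
      have hlast : ¬ T d (d' - 1) := by
        intro hcon
        have hdlt : d < d' - 1 := by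
          by_contra hle
          have : d' - 1 = d := by omega
          rw [this] at hcon
          exact hfirst hcon
        have hex : ∃ s, d < s ∧ T d s := ⟨d' - 1, hdlt, hcon⟩
        classical
        have hs := Nat.find_spec hex
        set s := Nat.find hex with hsdef
        have hsle : s ≤ d' - 1 := Nat.find_min' hex ⟨hdlt, hcon⟩
        have hprev : ¬ T d (s - 1) := by
          rcases Nat.lt_or_ge d (s - 1) with h | h
          · have := Nat.find_min hex (m := s - 1) (by omega)
            exact fun hc5 => this ⟨h, hc5⟩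
          · have : s - 1 = d := by omega
            rw [this]; exact hfirst
        have h1 := (hind s (by omega) (by omega)).2 hs.1
        have c1 := (kfg (s - 1) s (by omega) (by omega)).1.mpr h1
        have c2 := (kef d (s - 1) (by omega) (by omega)).1.mpr hprev
        have c3 := (keg d s (by omega) (by omega)).2.mpr hs.2
        omega
      have hN : NN P (d + d') ≤ d := by
        have h1 : ¬ (d < NN P (d + (d' - 1) + 1)) := hlast
        have e1 : d + (d' - 1) + 1 = d + d' := by omega
        rw [e1] at h1
        omega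
      intro i hi1 hi2
      constructor
      · intro hiP
        by_contra hge
        push Not at hge
        exact seg_empty (a := 2 * d) (b := d + d') (by omega) hi1 hge hiP
      · intro hge
        exact seg_full (a := d + d') (b := 2 * d') (by omega) hge hi2

/-- Distinct collectable patterns which are not harmonious are told apart by a balanced point. -/
theorem exists_gap {r : ℕ} (hr : 1 ≤ r) {P Q : Finset ℕ} (hP : IsPattern r P)
    (hQ : IsPattern r Q) (hPQ : P ≠ Q) (hcP : Collectable r P) (hcQ : Collectable r Q)
    (hn : ¬ Harmonious r P Q) :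
    ∃ g, 1 ≤ g ∧ g < r ∧ ¬ (Bal P g ↔ Bal Q g) := by
  classical
  by_contra hcon
  push Not at hcon
  apply hn
  refine ⟨hPQ, hcP, hcQ, (range (r + 1)).filter (Bal P), ?_, ?_⟩
  · apply coll_splits hr hP hcP
    intro d
    rw [mem_filter, mem_range]
    constructor
    · rintro ⟨h1, h2⟩; exact ⟨by omega, h2⟩
    · rintro ⟨h1, h2⟩; exact ⟨by omega, h2⟩
  · apply coll_splits hr hQ hcQ
    intro d
    rw [mem_filter, mem_range]
    have hiff : d ≤ r → (Bal P d ↔ Bal Q d) := by
      intro hd
      rcases Nat.eq_zero_or_pos d with h0 | h0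
      · subst h0
        exact ⟨fun _ => bal_zero Q, fun _ => bal_zero P⟩
      · rcases Nat.lt_or_ge d r with h1 | h1
        · exact hcon d h0 h1
        · have : d = r := by omega
          subst this
          exact ⟨fun _ => bal_top hQ, fun _ => bal_top hP⟩
    constructor
    · rintro ⟨h1, h2⟩
      exact ⟨by omega, (hiff (by omega)).mp h2⟩
    · rintro ⟨h1, h2⟩
      exact ⟨by omega, (hiff h1).mpr h2⟩

end Pool.Agent.V11326.OrdPat
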