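import Mathlib
import Pool.Agent.V11326.OrdPat2

/-!
# Large grid configurations are impossible in cliques over pairwise non-harmonious patterns
-/

set_option autoImplicit false

namespace Pool.Agent.V11326.OrdPat

open Finset

theorem clique_of_seq {r M m : ℕ} (hr : 1 ≤ r) (hm : m ≤ M) {P : Finset ℕ} (hP0 : 0 ∈ P)
    (h : Fin M → Finset ℕ) (hc : ∀ a, (h a).card = r)
    (hd : ∀ a b, a < b → Disjoint (h a) (h b)) (hp : ∀ a b, a < b → pos (h a) (h b) = P) :
    ∃ S : Finset (Finset ℕ), IsMatching r S ∧ S.card = m ∧ IsClique {P} S := by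
  classical
  have hne : ∀ a b, a < b → h a ≠ h b := by
    intro a b hab he
    have h1 := hd a b hab
    rw [he, disjoint_self] at h1
    have h2 := hc b
    have h3 : (h b).card = 0 := by
      rw [card_eq_zero]; exact h1
    omega
  have hinj : Function.Injective h := by
    intro a b he
    rcases lt_trichotomy a b with h1 | h1 | h1
    · exact absurd he (hne a b h1)
    · exact h1
    · exact absurd he.symm (hne b a h1)
  have hcard : (univ.image h).card = M := by
    rw [card_image_of_injective _ hinj, card_univ, Fintype.card_fin]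
  obtain ⟨S, hS, hSc⟩ := Finset.exists_subset_card_eq (s := univ.image h) (n := m) (by omega)
  refine ⟨S, ⟨?_, ?_⟩, hSc, ?_⟩
  · intro E hE
    obtain ⟨a, _, rfl⟩ := mem_image.mp (hS hE)
    exact hc a
  · intro E hE F hF hEF
    obtain ⟨a, _, rfl⟩ := mem_image.mp (hS hE)
    obtain ⟨b, _, rfl⟩ := mem_image.mp (hS hF)
    rcases lt_trichotomy a b with h1 | h1 | h1
    · exact hd a b h1
    · exact absurd (by rw [h1]) hEF
    · exact (hd b a h1).symm
  · intro E hE F hF hEF
    obtain ⟨a, _, rfl⟩ := mem_image.mp (hS hE)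
    obtain ⟨b, _, rfl⟩ := mem_image.mp (hS hF)
    refine ⟨P, mem_singleton_self _, ?_⟩
    rcases lt_trichotomy a b with h1 | h1 | h1
    · left
      rw [hp a b h1]; exact ⟨hP0, rfl⟩
    · exact absurd (by rw [h1]) hEF
    · right
      rw [hp b a h1]; exact ⟨hP0, rfl⟩

/-- colours: the patterns of `Ps`, and `∅` as a default value -/
abbrev Col (Ps : Finset (Finset ℕ)) : Type := {Q : Finset ℕ // Q ∈ insert ∅ Ps}

theorem grid_false {r : ℕ} (hr : 1 ≤ r) (Ps : Finset (Finset ℕ))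
    (hpat : ∀ P ∈ Ps, IsPattern r P) (hnh : ∀ P ∈ Ps, ∀ Q ∈ Ps, ¬ Harmonious r P Q) :
    ∃ N : ℕ, ∀ i < r, ∀ e : ℕ → ℕ → Finset ℕ,
      (∀ x < N, ∀ y < N, (e x y).card = r) →
      (∀ x < N, ∀ y < N, ∀ x' < N, ∀ y' < N, (x, y) ≠ (x', y') →
        Disjoint (e x y) (e x' y') ∧ ∃ P ∈ Ps, Forms P (e x y) (e x' y')) →
      (∀ x < N, ∀ y < N, ∀ x' < N, ∀ y' < N, x < x' → v (e x y) 0 < v (e x' y') 0) →
      (∀ x < N, ∀ y < N, ∀ x' < N, ∀ y' < N, y < y' → v (e x y) i < v (e x' y') i) →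
      False := by
  classical
  have hm0 : ∀ P : Finset ℕ, ∃ m : ℕ, ¬ Collectable r P →
      ∀ S : Finset (Finset ℕ), IsMatching r S → S.card = m → ¬ IsClique {P} S := by
    intro P
    by_cases hc : Collectable r P
    · exact ⟨0, fun h => absurd hc h⟩
    · unfold Collectable at hc
      push Not at hc
      obtain ⟨m, hm⟩ := hc
      exact ⟨m, fun _ S hS hSc hcl => hm S hS hSc hcl⟩
  choose m0 hm0 using hm0
  set M := 4 + ∑ P ∈ Ps, m0 P with hM
  obtain ⟨N, hN⟩ := ProdRamsey.prod_ramsey (C := Col Ps × Col Ps) M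
  refine ⟨N, ?_⟩
  intro i hi e hcard hpair h0 hi0
  let col : Finset ℕ → Col Ps := fun Q => if h : Q ∈ insert ∅ Ps then ⟨Q, h⟩ else ⟨∅, mem_insert_self _ _⟩
  have hcol : ∀ Q ∈ Ps, (col Q).1 = Q := by
    intro Q hQ
    have : Q ∈ insert ∅ Ps := mem_insert_of_mem hQ
    simp only [col, dif_pos this]
  obtain ⟨f, g, hf, hg, hfN, hgN, c, hc⟩ := hN (fun x x' y y' =>
    (col (pos (e x y) (e x' y')), col (pos (e x y') (e x' y))))
  have hposmem : ∀ x < N, ∀ y < N, ∀ x' < N, ∀ y' < N, x < x' →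
      pos (e x y) (e x' y') ∈ Ps := by
    intro x hx y hy x' hx' y' hy' hxx
    have hne : (x, y) ≠ (x', y') := by
      intro he
      have := congrArg Prod.fst he
      simp only at this
      omega
    obtain ⟨_, P, hP, hfo⟩ := hpair x hx y hy x' hx' y' hy' hne
    have c1 := hcard x hx y hy
    have c2 := hcard x' hx' y' hy'
    have := pos_of_forms (by omega) (by omega) hfo (h0 x hx y hy x' hx' y' hy' hxx)
    rw [this]; exact hP
  set P : Finset ℕ := c.1.1 with hPdef
  set Q : Finset ℕ := c.2.1 with hQdef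
  have HP : ∀ i j k l, i < j → k < l → pos (e (f i) (g k)) (e (f j) (g l)) = P := by
    intro i j k l hij hkl
    have h1 := hc i j k l hij hkl
    have h2 := congrArg (fun z : Col Ps × Col Ps => z.1.1) h1
    simp only at h2
    rw [hcol _ (hposmem _ (hfN i) _ (hgN k) _ (hfN j) _ (hgN l) (hf hij))] at h2
    exact h2
  have HQ : ∀ i j k l, i < j → k < l → pos (e (f i) (g l)) (e (f j) (g k)) = Q := by
    intro i j k l hij hkl
    have h1 := hc i j k l hij hkl
    have h2 := congrArg (fun z : Col Ps × Col Ps => z.2.1) h1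
    simp only at h2
    rw [hcol _ (hposmem _ (hfN i) _ (hgN l) _ (hfN j) _ (hgN k) (hf hij))] at h2
    exact h2
  have hM4 : 4 ≤ M := by omega
  let z : ∀ a : ℕ, a < 4 → Fin M := fun a ha => ⟨a, by omega⟩
  have zlt : ∀ a b (ha : a < 4) (hb : b < 4), a < b → z a ha < z b hb := fun a b ha hb h => h
  have h01 := zlt 0 1 (by omega) (by omega) (by omega)
  have h02 := zlt 0 2 (by omega) (by omega) (by omega)
  have h03 := zlt 0 3 (by omega) (by omega) (by omega)
  have h12 := zlt 1 2 (by omega) (by omega) (by omega)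
  have h13 := zlt 1 3 (by omega) (by omega) (by omega)
  have h23 := zlt 2 3 (by omega) (by omega) (by omega)
  set a0 := z 0 (by omega)
  set a1 := z 1 (by omega)
  set a2 := z 2 (by omega)
  set a3 := z 3 (by omega)
  have hPm : P ∈ Ps := by
    rw [← HP _ _ _ _ h01 h01]
    exact hposmem _ (hfN _) _ (hgN _) _ (hfN _) _ (hgN _) (hf h01)
  have hQm : Q ∈ Ps := by
    rw [← HQ _ _ _ _ h01 h01]
    exact hposmem _ (hfN _) _ (hgN _) _ (hfN _) _ (hgN _) (hf h01)
  have hdisj : ∀ i k j l, i < j → Disjoint (e (f i) (g k)) (e (f j) (g l)) := by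
    intro i k j l hij
    refine (hpair _ (hfN i) _ (hgN k) _ (hfN j) _ (hgN l) ?_).1
    intro he
    have h1 := congrArg Prod.fst he
    have h2 := hf hij
    simp only at h1
    omega
  have hcd : ∀ i k, (e (f i) (g k)).card = r := fun i k => hcard _ (hfN i) _ (hgN k)
  have hPQ : P ≠ Q := by
    intro hPQ
    have e1 := lt_iff' (hdisj a0 a0 a1 a1 h01) (i := i) (j := i) (by rw [hcd]; exact hi)
      (by rw [hcd]; exact hi)
    have e2 := lt_iff' (hdisj a0 a1 a1 a0 h01) (i := i) (j := i) (by rw [hcd]; exact hi)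
      (by rw [hcd]; exact hi)
    rw [HP _ _ _ _ h01 h01] at e1
    rw [HQ _ _ _ _ h01 h01, ← hPQ] at e2
    have e3 := hi0 _ (hfN a0) _ (hgN a0) _ (hfN a1) _ (hgN a1) (hg h01)
    have e4 := hi0 _ (hfN a1) _ (hgN a0) _ (hfN a0) _ (hgN a1) (hg h01)
    have e5 := e2.mpr (e1.mp e3)
    omega
  have hm0le : ∀ R ∈ Ps, m0 R ≤ M := by
    intro R hR
    have := Finset.single_le_sum (f := m0) (fun _ _ => Nat.zero_le _) hR
    omega
  have hcP : Collectable r P := by
    by_contra hnc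
    obtain ⟨S, hS, hSc, hcl⟩ := clique_of_seq hr (hm0le P hPm) (hpat P hPm).2.2
      (fun a => e (f a) (g a)) (fun a => hcd a a) (fun a b hab => hdisj a a b b hab)
      (fun a b hab => HP a b a b hab hab)
    exact hm0 P hnc S hS hSc hcl
  have hcQ : Collectable r Q := by
    by_contra hnc
    obtain ⟨S, hS, hSc, hcl⟩ := clique_of_seq hr (hm0le Q hQm) (hpat Q hQm).2.2
      (fun a => e (f a) (g (Fin.rev a))) (fun a => hcd a _) (fun a b hab => hdisj a _ b _ hab)
      (fun a b hab => HQ a b (Fin.rev b) (Fin.rev a) hab (Fin.rev_lt_rev.mpr hab))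
    exact hm0 Q hnc S hS hSc hcl
  obtain ⟨w, hw1, hwr, hbal⟩ := exists_gap hr (hpat P hPm) (hpat Q hQm) hPQ hcP hcQ
    (hnh P hPm Q hQm)
  have HPb : ∀ i j k l, i < j → k < l → (Bal P w ↔
      (v (e (f i) (g k)) (w - 1) < v (e (f j) (g l)) w ∧
        v (e (f j) (g l)) (w - 1) < v (e (f i) (g k)) w)) := by
    intro i j k l hij hkl
    have := bal_iff (hcd i k) (hcd j l) (hdisj i k j l hij) hw1 hwr
    rwa [HP _ _ _ _ hij hkl] at this
  have HQb : ∀ i j k l, i < j → k < l → (Bal Q w ↔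
      (v (e (f i) (g l)) (w - 1) < v (e (f j) (g k)) w ∧
        v (e (f j) (g k)) (w - 1) < v (e (f i) (g l)) w)) := by
    intro i j k l hij hkl
    have := bal_iff (hcd i l) (hcd j k) (hdisj i l j k hij) hw1 hwr
    rwa [HQ _ _ _ _ hij hkl] at this
  by_cases hBP : Bal P w
  · have hBQ : ¬ Bal Q w := fun h => hbal ⟨fun _ => h, fun _ => hBP⟩
    -- the permutation 2143
    have p13 := (HPb a0 a2 a1 a3 h02 h13).mp hBP
    have p14 := (HPb a0 a3 a1 a2 h03 h12).mp hBP
    have p23 := (HPb a1 a2 a0 a3 h12 h03).mp hBP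
    have p24 := (HPb a1 a3 a0 a2 h13 h02).mp hBP
    have q12 := not_and_or.mp (fun h => hBQ ((HQb a0 a1 a0 a1 h01 h01).mpr h))
    have q34 := not_and_or.mp (fun h => hBQ ((HQb a2 a3 a2 a3 h23 h23).mpr h))
    omega
  · have hBQ : Bal Q w := by
      by_contra h
      exact hbal ⟨fun h' => absurd h' hBP, fun h' => absurd h' h⟩
    -- the permutation 3412
    have p13 := (HQb a0 a2 a0 a2 h02 h02).mp hBQ
    have p14 := (HQb a0 a3 a1 a2 h03 h12).mp hBQ
    have p23 := (HQb a1 a2 a0 a3 h12 h03).mp hBQ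
    have p24 := (HQb a1 a3 a1 a3 h13 h13).mp hBQ
    have q12 := not_and_or.mp (fun h => hBP ((HPb a0 a1 a2 a3 h01 h23).mpr h))
    have q34 := not_and_or.mp (fun h => hBP ((HPb a2 a3 a0 a1 h23 h01).mpr h))
    omega

end Pool.Agent.V11326.OrdPat
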