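import Mathlib
import Pool.Agent.V11326.OrdGrid
import Pool.Agent.V11326.MarTar

/-!
# Counting the arrangements that are cliques over pairwise non-harmonious patterns
-/

set_option autoImplicit false

namespace Pool.Agent.V11326.OrdPat

open Finset MarTar

/-! ### Ranks -/

/-- rank of `a` with respect to the values of `w` -/
def rk {k : ℕ} (w : Fin k → ℕ) (a : Fin k) : ℕ := (univ.filter (fun b => w b < w a)).card

theorem rk_lt {k : ℕ} (w : Fin k → ℕ) (a : Fin k) : rk w a < k := by
  unfold rk
  have h : (univ.filter (fun b => w b < w a)) ⊂ (univ : Finset (Fin k)) := by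
    refine ⟨filter_subset _ _, fun hs => ?_⟩
    have := hs (mem_univ a)
    rw [mem_filter] at this
    exact lt_irrefl _ this.2
  have := card_lt_card h
  rwa [card_univ, Fintype.card_fin] at this

theorem rk_lt_iff {k : ℕ} (w : Fin k → ℕ) (a b : Fin k) : w b < w a ↔ rk w b < rk w a := by
  constructor
  · intro h
    unfold rk
    apply card_lt_card
    refine ⟨fun c hc => ?_, fun hs => ?_⟩
    · rw [mem_filter] at hc ⊢
      exact ⟨mem_univ _, hc.2.trans h⟩
    · have := hs (mem_filter.mpr ⟨mem_univ b, h⟩)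
      rw [mem_filter] at this
      exact lt_irrefl _ this.2
  · intro h
    by_contra hc
    push Not at hc
    have : rk w a ≤ rk w b := by
      unfold rk
      apply card_le_card
      intro c hc'
      rw [mem_filter] at hc' ⊢
      exact ⟨mem_univ _, hc'.2.trans_le hc⟩
    omega

theorem rk_inj {k : ℕ} {w : Fin k → ℕ} (hw : Function.Injective w) :
    Function.Injective (rk w) := by
  intro a b hab
  rcases lt_trichotomy (w a) (w b) with h | h | h
  · have := (rk_lt_iff w b a).mp h; omega
  · exact hw h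
  · have := (rk_lt_iff w a b).mp h; omega

/-! ### Edges of an arrangement -/

/-- the edge number `a` of the arrangement `y` -/
def edge {k r : ℕ} (y : Fin k × Fin r → ℕ) (a : Fin k) : Finset ℕ :=
  univ.image (fun j => y (a, j))

theorem edge_card {k r : ℕ} {y : Fin k × Fin r → ℕ} (hy : Function.Injective y) (a : Fin k) :
    (edge y a).card = r := by
  unfold edge
  rw [card_image_of_injective, card_univ, Fintype.card_fin]
  intro i j hij
  have := hy hij
  exact congrArg Prod.snd this

theorem edge_disj {k r : ℕ} {y : Fin k × Fin r → ℕ} (hy : Function.Injective y) {a b : Fin k}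
    (hab : a ≠ b) : Disjoint (edge y a) (edge y b) := by
  rw [disjoint_left]
  intro x hx hx'
  unfold edge at hx hx'
  rw [mem_image] at hx hx'
  obtain ⟨i, _, hi⟩ := hx
  obtain ⟨j, _, hj⟩ := hx'
  rw [← hj] at hi
  have := hy hi
  exact hab (congrArg Prod.fst this)

/-- the arrangement `y` is a clique -/
def Clq {k r : ℕ} (Ps : Finset (Finset ℕ)) (y : Fin k × Fin r → ℕ) : Prop :=
  ∀ a b, a ≠ b → ∃ P ∈ Ps, Forms P (edge y a) (edge y b)

/-- values of the `i`-th vertices -/
noncomputable def vv {k r : ℕ} (y : Fin k × Fin r → ℕ) (i : ℕ) (a : Fin k) : ℕ := v (edge y a) i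

theorem vv_inj {k r : ℕ} {y : Fin k × Fin r → ℕ} (hy : Function.Injective y) {i : ℕ}
    (hi : i < r) : Function.Injective (vv y i) := by
  intro a b hab
  by_contra hne
  exact v_ne (edge_disj hy hne) (by rw [edge_card hy]; exact hi) (by rw [edge_card hy]; exact hi) hab

/-- the matrix comparing the order of the first vertices with that of the `i`-th vertices -/
noncomputable def mat {k r : ℕ} (y : Fin k × Fin r → ℕ) (i : ℕ) : Finset (ℕ × ℕ) :=
  univ.image (fun a : Fin k => (rk (vv y 0) a, rk (vv y i) a))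

/-- the grid permutation -/
def tau (N : ℕ) : Equiv.Perm (Fin (N * N)) :=
  finProdFinEquiv.symm.trans ((Equiv.prodComm _ _).trans finProdFinEquiv)

theorem tau_apply (N : ℕ) (x y : Fin N) :
    tau N (finProdFinEquiv (x, y)) = finProdFinEquiv (y, x) := by
  unfold tau
  simp

theorem fpf_lt {N : ℕ} {x y x' y' : Fin N} (h : x < x') :
    finProdFinEquiv (x, y) < finProdFinEquiv (x', y') := by
  have h1 : (finProdFinEquiv (x, y) : ℕ) = y + N * x := rfl
  have h2 : (finProdFinEquiv (x', y') : ℕ) = y' + N * x' := rfl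
  rw [Fin.lt_def, h1, h2]
  have h3 : N * (x + 1) ≤ N * (x' : ℕ) := Nat.mul_le_mul_left _ (by exact h)
  have h4 := y.2
  rw [Nat.mul_add, mul_one] at h3
  omega

theorem exists_avoid {r : ℕ} (hr : 1 ≤ r) (Ps : Finset (Finset ℕ))
    (hpat : ∀ P ∈ Ps, IsPattern r P) (hnh : ∀ P ∈ Ps, ∀ Q ∈ Ps, ¬ Harmonious r P Q) :
    ∃ ν : ℕ, ∀ (k : ℕ) (y : Fin k × Fin r → ℕ), Function.Injective y → Clq Ps y →
      ∀ i < r, Avoids (tau (2 ^ ν)) (mat y i) := by
  classical
  obtain ⟨N, hN⟩ := grid_false hr Ps hpat hnh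
  refine ⟨N, ?_⟩
  have hNle : N ≤ 2 ^ N := Nat.lt_two_pow_self.le
  intro k y hy hcl i hi
  rintro ⟨f, g, hf, hg, hm⟩
  have hch : ∀ l, ∃ a : Fin k, rk (vv y 0) a = f l ∧ rk (vv y i) a = g (tau (2 ^ N) l) := by
    intro l
    have := hm l
    unfold mat at this
    rw [mem_image] at this
    obtain ⟨a, _, ha⟩ := this
    exact ⟨a, congrArg Prod.fst ha, congrArg Prod.snd ha⟩
  choose A hA0 hAi using hch
  let idx : ∀ x y : ℕ, x < N → y < N → Fin (2 ^ N * 2 ^ N) := fun x y hx hy =>
    finProdFinEquiv (⟨x, hx.trans_le hNle⟩, ⟨y, hy.trans_le hNle⟩)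
  let e : ℕ → ℕ → Finset ℕ := fun x z =>
    if h : x < N ∧ z < N then edge y (A (idx x z h.1 h.2)) else ∅
  have he : ∀ x z (hx : x < N) (hz : z < N), e x z = edge y (A (idx x z hx hz)) := by
    intro x z hx hz
    simp only [e]
    rw [dif_pos ⟨hx, hz⟩]
  have hAinj : Function.Injective A := by
    intro l l' hll
    have h1 := hA0 l
    rw [hll, hA0 l'] at h1
    exact (hf.injective h1).symm
  refine hN i hi e ?_ ?_ ?_ ?_
  · intro x hx z hz
    rw [he x z hx hz]; exact edge_card hy _
  · intro x hx z hz x' hx' z' hz' hne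
    rw [he x z hx hz, he x' z' hx' hz']
    have hne' : A (idx x z hx hz) ≠ A (idx x' z' hx' hz') := by
      intro h
      have h1 := hAinj h
      simp only [idx] at h1
      have h2 := finProdFinEquiv.injective h1
      apply hne
      have h3 := congrArg (fun q => (q.1 : ℕ)) h2
      have h4 := congrArg (fun q => (q.2 : ℕ)) h2
      simp only at h3 h4
      exact Prod.ext h3 h4
    exact ⟨edge_disj hy hne', hcl _ _ hne'⟩
  · intro x hx z hz x' hx' z' hz' hxx
    rw [he x z hx hz, he x' z' hx' hz']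
    have h1 : idx x z hx hz < idx x' z' hx' hz' := fpf_lt (by exact hxx)
    have h2 := hf h1
    rw [← hA0, ← hA0, ← rk_lt_iff] at h2
    exact h2
  · intro x hx z hz x' hx' z' hz' hzz
    rw [he x z hx hz, he x' z' hx' hz']
    have h1 : tau (2 ^ N) (idx x z hx hz) < tau (2 ^ N) (idx x' z' hx' hz') := by
      simp only [idx, tau_apply]
      exact fpf_lt (by exact hzz)
    have h2 := hg h1
    rw [← hAi, ← hAi, ← rk_lt_iff] at h2
    exact h2

/-! ### Encoding a permutation -/

/-- the rank of a vertex inside its edge -/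
def inrk {k r : ℕ} (y : Fin k × Fin r → ℕ) (p : Fin k × Fin r) : ℕ := cnt (edge y p.1) (y p)

theorem mem_edge {k r : ℕ} (y : Fin k × Fin r → ℕ) (p : Fin k × Fin r) : y p ∈ edge y p.1 := by
  unfold edge
  rw [mem_image]
  exact ⟨p.2, mem_univ _, rfl⟩

theorem inrk_lt {k r : ℕ} {y : Fin k × Fin r → ℕ} (hy : Function.Injective y)
    (p : Fin k × Fin r) : inrk y p < r := by
  unfold inrk
  have := cnt_lt_of_mem (mem_edge y p)
  rwa [edge_card hy] at this

theorem y_eq_of_inrk {k r : ℕ} {y : Fin k × Fin r → ℕ}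
    (p : Fin k × Fin r) : y p = vv y (inrk y p) p.1 := by
  unfold vv inrk
  exact (v_cnt (mem_edge y p)).symm

theorem exists_inrk {k r : ℕ} {y : Fin k × Fin r → ℕ} (hy : Function.Injective y) {i : ℕ}
    (hi : i < r) (a : Fin k) : ∃ j, y (a, j) = vv y i a ∧ inrk y (a, j) = i := by
  have h1 : vv y i a ∈ edge y a := v_mem (by rw [edge_card hy]; exact hi)
  unfold edge at h1
  rw [mem_image] at h1
  obtain ⟨j, _, hj⟩ := h1
  refine ⟨j, hj, ?_⟩
  unfold inrk
  simp only
  rw [hj]
  exact cnt_v (by rw [edge_card hy]; exact hi)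

/-- the labels of the points -/
def lab {k r : ℕ} (x : Fin k × Fin r → ℕ) (π : Equiv.Perm (Fin k × Fin r))
    (p : Fin k × Fin r) : ℕ := inrk (fun q => x (π q)) (π.symm p)

theorem count_label {k r : ℕ} {x : Fin k × Fin r → ℕ} (hx : Function.Injective x)
    (π : Equiv.Perm (Fin k × Fin r)) {i : ℕ} (hi : i < r) (p : Fin k × Fin r)
    (hp : inrk (fun q => x (π q)) p = i) :
    (univ.filter (fun q => lab x π q = i ∧ x q < x (π p))).card =
      rk (vv (fun q => x (π q)) i) p.1 := by
  classical
  set y : Fin k × Fin r → ℕ := fun q => x (π q) with hyd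
  have hy : Function.Injective y := hx.comp π.injective
  unfold rk
  refine card_bij (fun q _ => (π.symm q).1) ?_ ?_ ?_
  · intro q hq
    rw [mem_filter] at hq ⊢
    refine ⟨mem_univ _, ?_⟩
    have h1 : inrk y (π.symm q) = i := hq.2.1
    have h2 := y_eq_of_inrk (y := y) (π.symm q)
    rw [h1] at h2
    have h3 := y_eq_of_inrk (y := y) p
    rw [hp] at h3
    rw [← h2, ← h3]
    simp only [hyd, Equiv.apply_symm_apply]
    exact hq.2.2
  · intro q hq q' hq' he
    rw [mem_filter] at hq hq'
    have h1 : inrk y (π.symm q) = i := hq.2.1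
    have h1' : inrk y (π.symm q') = i := hq'.2.1
    have h2 := y_eq_of_inrk (y := y) (π.symm q)
    have h2' := y_eq_of_inrk (y := y) (π.symm q')
    rw [h1] at h2
    rw [h1'] at h2'
    rw [he, ← h2'] at h2
    have h3 := hy h2
    exact π.symm.injective h3
  · intro b hb
    rw [mem_filter] at hb
    obtain ⟨j, hj, hji⟩ := exists_inrk hy hi b
    refine ⟨π (b, j), ?_, ?_⟩
    · rw [mem_filter]
      refine ⟨mem_univ _, ?_, ?_⟩
      · unfold lab
        rw [Equiv.symm_apply_apply]; exact hji
      · have h3 := y_eq_of_inrk (y := y) p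
        rw [hp] at h3
        have h4 : x (π (b, j)) = y (b, j) := rfl
        have h5 : x (π p) = y p := rfl
        rw [h4, h5, hj, h3]
        exact hb.2
    · rw [Equiv.symm_apply_apply]

/-- the permutation of the edges given by the order of their first vertices -/
noncomputable def rho {k r : ℕ} (hr : 1 ≤ r) (y : Fin k × Fin r → ℕ)
    (hy : Function.Injective y) : Equiv.Perm (Fin k) :=
  Equiv.ofBijective (fun a => ⟨rk (vv y 0) a, rk_lt _ a⟩)
    (Finite.injective_iff_bijective.mp (fun a b hab => by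
      have h1 : rk (vv y 0) a = rk (vv y 0) b := by
        have := congrArg Fin.val hab
        exact this
      exact rk_inj (vv_inj hy (by omega)) h1))

theorem rho_val {k r : ℕ} (hr : 1 ≤ r) (y : Fin k × Fin r → ℕ)
    (hy : Function.Injective y) (a : Fin k) : (rho hr y hy a : ℕ) = rk (vv y 0) a := rfl

theorem code_inj {k r : ℕ} (hr : 1 ≤ r) {x : Fin k × Fin r → ℕ} (hx : Function.Injective x)
    (π π' : Equiv.Perm (Fin k × Fin r))
    (h1 : inrk (fun q => x (π q)) = inrk (fun q => x (π' q)))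
    (h2 : lab x π = lab x π')
    (h3 : rho hr (fun q => x (π q)) (hx.comp π.injective) =
      rho hr (fun q => x (π' q)) (hx.comp π'.injective))
    (h4 : (fun i : Fin r => mat (fun q => x (π q)) i) = (fun i : Fin r => mat (fun q => x (π' q)) i)) :
    π = π' := by
  classical
  set y : Fin k × Fin r → ℕ := fun q => x (π q) with hyd
  set y' : Fin k × Fin r → ℕ := fun q => x (π' q) with hyd'
  have hy : Function.Injective y := hx.comp π.injective
  have hy' : Function.Injective y' := hx.comp π'.injective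
  have e0 : ∀ a, rk (vv y 0) a = rk (vv y' 0) a := by
    intro a
    have := congrArg (fun (z : Equiv.Perm (Fin k)) => (z a : ℕ)) h3
    simpa only [rho_val] using this
  have ei : ∀ i : Fin r, ∀ a, rk (vv y i) a = rk (vv y' i) a := by
    intro i a
    have h5 : mat y i = mat y' i := congrFun h4 i
    have h6 : (rk (vv y 0) a, rk (vv y i) a) ∈ mat y i := by
      unfold mat
      exact mem_image_of_mem _ (mem_univ a)
    rw [h5] at h6
    unfold mat at h6
    rw [mem_image] at h6
    obtain ⟨b, _, hb⟩ := h6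
    have h7 : rk (vv y' 0) b = rk (vv y 0) a := congrArg Prod.fst hb
    have h8 : rk (vv y' i) b = rk (vv y i) a := congrArg Prod.snd hb
    rw [e0 a] at h7
    have h9 := rk_inj (vv_inj hy' (by omega)) h7
    rw [← h8, h9]
  ext1 p
  set i := inrk y p with hid
  have hi : i < r := inrk_lt hy p
  have hip' : inrk y' p = i := by rw [← h1]
  have c1 := count_label hx π hi p hid.symm
  have c2 := count_label hx π' hi p hip'
  have hc : (univ.filter (fun q => lab x π q = i ∧ x q < x (π p))).card =
      (univ.filter (fun q => lab x π q = i ∧ x q < x (π' p))).card := by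
    rw [c1, h2, c2]
    exact ei ⟨i, hi⟩ p.1
  have l1 : lab x π (π p) = i := by
    unfold lab
    rw [Equiv.symm_apply_apply]
  have l2 : lab x π (π' p) = i := by
    rw [h2]
    unfold lab
    rw [Equiv.symm_apply_apply]
    exact hip'
  have hmono : ∀ p1 p2 : Fin k × Fin r, lab x π p1 = i → x p1 < x p2 →
      (univ.filter (fun q => lab x π q = i ∧ x q < x p1)).card <
      (univ.filter (fun q => lab x π q = i ∧ x q < x p2)).card := by
    intro p1 p2 hl hlt
    apply card_lt_card
    refine ⟨fun q hq => ?_, fun hs => ?_⟩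
    · rw [mem_filter] at hq ⊢
      exact ⟨hq.1, hq.2.1, hq.2.2.trans hlt⟩
    · have := hs (mem_filter.mpr ⟨mem_univ p1, hl, hlt⟩)
      rw [mem_filter] at this
      exact lt_irrefl _ this.2.2
  rcases lt_trichotomy (x (π p)) (x (π' p)) with h | h | h
  · have := hmono _ _ l1 h; omega
  · exact hx h
  · have := hmono _ _ l2 h; omega

open Classical in
/-- **The counting lemma.** -/
theorem count_cliques {r : ℕ} (hr : 1 ≤ r) (Ps : Finset (Finset ℕ))
    (hpat : ∀ P ∈ Ps, IsPattern r P) (hnh : ∀ P ∈ Ps, ∀ Q ∈ Ps, ¬ Harmonious r P Q) :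
    ∃ D : ℕ, 1 ≤ D ∧ ∀ k : ℕ, 1 ≤ k → ∀ x : Fin k × Fin r → ℕ, Function.Injective x →
      (univ.filter (fun π : Equiv.Perm (Fin k × Fin r) => Clq Ps (fun p => x (π p)))).card ≤
        D ^ k * k.factorial := by
  obtain ⟨ν, hν⟩ := exists_avoid hr Ps hpat hnh
  have hK : 2 ^ ν * 2 ^ ν = 2 ^ (2 * ν) := by rw [← pow_add]; congr 1; ring
  obtain ⟨c, hc⟩ := count_bound hK (tau (2 ^ ν))
  refine ⟨r ^ r * r ^ r * 16 ^ (2 * c * r), ?_, ?_⟩
  · have h1 : 1 ≤ r ^ r := Nat.one_le_pow _ _ hr
    have h2 : 1 ≤ 16 ^ (2 * c * r) := Nat.one_le_pow _ _ (by norm_num)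
    calc 1 = 1 * 1 * 1 := by norm_num
      _ ≤ _ := Nat.mul_le_mul (Nat.mul_le_mul h1 h1) h2
  intro k hk x hx
  set t := Nat.log 2 k + 1 with ht
  have ht1 : k ≤ 2 ^ t := (Nat.lt_pow_succ_log_self (by norm_num) k).le
  have ht2 : 2 ^ t ≤ 2 * k := by
    rw [ht, pow_succ, mul_comm]
    exact Nat.mul_le_mul_left _ (Nat.pow_log_le_self 2 (by omega))
  set TT := (range (2 ^ t) ×ˢ range (2 ^ t)).powerset.filter (Avoids (tau (2 ^ ν))) with hTT
  have hTTc : TT.card ≤ 16 ^ (c * (2 * k)) :=
    (hc t).trans (Nat.pow_le_pow_right (by norm_num) (Nat.mul_le_mul_left _ ht2))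
  let tgt : Finset (((Fin k × Fin r) → ℕ) × ((Fin k × Fin r) → ℕ) × Equiv.Perm (Fin k) ×
      (Fin r → Finset (ℕ × ℕ))) :=
    (Fintype.piFinset (fun _ : Fin k × Fin r => range r)) ×ˢ
      (Fintype.piFinset (fun _ : Fin k × Fin r => range r)) ×ˢ
      (univ : Finset (Equiv.Perm (Fin k))) ×ˢ (Fintype.piFinset (fun _ : Fin r => TT))
  let code : Equiv.Perm (Fin k × Fin r) → ((Fin k × Fin r) → ℕ) × ((Fin k × Fin r) → ℕ) ×
      Equiv.Perm (Fin k) × (Fin r → Finset (ℕ × ℕ)) := fun π =>
    (inrk (fun q => x (π q)), lab x π, rho hr (fun q => x (π q)) (hx.comp π.injective),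
      fun i => mat (fun q => x (π q)) i)
  have hle : (univ.filter (fun π : Equiv.Perm (Fin k × Fin r) => Clq Ps (fun p => x (π p)))).card
      ≤ tgt.card := by
    refine card_le_card_of_injOn code ?_ ?_
    · intro π hπ
      have hπ' : Clq Ps (fun p => x (π p)) := (mem_filter.mp (mem_coe.mp hπ)).2
      have hy : Function.Injective (fun q => x (π q)) := hx.comp π.injective
      rw [mem_coe]
      simp only [tgt, code, mem_product, Fintype.mem_piFinset, mem_range, mem_univ, true_and]
      refine ⟨fun p => inrk_lt hy p, fun p => inrk_lt hy _, fun i => ?_⟩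
      rw [hTT, mem_filter, mem_powerset]
      refine ⟨?_, hν k _ hy hπ' i i.2⟩
      intro q hq
      unfold mat at hq
      rw [mem_image] at hq
      obtain ⟨a, _, rfl⟩ := hq
      rw [mem_product, mem_range, mem_range]
      exact ⟨(rk_lt _ a).trans_le ht1, (rk_lt _ a).trans_le ht1⟩
    · intro π _ π' _ he
      simp only [code, Prod.mk.injEq] at he
      exact code_inj hr hx π π' he.1 he.2.1 he.2.2.1 he.2.2.2
  refine hle.trans ?_
  have hcard : tgt.card = r ^ (k * r) * (r ^ (k * r) * (k.factorial * TT.card ^ r)) := by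
    simp only [tgt, card_product, Fintype.card_piFinset, prod_const, card_univ, Fintype.card_prod,
      Fintype.card_fin, card_range, Fintype.card_perm]
  rw [hcard]
  have h5 : TT.card ^ r ≤ (16 ^ (2 * c * r)) ^ k := by
    calc TT.card ^ r ≤ (16 ^ (c * (2 * k))) ^ r := Nat.pow_le_pow_left hTTc r
      _ = (16 ^ (2 * c * r)) ^ k := by rw [← pow_mul, ← pow_mul]; congr 1; ring
  calc r ^ (k * r) * (r ^ (k * r) * (k.factorial * TT.card ^ r))
      ≤ r ^ (k * r) * (r ^ (k * r) * (k.factorial * (16 ^ (2 * c * r)) ^ k)) := by gcongr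
    _ = _ := by
        rw [mul_pow, mul_pow, ← pow_mul r r k, mul_comm r k]
        ring

end Pool.Agent.V11326.OrdPat
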