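import Mathlib
import Pool.Agent.V11326.OrdCount

/-!
# Cliques over pairwise non-harmonious patterns in random ordered hypermatchings

For every `r ≥ 1` and every finite set `Ps` of pairwise non-harmonious `r`-patterns, the largest
`Ps`-clique in a uniformly random ordered `r`-matching of size `n` has, asymptotically almost
surely, at most `C n^{1/r}` edges.

Vertices are natural numbers, an edge is a finite set of vertices, an ordered `r`-matching of size
`n` on `{0, …, rn-1}` is a family of `n` pairwise disjoint `r`-subsets of it, and a pattern is given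
by the set of positions (counted from `0`) of its letters `A`; see `Pool.Agent.V11326.OrdPat` for
`pos`, `IsPattern`, `Forms`, `IsMatching`, `IsClique`, `Collectable`, `SplitsAt`, `Harmonious`.
-/

set_option autoImplicit false

namespace Pool.Agent.V11326.OrdUpper

open Finset Pool.Agent.V11326.OrdPat Filter
open scoped Topology

open Classical in
/-- The ordered `r`-matchings of size `n` on the vertex set `{0, …, rn-1}`. -/
noncomputable def matchings (r n : ℕ) : Finset (Finset (Finset ℕ)) :=
  (((range (r * n)).powersetCard r).powerset).filter (fun M => IsMatching r M ∧ M.card = n)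

open Classical in
/-- The largest number of edges of a `Ps`-clique contained in `M`. -/
noncomputable def zmax (Ps : Finset (Finset ℕ)) (M : Finset (Finset ℕ)) : ℕ :=
  (M.powerset.filter (IsClique Ps)).sup card

/-! ### The matching of a bijection -/

/-- enumerations of the vertices by (edge, place in the edge) -/
abbrev Om (r n : ℕ) : Type := (Fin n × Fin r) ≃ Fin (r * n)

/-- the arrangement of an enumeration -/
def Y {r n : ℕ} (ω : Om r n) (p : Fin n × Fin r) : ℕ := (ω p : ℕ)

theorem Y_inj {r n : ℕ} (ω : Om r n) : Function.Injective (Y ω) := by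
  intro p q h
  exact ω.injective (Fin.ext h)

/-- the matching of an enumeration -/
def MM {r n : ℕ} (ω : Om r n) : Finset (Finset ℕ) := univ.image (edge (Y ω))

theorem edge_inj {k r : ℕ} (hr : 1 ≤ r) {y : Fin k × Fin r → ℕ} (hy : Function.Injective y) :
    Function.Injective (edge y) := by
  intro a b hab
  by_contra hne
  have h1 := edge_disj hy hne
  rw [hab, disjoint_self] at h1
  have h2 := edge_card hy b
  have h3 : (edge y b).card = 0 := by rw [card_eq_zero]; exact h1
  omega

theorem MM_mem {r n : ℕ} (hr : 1 ≤ r) (ω : Om r n) : MM ω ∈ matchings r n := by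
  classical
  unfold matchings
  rw [mem_filter, mem_powerset]
  refine ⟨?_, ⟨?_, ?_⟩, ?_⟩
  · intro E hE
    unfold MM at hE
    rw [mem_image] at hE
    obtain ⟨a, _, rfl⟩ := hE
    rw [mem_powersetCard]
    refine ⟨?_, edge_card (Y_inj ω) a⟩
    intro x hx
    unfold edge at hx
    rw [mem_image] at hx
    obtain ⟨j, _, rfl⟩ := hx
    rw [mem_range]
    exact (ω (a, j)).2
  · intro E hE
    unfold MM at hE
    rw [mem_image] at hE
    obtain ⟨a, _, rfl⟩ := hE
    exact edge_card (Y_inj ω) a
  · intro E hE F hF hEF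
    unfold MM at hE hF
    rw [mem_image] at hE hF
    obtain ⟨a, _, rfl⟩ := hE
    obtain ⟨b, _, rfl⟩ := hF
    exact edge_disj (Y_inj ω) (fun h => hEF (by rw [h]))
  · unfold MM
    rw [card_image_of_injective _ (edge_inj hr (Y_inj ω)), card_univ, Fintype.card_fin]

theorem MM_surj {r n : ℕ} {M : Finset (Finset ℕ)} (hM : M ∈ matchings r n) :
    ∃ ω : Om r n, MM ω = M := by
  classical
  unfold matchings at hM
  rw [mem_filter, mem_powerset] at hM
  obtain ⟨hsub, ⟨hcard, hdisj⟩, hn⟩ := hM
  let eM : Fin n ≃ M := (M.equivFinOfCardEq hn).symm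
  have hc : ∀ a : Fin n, (eM a : Finset ℕ).card = r := fun a => hcard _ (eM a).2
  let eE : ∀ a : Fin n, Fin r ≃ (eM a : Finset ℕ) := fun a =>
    ((eM a : Finset ℕ).equivFinOfCardEq (hc a)).symm
  have hlt : ∀ a j, ((eE a j : ℕ)) < r * n := by
    intro a j
    have h1 := hsub (eM a).2
    rw [mem_powersetCard] at h1
    exact mem_range.mp (h1.1 (eE a j).2)
  let φ : Fin n × Fin r → Fin (r * n) := fun p => ⟨(eE p.1 p.2 : ℕ), hlt _ _⟩
  have hφ : Function.Injective φ := by
    rintro ⟨a, j⟩ ⟨b, l⟩ h
    have h1 : ((eE a j : ℕ)) = ((eE b l : ℕ)) := congrArg Fin.val h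
    have hab : a = b := by
      by_contra hne
      have h2 : (eM a : Finset ℕ) ≠ (eM b : Finset ℕ) := fun h3 =>
        hne (eM.injective (Subtype.ext h3))
      have h4 := hdisj _ (eM a).2 _ (eM b).2 h2
      have h5 := (eE a j).2
      rw [h1] at h5
      exact (disjoint_left.mp h4 h5) (eE b l).2
    subst hab
    have h6 := (eE a).injective (Subtype.ext h1)
    rw [h6]
  have hbij : Function.Bijective φ := by
    rw [Fintype.bijective_iff_injective_and_card]
    refine ⟨hφ, ?_⟩
    rw [Fintype.card_prod, Fintype.card_fin, Fintype.card_fin, Fintype.card_fin, mul_comm]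
  refine ⟨Equiv.ofBijective φ hbij, ?_⟩
  have hedge : ∀ a, edge (Y (Equiv.ofBijective φ hbij)) a = (eM a : Finset ℕ) := by
    intro a
    unfold edge Y
    ext x
    rw [mem_image]
    constructor
    · rintro ⟨j, _, rfl⟩
      exact (eE a j).2
    · intro hx
      refine ⟨(eE a).symm ⟨x, hx⟩, mem_univ _, ?_⟩
      have : ((eE a ((eE a).symm ⟨x, hx⟩) : ℕ)) = x := by rw [Equiv.apply_symm_apply]
      exact this
  unfold MM
  ext E
  rw [mem_image]
  constructor
  · rintro ⟨a, _, rfl⟩
    rw [hedge]; exact (eM a).2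
  · intro hE
    refine ⟨eM.symm ⟨E, hE⟩, mem_univ _, ?_⟩
    rw [hedge, Equiv.apply_symm_apply]

/-- action of a permutation of the vertices on an edge -/
def act {N : ℕ} (g : Equiv.Perm (Fin N)) (E : Finset ℕ) : Finset ℕ :=
  E.image (fun x => if h : x < N then (g ⟨x, h⟩ : ℕ) else x)

theorem MM_trans {r n : ℕ} (ω : Om r n) (g : Equiv.Perm (Fin (r * n))) :
    MM (ω.trans g) = (MM ω).image (act g) := by
  unfold MM
  rw [image_image]
  congr 1
  funext a
  simp only [Function.comp]
  unfold act edge Y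
  rw [image_image]
  congr 1
  funext j
  simp only [Function.comp, Equiv.trans_apply, Fin.is_lt, dif_pos]

open Classical in
/-- number of enumerations of a matching -/
noncomputable def fib (r n : ℕ) (M : Finset (Finset ℕ)) : ℕ :=
  ((univ : Finset (Om r n)).filter (fun ω => MM ω = M)).card

theorem fib_le {r n : ℕ} {M M' : Finset (Finset ℕ)} (hM : M ∈ matchings r n)
    (hM' : M' ∈ matchings r n) : fib r n M ≤ fib r n M' := by
  classical
  obtain ⟨ω0, h0⟩ := MM_surj hM
  obtain ⟨ω1, h1⟩ := MM_surj hM'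
  unfold fib
  refine card_le_card_of_injOn (fun ω => ω.trans (ω0.symm.trans ω1)) ?_ ?_
  · intro ω hω
    have hω' : MM ω = M := (mem_filter.mp (mem_coe.mp hω)).2
    rw [mem_coe, mem_filter]
    refine ⟨mem_univ _, ?_⟩
    rw [MM_trans, hω', ← h0, ← MM_trans, ← h1]
    congr 1
    ext p
    simp
  · intro ω _ ω' _ h
    have := congrArg (fun z : Om r n => z.trans (ω0.symm.trans ω1).symm) h
    simp only [Equiv.trans_assoc, Equiv.self_trans_symm, Equiv.trans_refl] at this
    exact this

open Classical in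
/-- Frequencies over enumerations and over matchings agree. -/
theorem freq {r n : ℕ} (hr : 1 ≤ r) (p : Finset (Finset ℕ) → Prop) :
    ∃ F : ℕ, 0 < F ∧
      ((univ : Finset (Om r n)).filter (fun ω => p (MM ω))).card =
        ((matchings r n).filter p).card * F ∧
      Fintype.card (Om r n) = (matchings r n).card * F := by
  have hne : Nonempty (Om r n) := by
    refine ⟨Fintype.equivOfCardEq ?_⟩
    rw [Fintype.card_prod, Fintype.card_fin, Fintype.card_fin, Fintype.card_fin, mul_comm]
  obtain ⟨ω0⟩ := hne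
  set F := fib r n (MM ω0) with hF
  have hfib : ∀ M ∈ matchings r n, fib r n M = F := fun M hM =>
    le_antisymm (fib_le hM (MM_mem hr ω0)) (fib_le (MM_mem hr ω0) hM)
  have hFpos : 0 < F := by
    rw [hF]
    unfold fib
    rw [card_pos]
    exact ⟨ω0, mem_filter.mpr ⟨mem_univ _, rfl⟩⟩
  have hgen : ∀ q : Finset (Finset ℕ) → Prop,
      ((univ : Finset (Om r n)).filter (fun ω => q (MM ω))).card =
        ((matchings r n).filter q).card * F := by
    intro q
    rw [Finset.card_eq_sum_card_fiberwise (f := MM) (t := (matchings r n).filter q)]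
    · have hterm : ∀ M ∈ (matchings r n).filter q,
          (((univ : Finset (Om r n)).filter (fun ω => q (MM ω))).filter
            (fun ω => MM ω = M)).card = F := by
        intro M hM
        rw [mem_filter] at hM
        rw [← hfib M hM.1]
        unfold fib
        congr 1
        ext ω
        simp only [mem_filter, mem_univ, true_and]
        constructor
        · rintro ⟨_, h⟩; exact h
        · intro h; exact ⟨by rw [h]; exact hM.2, h⟩
      rw [sum_congr rfl hterm, sum_const, smul_eq_mul]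
    · intro ω hω
      have := (mem_filter.mp (mem_coe.mp hω)).2
      exact mem_coe.mpr (mem_filter.mpr ⟨MM_mem hr ω, this⟩)
  refine ⟨F, hFpos, hgen p, ?_⟩
  have := hgen (fun _ => True)
  simpa using this

/-! ### The first moment bound -/

/-- restriction of an arrangement to the edges with the numbers `e i` -/
def sub {k n r : ℕ} (e : Fin k ↪ Fin n) (y : Fin n × Fin r → ℕ) (p : Fin k × Fin r) : ℕ :=
  y (e p.1, p.2)

/-- the corresponding embedding of places -/
def emb {k n : ℕ} (r : ℕ) (e : Fin k ↪ Fin n) : (Fin k × Fin r) ↪ (Fin n × Fin r) :=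
  ⟨fun p => (e p.1, p.2), by
    rintro ⟨a, i⟩ ⟨b, j⟩ h
    have h1 := congrArg Prod.fst h
    have h2 := congrArg Prod.snd h
    exact Prod.ext (e.injective h1) h2⟩

open Classical in
theorem clique_event {r n k : ℕ} {Ps : Finset (Finset ℕ)} {B : ℕ}
    (hB : ∀ x : Fin k × Fin r → ℕ, Function.Injective x →
      (univ.filter (fun π : Equiv.Perm (Fin k × Fin r) => Clq Ps (fun p => x (π p)))).card ≤ B)
    (e : Fin k ↪ Fin n) :
    ((univ : Finset (Om r n)).filter (fun ω => Clq Ps (sub e (Y ω)))).card * (k * r).factorial ≤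
      Fintype.card (Om r n) * B := by
  set c := ((univ : Finset (Om r n)).filter (fun ω => Clq Ps (sub e (Y ω)))).card with hc
  have hπ : ∀ π : Equiv.Perm (Fin k × Fin r),
      ((univ : Finset (Om r n)).filter (fun ω => Clq Ps (fun p => sub e (Y ω) (π p)))).card = c := by
    intro π
    rw [hc]
    refine card_bij (fun ω _ => (π.viaEmbedding (emb r e)).trans ω) ?_ ?_ ?_
    · intro ω hω
      rw [mem_filter] at hω ⊢
      refine ⟨mem_univ _, ?_⟩
      have h1 : sub e (Y ((π.viaEmbedding (emb r e)).trans ω)) =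
          fun p => sub e (Y ω) (π p) := by
        funext p
        have h2 := Equiv.Perm.viaEmbedding_apply π (emb r e) p
        have h3 : (emb r e) p = (e p.1, p.2) := rfl
        have h4 : (emb r e) (π p) = (e (π p).1, (π p).2) := rfl
        unfold sub Y
        rw [Equiv.trans_apply, ← h3, h2, h4]
      rw [h1]; exact hω.2
    · intro ω _ ω' _ h
      have := congrArg (fun z : Om r n => (π.viaEmbedding (emb r e)).symm.trans z) h
      simp only [← Equiv.trans_assoc, Equiv.symm_trans_self, Equiv.refl_trans] at this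
      exact this
    · intro ω hω
      rw [mem_filter] at hω
      refine ⟨(π.viaEmbedding (emb r e)).symm.trans ω, ?_, ?_⟩
      · rw [mem_filter]
        refine ⟨mem_univ _, ?_⟩
        have h1 : (fun p => sub e (Y ((π.viaEmbedding (emb r e)).symm.trans ω)) (π p)) =
            sub e (Y ω) := by
          funext p
          have h2 := Equiv.Perm.viaEmbedding_apply π (emb r e) p
          have h3 : (emb r e) p = (e p.1, p.2) := rfl
          have h4 : (emb r e) (π p) = (e (π p).1, (π p).2) := rfl
          unfold sub Y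
          rw [Equiv.trans_apply, ← h3, ← h4, ← h2, Equiv.symm_apply_apply]
        rw [h1]; exact hω.2
      · rw [← Equiv.trans_assoc, Equiv.self_trans_symm, Equiv.refl_trans]
  have hsum1 : ∑ π : Equiv.Perm (Fin k × Fin r),
      ((univ : Finset (Om r n)).filter (fun ω => Clq Ps (fun p => sub e (Y ω) (π p)))).card =
        (k * r).factorial * c := by
    rw [sum_congr rfl (fun π _ => hπ π), sum_const, smul_eq_mul, card_univ, Fintype.card_perm,
      Fintype.card_prod, Fintype.card_fin, Fintype.card_fin]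
  have hsum2 : ∑ π : Equiv.Perm (Fin k × Fin r),
      ((univ : Finset (Om r n)).filter (fun ω => Clq Ps (fun p => sub e (Y ω) (π p)))).card =
      ∑ ω : Om r n, (univ.filter (fun π : Equiv.Perm (Fin k × Fin r) =>
        Clq Ps (fun p => sub e (Y ω) (π p)))).card := by
    simp only [card_filter]
    exact sum_comm
  have hsum3 : ∑ ω : Om r n, (univ.filter (fun π : Equiv.Perm (Fin k × Fin r) =>
        Clq Ps (fun p => sub e (Y ω) (π p)))).card ≤ Fintype.card (Om r n) * B := by
    calc _ ≤ ∑ ω : Om r n, B := by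
          apply sum_le_sum
          intro ω _
          apply hB
          intro p q h
          exact (emb r e).injective (Y_inj ω h)
      _ = _ := by rw [sum_const, smul_eq_mul, card_univ]
  rw [mul_comm, ← hsum1, hsum2]
  exact hsum3

open Classical in
theorem big_clique {r n k : ℕ} (hr : 1 ≤ r) {Ps : Finset (Finset ℕ)} {D : ℕ}
    (hB : ∀ x : Fin k × Fin r → ℕ, Function.Injective x →
      (univ.filter (fun π : Equiv.Perm (Fin k × Fin r) => Clq Ps (fun p => x (π p)))).card ≤
        D ^ k * k.factorial) :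
    ((univ : Finset (Om r n)).filter (fun ω => k ≤ zmax Ps (MM ω))).card * (k * r).factorial ≤
      Fintype.card (Om r n) * (D ^ k * n ^ k) := by
  have hsub : (univ : Finset (Om r n)).filter (fun ω => k ≤ zmax Ps (MM ω)) ⊆
      ((univ : Finset (Fin n)).powersetCard k).biUnion (fun A =>
        (univ : Finset (Om r n)).filter (fun ω => ∀ h : A.card = k,
          Clq Ps (sub (A.orderEmbOfFin h).toEmbedding (Y ω)))) := by
    intro ω hω
    rw [mem_filter] at hω
    -- a clique with at least `k` edges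
    have hex : ∃ S ∈ (MM ω).powerset.filter (IsClique Ps), k ≤ S.card := by
      rcases Nat.eq_zero_or_pos k with h0 | h0
      · refine ⟨∅, ?_, by omega⟩
        rw [mem_filter, mem_powerset]
        exact ⟨empty_subset _, fun E hE => absurd hE (notMem_empty _)⟩
      · by_contra hcon
        push Not at hcon
        have h2 : zmax Ps (MM ω) < k := by
          unfold zmax
          rw [Finset.sup_lt_iff (by exact h0)]
          exact hcon
        omega
    obtain ⟨S, hS, hSk⟩ := hex
    rw [mem_filter, mem_powerset] at hS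
    obtain ⟨S', hS'S, hS'k⟩ := Finset.exists_subset_card_eq hSk
    have hinj := edge_inj hr (Y_inj ω)
    set A := (univ : Finset (Fin n)).filter (fun a => edge (Y ω) a ∈ S') with hA
    have hAim : A.image (edge (Y ω)) = S' := by
      ext E
      rw [mem_image]
      constructor
      · rintro ⟨a, ha, rfl⟩
        exact (mem_filter.mp ha).2
      · intro hE
        have h1 := hS.1 (hS'S hE)
        unfold MM at h1
        rw [mem_image] at h1
        obtain ⟨a, _, rfl⟩ := h1
        exact ⟨a, mem_filter.mpr ⟨mem_univ _, hE⟩, rfl⟩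
    have hAk : A.card = k := by
      rw [← hS'k, ← hAim, card_image_of_injective _ hinj]
    rw [mem_biUnion]
    refine ⟨A, mem_powersetCard.mpr ⟨subset_univ _, hAk⟩, ?_⟩
    rw [mem_filter]
    refine ⟨mem_univ _, ?_⟩
    intro h a b hab
    have ha : edge (Y ω) (A.orderEmbOfFin h a) ∈ S' := (mem_filter.mp (A.orderEmbOfFin_mem h a)).2
    have hb : edge (Y ω) (A.orderEmbOfFin h b) ∈ S' := (mem_filter.mp (A.orderEmbOfFin_mem h b)).2
    refine hS.2 _ (hS'S ha) _ (hS'S hb) ?_
    intro he
    exact hab ((A.orderEmbOfFin h).injective (hinj he))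
  have h1 : ((univ : Finset (Om r n)).filter (fun ω => k ≤ zmax Ps (MM ω))).card *
      (k * r).factorial ≤ ∑ A ∈ (univ : Finset (Fin n)).powersetCard k,
        Fintype.card (Om r n) * (D ^ k * k.factorial) := by
    calc _ ≤ (∑ A ∈ (univ : Finset (Fin n)).powersetCard k,
        ((univ : Finset (Om r n)).filter (fun ω => ∀ h : A.card = k,
          Clq Ps (sub (A.orderEmbOfFin h).toEmbedding (Y ω)))).card) * (k * r).factorial := by
          apply Nat.mul_le_mul_right
          exact (card_le_card hsub).trans card_biUnion_le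
      _ = ∑ A ∈ (univ : Finset (Fin n)).powersetCard k,
        ((univ : Finset (Om r n)).filter (fun ω => ∀ h : A.card = k,
          Clq Ps (sub (A.orderEmbOfFin h).toEmbedding (Y ω)))).card * (k * r).factorial := by
          rw [sum_mul]
      _ ≤ _ := by
          apply sum_le_sum
          intro A hA
          rw [mem_powersetCard] at hA
          have h2 := clique_event hB (A.orderEmbOfFin hA.2).toEmbedding (n := n)
          refine le_trans ?_ h2
          apply Nat.mul_le_mul_right
          apply card_le_card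
          intro ω hω
          rw [mem_filter] at hω ⊢
          exact ⟨hω.1, hω.2 hA.2⟩
  refine h1.trans ?_
  rw [sum_const, card_powersetCard, card_univ, Fintype.card_fin, smul_eq_mul]
  have h3 : n.choose k * k.factorial ≤ n ^ k := by
    rw [mul_comm, ← Nat.descFactorial_eq_factorial_mul_choose]
    exact Nat.descFactorial_le_pow n k
  calc n.choose k * (Fintype.card (Om r n) * (D ^ k * k.factorial))
      = Fintype.card (Om r n) * (D ^ k * (n.choose k * k.factorial)) := by ring
    _ ≤ _ := by gcongr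

/-! ### Asymptotics -/

theorem arith {r n D k : ℕ} (hr : 1 ≤ r) (hn : 1 ≤ n) (hD : 1 ≤ D)
    (hk : 2 * (D : ℝ) * Real.exp 1 * (n : ℝ) ^ ((1 : ℝ) / r) ≤ k) :
    ((D : ℝ) ^ k * (n : ℝ) ^ k) / ((k * r).factorial : ℝ) ≤ (1 / 2) ^ k := by
  have hn0 : (0 : ℝ) < n := by exact_mod_cast hn
  have hD1 : (1 : ℝ) ≤ D := by exact_mod_cast hD
  have hr1 : (1 : ℝ) ≤ r := by exact_mod_cast hr
  have hr0 : (r : ℝ) ≠ 0 := by positivity
  have he1 : (1 : ℝ) ≤ Real.exp 1 := Real.one_le_exp (by norm_num)
  have hkpos : (0 : ℝ) < k := lt_of_lt_of_le (by positivity) hk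
  have hx : (0 : ℝ) < (k : ℝ) * r := by positivity
  have hfac := Real.pow_div_factorial_le_exp ((k : ℝ) * r) hx.le (k * r)
  have hf0 : (0 : ℝ) < ((k * r).factorial : ℝ) := by exact_mod_cast Nat.factorial_pos _
  have h1 : ((k : ℝ) * r) ^ (k * r) ≤ Real.exp ((k : ℝ) * r) * ((k * r).factorial : ℝ) := by
    rwa [div_le_iff₀ hf0] at hfac
  -- the base
  have h2 : 2 * ((D : ℝ) * n * Real.exp 1 ^ r) ≤ ((k : ℝ) * r) ^ r := by
    have h3 : (2 * (D : ℝ) * Real.exp 1 * (n : ℝ) ^ ((1 : ℝ) / r)) ^ r ≤ (k : ℝ) ^ r :=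
      pow_le_pow_left₀ (by positivity) hk r
    have h4 : ((n : ℝ) ^ ((1 : ℝ) / r)) ^ r = n := by
      rw [← Real.rpow_natCast, ← Real.rpow_mul hn0.le, one_div, inv_mul_cancel₀ hr0,
        Real.rpow_one]
    rw [mul_pow, mul_pow, mul_pow, h4] at h3
    have h5 : (k : ℝ) ^ r ≤ ((k : ℝ) * r) ^ r :=
      pow_le_pow_left₀ hkpos.le (by nlinarith) r
    have h6 : (2 : ℝ) ≤ 2 ^ r := by
      calc (2 : ℝ) = 2 ^ 1 := by norm_num
        _ ≤ 2 ^ r := pow_le_pow_right₀ (by norm_num) hr
    have h7 : (D : ℝ) ≤ D ^ r := by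
      calc (D : ℝ) = D ^ 1 := by norm_num
        _ ≤ D ^ r := pow_le_pow_right₀ hD1 hr
    calc 2 * ((D : ℝ) * n * Real.exp 1 ^ r) = 2 * D * Real.exp 1 ^ r * n := by ring
      _ ≤ 2 ^ r * D ^ r * Real.exp 1 ^ r * n := by gcongr
      _ ≤ _ := h3.trans h5
  have h8 : (2 * ((D : ℝ) * n * Real.exp 1 ^ r)) ^ k ≤
      Real.exp ((k : ℝ) * r) * ((k * r).factorial : ℝ) := by
    calc (2 * ((D : ℝ) * n * Real.exp 1 ^ r)) ^ k ≤ (((k : ℝ) * r) ^ r) ^ k :=
          pow_le_pow_left₀ (by positivity) h2 k
      _ = ((k : ℝ) * r) ^ (k * r) := by rw [← pow_mul, mul_comm r k]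
      _ ≤ _ := h1
  have h9 : Real.exp ((k : ℝ) * r) = (Real.exp 1 ^ r) ^ k := by
    rw [← pow_mul, ← Real.exp_nat_mul]
    congr 1
    push_cast
    ring
  rw [h9] at h8
  have h10 : (2 : ℝ) ^ k * ((D : ℝ) ^ k * (n : ℝ) ^ k) ≤ ((k * r).factorial : ℝ) := by
    have h11 : (0 : ℝ) < (Real.exp 1 ^ r) ^ k := by positivity
    have h12 : (Real.exp 1 ^ r) ^ k * ((2 : ℝ) ^ k * ((D : ℝ) ^ k * (n : ℝ) ^ k)) ≤
        (Real.exp 1 ^ r) ^ k * ((k * r).factorial : ℝ) := by
      calc _ = (2 * ((D : ℝ) * n * Real.exp 1 ^ r)) ^ k := by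
            rw [mul_pow, mul_pow, mul_pow]; ring
        _ ≤ _ := h8
    exact le_of_mul_le_mul_left h12 h11
  rw [div_le_iff₀ hf0, one_div, inv_pow, ← div_eq_inv_mul, le_div_iff₀ (by positivity)]
  linarith [h10, mul_comm ((2 : ℝ) ^ k) ((D : ℝ) ^ k * (n : ℝ) ^ k)]

open Classical in
theorem bad_le {r n D k : ℕ} (hr : 1 ≤ r) {Ps : Finset (Finset ℕ)}
    (hB : ∀ x : Fin k × Fin r → ℕ, Function.Injective x →
      (univ.filter (fun π : Equiv.Perm (Fin k × Fin r) => Clq Ps (fun p => x (π p)))).card ≤
        D ^ k * k.factorial) :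
    (((matchings r n).filter (fun M => k ≤ zmax Ps M)).card : ℝ) / (matchings r n).card ≤
      ((D : ℝ) ^ k * (n : ℝ) ^ k) / ((k * r).factorial : ℝ) := by
  obtain ⟨F, hF, h1, h2⟩ := freq (r := r) (n := n) hr (fun M => k ≤ zmax Ps M)
  have h3 := big_clique (n := n) hr hB
  have h1' : ((univ : Finset (Om r n)).filter (fun ω => k ≤ zmax Ps (MM ω))).card =
      ((matchings r n).filter (fun M => k ≤ zmax Ps M)).card * F := by
    convert h1
  rw [h1', h2] at h3
  have h4 : ((matchings r n).filter (fun M => k ≤ zmax Ps M)).card * (k * r).factorial ≤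
      (matchings r n).card * (D ^ k * n ^ k) := by
    have h5 : F * (((matchings r n).filter (fun M => k ≤ zmax Ps M)).card * (k * r).factorial) ≤
        F * ((matchings r n).card * (D ^ k * n ^ k)) := by
      calc _ = ((matchings r n).filter (fun M => k ≤ zmax Ps M)).card * F *
            (k * r).factorial := by ring
        _ ≤ _ := h3
        _ = _ := by ring
    exact Nat.le_of_mul_le_mul_left h5 hF
  have hne : Nonempty (Om r n) := by
    refine ⟨Fintype.equivOfCardEq ?_⟩
    rw [Fintype.card_prod, Fintype.card_fin, Fintype.card_fin, Fintype.card_fin, mul_comm]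
  obtain ⟨ω0⟩ := hne
  have hm : (0 : ℝ) < (matchings r n).card := by
    exact_mod_cast card_pos.mpr ⟨_, MM_mem hr ω0⟩
  have hf0 : (0 : ℝ) < ((k * r).factorial : ℝ) := by exact_mod_cast Nat.factorial_pos _
  rw [div_le_div_iff₀ hm hf0]
  have h6 : (((matchings r n).filter (fun M => k ≤ zmax Ps M)).card : ℝ) *
      ((k * r).factorial : ℝ) ≤ (matchings r n).card * ((D : ℝ) ^ k * (n : ℝ) ^ k) := by
    exact_mod_cast h4
  linarith

open Classical in
/-- **Upper bound.** Let `r ≥ 1` and let `Ps` be any finite set of pairwise non-harmonious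
`r`-patterns. There is a constant `C > 0` such that the probability that a uniformly random ordered
`r`-matching `M` of size `n` satisfies `zmax Ps M ≤ C n^{1/r}` tends to `1` as `n → ∞`. -/
theorem upper (r : ℕ) (hr : 1 ≤ r) (Ps : Finset (Finset ℕ))
    (hpat : ∀ P ∈ Ps, IsPattern r P)
    (hnh : ∀ P ∈ Ps, ∀ Q ∈ Ps, P ≠ Q → ¬ Harmonious r P Q) :
    ∃ C : ℝ, 0 < C ∧ Tendsto (fun n : ℕ =>
      (((matchings r n).filter (fun M => (zmax Ps M : ℝ) ≤ C * (n : ℝ) ^ ((1 : ℝ) / r))).card : ℝ)
        / ((matchings r n).card : ℝ)) atTop (𝓝 1) := by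
  have hnh' : ∀ P ∈ Ps, ∀ Q ∈ Ps, ¬ Harmonious r P Q :=
    fun P hP Q hQ h => hnh P hP Q hQ h.1 h
  obtain ⟨D, hD, hcount⟩ := count_cliques hr Ps hpat hnh'
  have hD1 : (1 : ℝ) ≤ D := by exact_mod_cast hD
  set C : ℝ := 2 * D * Real.exp 1 with hC
  have hCpos : 0 < C := by positivity
  refine ⟨C, hCpos, ?_⟩
  have hr0 : (0 : ℝ) < r := by exact_mod_cast hr
  let k : ℕ → ℕ := fun n => ⌈C * (n : ℝ) ^ ((1 : ℝ) / r)⌉₊
  have hkt : Tendsto k atTop atTop := by
    apply tendsto_nat_ceil_atTop.comp
    apply Tendsto.const_mul_atTop hCpos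
    exact (tendsto_rpow_atTop (by positivity)).comp tendsto_natCast_atTop_atTop
  have hlow : ∀ n : ℕ, 1 ≤ n → 1 - (1 / 2 : ℝ) ^ (k n) ≤
      (((matchings r n).filter (fun M => (zmax Ps M : ℝ) ≤ C * (n : ℝ) ^ ((1 : ℝ) / r))).card : ℝ)
        / ((matchings r n).card : ℝ) := by
    intro n hn
    have hn0 : (0 : ℝ) < n := by exact_mod_cast hn
    have hk1 : 1 ≤ k n := by
      apply Nat.one_le_iff_ne_zero.mpr
      intro h0
      have := Nat.le_ceil (C * (n : ℝ) ^ ((1 : ℝ) / r))
      have h0' : ⌈C * (n : ℝ) ^ ((1 : ℝ) / r)⌉₊ = 0 := h0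
      rw [h0'] at this
      have h2 : 0 < C * (n : ℝ) ^ ((1 : ℝ) / r) := by positivity
      push_cast at this
      linarith
    have h1 := bad_le (n := n) hr (hcount (k n) hk1)
    have h2 := arith (k := k n) hr hn hD (Nat.le_ceil _)
    have h3 := h1.trans h2
    obtain ⟨ω0⟩ : Nonempty (Om r n) := by
      refine ⟨Fintype.equivOfCardEq ?_⟩
      rw [Fintype.card_prod, Fintype.card_fin, Fintype.card_fin, Fintype.card_fin, mul_comm]
    have hm : (0 : ℝ) < (matchings r n).card := by
      exact_mod_cast card_pos.mpr ⟨_, MM_mem hr ω0⟩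
    have h4 := Finset.card_filter_add_card_filter_not (s := matchings r n)
      (fun M => (zmax Ps M : ℝ) ≤ C * (n : ℝ) ^ ((1 : ℝ) / r))
    have h5 : ((matchings r n).filter
        (fun M => ¬ ((zmax Ps M : ℝ) ≤ C * (n : ℝ) ^ ((1 : ℝ) / r)))).card ≤
        ((matchings r n).filter (fun M => k n ≤ zmax Ps M)).card := by
      apply card_le_card
      intro M hM
      rw [mem_filter] at hM ⊢
      refine ⟨hM.1, ?_⟩
      have h6 := hM.2
      push Not at h6
      exact Nat.ceil_le.mpr h6.le
    have h7 : (((matchings r n).filter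
        (fun M => ¬ ((zmax Ps M : ℝ) ≤ C * (n : ℝ) ^ ((1 : ℝ) / r)))).card : ℝ) /
        (matchings r n).card ≤ (1 / 2 : ℝ) ^ (k n) := by
      refine le_trans ?_ h3
      gcongr
    have h8 : (((matchings r n).filter (fun M => (zmax Ps M : ℝ) ≤
        C * (n : ℝ) ^ ((1 : ℝ) / r))).card : ℝ) + (((matchings r n).filter
        (fun M => ¬ ((zmax Ps M : ℝ) ≤ C * (n : ℝ) ^ ((1 : ℝ) / r)))).card : ℝ) =
        (matchings r n).card := by exact_mod_cast h4
    have h9 : (((matchings r n).filter (fun M => (zmax Ps M : ℝ) ≤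
        C * (n : ℝ) ^ ((1 : ℝ) / r))).card : ℝ) / (matchings r n).card =
        1 - (((matchings r n).filter
        (fun M => ¬ ((zmax Ps M : ℝ) ≤ C * (n : ℝ) ^ ((1 : ℝ) / r)))).card : ℝ) /
        (matchings r n).card := by
      rw [eq_sub_iff_add_eq, ← add_div, h8, div_self hm.ne']
    rw [h9]
    linarith
  have hup : ∀ n : ℕ, (((matchings r n).filter (fun M => (zmax Ps M : ℝ) ≤
      C * (n : ℝ) ^ ((1 : ℝ) / r))).card : ℝ) / ((matchings r n).card : ℝ) ≤ 1 := by
    intro n
    apply div_le_one_of_le₀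
    · exact_mod_cast card_filter_le _ _
    · positivity
  have hlim : Tendsto (fun n : ℕ => 1 - (1 / 2 : ℝ) ^ (k n)) atTop (𝓝 1) := by
    have h1 : Tendsto (fun n : ℕ => (1 / 2 : ℝ) ^ (k n)) atTop (𝓝 0) :=
      (tendsto_pow_atTop_nhds_zero_of_lt_one (by norm_num) (by norm_num)).comp hkt
    have h2 := h1.const_sub 1
    simpa using h2
  refine tendsto_of_tendsto_of_tendsto_of_le_of_le' hlim tendsto_const_nhds ?_ ?_
  · filter_upwards [eventually_ge_atTop 1] with n hn
    exact hlow n hn
  · exact Eventually.of_forall hup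

end Pool.Agent.V11326.OrdUpper
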