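import Pool.Agent.V11326.WK

/-! Boxes around the points `v_n α`, `α ∈ ℝ ^ ι`, without integer points of thin sets, for countably many families of sets
at once. -/

set_option autoImplicit false

open Finset Filter Topology MeasureTheory

namespace Pool.Agent.V11326.WI

open Pool.Agent.Y854.GM

/-- countably many families of objects with values in a normed space -/
theorem windowsKC {E T : Type} [NormedAddCommGroup E] [NormedSpace ℝ E] [MeasurableSpace E] [BorelSpace E]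
    (S : ℕ → ℕ → Set T) (h : ℕ → ℕ → T → E) {v : ℕ → ℝ} {s τ θ : ℝ} (hpos : ∀ n, 1 ≤ v n)
    (hτ : 0 ≤ τ) (hv : ExpLe v τ) (hs : 0 ≤ s) (hθ1 : θ < 1)
    (hS : ∀ (j A : ℕ) (ε : ℝ), 0 < ε → ∃ (C : ℝ) (n₁ : ℕ), ∀ n : ℕ, n₁ ≤ n →
      {t | t ∈ S j n ∧ ‖h j n t‖ ≤ ((A : ℝ) + 1) * v n}.Finite ∧
      ({t | t ∈ S j n ∧ ‖h j n t‖ ≤ ((A : ℝ) + 1) * v n}.ncard : ℝ) ≤ C * (v n) ^ (s + ε)) :
    ∃ F : Set E, dimH F ≤ ENNReal.ofReal ((s + τ) / (1 - θ)) ∧ ∀ α : E, α ∉ F → ∀ j : ℕ,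
      ∃ n0 : ℕ, ∀ n : ℕ, n0 ≤ n → ∀ t ∈ S j n, (v n) ^ θ < ‖h j n t - v n • α‖ := by
  have hall : ∀ j : ℕ, ∃ F : Set E, dimH F ≤ ENNReal.ofReal ((s + τ) / (1 - θ)) ∧ ∀ α : E, α ∉ F →
      ∃ n0 : ℕ, ∀ n : ℕ, n0 ≤ n → ∀ t ∈ S j n, (v n) ^ θ < ‖h j n t - v n • α‖ := fun j =>
    Pool.Agent.V11326.WK.windowsK (S j) (h j) hpos hτ hv hs hθ1 (hS j)
  choose F hF1 hF2 using hall
  refine ⟨⋃ j, F j, ?_, fun α hα j => hF2 j α fun h => hα (Set.mem_iUnion.2 ⟨j, h⟩)⟩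
  rw [dimH_iUnion]
  exact iSup_le hF1

/-- Sets `S j n` of integer points with at most `C T ^ s` elements in `[-T, T] ^ ι`. For all `α` outside a set of dimension
at most `(s + τ) / (1 - θ)`, all `j` and all large `n` no integer point `m` with `|m_i - α_i v_n| ≤ v_n ^ θ` for all `i` is
in `S j n`. -/
theorem box_windows {ι : Type} [Fintype ι] {s : ℝ} (hs : 0 ≤ s) (S : ℕ → ℕ → Set (ι → ℤ)) (C : ℕ → ℝ)
    (hS : ∀ j n T : ℕ, 1 ≤ T → {m : ι → ℤ | m ∈ S j n ∧ ∀ i, |m i| ≤ T}.Finite ∧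
      ({m : ι → ℤ | m ∈ S j n ∧ ∀ i, |m i| ≤ T}.ncard : ℝ) ≤ C j * (T : ℝ) ^ s)
    {v : ℕ → ℝ} {τ θ : ℝ} (hpos : ∀ n, 1 ≤ v n) (hτ : 0 ≤ τ) (hv : ExpLe v τ) (hθ1 : θ < 1) :
    ∃ F : Set (ι → ℝ), dimH F ≤ ENNReal.ofReal ((s + τ) / (1 - θ)) ∧ ∀ α : ι → ℝ, α ∉ F → ∀ j : ℕ,
      ∃ n₀ : ℕ, ∀ n : ℕ, n₀ ≤ n → ∀ m : ι → ℤ, (∀ i, |(m i : ℝ) - α i * v n| ≤ (v n) ^ θ) → m ∉ S j n := by
  obtain ⟨F, hF, h⟩ := windowsKC (E := ι → ℝ) S (fun _ _ m => fun i => (m i : ℝ)) (s := s) hpos hτ hv hs hθ1 (by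
    intro j A ε hε
    refine ⟨|C j| * ((A : ℝ) + 1) ^ s, 0, fun n _ => ?_⟩
    have hv1 := hpos n
    have hA : (0 : ℝ) ≤ A := Nat.cast_nonneg A
    have hX : 1 ≤ ((A : ℝ) + 1) * v n := by nlinarith
    have hX0 : 0 ≤ ((A : ℝ) + 1) * v n := by linarith
    obtain ⟨T, hT⟩ : ∃ T : ℕ, T = ⌊((A : ℝ) + 1) * v n⌋₊ := ⟨_, rfl⟩
    have hT1 : 1 ≤ T := by
      rw [hT]
      exact Nat.le_floor (by exact_mod_cast hX)
    have hTX : (T : ℝ) ≤ ((A : ℝ) + 1) * v n := by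
      rw [hT]
      exact Nat.floor_le hX0
    have e1 : {m : ι → ℤ | m ∈ S j n ∧ ‖(fun i => (m i : ℝ))‖ ≤ ((A : ℝ) + 1) * v n} ⊆
        {m : ι → ℤ | m ∈ S j n ∧ ∀ i, |m i| ≤ T} := by
      rintro m ⟨h1, h2⟩
      refine ⟨h1, fun i => ?_⟩
      rw [pi_norm_le_iff_of_nonneg hX0] at h2
      have h3 := h2 i
      rw [Real.norm_eq_abs] at h3
      have h4 : ((m i).natAbs : ℝ) ≤ ((A : ℝ) + 1) * v n := by
        rw [Nat.cast_natAbs]
        push_cast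
        exact h3
      have h5 : (m i).natAbs ≤ T := by
        rw [hT]
        exact Nat.le_floor h4
      rw [Int.abs_eq_natAbs]
      exact_mod_cast h5
    obtain ⟨h1, h2⟩ := hS j n T hT1
    refine ⟨h1.subset e1, ?_⟩
    have h3 : (T : ℝ) ^ s ≤ (((A : ℝ) + 1) * v n) ^ s := Real.rpow_le_rpow (Nat.cast_nonneg _) hTX hs
    calc ({m : ι → ℤ | m ∈ S j n ∧ ‖(fun i => (m i : ℝ))‖ ≤ ((A : ℝ) + 1) * v n}.ncard : ℝ)
        ≤ ({m : ι → ℤ | m ∈ S j n ∧ ∀ i, |m i| ≤ T}.ncard : ℝ) := by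
          exact_mod_cast Set.ncard_le_ncard e1 h1
      _ ≤ C j * (T : ℝ) ^ s := h2
      _ ≤ |C j| * (((A : ℝ) + 1) * v n) ^ s :=
          mul_le_mul (le_abs_self _) h3 (Real.rpow_nonneg (Nat.cast_nonneg _) _) (abs_nonneg _)
      _ = |C j| * ((A : ℝ) + 1) ^ s * (v n) ^ s := by
          rw [Real.mul_rpow (by positivity) (by linarith), ← mul_assoc]
      _ ≤ |C j| * ((A : ℝ) + 1) ^ s * (v n) ^ (s + ε) := by
          apply mul_le_mul_of_nonneg_left _ (by positivity)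
          exact Real.rpow_le_rpow_of_exponent_le hv1 (by linarith))
  refine ⟨F, hF, fun α hα j => ?_⟩
  obtain ⟨n₀, hn⟩ := h α hα j
  refine ⟨n₀, fun n hn1 m hw hm => ?_⟩
  refine absurd ?_ (not_le.2 (hn n hn1 m hm))
  rw [pi_norm_le_iff_of_nonneg (Real.rpow_nonneg (by linarith [hpos n]) _)]
  intro i
  rw [Pi.sub_apply, Pi.smul_apply, smul_eq_mul, Real.norm_eq_abs, mul_comm (v n)]
  exact hw i

/-- a set of dimension less than `card ι` in `ℝ ^ ι` has measure zero -/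
theorem volume_zero {ι : Type} [Fintype ι] {F : Set (ι → ℝ)} {D : ℝ} (hD0 : 0 ≤ D) (hF : dimH F ≤ ENNReal.ofReal D)
    (hD : D < Fintype.card ι) : volume F = 0 := by
  have h1 : dimH F < ((Fintype.card ι : NNReal) : ENNReal) := by
    refine lt_of_le_of_lt hF ?_
    have : ((Fintype.card ι : NNReal) : ENNReal) = ENNReal.ofReal (Fintype.card ι : ℝ) := by
      rw [ENNReal.ofReal_natCast]
      rfl
    rw [this]
    exact (ENNReal.ofReal_lt_ofReal_iff (lt_of_le_of_lt hD0 hD)).2 hD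
  have h2 := hausdorffMeasure_of_dimH_lt h1
  have h3 : (Measure.hausdorffMeasure (Fintype.card ι) : Measure (ι → ℝ)) = volume := hausdorffMeasure_pi_real
  rw [← h3]
  exact_mod_cast h2

/-- the dimension bound `(k - c + τ) / (1 - θ)` is smaller than `k` if `τ + k θ < c` -/
theorem null {ι : Type} [Fintype ι] {F : Set (ι → ℝ)} {c τ θ : ℝ} (hc : c ≤ Fintype.card ι) (hτ : 0 ≤ τ) (hθ1 : θ < 1)
    (hF : dimH F ≤ ENNReal.ofReal (((Fintype.card ι : ℝ) - c + τ) / (1 - θ)))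
    (h : τ + Fintype.card ι * θ < c) : volume F = 0 := by
  have h1 : 0 < 1 - θ := by linarith
  refine volume_zero (div_nonneg (by linarith) h1.le) hF ?_
  rw [div_lt_iff₀ h1]
  nlinarith

end Pool.Agent.V11326.WI
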