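import Pool.Agent.V11326.WK

/-! Windows (boxes) around the points `v_n α`, `α ∈ ℝ ^ k`, without tuples of natural numbers of thin sets. -/

set_option autoImplicit false

open Finset Filter Topology MeasureTheory

namespace Pool.Agent.V11326.WT

open Pool.Agent.Y854.GM

/-- Sets `S j n` of `k`-tuples of natural numbers with at most `C T ^ (k - c)` elements in `[0, T] ^ k`. For all `α` outside
a set of dimension at most `(k - c + τ) / (1 - θ)`, all `j` and all large `n` no tuple `m` with `|m_i - α_i v_n| ≤ v_n ^ θ`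
for all `i` is in `S j n`. -/
theorem tuple_windows {k : ℕ} {c : ℝ} (hck : c ≤ k) (S : ℕ → ℕ → Set (Fin k → ℕ)) (C : ℕ → ℝ)
    (hS : ∀ j n T : ℕ, 1 ≤ T → {m : Fin k → ℕ | m ∈ S j n ∧ ∀ i, m i ≤ T}.Finite ∧
      ({m : Fin k → ℕ | m ∈ S j n ∧ ∀ i, m i ≤ T}.ncard : ℝ) ≤ C j * (T : ℝ) ^ ((k : ℝ) - c))
    {v : ℕ → ℝ} {τ θ : ℝ} (hpos : ∀ n, 1 ≤ v n) (hτ : 0 ≤ τ) (hv : ExpLe v τ) (hθ1 : θ < 1) :
    ∃ F : Set (Fin k → ℝ), dimH F ≤ ENNReal.ofReal (((k : ℝ) - c + τ) / (1 - θ)) ∧ ∀ α : Fin k → ℝ, α ∉ F → ∀ j : ℕ,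
      ∃ n₀ : ℕ, ∀ n : ℕ, n₀ ≤ n → ∀ m : Fin k → ℕ, (∀ i, |(m i : ℝ) - α i * v n| ≤ (v n) ^ θ) → m ∉ S j n := by
  have hall : ∀ j : ℕ, ∃ F : Set (Fin k → ℝ), dimH F ≤ ENNReal.ofReal (((k : ℝ) - c + τ) / (1 - θ)) ∧
      ∀ α : Fin k → ℝ, α ∉ F → ∃ n₀ : ℕ, ∀ n : ℕ, n₀ ≤ n → ∀ m ∈ S j n,
        (v n) ^ θ < ‖(fun i => (m i : ℝ)) - v n • α‖ := by
    intro j
    refine Pool.Agent.V11326.WK.windowsK (E := Fin k → ℝ) (fun n => S j n) (fun _ m => fun i => (m i : ℝ))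
      (s := (k : ℝ) - c) hpos hτ hv (by linarith) hθ1 ?_
    intro A ε hε
    refine ⟨|C j| * ((A : ℝ) + 1) ^ ((k : ℝ) - c), 0, fun n _ => ?_⟩
    have hv1 := hpos n
    have hA : (0 : ℝ) ≤ A := Nat.cast_nonneg A
    have hX : 1 ≤ ((A : ℝ) + 1) * v n := by nlinarith
    have hX0 : 0 ≤ ((A : ℝ) + 1) * v n := by linarith
    obtain ⟨T, hT⟩ : ∃ T : ℕ, T = ⌊((A : ℝ) + 1) * v n⌋₊ := ⟨_, rfl⟩
    have hT1 : 1 ≤ T := by
      rw [hT]
      exact Nat.le_floor (by exact_mod_cast hX)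
    have hTX : (T : ℝ) ≤ ((A : ℝ) + 1) * v n := by
      rw [hT]
      exact Nat.floor_le hX0
    have e1 : {m : Fin k → ℕ | m ∈ S j n ∧ ‖(fun i => (m i : ℝ))‖ ≤ ((A : ℝ) + 1) * v n} ⊆
        {m : Fin k → ℕ | m ∈ S j n ∧ ∀ i, m i ≤ T} := by
      rintro m ⟨h1, h2⟩
      refine ⟨h1, fun i => ?_⟩
      rw [pi_norm_le_iff_of_nonneg hX0] at h2
      have h3 := h2 i
      rw [Real.norm_eq_abs, abs_of_nonneg (Nat.cast_nonneg _)] at h3
      rw [hT]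
      exact Nat.le_floor h3
    obtain ⟨h1, h2⟩ := hS j n T hT1
    refine ⟨h1.subset e1, ?_⟩
    have h3 : (T : ℝ) ^ ((k : ℝ) - c) ≤ (((A : ℝ) + 1) * v n) ^ ((k : ℝ) - c) :=
      Real.rpow_le_rpow (Nat.cast_nonneg _) hTX (by linarith)
    calc ({m : Fin k → ℕ | m ∈ S j n ∧ ‖(fun i => (m i : ℝ))‖ ≤ ((A : ℝ) + 1) * v n}.ncard : ℝ)
        ≤ ({m : Fin k → ℕ | m ∈ S j n ∧ ∀ i, m i ≤ T}.ncard : ℝ) := by
          exact_mod_cast Set.ncard_le_ncard e1 h1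
      _ ≤ C j * (T : ℝ) ^ ((k : ℝ) - c) := h2
      _ ≤ |C j| * (((A : ℝ) + 1) * v n) ^ ((k : ℝ) - c) :=
          mul_le_mul (le_abs_self _) h3 (Real.rpow_nonneg (Nat.cast_nonneg _) _) (abs_nonneg _)
      _ = |C j| * ((A : ℝ) + 1) ^ ((k : ℝ) - c) * (v n) ^ ((k : ℝ) - c) := by
          rw [Real.mul_rpow (by positivity) (by linarith), ← mul_assoc]
      _ ≤ |C j| * ((A : ℝ) + 1) ^ ((k : ℝ) - c) * (v n) ^ ((k : ℝ) - c + ε) := by
          apply mul_le_mul_of_nonneg_left _ (by positivity)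
          exact Real.rpow_le_rpow_of_exponent_le hv1 (by linarith)
  choose F hF1 hF2 using hall
  refine ⟨⋃ j, F j, ?_, fun α hα j => ?_⟩
  · rw [dimH_iUnion]
    exact iSup_le hF1
  · obtain ⟨n₀, hn⟩ := hF2 j α fun h => hα (Set.mem_iUnion.2 ⟨j, h⟩)
    refine ⟨n₀, fun n hn1 m hw hm => ?_⟩
    refine absurd ?_ (not_le.2 (hn n hn1 m hm))
    rw [pi_norm_le_iff_of_nonneg (Real.rpow_nonneg (by linarith [hpos n]) _)]
    intro i
    rw [Pi.sub_apply, Pi.smul_apply, smul_eq_mul, Real.norm_eq_abs, mul_comm (v n)]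
    exact hw i

/-- a set of dimension less than `k` in `ℝ ^ k` has measure zero -/
theorem volume_zero {k : ℕ} {F : Set (Fin k → ℝ)} {D : ℝ} (hD0 : 0 ≤ D) (hF : dimH F ≤ ENNReal.ofReal D) (hD : D < k) :
    volume F = 0 := by
  have h1 : dimH F < ((k : NNReal) : ENNReal) := by
    refine lt_of_le_of_lt hF ?_
    have : ((k : NNReal) : ENNReal) = ENNReal.ofReal (k : ℝ) := by
      rw [ENNReal.ofReal_natCast]
      rfl
    rw [this]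
    exact (ENNReal.ofReal_lt_ofReal_iff (lt_of_le_of_lt hD0 hD)).2 hD
  have h2 := hausdorffMeasure_of_dimH_lt h1
  have h3 : (Measure.hausdorffMeasure (Fintype.card (Fin k)) : Measure (Fin k → ℝ)) = volume :=
    hausdorffMeasure_pi_real
  rw [Fintype.card_fin] at h3
  rw [← h3]
  exact_mod_cast h2

end Pool.Agent.V11326.WT
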