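import Pool.Agent.V11326.WO1

/-! Families of sets `S i n` depending on the scale `n`, contained in exceptional sets `E i X` for `X ^ e ≥ v_n`: windows
for all members of the family at once. -/

set_option autoImplicit false

open Finset Filter Topology MeasureTheory

namespace Pool.Agent.V11326.WOE

open Pool.Agent.Y854.GM

theorem scaled {ι T : Type} [Countable ι] {e ν : ℝ} (he : 0 < e) (hν : 0 < ν) (C : ι → ℝ) (E : ι → ℝ → Set T)
    (hE : ∀ i, ∀ X : ℝ, 1 ≤ X → (E i X).Finite ∧ ((E i X).ncard : ℝ) ≤ C i * X ^ (e - ν))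
    {v : ℕ → ℝ} {τ θ : ℝ} (hpos : ∀ n, 1 ≤ v n) (hτ : 0 ≤ τ) (hv : ExpLe v τ) (hθ1 : θ < 1) (S : ι → ℕ → Set T)
    (N : ι → T → ℝ) (hS : ∀ i n, ∀ X : ℝ, v n ≤ X ^ e → 1 ≤ X → ∀ x ∈ S i n, N i x ≤ Real.log X → x ∈ E i X) :
    ∃ F : Set ℝ, dimH F ≤ ENNReal.ofReal ((1 - min (ν / e) 1 + τ) / (1 - θ)) ∧
      (τ + θ < min (ν / e) 1 → volume F = 0) ∧
      ∀ β : ℝ, β ∉ F → ∀ i, ∃ n₀ : ℕ, ∀ n : ℕ, n₀ ≤ n → ∀ x : T,
          |Real.exp (e * N i x) - β * v n| ≤ (v n) ^ θ → x ∉ S i n := by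
  have hs : 0 ≤ 1 - min (ν / e) 1 := by linarith [min_le_right (ν / e) 1]
  have h1θ : 0 < 1 - θ := by linarith
  have hall : ∀ i, ∃ F : Set ℝ, dimH F ≤ ENNReal.ofReal ((1 - min (ν / e) 1 + τ) / (1 - θ)) ∧ ∀ β : ℝ, β ∉ F →
      ∃ n₀ : ℕ, ∀ n : ℕ, n₀ ≤ n → ∀ x ∈ S i n, (v n) ^ θ < ‖Real.exp (e * N i x) - v n • β‖ := by
    intro i
    refine Pool.Agent.V11326.WK.windowsK (E := ℝ) (S i) (fun _ x => Real.exp (e * N i x))
      (s := 1 - min (ν / e) 1) hpos hτ hv hs hθ1 ?_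
    intro A ε hε
    refine ⟨|C i| * ((A : ℝ) + 1) ^ (1 - min (ν / e) 1), 0, fun n _ => ?_⟩
    have hv1 := hpos n
    have hA : (0 : ℝ) ≤ A := Nat.cast_nonneg A
    have hX : 1 ≤ ((A : ℝ) + 1) * v n := by nlinarith
    have hX0 : 0 < ((A : ℝ) + 1) * v n := by linarith
    obtain ⟨X, hXdef⟩ : ∃ X : ℝ, X = (((A : ℝ) + 1) * v n) ^ (1 / e) := ⟨_, rfl⟩
    have hX1 : 1 ≤ X := by
      rw [hXdef]
      exact Real.one_le_rpow hX (by positivity)
    have hXe : X ^ e = ((A : ℝ) + 1) * v n := by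
      rw [hXdef, ← Real.rpow_mul hX0.le, one_div, inv_mul_cancel₀ he.ne', Real.rpow_one]
    have e1 : {x : T | x ∈ S i n ∧ ‖Real.exp (e * N i x)‖ ≤ ((A : ℝ) + 1) * v n} ⊆ E i X := by
      rintro x ⟨h1, h3⟩
      rw [Real.norm_eq_abs, abs_of_pos (Real.exp_pos _)] at h3
      have h4 : e * N i x ≤ Real.log (((A : ℝ) + 1) * v n) := (Real.le_log_iff_exp_le hX0).2 h3
      refine hS i n X ?_ hX1 x h1 ?_
      · rw [hXe]
        nlinarith
      · rw [hXdef, Real.log_rpow hX0, one_div, inv_mul_eq_div, le_div_iff₀ he, mul_comm]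
        exact h4
    obtain ⟨h2, h3⟩ := hE i X hX1
    refine ⟨h2.subset e1, ?_⟩
    have h5 : e - ν ≤ e * (1 - min (ν / e) 1) := by
      have h6 : e * min (ν / e) 1 ≤ ν := by
        calc e * min (ν / e) 1 ≤ e * (ν / e) := mul_le_mul_of_nonneg_left (min_le_left _ _) he.le
          _ = ν := by field_simp
      linarith
    calc ({x : T | x ∈ S i n ∧ ‖Real.exp (e * N i x)‖ ≤ ((A : ℝ) + 1) * v n}.ncard : ℝ)
        ≤ ((E i X).ncard : ℝ) := by exact_mod_cast Set.ncard_le_ncard e1 h2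
      _ ≤ C i * X ^ (e - ν) := h3
      _ ≤ |C i| * X ^ (e * (1 - min (ν / e) 1)) :=
          mul_le_mul (le_abs_self _) (Real.rpow_le_rpow_of_exponent_le hX1 h5) (by positivity) (abs_nonneg _)
      _ = |C i| * ((A : ℝ) + 1) ^ (1 - min (ν / e) 1) * (v n) ^ (1 - min (ν / e) 1) := by
          rw [Real.rpow_mul (by linarith), hXe, Real.mul_rpow (by positivity) (by linarith), ← mul_assoc]
      _ ≤ |C i| * ((A : ℝ) + 1) ^ (1 - min (ν / e) 1) * (v n) ^ (1 - min (ν / e) 1 + ε) := by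
          apply mul_le_mul_of_nonneg_left _ (by positivity)
          exact Real.rpow_le_rpow_of_exponent_le hv1 (by linarith)
  choose F hF1 hF2 using hall
  have hdim : dimH (⋃ i, F i) ≤ ENNReal.ofReal ((1 - min (ν / e) 1 + τ) / (1 - θ)) := by
    rw [dimH_iUnion]
    exact iSup_le hF1
  refine ⟨⋃ i, F i, hdim, fun hc => Pool.Agent.V11326.WO1.null hdim ?_, fun β hβ i => ?_⟩
  · rw [div_lt_iff₀ h1θ]
    linarith
  · obtain ⟨n₀, hn⟩ := hF2 i β fun h => hβ (Set.mem_iUnion.2 ⟨i, h⟩)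
    refine ⟨n₀, fun n hn1 x hw hx => ?_⟩
    refine absurd ?_ (not_le.2 (hn n hn1 x hx))
    rw [smul_eq_mul, Real.norm_eq_abs, mul_comm (v n)]
    exact hw

end Pool.Agent.V11326.WOE
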