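import Pool.Agent.Y854.GM.WinV

/-! Windows around the members `α v_n` of a thin sequence: objects with an unusually large value of some quantity, where
the threshold is a power of the height. -/

set_option autoImplicit false

open Finset Filter Topology MeasureTheory

namespace Pool.Agent.V11326.WE

open Pool.Agent.Y854.GM

/-- in a window around `α v` powers of `v` are smaller than larger powers of the members of the window -/
theorem eventually_pow {v : ℕ → ℝ} (hpos : ∀ n, 1 ≤ v n) (hv : Tendsto v atTop atTop) {θ α ρ' ρ : ℝ} (hθ1 : θ < 1)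
    (hα : 0 < α) (h0 : 0 ≤ ρ) (hρ : ρ' < ρ) :
    ∀ᶠ n : ℕ in atTop, ∀ x : ℝ, |x - α * v n| ≤ (v n) ^ θ → 0 < x ∧ (v n) ^ ρ' ≤ x ^ ρ := by
  have h1 : Tendsto (fun n => (v n) ^ (1 - θ)) atTop atTop := (tendsto_rpow_atTop (by linarith)).comp hv
  have h2 : Tendsto (fun n => (v n) ^ (ρ - ρ')) atTop atTop := (tendsto_rpow_atTop (by linarith)).comp hv
  filter_upwards [h1.eventually_ge_atTop (2 / α), h2.eventually_ge_atTop ((2 / α) ^ ρ)] with n hn1 hn2 x hx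
  have hn0 : 0 < v n := lt_of_lt_of_le one_pos (hpos n)
  have hx1 : α / 2 * v n ≤ x := by
    have h3 : (v n) ^ θ ≤ α / 2 * v n := by
      have h4 : (v n) ^ θ * (2 / α) ≤ v n := by
        calc (v n) ^ θ * (2 / α) ≤ (v n) ^ θ * (v n) ^ (1 - θ) :=
              mul_le_mul_of_nonneg_left hn1 (Real.rpow_nonneg hn0.le _)
          _ = v n := by
              rw [← Real.rpow_add hn0]
              simp
      calc (v n) ^ θ = α / 2 * ((v n) ^ θ * (2 / α)) := by field_simp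
        _ ≤ α / 2 * v n := mul_le_mul_of_nonneg_left h4 (by positivity)
    have h5 := (abs_le.1 hx).1
    have h6 : α / 2 * v n + α / 2 * v n = α * v n := by ring
    linarith
  have hx0 : 0 < x := lt_of_lt_of_le (by positivity) hx1
  refine ⟨hx0, ?_⟩
  have h7 : (α / 2 * v n) ^ ρ ≤ x ^ ρ := Real.rpow_le_rpow (by positivity) hx1 h0
  refine le_trans ?_ h7
  rw [Real.mul_rpow (by positivity) hn0.le]
  have h8 : (2 / α) ^ ρ * (α / 2) ^ ρ = 1 := by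
    rw [← Real.mul_rpow (by positivity) (by positivity)]
    have : 2 / α * (α / 2) = 1 := by field_simp
    rw [this, Real.one_rpow]
  calc (v n) ^ ρ' = ((2 / α) ^ ρ * (α / 2) ^ ρ) * (v n) ^ ρ' := by rw [h8, one_mul]
    _ ≤ ((v n) ^ (ρ - ρ') * (α / 2) ^ ρ) * (v n) ^ ρ' := by
        apply mul_le_mul_of_nonneg_right _ (Real.rpow_nonneg hn0.le _)
        exact mul_le_mul_of_nonneg_right hn2 (by positivity)
    _ = (α / 2) ^ ρ * ((v n) ^ (ρ - ρ') * (v n) ^ ρ') := by ring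
    _ = (α / 2) ^ ρ * (v n) ^ ρ := by
        rw [← Real.rpow_add hn0]
        congr 2
        ring

/-- The sets `Bd Z` decrease with `Z`, and `Bd (X ^ β)` has `O (X ^ (s + ε))` elements of height at most `X`. For `α > 0`
outside a set of dimension at most `(s + τ) / (1 - θ)`, each `ρ > β` and all large `n` no element `t` with
`|h t - α v_n| ≤ v_n ^ θ` belongs to `Bd ((h t) ^ ρ)`. -/
theorem windowsExp {T : Type} (Bd : ℝ → Set T) (h : T → ℝ) {v : ℕ → ℝ} {s τ θ β : ℝ} (hpos : ∀ n, 1 ≤ v n)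
    (hτ : 0 ≤ τ) (hv : ExpLe v τ) (hs : 0 ≤ s) (hθ1 : θ < 1) (hβ : 0 ≤ β)
    (hanti : ∀ Y Z : ℝ, Y ≤ Z → Bd Z ⊆ Bd Y)
    (hcount : ∀ ε : ℝ, 0 < ε → ∃ C X₀ : ℝ, ∀ X : ℝ, X₀ ≤ X → {t | t ∈ Bd (X ^ β) ∧ h t ≤ X}.Finite ∧
      ({t | t ∈ Bd (X ^ β) ∧ h t ≤ X}.ncard : ℝ) ≤ C * X ^ (s + ε)) :
    ∃ E : Set ℝ, dimH E ≤ ENNReal.ofReal ((s + τ) / (1 - θ)) ∧ ∀ α : ℝ, 0 < α → α ∉ E → ∀ ρ : ℝ, β < ρ →
      ∃ n0 : ℕ, ∀ n : ℕ, n0 ≤ n → ∀ t : T, |h t - α * v n| ≤ (v n) ^ θ → t ∉ Bd ((h t) ^ ρ) := by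
  have htv : Tendsto v atTop atTop := tendsto_of_expLe (fun k => lt_of_lt_of_le one_pos (hpos k)) hτ hv
  have hall : ∀ j : ℕ, ∃ E : Set ℝ, dimH E ≤ ENNReal.ofReal ((s + τ) / (1 - θ)) ∧
      ∀ α : ℝ, 0 < α → α ∉ E → ∃ k₀ : ℕ, ∀ k : ℕ, k₀ ≤ k →
        ∀ t ∈ Bd ((v k) ^ (β + 1 / ((j : ℝ) + 1))), 1 * (v k) ^ θ < |h t - α * v k| := by
    intro j
    set ρ : ℝ := β + 1 / ((j : ℝ) + 1) with hρ
    have hρ1 : β < ρ := by
      have : (0 : ℝ) < 1 / ((j : ℝ) + 1) := by positivity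
      linarith
    refine windowsV (fun k => Bd ((v k) ^ ρ)) (fun _ => h) 1 hpos hτ hv hs hθ1 ?_
    intro A ε hε
    obtain ⟨C, X₀, hC⟩ := hcount ε hε
    have hA0 : (0 : ℝ) ≤ A := Nat.cast_nonneg A
    have hlarge : ∀ᶠ k : ℕ in atTop, (((A : ℝ) + 1) * v k) ^ β ≤ (v k) ^ ρ := by
      have h1 : Tendsto (fun k => (v k) ^ (ρ - β)) atTop atTop := (tendsto_rpow_atTop (by linarith)).comp htv
      filter_upwards [h1.eventually_ge_atTop (((A : ℝ) + 1) ^ β)] with k hk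
      have hk0 : 0 < v k := lt_of_lt_of_le one_pos (hpos k)
      rw [Real.mul_rpow (by positivity) hk0.le]
      calc ((A : ℝ) + 1) ^ β * (v k) ^ β ≤ (v k) ^ (ρ - β) * (v k) ^ β :=
            mul_le_mul_of_nonneg_right hk (Real.rpow_nonneg hk0.le _)
        _ = (v k) ^ ρ := by
            rw [← Real.rpow_add hk0]
            congr 1
            ring
    obtain ⟨k₁, hk₁⟩ := (hlarge.and (htv.eventually_ge_atTop X₀)).exists_forall_of_atTop
    refine ⟨C * ((A : ℝ) + 1) ^ (s + ε), k₁, fun k hk => ?_⟩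
    obtain ⟨hr1, hr2⟩ := hk₁ k hk
    have hk0 : 0 < v k := lt_of_lt_of_le one_pos (hpos k)
    have hXv : v k ≤ ((A : ℝ) + 1) * v k := by nlinarith
    obtain ⟨hf, hc⟩ := hC (((A : ℝ) + 1) * v k) (hr2.trans hXv)
    have hsub : {t | t ∈ Bd ((v k) ^ ρ) ∧ h t ≤ ((A : ℝ) + 1) * v k} ⊆
        {t | t ∈ Bd ((((A : ℝ) + 1) * v k) ^ β) ∧ h t ≤ ((A : ℝ) + 1) * v k} :=
      fun t ht => ⟨hanti _ _ hr1 ht.1, ht.2⟩
    refine ⟨hf.subset hsub, le_trans (by exact_mod_cast Set.ncard_le_ncard hsub hf) (hc.trans ?_)⟩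
    rw [Real.mul_rpow (by positivity) hk0.le, ← mul_assoc]
  choose E hE1 hE2 using hall
  refine ⟨⋃ j, E j, ?_, fun α hα hαE ρ hρ => ?_⟩
  · rw [dimH_iUnion]
    exact iSup_le hE1
  · obtain ⟨j, hj⟩ := exists_nat_ge (1 / (ρ - β))
    have h1 : 0 < ρ - β := by linarith
    have hjρ : β + 1 / ((j : ℝ) + 1) < ρ := by
      have h2 : 1 / (ρ - β) < (j : ℝ) + 1 := by linarith
      rw [div_lt_iff₀ h1] at h2
      have h3 : 1 / ((j : ℝ) + 1) < ρ - β := by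
        rw [div_lt_iff₀ (by positivity)]
        linarith
      linarith
    obtain ⟨k₀, hk⟩ := hE2 j α hα (fun h => hαE (Set.mem_iUnion.2 ⟨j, h⟩))
    obtain ⟨k₁, hk₁⟩ := (eventually_pow hpos htv hθ1 hα (by linarith) hjρ).exists_forall_of_atTop
    refine ⟨max k₀ k₁, fun k hkk t hw hmem => ?_⟩
    have h2 := (hk₁ k ((le_max_right _ _).trans hkk) (h t) hw).2
    refine absurd (hk k ((le_max_left _ _).trans hkk) t (hanti _ _ h2 hmem)) (not_lt.2 ?_)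
    rw [one_mul]
    exact hw

end Pool.Agent.V11326.WE
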