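import Pool.Agent.V11326.WZ

/-! From dyadic counts to counts of all integers up to `X`. -/

set_option autoImplicit false

open Finset Filter Topology MeasureTheory

namespace Pool.Agent.V11326.WD

/-- If `S` has at most `W D ^ s` elements between `D` and `2 D` for all `D ≥ D₀`, it has at most `M W X ^ (s + ε)` elements
up to `X`, where `M` depends only on `D₀`, `ε`. -/
theorem dyadic (D₀ : ℕ) {ε : ℝ} (hε : 0 < ε) : ∃ M : ℝ, 0 < M ∧ ∀ (s : ℝ), 0 ≤ s → ∀ (S : Set ℕ) (W : ℝ), 1 ≤ W →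
    (∀ D : ℕ, D₀ ≤ D → ({d : ℕ | d ∈ S ∧ D < d ∧ d < 2 * D}.ncard : ℝ) ≤ W * (D : ℝ) ^ s) →
    ∀ X : ℝ, 1 ≤ X → ({d : ℕ | d ∈ S ∧ (d : ℝ) ≤ X}.ncard : ℝ) ≤ M * W * X ^ (s + ε) := by
  classical
  refine ⟨(2 * D₀ + 1) + 2 * (2 / ε + 1), by positivity, fun s hs S W hW hS X hX => ?_⟩
  have hX0 : 0 ≤ X := by linarith
  obtain ⟨N, hN⟩ : ∃ N : ℕ, N = ⌊X⌋₊ := ⟨_, rfl⟩
  have hNX : (N : ℝ) ≤ X := by
    rw [hN]
    exact Nat.floor_le hX0
  have hN1 : 1 ≤ N := by
    rw [hN]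
    exact Nat.le_floor (by exact_mod_cast hX)
  obtain ⟨L, hL⟩ : ∃ L : ℕ, L = Nat.log 2 N := ⟨_, rfl⟩
  have hL2 : 2 ^ L ≤ N := by
    rw [hL]
    exact Nat.pow_log_le_self 2 (by omega)
  have hLX : (2 : ℝ) ^ L ≤ X := by
    refine le_trans ?_ hNX
    exact_mod_cast hL2
  have hXs : 1 ≤ X ^ s := Real.one_le_rpow hX hs
  -- the dyadic pieces
  obtain ⟨T, hT⟩ : ∃ T : ℕ → Set ℕ, T = fun k => if D₀ ≤ 2 ^ k then {d : ℕ | d ∈ S ∧ 2 ^ k < d ∧ d < 2 * 2 ^ k} else ∅ :=
    ⟨_, rfl⟩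
  have hTfin : ∀ k, (T k).Finite := by
    intro k
    rw [hT]
    simp only
    split_ifs
    · exact (Set.finite_Icc 0 (2 * 2 ^ k)).subset fun d hd => ⟨Nat.zero_le _, hd.2.2.le⟩
    · exact Set.finite_empty
  have hTcard : ∀ k, k ≤ L → ((T k).ncard : ℝ) ≤ W * X ^ s := by
    intro k hk
    have h0 : 0 ≤ W * X ^ s := by positivity
    rw [hT]
    simp only
    split_ifs with h1
    · refine (hS (2 ^ k) h1).trans ?_
      apply mul_le_mul_of_nonneg_left _ (by linarith)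
      apply Real.rpow_le_rpow (Nat.cast_nonneg _) _ hs
      refine le_trans ?_ hLX
      push_cast
      exact pow_le_pow_right₀ (by norm_num) hk
    · rw [Set.ncard_empty]
      exact_mod_cast h0
  have hsub : {d : ℕ | d ∈ S ∧ (d : ℝ) ≤ X} ⊆
      (((range (2 * D₀ + 1) ∪ (range (L + 1)).image (fun k => 2 ^ k)) ∪
        (range (L + 1)).biUnion (fun k => (hTfin k).toFinset) : Finset ℕ) : Set ℕ) := by
    rintro d ⟨hdS, hdX⟩
    rw [mem_coe, mem_union, mem_union]
    have hdN : d ≤ N := by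
      rw [hN]
      exact Nat.le_floor hdX
    by_cases hd0 : d < 2 * D₀ + 1
    · left; left
      rw [mem_range]
      exact hd0
    · push Not at hd0
      obtain ⟨k, hk⟩ : ∃ k : ℕ, k = Nat.log 2 d := ⟨_, rfl⟩
      have hk1 : 2 ^ k ≤ d := by
        rw [hk]
        exact Nat.pow_log_le_self 2 (by omega)
      have hk2 : d < 2 ^ (k + 1) := by
        rw [hk]
        exact Nat.lt_pow_succ_log_self (by norm_num) d
      have hkL : k ≤ L := by
        rw [hk, hL]
        exact Nat.log_mono_right hdN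
      rw [pow_succ] at hk2
      by_cases hdk : d = 2 ^ k
      · left; right
        rw [mem_image]
        exact ⟨k, mem_range.2 (Nat.lt_succ_of_le hkL), hdk.symm⟩
      · right
        rw [mem_biUnion]
        refine ⟨k, mem_range.2 (Nat.lt_succ_of_le hkL), ?_⟩
        rw [Set.Finite.mem_toFinset, hT]
        simp only
        have h2 : D₀ ≤ 2 ^ k := by omega
        rw [if_pos h2]
        exact ⟨hdS, lt_of_le_of_ne hk1 (Ne.symm hdk), by omega⟩
  have h1 := Set.ncard_le_ncard hsub (Finset.finite_toSet _)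
  rw [Set.ncard_coe_finset] at h1
  have h2 : ((((range (2 * D₀ + 1) ∪ (range (L + 1)).image (fun k => 2 ^ k)) ∪
        (range (L + 1)).biUnion (fun k => (hTfin k).toFinset) : Finset ℕ).card : ℕ) : ℝ) ≤
      (2 * D₀ + 1) + (L + 1) + (L + 1) * (W * X ^ s) := by
    have h3 : (range (L + 1) |>.biUnion (fun k => (hTfin k).toFinset)).card ≤
        ∑ k ∈ range (L + 1), ((hTfin k).toFinset).card := card_biUnion_le
    have h4 : ((∑ k ∈ range (L + 1), ((hTfin k).toFinset).card : ℕ) : ℝ) ≤ (L + 1) * (W * X ^ s) := by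
      rw [Nat.cast_sum]
      calc ∑ k ∈ range (L + 1), (((hTfin k).toFinset).card : ℝ) ≤ ∑ k ∈ range (L + 1), W * X ^ s := by
            apply sum_le_sum
            intro k hk
            rw [← Set.ncard_eq_toFinset_card _ (hTfin k)]
            exact hTcard k (Nat.lt_succ_iff.1 (mem_range.1 hk))
        _ = (L + 1) * (W * X ^ s) := by
            rw [sum_const, card_range, nsmul_eq_mul]
            push_cast
            ring
    have h5 := card_union_le (range (2 * D₀ + 1) ∪ (range (L + 1)).image (fun k => 2 ^ k))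
      ((range (L + 1)).biUnion (fun k => (hTfin k).toFinset))
    have h6 := card_union_le (range (2 * D₀ + 1)) ((range (L + 1)).image (fun k => 2 ^ k))
    have h7 : ((range (L + 1)).image (fun k => 2 ^ k)).card ≤ L + 1 := by
      refine card_image_le.trans ?_
      rw [card_range]
    rw [card_range] at h6
    have h8 : ((range (2 * D₀ + 1) ∪ (range (L + 1)).image (fun k => 2 ^ k)) ∪
        (range (L + 1)).biUnion (fun k => (hTfin k).toFinset)).card ≤
        (2 * D₀ + 1) + (L + 1) + ∑ k ∈ range (L + 1), ((hTfin k).toFinset).card := by omega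
    calc ((((range (2 * D₀ + 1) ∪ (range (L + 1)).image (fun k => 2 ^ k)) ∪
        (range (L + 1)).biUnion (fun k => (hTfin k).toFinset) : Finset ℕ).card : ℕ) : ℝ)
        ≤ (((2 * D₀ + 1) + (L + 1) + ∑ k ∈ range (L + 1), ((hTfin k).toFinset).card : ℕ) : ℝ) := by exact_mod_cast h8
      _ = (2 * D₀ + 1) + (L + 1) + ((∑ k ∈ range (L + 1), ((hTfin k).toFinset).card : ℕ) : ℝ) := by push_cast; ring
      _ ≤ _ := by linarith
  have h3 : (L : ℝ) ≤ 2 / ε * X ^ ε := by
    have h4 : (L : ℝ) * Real.log 2 ≤ Real.log X := by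
      rw [← Real.log_pow]
      exact Real.log_le_log (by positivity) hLX
    have h5 : Real.log X ≤ X ^ ε / ε := Real.log_le_rpow_div hX0 hε
    have h6 : (1 : ℝ) / 2 ≤ Real.log 2 := by linarith [Real.log_two_gt_d9]
    have h7 : (0 : ℝ) ≤ L := Nat.cast_nonneg L
    have h8 : (L : ℝ) * (1 / 2) ≤ X ^ ε / ε := by nlinarith
    calc (L : ℝ) = 2 * (L * (1 / 2)) := by ring
      _ ≤ 2 * (X ^ ε / ε) := by linarith
      _ = 2 / ε * X ^ ε := by ring
  have hXε : 1 ≤ X ^ ε := Real.one_le_rpow hX hε.le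
  have h4 : (L : ℝ) + 1 ≤ (2 / ε + 1) * X ^ ε := by
    rw [add_mul, one_mul]
    linarith
  have hWX : 1 ≤ W * X ^ s := by nlinarith
  have hεp : 0 ≤ 2 / ε + 1 := by positivity
  have hD : (0 : ℝ) ≤ 2 * D₀ + 1 := by positivity
  calc ({d : ℕ | d ∈ S ∧ (d : ℝ) ≤ X}.ncard : ℝ) ≤ _ := by exact_mod_cast h1
    _ ≤ (2 * D₀ + 1) + (L + 1) + (L + 1) * (W * X ^ s) := h2
    _ ≤ (2 * D₀ + 1) * (W * X ^ s) * X ^ ε + (2 / ε + 1) * X ^ ε * (W * X ^ s) +
        (2 / ε + 1) * X ^ ε * (W * X ^ s) := by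
        have e1 : (2 * (D₀ : ℝ) + 1) ≤ (2 * D₀ + 1) * (W * X ^ s) * X ^ ε := by
          calc (2 * (D₀ : ℝ) + 1) = (2 * D₀ + 1) * 1 * 1 := by ring
            _ ≤ (2 * D₀ + 1) * (W * X ^ s) * X ^ ε := by gcongr
        have e2 : (L : ℝ) + 1 ≤ (2 / ε + 1) * X ^ ε * (W * X ^ s) := by
          calc (L : ℝ) + 1 ≤ (2 / ε + 1) * X ^ ε * 1 := by linarith
            _ ≤ (2 / ε + 1) * X ^ ε * (W * X ^ s) := by gcongr
        have e3 : ((L : ℝ) + 1) * (W * X ^ s) ≤ (2 / ε + 1) * X ^ ε * (W * X ^ s) :=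
          mul_le_mul_of_nonneg_right h4 (by linarith)
        linarith
    _ = ((2 * D₀ + 1) + 2 * (2 / ε + 1)) * W * X ^ (s + ε) := by
        rw [Real.rpow_add (by linarith)]
        ring

end Pool.Agent.V11326.WD
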