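import Pool.Agent.Y854.GM.WinV

/-! Windows around the members `α v_n` of a thin sequence: a fixed set of objects with a height, and countably many such
sets at once. -/

set_option autoImplicit false

open Finset Filter Topology MeasureTheory

namespace Pool.Agent.V11326.WZ

open Pool.Agent.Y854.GM

/-- A fixed set `S` of objects with a height `h`, `O (X ^ (s + ε))` of them of height at most `X`. -/
theorem windowsT {T : Type} (S : Set T) (h : T → ℝ) {v : ℕ → ℝ} {s τ θ : ℝ} (B : ℝ) (hpos : ∀ n, 1 ≤ v n)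
    (hτ : 0 ≤ τ) (hv : ExpLe v τ) (hs : 0 ≤ s) (hθ1 : θ < 1)
    (hS : ∀ ε : ℝ, 0 < ε → ∃ C : ℝ, ∀ X : ℝ, 1 ≤ X → {t | t ∈ S ∧ h t ≤ X}.Finite ∧
      ({t | t ∈ S ∧ h t ≤ X}.ncard : ℝ) ≤ C * X ^ (s + ε)) :
    ∃ E : Set ℝ, dimH E ≤ ENNReal.ofReal ((s + τ) / (1 - θ)) ∧ ∀ α : ℝ, 0 < α → α ∉ E →
      ∃ n0 : ℕ, ∀ n : ℕ, n0 ≤ n → ∀ t ∈ S, B * (v n) ^ θ < |h t - α * v n| := by
  refine windowsV (fun _ => S) (fun _ => h) B hpos hτ hv hs hθ1 ?_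
  intro A ε hε
  obtain ⟨C, hC⟩ := hS ε hε
  refine ⟨C * ((A : ℝ) + 1) ^ (s + ε), 0, fun n _ => ?_⟩
  have h1 := hpos n
  have h2 : (0 : ℝ) ≤ A := Nat.cast_nonneg A
  have h3 := hC (((A : ℝ) + 1) * v n) (by nlinarith)
  rw [Real.mul_rpow (by positivity) (by linarith), ← mul_assoc] at h3
  exact h3

/-- Countably many sets, possibly depending on `n`, one exceptional set of `α`. -/
theorem windowsC {T : Type} (S : ℕ → ℕ → Set T) (h : T → ℝ) {v : ℕ → ℝ} {s τ θ : ℝ} (B : ℝ) (hpos : ∀ n, 1 ≤ v n)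
    (hτ : 0 ≤ τ) (hv : ExpLe v τ) (hs : 0 ≤ s) (hθ1 : θ < 1)
    (hS : ∀ (i A : ℕ) (ε : ℝ), 0 < ε → ∃ (C : ℝ) (n₁ : ℕ), ∀ n : ℕ, n₁ ≤ n →
      {t | t ∈ S i n ∧ h t ≤ ((A : ℝ) + 1) * v n}.Finite ∧
      ({t | t ∈ S i n ∧ h t ≤ ((A : ℝ) + 1) * v n}.ncard : ℝ) ≤ C * (v n) ^ (s + ε)) :
    ∃ E : Set ℝ, dimH E ≤ ENNReal.ofReal ((s + τ) / (1 - θ)) ∧ ∀ α : ℝ, 0 < α → α ∉ E → ∀ i : ℕ,
      ∃ n0 : ℕ, ∀ n : ℕ, n0 ≤ n → ∀ t ∈ S i n, B * (v n) ^ θ < |h t - α * v n| := by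
  have hall : ∀ i : ℕ, ∃ E : Set ℝ, dimH E ≤ ENNReal.ofReal ((s + τ) / (1 - θ)) ∧ ∀ α : ℝ, 0 < α → α ∉ E →
      ∃ n0 : ℕ, ∀ n : ℕ, n0 ≤ n → ∀ t ∈ S i n, B * (v n) ^ θ < |h t - α * v n| := fun i =>
    windowsV (S i) (fun _ => h) B hpos hτ hv hs hθ1 (hS i)
  choose E hE1 hE2 using hall
  refine ⟨⋃ i, E i, ?_, fun α hα hαE i => hE2 i α hα fun h => hαE (Set.mem_iUnion.2 ⟨i, h⟩)⟩
  rw [dimH_iUnion]
  exact iSup_le hE1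

/-- in a window around `α v` the members are at most `(α + 1) v` -/
theorem le_of_window {x α v θ : ℝ} (hv : 1 ≤ v) (hθ1 : θ < 1) (h : |x - α * v| ≤ v ^ θ) : x ≤ (α + 1) * v := by
  have h1 := (abs_le.1 h).2
  have h2 : v ^ θ ≤ v := by
    calc v ^ θ ≤ v ^ (1 : ℝ) := Real.rpow_le_rpow_of_exponent_le hv hθ1.le
      _ = v := Real.rpow_one v
  linarith

end Pool.Agent.V11326.WZ
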