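import Pool.Agent.V11326.WO

/-! Absorbing finitely many windows into a constant. -/

set_option autoImplicit false

namespace Pool.Agent.V11326.WF

theorem absorb {T : Type} (W : ℕ → Set T) (hfin : ∀ n, (W n).Finite) (f : T → ℝ) (n₀ : ℕ) (c : ℝ) :
    ∃ c' : ℝ, c ≤ c' ∧ ∀ n : ℕ, n < n₀ → ∀ x ∈ W n, f x ≤ c' := by
  have h1 : (⋃ n ∈ Finset.range n₀, W n).Finite := Set.Finite.biUnion (Finset.finite_toSet _) fun n _ => hfin n
  obtain ⟨b, hb⟩ := (h1.image f).bddAbove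
  refine ⟨max c b, le_max_left _ _, fun n hn x hx => le_trans (hb ?_) (le_max_right _ _)⟩
  exact ⟨x, Set.mem_iUnion₂.2 ⟨n, Finset.mem_range.2 hn, hx⟩, rfl⟩

/-- the windows contain finitely many tuples -/
theorem window_finite {T : Type} {m : ℕ} (P : (Fin m → T) → Prop) (N : T → ℝ) {e : ℝ} (he : 0 < e)
    (hfin : ∀ X : ℝ, 1 ≤ X → {x | P x ∧ ∀ i, N (x i) ≤ Real.log X}.Finite) (β : Fin m → ℝ) (w r : ℝ) :
    {x : Fin m → T | P x ∧ ∀ i, |Real.exp (e * N (x i)) - β i * w| ≤ r}.Finite := by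
  obtain ⟨B, hB⟩ := (Set.finite_range fun i : Fin m => β i * w + r).bddAbove
  have hM : 1 ≤ max 1 B := le_max_left _ _
  have hM0 : 0 < max 1 B := by linarith
  refine (hfin ((max 1 B) ^ (1 / e)) (Real.one_le_rpow hM (by positivity))).subset ?_
  rintro x ⟨h1, h2⟩
  refine ⟨h1, fun i => ?_⟩
  have h3 : Real.exp (e * N (x i)) ≤ max 1 B := by
    have h4 := (abs_le.1 (h2 i)).2
    have h5 : β i * w + r ≤ B := hB ⟨i, rfl⟩
    linarith [le_max_right 1 B]
  have h4 : e * N (x i) ≤ Real.log (max 1 B) := (Real.le_log_iff_exp_le hM0).2 h3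
  rw [Real.log_rpow hM0, one_div, inv_mul_eq_div, le_div_iff₀ he, mul_comm]
  exact h4

end Pool.Agent.V11326.WF
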