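import Pool.Agent.Y854.GM.WinV

/-! A property of pairs (scale `X`, integer `N ≤ X`) which fails for few `N` at each scale holds at the integers near
`α v_n`, at a scale comparable with `v_n`, for all large `n`, unless `α` belongs to a small set. -/

set_option autoImplicit false

open Finset Filter Topology MeasureTheory

namespace Pool.Agent.V11326.WS

open Pool.Agent.Y854.GM

/-- If for all large scales `X` at most `X ^ s` integers `1 ≤ N ≤ X` are bad at the scale `X`, then for all `α > 0` outside a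
set of dimension at most `(s + τ) / (1 - θ)` there is an integer `A > α` such that for all large `n` no integer `N ≥ 1` with
`|N - α v_n| ≤ v_n ^ θ` is bad at the scale `⌈(A + 1) v_n⌉`. -/
theorem seqScale (Bad : ℕ → ℕ → Prop) {v : ℕ → ℝ} {s τ θ : ℝ} (hpos : ∀ n, 1 ≤ v n)
    (hτ : 0 ≤ τ) (hv : ExpLe v τ) (hs : 0 ≤ s) (hθ1 : θ < 1)
    (hcount : ∃ X₀ : ℕ, ∀ X : ℕ, X₀ ≤ X → ({N : ℕ | 1 ≤ N ∧ N ≤ X ∧ Bad X N}.ncard : ℝ) ≤ (X : ℝ) ^ s) :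
    ∃ E : Set ℝ, dimH E ≤ ENNReal.ofReal ((s + τ) / (1 - θ)) ∧ ∀ α : ℝ, 0 < α → α ∉ E →
      ∃ A : ℕ, α ≤ A ∧ ∃ n0 : ℕ, ∀ n : ℕ, n0 ≤ n → ∀ N : ℕ, 1 ≤ N → |(N : ℝ) - α * v n| ≤ (v n) ^ θ →
        N ≤ ⌈((A : ℝ) + 1) * v n⌉₊ ∧ ¬ Bad ⌈((A : ℝ) + 1) * v n⌉₊ N := by
  obtain ⟨X₀, hX₀⟩ := hcount
  have htv : Tendsto v atTop atTop := tendsto_of_expLe (fun k => lt_of_lt_of_le one_pos (hpos k)) hτ hv
  have hall : ∀ A : ℕ, ∃ E : Set ℝ, dimH E ≤ ENNReal.ofReal ((s + τ) / (1 - θ)) ∧ ∀ α : ℝ, 0 < α → α ∉ E →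
      ∃ n0 : ℕ, ∀ n : ℕ, n0 ≤ n → ∀ N ∈ {N : ℕ | 1 ≤ N ∧ N ≤ ⌈((A : ℝ) + 1) * v n⌉₊ ∧
        Bad ⌈((A : ℝ) + 1) * v n⌉₊ N}, 1 * (v n) ^ θ < |(N : ℝ) - α * v n| := by
    intro A
    refine windowsV (fun n => {N : ℕ | 1 ≤ N ∧ N ≤ ⌈((A : ℝ) + 1) * v n⌉₊ ∧ Bad ⌈((A : ℝ) + 1) * v n⌉₊ N})
      (fun _ (N : ℕ) => (N : ℝ)) 1 hpos hτ hv hs hθ1 ?_
    intro A' ε hε
    have hA0 : (0 : ℝ) ≤ A := Nat.cast_nonneg A
    obtain ⟨n₁, hn₁⟩ := (htv.eventually_ge_atTop (X₀ : ℝ)).exists_forall_of_atTop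
    refine ⟨((A : ℝ) + 2) ^ s, n₁, fun n hn => ?_⟩
    have hn0 : 0 < v n := lt_of_lt_of_le one_pos (hpos n)
    have h1 : 1 ≤ v n := hpos n
    have hfin : {N : ℕ | 1 ≤ N ∧ N ≤ ⌈((A : ℝ) + 1) * v n⌉₊ ∧ Bad ⌈((A : ℝ) + 1) * v n⌉₊ N}.Finite :=
      (Set.finite_Icc 1 ⌈((A : ℝ) + 1) * v n⌉₊).subset fun N hN => ⟨hN.1, hN.2.1⟩
    have hsub : {t : ℕ | t ∈ {N : ℕ | 1 ≤ N ∧ N ≤ ⌈((A : ℝ) + 1) * v n⌉₊ ∧ Bad ⌈((A : ℝ) + 1) * v n⌉₊ N} ∧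
        (t : ℝ) ≤ ((A' : ℝ) + 1) * v n} ⊆
        {N : ℕ | 1 ≤ N ∧ N ≤ ⌈((A : ℝ) + 1) * v n⌉₊ ∧ Bad ⌈((A : ℝ) + 1) * v n⌉₊ N} := fun t ht => ht.1
    refine ⟨hfin.subset hsub, ?_⟩
    have hX : X₀ ≤ ⌈((A : ℝ) + 1) * v n⌉₊ := by
      have h3 : (X₀ : ℝ) ≤ (⌈((A : ℝ) + 1) * v n⌉₊ : ℝ) := by
        refine le_trans (hn₁ n hn) (le_trans ?_ (Nat.le_ceil _))
        nlinarith
      exact_mod_cast h3
    have h4 := hX₀ _ hX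
    have h5 : (⌈((A : ℝ) + 1) * v n⌉₊ : ℝ) ≤ ((A : ℝ) + 2) * v n := by
      have := Nat.ceil_lt_add_one (show 0 ≤ ((A : ℝ) + 1) * v n by positivity)
      nlinarith
    calc (({t : ℕ | t ∈ {N : ℕ | 1 ≤ N ∧ N ≤ ⌈((A : ℝ) + 1) * v n⌉₊ ∧ Bad ⌈((A : ℝ) + 1) * v n⌉₊ N} ∧
        (t : ℝ) ≤ ((A' : ℝ) + 1) * v n}.ncard : ℕ) : ℝ)
        ≤ (({N : ℕ | 1 ≤ N ∧ N ≤ ⌈((A : ℝ) + 1) * v n⌉₊ ∧ Bad ⌈((A : ℝ) + 1) * v n⌉₊ N}.ncard : ℕ) : ℝ) := by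
          exact_mod_cast Set.ncard_le_ncard hsub hfin
      _ ≤ (⌈((A : ℝ) + 1) * v n⌉₊ : ℝ) ^ s := h4
      _ ≤ (((A : ℝ) + 2) * v n) ^ s := Real.rpow_le_rpow (Nat.cast_nonneg _) h5 hs
      _ = ((A : ℝ) + 2) ^ s * (v n) ^ s := Real.mul_rpow (by positivity) hn0.le
      _ ≤ ((A : ℝ) + 2) ^ s * (v n) ^ (s + ε) := by
          apply mul_le_mul_of_nonneg_left _ (by positivity)
          exact Real.rpow_le_rpow_of_exponent_le h1 (by linarith)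
  choose E hE1 hE2 using hall
  refine ⟨⋃ A, E A, ?_, fun α hα hαE => ?_⟩
  · rw [dimH_iUnion]
    exact iSup_le hE1
  · obtain ⟨A, hA⟩ := exists_nat_ge α
    obtain ⟨n0, hn0⟩ := hE2 A α hα (fun h => hαE (Set.mem_iUnion.2 ⟨A, h⟩))
    refine ⟨A, hA, n0, fun n hn N hN hw => ?_⟩
    have h0 : 0 < v n := lt_of_lt_of_le one_pos (hpos n)
    have hle : N ≤ ⌈((A : ℝ) + 1) * v n⌉₊ := by
      have h1 : (v n) ^ θ ≤ v n := by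
        calc (v n) ^ θ ≤ (v n) ^ (1 : ℝ) := Real.rpow_le_rpow_of_exponent_le (hpos n) hθ1.le
          _ = v n := Real.rpow_one _
      have h2 := (abs_le.1 hw).2
      have h3 : α * v n ≤ A * v n := mul_le_mul_of_nonneg_right hA h0.le
      have h4 : (N : ℝ) ≤ (⌈((A : ℝ) + 1) * v n⌉₊ : ℝ) := by
        refine le_trans ?_ (Nat.le_ceil _)
        linarith
      exact_mod_cast h4
    refine ⟨hle, fun hbad => ?_⟩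
    have h5 := hn0 n hn N ⟨hN, hle, hbad⟩
    rw [one_mul] at h5
    exact absurd hw (not_le.2 h5)

/-- The set of dimension at most `(s + ε_j + τ) / (1 - θ)` for each `j`: the intersection has dimension at most
`(s + τ) / (1 - θ)`. -/
theorem inter_dim {s τ θ : ℝ} (hθ1 : θ < 1) (E : ℕ → Set ℝ)
    (hE : ∀ j : ℕ, dimH (E j) ≤ ENNReal.ofReal ((s + 1 / ((j : ℝ) + 1) + τ) / (1 - θ))) :
    dimH (⋂ j, E j) ≤ ENNReal.ofReal ((s + τ) / (1 - θ)) := by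
  have h1 : Tendsto (fun j : ℕ => ENNReal.ofReal ((s + 1 / ((j : ℝ) + 1) + τ) / (1 - θ))) atTop
      (𝓝 (ENNReal.ofReal ((s + τ) / (1 - θ)))) := by
    apply ENNReal.tendsto_ofReal
    have h2 : Tendsto (fun j : ℕ => (s + 1 / ((j : ℝ) + 1) + τ) / (1 - θ)) atTop (𝓝 ((s + 0 + τ) / (1 - θ))) :=
      ((tendsto_one_div_add_atTop_nhds_zero_nat.const_add s).add_const τ).div_const _
    simpa using h2
  refine ge_of_tendsto' h1 fun j => le_trans (dimH_mono (Set.iInter_subset _ j)) (hE j)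

end Pool.Agent.V11326.WS
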