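import Pool.Agent.V11326.WF

/-! The one-dimensional form of `WO`: an exceptional set of single objects. -/

set_option autoImplicit false

open Finset Filter Topology MeasureTheory

namespace Pool.Agent.V11326.WO1

open Pool.Agent.Y854.GM

/-- a set of dimension less than one in `ℝ` has measure zero -/
theorem null {F : Set ℝ} {D : ℝ} (hF : dimH F ≤ ENNReal.ofReal D) (hD : D < 1) : volume F = 0 := by
  have h1 : dimH F < ((1 : NNReal) : ENNReal) := by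
    refine lt_of_le_of_lt hF ?_
    rw [ENNReal.coe_one, ← ENNReal.ofReal_one]
    exact (ENNReal.ofReal_lt_ofReal_iff one_pos).2 hD
  have h2 := hausdorffMeasure_of_dimH_lt h1
  rw [NNReal.coe_one, hausdorffMeasure_real] at h2
  exact h2

/-- `S` is a set of objects at most `C X ^ (e s)` of which have `N x ≤ log X`. -/
theorem one_set {T : Type} (S : Set T) (N : T → ℝ) {e s C : ℝ} (he : 0 < e) (hs : 0 ≤ s)
    (hfin : ∀ X : ℝ, 1 ≤ X → {x | x ∈ S ∧ N x ≤ Real.log X}.Finite)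
    (hS : ∀ X : ℝ, 1 ≤ X → ({x | x ∈ S ∧ N x ≤ Real.log X}.ncard : ℝ) ≤ C * X ^ (e * s))
    {v : ℕ → ℝ} {τ θ : ℝ} (hpos : ∀ n, 1 ≤ v n) (hτ : 0 ≤ τ) (hv : ExpLe v τ) (hθ1 : θ < 1) :
    ∃ F : Set ℝ, dimH F ≤ ENNReal.ofReal ((s + τ) / (1 - θ)) ∧ ∀ β : ℝ, β ∉ F →
      ∃ n₀ : ℕ, ∀ n : ℕ, n₀ ≤ n → ∀ x : T, |Real.exp (e * N x) - β * v n| ≤ (v n) ^ θ → x ∉ S := by
  obtain ⟨F, hF, h⟩ := Pool.Agent.V11326.WK.windowsK (E := ℝ) (fun _ => S)
    (fun _ x => Real.exp (e * N x)) (s := s) hpos hτ hv hs hθ1 (by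
    intro A ε hε
    refine ⟨|C| * ((A : ℝ) + 1) ^ s, 0, fun n _ => ?_⟩
    have hv1 := hpos n
    have hA : (0 : ℝ) ≤ A := Nat.cast_nonneg A
    have hX : 1 ≤ ((A : ℝ) + 1) * v n := by nlinarith
    have hX0 : 0 < ((A : ℝ) + 1) * v n := by linarith
    obtain ⟨X, hXdef⟩ : ∃ X : ℝ, X = (((A : ℝ) + 1) * v n) ^ (1 / e) := ⟨_, rfl⟩
    have hX1 : 1 ≤ X := by
      rw [hXdef]
      exact Real.one_le_rpow hX (by positivity)
    have e1 : {x : T | x ∈ S ∧ ‖Real.exp (e * N x)‖ ≤ ((A : ℝ) + 1) * v n} ⊆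
        {x : T | x ∈ S ∧ N x ≤ Real.log X} := by
      rintro x ⟨h1, h3⟩
      refine ⟨h1, ?_⟩
      rw [Real.norm_eq_abs, abs_of_pos (Real.exp_pos _)] at h3
      have h4 : e * N x ≤ Real.log (((A : ℝ) + 1) * v n) := (Real.le_log_iff_exp_le hX0).2 h3
      rw [hXdef, Real.log_rpow hX0, one_div, inv_mul_eq_div, le_div_iff₀ he, mul_comm]
      exact h4
    refine ⟨(hfin X hX1).subset e1, ?_⟩
    have h3 : X ^ (e * s) = (((A : ℝ) + 1) * v n) ^ s := by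
      rw [hXdef, ← Real.rpow_mul hX0.le]
      congr 1
      field_simp
    calc ({x : T | x ∈ S ∧ ‖Real.exp (e * N x)‖ ≤ ((A : ℝ) + 1) * v n}.ncard : ℝ)
        ≤ ({x : T | x ∈ S ∧ N x ≤ Real.log X}.ncard : ℝ) := by
          exact_mod_cast Set.ncard_le_ncard e1 (hfin X hX1)
      _ ≤ C * X ^ (e * s) := hS X hX1
      _ ≤ |C| * (((A : ℝ) + 1) * v n) ^ s := by
          rw [h3]
          exact mul_le_mul_of_nonneg_right (le_abs_self _) (by positivity)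
      _ = |C| * ((A : ℝ) + 1) ^ s * (v n) ^ s := by
          rw [Real.mul_rpow (by positivity) (by linarith), ← mul_assoc]
      _ ≤ |C| * ((A : ℝ) + 1) ^ s * (v n) ^ (s + ε) := by
          apply mul_le_mul_of_nonneg_left _ (by positivity)
          exact Real.rpow_le_rpow_of_exponent_le hv1 (by linarith))
  refine ⟨F, hF, fun β hβ => ?_⟩
  obtain ⟨n₀, hn⟩ := h β hβ
  refine ⟨n₀, fun n hn1 x hw hx => ?_⟩
  refine absurd ?_ (not_le.2 (hn n hn1 x hx))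
  rw [smul_eq_mul, Real.norm_eq_abs, mul_comm (v n)]
  exact hw

/-- An exceptional set `E` containing at most `C X ^ (r - ν)` of the objects `x` with `P x` and `N x ≤ log X`; windows for
`exp (r N x)`. -/
theorem single {T : Type} {r : ℝ} (hr : 0 < r) (E : Set T) (P : T → Prop) (N : T → ℝ)
    {ν C : ℝ} (hν : 0 < ν)
    (hfin : ∀ X : ℝ, 1 ≤ X → {x | P x ∧ N x ≤ Real.log X}.Finite)
    (hS : ∀ X : ℝ, 1 ≤ X → ((E ∩ {x | P x ∧ N x ≤ Real.log X}).ncard : ℝ) ≤ C * X ^ (r - ν)) :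
    ∃ ν' : ℝ, 0 < ν' ∧ ν' ≤ 1 ∧ ∀ (v : ℕ → ℝ) (τ θ : ℝ), (∀ n, 1 ≤ v n) → 0 ≤ τ → ExpLe v τ → θ < 1 →
      ∃ F : Set ℝ, dimH F ≤ ENNReal.ofReal ((1 - ν' + τ) / (1 - θ)) ∧
        (τ + θ < ν' → volume F = 0) ∧
        ∀ β : ℝ, β ∉ F → ∃ n₀ : ℕ, ∀ n : ℕ, n₀ ≤ n → ∀ x : T, P x →
          |Real.exp (r * N x) - β * v n| ≤ (v n) ^ θ → x ∉ E := by
  refine ⟨min (ν / r) 1, lt_min (by positivity) one_pos, min_le_right _ _, fun v τ θ hv hτ hvτ hθ => ?_⟩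
  have hs : 0 ≤ 1 - min (ν / r) 1 := by linarith [min_le_right (ν / r) 1]
  obtain ⟨F, hF, h⟩ := one_set (T := T) (E ∩ {x | P x}) N (e := r)
    (s := 1 - min (ν / r) 1) (C := |C|) hr hs
    (fun X hX => (hfin X hX).subset (by
      rintro x ⟨⟨-, h1⟩, h2⟩
      exact ⟨h1, h2⟩))
    (fun X hX => by
      have e1 : {x | x ∈ E ∩ {x | P x} ∧ N x ≤ Real.log X} = E ∩ {x | P x ∧ N x ≤ Real.log X} := by
        ext x
        constructor
        · rintro ⟨⟨h1, h2⟩, h3⟩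
          exact ⟨h1, h2, h3⟩
        · rintro ⟨h1, h2, h3⟩
          exact ⟨⟨h1, h2⟩, h3⟩
      rw [e1]
      refine (hS X hX).trans (mul_le_mul (le_abs_self C) ?_ (by positivity) (abs_nonneg C))
      apply Real.rpow_le_rpow_of_exponent_le hX
      have h1 : min (ν / r) 1 ≤ ν / r := min_le_left _ _
      have h2 : r * min (ν / r) 1 ≤ ν := by
        calc r * min (ν / r) 1 ≤ r * (ν / r) := mul_le_mul_of_nonneg_left h1 hr.le
          _ = ν := by field_simp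
      nlinarith)
    hv hτ hvτ hθ
  refine ⟨F, hF, fun hc => null hF ?_, fun β hβ => ?_⟩
  · have h1 : 0 < 1 - θ := by linarith
    rw [div_lt_iff₀ h1]
    linarith
  · obtain ⟨n₀, hn⟩ := h β hβ
    exact ⟨n₀, fun n hn1 x hx hw hE => hn n hn1 x hw ⟨hE, hx⟩⟩

/-- the windows contain finitely many objects -/
theorem window_finite {T : Type} (P : T → Prop) (N : T → ℝ) {e : ℝ} (he : 0 < e)
    (hfin : ∀ X : ℝ, 1 ≤ X → {x | P x ∧ N x ≤ Real.log X}.Finite) (β w r : ℝ) :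
    {x : T | P x ∧ |Real.exp (e * N x) - β * w| ≤ r}.Finite := by
  have hM : 1 ≤ max 1 (β * w + r) := le_max_left _ _
  have hM0 : 0 < max 1 (β * w + r) := by linarith
  refine (hfin ((max 1 (β * w + r)) ^ (1 / e)) (Real.one_le_rpow hM (by positivity))).subset ?_
  rintro x ⟨h1, h2⟩
  refine ⟨h1, ?_⟩
  have h3 : Real.exp (e * N x) ≤ max 1 (β * w + r) := by
    have h4 := (abs_le.1 h2).2
    linarith [le_max_right 1 (β * w + r)]
  have h4 : e * N x ≤ Real.log (max 1 (β * w + r)) := (Real.le_log_iff_exp_le hM0).2 h3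
  rw [Real.log_rpow hM0, one_div, inv_mul_eq_div, le_div_iff₀ he, mul_comm]
  exact h4

end Pool.Agent.V11326.WO1
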