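import Pool.Agent.V11326.WO1
import Pool.Agent.V11001.KM.Basic

/-! The form of `WO1.single` for powers of a typical base: objects of an exceptional set near `β x ^ lam n`. -/

set_option autoImplicit false

open Finset Filter Topology MeasureTheory

namespace Pool.Agent.V11326.WP

/-- An exceptional set `E` containing at most `C X ^ (r - ν)` of the objects `y` with `P y` and `N y ≤ log X`; windows
for `exp (r N y)` around `β x ^ lam n`. -/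
theorem single {T : Type} {r : ℝ} (hr : 0 < r) (E : Set T) (P : T → Prop) (N : T → ℝ)
    {ν C : ℝ} (hν : 0 < ν)
    (hfin : ∀ X : ℝ, 1 ≤ X → {x | P x ∧ N x ≤ Real.log X}.Finite)
    (hS : ∀ X : ℝ, 1 ≤ X → ((E ∩ {x | P x ∧ N x ≤ Real.log X}).ncard : ℝ) ≤ C * X ^ (r - ν)) :
    ∃ ν' : ℝ, 0 < ν' ∧ ν' ≤ 1 ∧ ∀ (lam : ℕ → ℝ) (θ : ℝ), Tendsto (fun n : ℕ => lam n / Real.log n) atTop atTop → θ < 1 →
      ∀ B : Set ℝ, B.Countable → ∃ F : Set ℝ, dimH F ≤ ENNReal.ofReal ((1 - ν') / (1 - θ)) ∧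
        (θ < ν' → volume F = 0) ∧
        ∀ x : ℝ, 1 < x → x ∉ F → ∀ β ∈ B, 0 < β → ∃ n₀ : ℕ, ∀ n : ℕ, n₀ ≤ n → ∀ y : T, P y →
          |Real.exp (r * N y) - β * x ^ lam n| ≤ x ^ (θ * lam n) → y ∉ E := by
  obtain ⟨ν', hν'⟩ : ∃ ν' : ℝ, ν' = min (ν / r) 1 := ⟨_, rfl⟩
  have hp : 0 < ν' := by rw [hν']; exact lt_min (by positivity) one_pos
  have h1 : ν' ≤ 1 := by rw [hν']; exact min_le_right _ _
  have h2 : r * ν' ≤ ν := by
    calc r * ν' ≤ r * (ν / r) := mul_le_mul_of_nonneg_left (by rw [hν']; exact min_le_left _ _) hr.le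
      _ = ν := by field_simp
  refine ⟨ν', hp, h1, fun lam θ hlam hθ B hB => ?_⟩
  have hs : 0 ≤ 1 - ν' := by linarith
  have hcB : Countable B := hB.to_subtype
  have hcount : ∀ ε : ℝ, 0 < ε → ∃ C' : ℝ, ∀ X : ℝ, 1 ≤ X →
      {t | t ∈ E ∩ {x | P x} ∧ Real.exp (r * N t) ≤ X}.Finite ∧
      ({t | t ∈ E ∩ {x | P x} ∧ Real.exp (r * N t) ≤ X}.ncard : ℝ) ≤ C' * X ^ (1 - ν' + ε) := by
    intro ε hε
    refine ⟨|C|, fun X hX => ?_⟩
    have hX0 : 0 < X := by linarith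
    obtain ⟨Y, hY⟩ : ∃ Y : ℝ, Y = X ^ (1 / r) := ⟨_, rfl⟩
    have hY1 : 1 ≤ Y := by rw [hY]; exact Real.one_le_rpow hX (by positivity)
    have e1 : {t | t ∈ E ∩ {x | P x} ∧ Real.exp (r * N t) ≤ X} ⊆ E ∩ {x | P x ∧ N x ≤ Real.log Y} := by
      rintro t ⟨⟨h3, h4⟩, h5⟩
      refine ⟨h3, h4, ?_⟩
      have h6 : r * N t ≤ Real.log X := (Real.le_log_iff_exp_le hX0).2 h5
      rw [hY, Real.log_rpow hX0, one_div, inv_mul_eq_div, le_div_iff₀ hr, mul_comm]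
      exact h6
    have hfin' : (E ∩ {x | P x ∧ N x ≤ Real.log Y}).Finite := (hfin Y hY1).subset Set.inter_subset_right
    refine ⟨hfin'.subset e1, ?_⟩
    calc ({t | t ∈ E ∩ {x | P x} ∧ Real.exp (r * N t) ≤ X}.ncard : ℝ)
        ≤ ((E ∩ {x | P x ∧ N x ≤ Real.log Y}).ncard : ℝ) := by exact_mod_cast Set.ncard_le_ncard e1 hfin'
      _ ≤ C * Y ^ (r - ν) := hS Y hY1
      _ ≤ |C| * Y ^ (r * (1 - ν')) := by
          refine mul_le_mul (le_abs_self _) (Real.rpow_le_rpow_of_exponent_le hY1 (by linarith)) (by positivity)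
            (abs_nonneg _)
      _ = |C| * X ^ (1 - ν') := by
          rw [hY, ← Real.rpow_mul hX0.le]
          congr 2
          field_simp
      _ ≤ |C| * X ^ (1 - ν' + ε) := by
          apply mul_le_mul_of_nonneg_left _ (abs_nonneg _)
          exact Real.rpow_le_rpow_of_exponent_le hX (by linarith)
  have hall : ∀ q : {β : B // 0 < (β : ℝ)}, ∃ F : Set ℝ, dimH F ≤ ENNReal.ofReal ((1 - ν') / (1 - θ)) ∧
      ∀ x : ℝ, 1 < x → x ∉ F → ∃ n0 : ℕ, ∀ n : ℕ, n0 ≤ n → ∀ t ∈ E ∩ {x | P x},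
        x ^ (θ * lam n) < |Real.exp (r * N t) - ((q : B) : ℝ) * x ^ lam n| := fun q =>
    Pool.Agent.V11001.KM.powers (E ∩ {x | P x}) (fun t => Real.exp (r * N t)) hlam q.2 hs hθ hcount
  choose F hF1 hF2 using hall
  have hdim : dimH (⋃ q, F q) ≤ ENNReal.ofReal ((1 - ν') / (1 - θ)) := by
    rw [dimH_iUnion]
    exact iSup_le hF1
  refine ⟨⋃ q, F q, hdim, fun hc => Pool.Agent.V11326.WO1.null hdim ?_, fun x hx hxF β hβ hβ0 => ?_⟩
  · rw [div_lt_one (by linarith)]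
    linarith
  · obtain ⟨n₀, hn⟩ := hF2 ⟨⟨β, hβ⟩, hβ0⟩ x hx fun h => hxF (Set.mem_iUnion.2 ⟨_, h⟩)
    exact ⟨n₀, fun n hnn y hy hw hyE => absurd hw (not_le.2 (hn n hnn y ⟨hyE, hy⟩))⟩

end Pool.Agent.V11326.WP
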