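import Mathlib

/-! Number fields and their sets of primes are countable. -/

set_option autoImplicit false

namespace Pool.Agent.V11326.WCt

open NumberField IsDedekindDomain

theorem countable_field (K : Type) [Field K] [NumberField K] : Countable K := by
  have e := (Module.finBasis ℚ K).equivFun.toEquiv
  exact e.injective.countable

theorem countable_primes (K : Type) [Field K] [NumberField K] : Countable (HeightOneSpectrum (𝓞 K)) := by
  have := countable_field K
  have : Countable (𝓞 K) := (RingOfIntegers.coe_injective (K := K)).countable
  have h : Function.Surjective (fun s : Finset (𝓞 K) => Ideal.span (s : Set (𝓞 K))) := fun I => by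
    obtain ⟨s, hs⟩ := (isNoetherianRing_iff_ideal_fg (𝓞 K)).1 inferInstance I
    exact ⟨s, hs⟩
  have : Countable (Ideal (𝓞 K)) := h.countable
  have hinj : Function.Injective (fun v : HeightOneSpectrum (𝓞 K) => v.asIdeal) := fun v w h =>
    HeightOneSpectrum.ext h
  exact hinj.countable

end Pool.Agent.V11326.WCt
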