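import Pool.Agent.V11326.WO1

/-! Countable families of objects with one exceptional set at each scale: windows, for all members of the family at once. -/

set_option autoImplicit false

open Finset Filter Topology MeasureTheory

namespace Pool.Agent.V11326.WOC

open Pool.Agent.Y854.GM

theorem family {ι T : Type} [Countable ι] {e ν C : ℝ} (he : 0 < e) (hν : 0 < ν) (E : ℝ → Set T)
    (hE : ∀ X : ℝ, 1 ≤ X → (E X).Finite ∧ ((E X).ncard : ℝ) ≤ C * X ^ (e - ν)) (S : ι → Set T) (N : ι → T → ℝ)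
    (hS : ∀ i, ∃ X₀ : ℝ, ∀ X : ℝ, X₀ ≤ X → ∀ x ∈ S i, N i x ≤ Real.log X → x ∈ E X)
    {v : ℕ → ℝ} {τ θ : ℝ} (hpos : ∀ n, 1 ≤ v n) (hτ : 0 ≤ τ) (hv : ExpLe v τ) (hθ1 : θ < 1) :
    ∃ F : Set ℝ, dimH F ≤ ENNReal.ofReal ((1 - min (ν / e) 1 + τ) / (1 - θ)) ∧
      (τ + θ < min (ν / e) 1 → volume F = 0) ∧
      ∀ β : ℝ, β ∉ F → ∀ i, (∃ n₀ : ℕ, ∀ n : ℕ, n₀ ≤ n → ∀ x : T,
          |Real.exp (e * N i x) - β * v n| ≤ (v n) ^ θ → x ∉ S i) ∧
        {x : T | x ∈ S i ∧ ∃ n : ℕ, |Real.exp (e * N i x) - β * v n| ≤ (v n) ^ θ}.Finite := by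
  have hs : 0 ≤ 1 - min (ν / e) 1 := by linarith [min_le_right (ν / e) 1]
  have h1θ : 0 < 1 - θ := by linarith
  have hfin : ∀ i, ∀ X : ℝ, 1 ≤ X → {x | x ∈ S i ∧ N i x ≤ Real.log X}.Finite := by
    intro i X hX
    obtain ⟨X₀, h0⟩ := hS i
    have hY : 1 ≤ max X X₀ := hX.trans (le_max_left _ _)
    refine (hE (max X X₀) hY).1.subset ?_
    rintro x ⟨h1, h2⟩
    exact h0 _ (le_max_right _ _) x h1 (h2.trans (Real.log_le_log (by linarith) (le_max_left _ _)))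
  have hall : ∀ i, ∃ F : Set ℝ, dimH F ≤ ENNReal.ofReal ((1 - min (ν / e) 1 + τ) / (1 - θ)) ∧ ∀ β : ℝ, β ∉ F →
      ∃ n₀ : ℕ, ∀ n : ℕ, n₀ ≤ n → ∀ x : T, |Real.exp (e * N i x) - β * v n| ≤ (v n) ^ θ → x ∉ S i := by
    intro i
    obtain ⟨X₀, h0⟩ := hS i
    obtain ⟨Y, hYdef⟩ : ∃ Y : ℝ, Y = max 1 X₀ := ⟨_, rfl⟩
    have hY1 : 1 ≤ Y := by rw [hYdef]; exact le_max_left _ _
    refine Pool.Agent.V11326.WO1.one_set (S i) (N i) (C := |C| * Y ^ (e * (1 - min (ν / e) 1))) he hs (hfin i) ?_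
      hpos hτ hv hθ1
    intro X hX
    have hX0 : 0 < X := by linarith
    have hXY : 1 ≤ X * Y := by nlinarith
    have hsub : {x | x ∈ S i ∧ N i x ≤ Real.log X} ⊆ E (X * Y) := by
      rintro x ⟨h1, h2⟩
      refine h0 _ ?_ x h1 (h2.trans (Real.log_le_log hX0 ?_))
      · have : X₀ ≤ Y := by rw [hYdef]; exact le_max_right _ _
        nlinarith
      · nlinarith
    obtain ⟨h3, h4⟩ := hE (X * Y) hXY
    refine ((Nat.cast_le (α := ℝ)).2 (Set.ncard_le_ncard hsub h3)).trans (h4.trans ?_)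
    have h5 : e - ν ≤ e * (1 - min (ν / e) 1) := by
      have h6 : e * min (ν / e) 1 ≤ ν := by
        calc e * min (ν / e) 1 ≤ e * (ν / e) := mul_le_mul_of_nonneg_left (min_le_left _ _) he.le
          _ = ν := by field_simp
      linarith
    calc C * (X * Y) ^ (e - ν) ≤ |C| * (X * Y) ^ (e * (1 - min (ν / e) 1)) :=
          mul_le_mul (le_abs_self C) (Real.rpow_le_rpow_of_exponent_le hXY h5) (by positivity) (abs_nonneg C)
      _ = |C| * Y ^ (e * (1 - min (ν / e) 1)) * X ^ (e * (1 - min (ν / e) 1)) := by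
          rw [Real.mul_rpow hX0.le (by linarith)]
          ring
  choose F hF1 hF2 using hall
  have hdim : dimH (⋃ i, F i) ≤ ENNReal.ofReal ((1 - min (ν / e) 1 + τ) / (1 - θ)) := by
    rw [dimH_iUnion]
    exact iSup_le hF1
  refine ⟨⋃ i, F i, hdim, fun hc => Pool.Agent.V11326.WO1.null hdim ?_, fun β hβ i => ?_⟩
  · rw [div_lt_iff₀ h1θ]
    linarith
  · obtain ⟨n₀, hn⟩ := hF2 i β fun h => hβ (Set.mem_iUnion.2 ⟨i, h⟩)
    refine ⟨⟨n₀, hn⟩, ?_⟩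
    have h1 : (⋃ n ∈ Finset.range n₀, {x : T | x ∈ S i ∧ |Real.exp (e * N i x) - β * v n| ≤ (v n) ^ θ}).Finite :=
      Set.Finite.biUnion (Finset.finite_toSet _) fun n _ =>
        Pool.Agent.V11326.WO1.window_finite (fun x => x ∈ S i) (N i) he (hfin i) β (v n) ((v n) ^ θ)
    refine h1.subset ?_
    rintro x ⟨hx, n, hw⟩
    rcases lt_or_ge n n₀ with h | h
    · exact Set.mem_iUnion₂.2 ⟨n, Finset.mem_range.2 h, hx, hw⟩
    · exact absurd hx (hn n h x hw)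

end Pool.Agent.V11326.WOC
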