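import Mathlib

/-! Polynomial rings over countable rings are countable. -/

set_option autoImplicit false

namespace Pool.Agent.V11326.WCp

open Polynomial

theorem poly_countable (R : Type) [CommRing R] [Countable R] : Countable R[X] := by
  have h : Function.Injective (fun P : R[X] => (⟨P.natDegree, fun i : Fin (P.natDegree + 1) => P.coeff i⟩ :
      Σ n : ℕ, (Fin (n + 1) → R))) := by
    intro P Q h
    simp only [Sigma.mk.injEq] at h
    obtain ⟨h1, h2⟩ := h
    ext m
    rcases lt_or_ge m (P.natDegree + 1) with hm | hm
    · have key : ∀ (a b : ℕ) (f : Fin (a + 1) → R) (g : Fin (b + 1) → R), a = b → HEq f g →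
          ∀ (m : ℕ) (h1 : m < a + 1) (h2 : m < b + 1), f ⟨m, h1⟩ = g ⟨m, h2⟩ := by
        intro a b f g hab hfg m h1 h2
        subst hab
        rw [eq_of_heq hfg]
      exact key _ _ _ _ h1 h2 m hm (by rw [← h1]; exact hm)
    · rw [coeff_eq_zero_of_natDegree_lt (by omega), coeff_eq_zero_of_natDegree_lt (by omega)]
  exact h.countable

theorem mvpoly_countable (σ R : Type) [Countable σ] [CommRing R] [Countable R] : Countable (MvPolynomial σ R) := by
  classical
  have h : Function.Injective (fun P : MvPolynomial σ R =>
      (P.support.image fun m => (m, P.coeff m) : Finset ((σ →₀ ℕ) × R))) := by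
    intro P Q h
    ext m
    by_cases hm : P.coeff m = 0
    · by_cases hm' : Q.coeff m = 0
      · rw [hm, hm']
      · have h1 : (m, Q.coeff m) ∈ (Q.support.image fun m => (m, Q.coeff m)) :=
          Finset.mem_image.2 ⟨m, MvPolynomial.mem_support_iff.2 hm', rfl⟩
        have h2 : (m, Q.coeff m) ∈ (P.support.image fun m => (m, P.coeff m)) := by
          have h3 : (P.support.image fun m => (m, P.coeff m)) = (Q.support.image fun m => (m, Q.coeff m)) := h
          rw [h3]
          exact h1
        obtain ⟨m', h4, h5⟩ := Finset.mem_image.1 h2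
        simp only [Prod.mk.injEq] at h5
        rw [← h5.2, h5.1]
    · have h1 : (m, P.coeff m) ∈ (P.support.image fun m => (m, P.coeff m)) :=
        Finset.mem_image.2 ⟨m, MvPolynomial.mem_support_iff.2 hm, rfl⟩
      have h2 : (m, P.coeff m) ∈ (Q.support.image fun m => (m, Q.coeff m)) := by
        have h3 : (P.support.image fun m => (m, P.coeff m)) = (Q.support.image fun m => (m, Q.coeff m)) := h
        rw [← h3]
        exact h1
      obtain ⟨m', h4, h5⟩ := Finset.mem_image.1 h2
      simp only [Prod.mk.injEq] at h5
      rw [← h5.2, h5.1]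
  exact h.countable

end Pool.Agent.V11326.WCp
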