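import Pool.Agent.V11326.WP

/-! Countable families of sets contained in exceptional sets: objects near `β x ^ lam n`, powers of a typical base. -/

set_option autoImplicit false

open Finset Filter Topology MeasureTheory

namespace Pool.Agent.V11326.WPD

theorem family {ι T : Type} [Countable ι] {e ν : ℝ} (he : 0 < e) (hν : 0 < ν) (C : ι → ℝ) (E : ι → ℝ → Set T)
    (hE : ∀ i, ∀ X : ℝ, 1 ≤ X → (E i X).Finite ∧ ((E i X).ncard : ℝ) ≤ C i * X ^ (e - ν)) (S : ι → Set T)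
    (N : ι → T → ℝ) (hS : ∀ i, ∃ X₀ : ℝ, ∀ X : ℝ, X₀ ≤ X → ∀ x ∈ S i, N i x ≤ Real.log X → x ∈ E i X)
    (lam : ℕ → ℝ) (θ : ℝ) (hlam : Tendsto (fun n : ℕ => lam n / Real.log n) atTop atTop) (hθ : θ < 1)
    (U : Set ℝ) (hU : U.Countable) :
    ∃ F : Set ℝ, dimH F ≤ ENNReal.ofReal ((1 - min (ν / e) 1) / (1 - θ)) ∧
      (θ < min (ν / e) 1 → volume F = 0) ∧
      ∀ x : ℝ, 1 < x → x ∉ F → ∀ β ∈ U, 0 < β → ∀ i, ∃ n₀ : ℕ, ∀ n : ℕ, n₀ ≤ n → ∀ y : T,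
          |Real.exp (e * N i y) - β * x ^ lam n| ≤ x ^ (θ * lam n) → y ∉ S i := by
  have hs : 0 ≤ 1 - min (ν / e) 1 := by linarith [min_le_right (ν / e) 1]
  have hcU : Countable U := hU.to_subtype
  have hcount : ∀ i, ∀ ε : ℝ, 0 < ε → ∃ C' : ℝ, ∀ X : ℝ, 1 ≤ X →
      {t | t ∈ S i ∧ Real.exp (e * N i t) ≤ X}.Finite ∧
      ({t | t ∈ S i ∧ Real.exp (e * N i t) ≤ X}.ncard : ℝ) ≤ C' * X ^ (1 - min (ν / e) 1 + ε) := by
    intro i ε hε
    obtain ⟨X₀, h0⟩ := hS i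
    obtain ⟨Y, hYdef⟩ : ∃ Y : ℝ, Y = max 1 X₀ := ⟨_, rfl⟩
    have hY1 : 1 ≤ Y := by rw [hYdef]; exact le_max_left _ _
    refine ⟨|C i| * Y ^ (e * (1 - min (ν / e) 1)), fun X hX => ?_⟩
    have hX0 : 0 < X := by linarith
    obtain ⟨Z, hZ⟩ : ∃ Z : ℝ, Z = X ^ (1 / e) := ⟨_, rfl⟩
    have hZ1 : 1 ≤ Z := by rw [hZ]; exact Real.one_le_rpow hX (by positivity)
    have hZ0 : 0 < Z := by linarith
    have hZY : 1 ≤ Z * Y := by nlinarith
    have hsub : {t | t ∈ S i ∧ Real.exp (e * N i t) ≤ X} ⊆ E i (Z * Y) := by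
      rintro t ⟨h3, h5⟩
      have h6 : e * N i t ≤ Real.log X := (Real.le_log_iff_exp_le hX0).2 h5
      have h7 : N i t ≤ Real.log Z := by
        rw [hZ, Real.log_rpow hX0, one_div, inv_mul_eq_div, le_div_iff₀ he, mul_comm]
        exact h6
      refine h0 _ ?_ t h3 (h7.trans (Real.log_le_log hZ0 ?_))
      · have : X₀ ≤ Y := by rw [hYdef]; exact le_max_right _ _
        nlinarith
      · nlinarith
    obtain ⟨h3, h4⟩ := hE i (Z * Y) hZY
    refine ⟨h3.subset hsub, ((Nat.cast_le (α := ℝ)).2 (Set.ncard_le_ncard hsub h3)).trans (h4.trans ?_)⟩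
    have h5 : e - ν ≤ e * (1 - min (ν / e) 1) := by
      have h6 : e * min (ν / e) 1 ≤ ν := by
        calc e * min (ν / e) 1 ≤ e * (ν / e) := mul_le_mul_of_nonneg_left (min_le_left _ _) he.le
          _ = ν := by field_simp
      linarith
    calc C i * (Z * Y) ^ (e - ν) ≤ |C i| * (Z * Y) ^ (e * (1 - min (ν / e) 1)) :=
          mul_le_mul (le_abs_self _) (Real.rpow_le_rpow_of_exponent_le hZY h5) (by positivity) (abs_nonneg _)
      _ = |C i| * Y ^ (e * (1 - min (ν / e) 1)) * Z ^ (e * (1 - min (ν / e) 1)) := by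
          rw [Real.mul_rpow hZ0.le (by linarith)]
          ring
      _ = |C i| * Y ^ (e * (1 - min (ν / e) 1)) * X ^ (1 - min (ν / e) 1) := by
          rw [hZ, ← Real.rpow_mul hX0.le]
          congr 2
          field_simp
      _ ≤ |C i| * Y ^ (e * (1 - min (ν / e) 1)) * X ^ (1 - min (ν / e) 1 + ε) := by
          apply mul_le_mul_of_nonneg_left _ (by positivity)
          exact Real.rpow_le_rpow_of_exponent_le hX (by linarith)
  have hall : ∀ q : {β : U // 0 < (β : ℝ)} × ι, ∃ F : Set ℝ, dimH F ≤ ENNReal.ofReal ((1 - min (ν / e) 1) / (1 - θ)) ∧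
      ∀ x : ℝ, 1 < x → x ∉ F → ∃ n0 : ℕ, ∀ n : ℕ, n0 ≤ n → ∀ t ∈ S q.2,
        x ^ (θ * lam n) < |Real.exp (e * N q.2 t) - ((q.1 : U) : ℝ) * x ^ lam n| := fun q =>
    Pool.Agent.V11001.KM.powers (S q.2) (fun t => Real.exp (e * N q.2 t)) hlam q.1.2 hs hθ (hcount q.2)
  choose F hF1 hF2 using hall
  have hdim : dimH (⋃ q, F q) ≤ ENNReal.ofReal ((1 - min (ν / e) 1) / (1 - θ)) := by
    rw [dimH_iUnion]
    exact iSup_le hF1
  refine ⟨⋃ q, F q, hdim, fun hc => Pool.Agent.V11326.WO1.null hdim ?_, fun x hx hxF β hβ hβ0 i => ?_⟩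
  · rw [div_lt_one (by linarith)]
    linarith
  · obtain ⟨n₀, hn⟩ := hF2 (⟨⟨β, hβ⟩, hβ0⟩, i) x hx fun h => hxF (Set.mem_iUnion.2 ⟨_, h⟩)
    exact ⟨n₀, fun n hnn y hw hy => absurd hw (not_le.2 (hn n hnn y hy))⟩

end Pool.Agent.V11326.WPD
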