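import Pool.Agent.V11326.WI

/-! From one exceptional set of `m`-tuples, ordered by a counting function `N` of the coordinates, to windows for
`exp (e N)`. -/

set_option autoImplicit false

open Finset Filter Topology MeasureTheory

namespace Pool.Agent.V11326.WO

open Pool.Agent.Y854.GM

/-- `S` is a set of `m`-tuples at most `C X ^ (e' - ν)` of which have all `N (x i) ≤ log X`, `e e' = m`. -/
theorem one_set {T : Type} {m : ℕ} (S : Set (Fin m → T)) (N : T → ℝ) {e s C : ℝ} (he : 0 < e) (hs : 0 ≤ s)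
    (hfin : ∀ X : ℝ, 1 ≤ X → {x | x ∈ S ∧ ∀ i, N (x i) ≤ Real.log X}.Finite)
    (hS : ∀ X : ℝ, 1 ≤ X → ({x | x ∈ S ∧ ∀ i, N (x i) ≤ Real.log X}.ncard : ℝ) ≤ C * X ^ (e * s))
    {v : ℕ → ℝ} {τ θ : ℝ} (hpos : ∀ n, 1 ≤ v n) (hτ : 0 ≤ τ) (hv : ExpLe v τ) (hθ1 : θ < 1) :
    ∃ F : Set (Fin m → ℝ), dimH F ≤ ENNReal.ofReal ((s + τ) / (1 - θ)) ∧ ∀ β : Fin m → ℝ, β ∉ F →
      ∃ n₀ : ℕ, ∀ n : ℕ, n₀ ≤ n → ∀ x : Fin m → T, (∀ i, |Real.exp (e * N (x i)) - β i * v n| ≤ (v n) ^ θ) →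
        x ∉ S := by
  obtain ⟨F, hF, h⟩ := Pool.Agent.V11326.WK.windowsK (E := Fin m → ℝ) (fun _ => S)
    (fun _ x => fun i => Real.exp (e * N (x i))) (s := s) hpos hτ hv hs hθ1 (by
    intro A ε hε
    refine ⟨|C| * ((A : ℝ) + 1) ^ s, 0, fun n _ => ?_⟩
    have hv1 := hpos n
    have hA : (0 : ℝ) ≤ A := Nat.cast_nonneg A
    have hX : 1 ≤ ((A : ℝ) + 1) * v n := by nlinarith
    have hX0 : 0 < ((A : ℝ) + 1) * v n := by linarith
    obtain ⟨X, hXdef⟩ : ∃ X : ℝ, X = (((A : ℝ) + 1) * v n) ^ (1 / e) := ⟨_, rfl⟩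
    have hX1 : 1 ≤ X := by
      rw [hXdef]
      exact Real.one_le_rpow hX (by positivity)
    have e1 : {x : Fin m → T | x ∈ S ∧ ‖(fun i => Real.exp (e * N (x i)))‖ ≤ ((A : ℝ) + 1) * v n} ⊆
        {x : Fin m → T | x ∈ S ∧ ∀ i, N (x i) ≤ Real.log X} := by
      rintro x ⟨h1, h2⟩
      refine ⟨h1, fun i => ?_⟩
      rw [pi_norm_le_iff_of_nonneg hX0.le] at h2
      have h3 := h2 i
      rw [Real.norm_eq_abs, abs_of_pos (Real.exp_pos _)] at h3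
      have h4 : e * N (x i) ≤ Real.log (((A : ℝ) + 1) * v n) := (Real.le_log_iff_exp_le hX0).2 h3
      rw [hXdef, Real.log_rpow hX0, one_div, inv_mul_eq_div, le_div_iff₀ he, mul_comm]
      exact h4
    refine ⟨(hfin X hX1).subset e1, ?_⟩
    have h3 : X ^ (e * s) = (((A : ℝ) + 1) * v n) ^ s := by
      rw [hXdef, ← Real.rpow_mul hX0.le]
      congr 1
      field_simp
    calc ({x : Fin m → T | x ∈ S ∧ ‖(fun i => Real.exp (e * N (x i)))‖ ≤ ((A : ℝ) + 1) * v n}.ncard : ℝ)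
        ≤ ({x : Fin m → T | x ∈ S ∧ ∀ i, N (x i) ≤ Real.log X}.ncard : ℝ) := by
          exact_mod_cast Set.ncard_le_ncard e1 (hfin X hX1)
      _ ≤ C * X ^ (e * s) := hS X hX1
      _ ≤ |C| * (((A : ℝ) + 1) * v n) ^ s := by
          rw [h3]
          exact mul_le_mul_of_nonneg_right (le_abs_self _) (by positivity)
      _ = |C| * ((A : ℝ) + 1) ^ s * (v n) ^ s := by
          rw [Real.mul_rpow (by positivity) (by linarith), ← mul_assoc]
      _ ≤ |C| * ((A : ℝ) + 1) ^ s * (v n) ^ (s + ε) := by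
          apply mul_le_mul_of_nonneg_left _ (by positivity)
          exact Real.rpow_le_rpow_of_exponent_le hv1 (by linarith))
  refine ⟨F, hF, fun β hβ => ?_⟩
  obtain ⟨n₀, hn⟩ := h β hβ
  refine ⟨n₀, fun n hn1 x hw hx => ?_⟩
  refine absurd ?_ (not_le.2 (hn n hn1 x hx))
  rw [pi_norm_le_iff_of_nonneg (Real.rpow_nonneg (by linarith [hpos n]) _)]
  intro i
  rw [Pi.sub_apply, Pi.smul_apply, smul_eq_mul, Real.norm_eq_abs, mul_comm (v n)]
  exact hw i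

/-- The form in which it is used: an exceptional set `E`, and tuples `Tup X` (finite sets) with `at most
C X ^ (2 m / q - ν)` of them in `E`. -/
theorem tuples {T : Type} {m q : ℕ} (hq : 0 < q) (hm : 0 < m) (E : Set (Fin m → T)) (P : (Fin m → T) → Prop) (N : T → ℝ)
    {ν C : ℝ} (hν : 0 < ν)
    (hfin : ∀ X : ℝ, 1 ≤ X → {x | P x ∧ ∀ i, N (x i) ≤ Real.log X}.Finite)
    (hS : ∀ X : ℝ, 1 ≤ X → ((E ∩ {x | P x ∧ ∀ i, N (x i) ≤ Real.log X}).ncard : ℝ) ≤ C * X ^ (2 * m / (q : ℝ) - ν)) :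
    ∃ ν' : ℝ, 0 < ν' ∧ ν' ≤ m ∧ ∀ (v : ℕ → ℝ) (τ θ : ℝ), (∀ n, 1 ≤ v n) → 0 ≤ τ → ExpLe v τ → θ < 1 →
      ∃ F : Set (Fin m → ℝ), dimH F ≤ ENNReal.ofReal (((m : ℝ) - ν' + τ) / (1 - θ)) ∧
        (τ + m * θ < ν' → volume F = 0) ∧
        ∀ β : Fin m → ℝ, β ∉ F → ∃ n₀ : ℕ, ∀ n : ℕ, n₀ ≤ n → ∀ x : Fin m → T, P x →
          (∀ i, |Real.exp (2 / (q : ℝ) * N (x i)) - β i * v n| ≤ (v n) ^ θ) → x ∉ E := by
  have hq0 : (0 : ℝ) < q := by exact_mod_cast hq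
  have hm0 : (0 : ℝ) < m := by exact_mod_cast hm
  refine ⟨min (ν * q / 2) m, lt_min (by positivity) hm0, min_le_right _ _, fun v τ θ hv hτ hvτ hθ => ?_⟩
  have hs : 0 ≤ (m : ℝ) - min (ν * q / 2) m := by linarith [min_le_right (ν * q / 2) (m : ℝ)]
  obtain ⟨F, hF, h⟩ := one_set (T := T) (m := m) (E ∩ {x | P x}) N (e := 2 / (q : ℝ))
    (s := (m : ℝ) - min (ν * q / 2) m) (C := |C|) (by positivity) hs
    (fun X hX => (hfin X hX).subset (by
      rintro x ⟨⟨-, h1⟩, h2⟩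
      exact ⟨h1, h2⟩))
    (fun X hX => by
      have e1 : {x | x ∈ E ∩ {x | P x} ∧ ∀ i, N (x i) ≤ Real.log X} = E ∩ {x | P x ∧ ∀ i, N (x i) ≤ Real.log X} := by
        ext x
        constructor
        · rintro ⟨⟨h1, h2⟩, h3⟩
          exact ⟨h1, h2, h3⟩
        · rintro ⟨h1, h2, h3⟩
          exact ⟨⟨h1, h2⟩, h3⟩
      rw [e1]
      refine (hS X hX).trans (mul_le_mul (le_abs_self C) ?_ (by positivity) (abs_nonneg C))
      apply Real.rpow_le_rpow_of_exponent_le hX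
      have h1 : min (ν * q / 2) (m : ℝ) ≤ ν * q / 2 := min_le_left _ _
      have h2 : 2 / (q : ℝ) * min (ν * q / 2) (m : ℝ) ≤ ν := by
        calc 2 / (q : ℝ) * min (ν * q / 2) (m : ℝ) ≤ 2 / (q : ℝ) * (ν * q / 2) :=
              mul_le_mul_of_nonneg_left h1 (by positivity)
          _ = ν := by field_simp
      have h3 : 2 / (q : ℝ) * ((m : ℝ) - min (ν * q / 2) m) = 2 * m / q - 2 / (q : ℝ) * min (ν * q / 2) (m : ℝ) := by
        ring
      rw [h3]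
      linarith)
    hv hτ hvτ hθ
  have hcard : (Fintype.card (Fin m) : ℝ) = m := by rw [Fintype.card_fin]
  refine ⟨F, hF, fun hc => ?_, fun β hβ => ?_⟩
  · exact Pool.Agent.V11326.WI.null (c := min (ν * q / 2) m) (by rw [hcard]; exact min_le_right _ _) hτ hθ
      (by rw [hcard]; exact hF) (by rw [hcard]; exact hc)
  · obtain ⟨n₀, hn⟩ := h β hβ
    exact ⟨n₀, fun n hn1 x hx hw hE => hn n hn1 x hw ⟨hE, hx⟩⟩

end Pool.Agent.V11326.WO
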