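import Pool.Agent.Y854.GM.WinV

/-! Windows around the members `α v_n` of a thin sequence which contain no real number whose integer part belongs to a
thin set of integers. -/

set_option autoImplicit false

open Finset Filter Topology MeasureTheory

namespace Pool.Agent.V11326.WR

open Pool.Agent.Y854.GM

/-- Let `S` be a set of integers with `O (X ^ (s + ε))` elements up to `X`. For `α > 0` outside a set of dimension at most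
`(s + τ) / (1 - θ)` and all large `n` no real number `x ≥ 0` with `|x - α v_n| ≤ v_n ^ θ` has its integer part in `S`. -/
theorem windowsR (S : Set ℕ) {v : ℕ → ℝ} {s τ θ : ℝ} (hpos : ∀ n, 1 ≤ v n)
    (hτ : 0 ≤ τ) (hv : ExpLe v τ) (hs : 0 ≤ s) (hθ0 : 0 ≤ θ) (hθ1 : θ < 1)
    (hS : ∀ ε : ℝ, 0 < ε → ∃ C : ℝ, ∀ X : ℝ, 1 ≤ X →
      ({t : ℕ | t ∈ S ∧ (t : ℝ) ≤ X}.ncard : ℝ) ≤ C * X ^ (s + ε)) :
    ∃ E : Set ℝ, dimH E ≤ ENNReal.ofReal ((s + τ) / (1 - θ)) ∧ ∀ α : ℝ, 0 < α → α ∉ E →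
      ∃ n0 : ℕ, ∀ n : ℕ, n0 ≤ n → ∀ x : ℝ, 0 ≤ x → |x - α * v n| ≤ (v n) ^ θ → ⌊x⌋₊ ∉ S := by
  obtain ⟨E, hE1, hE2⟩ := windowsV (fun _ => S) (fun _ (t : ℕ) => (t : ℝ)) (v := v) (s := s) (τ := τ) (θ := θ) 2 hpos hτ
    hv hs hθ1 (by
      intro A ε hε
      obtain ⟨C, hC⟩ := hS ε hε
      refine ⟨C * ((A : ℝ) + 1) ^ (s + ε), 0, fun n _ => ⟨?_, ?_⟩⟩
      · exact (Set.finite_Icc 0 ⌊((A : ℝ) + 1) * v n⌋₊).subset fun t ht => ⟨Nat.zero_le _, Nat.le_floor ht.2⟩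
      · have h1 := hpos n
        have h2 : (0 : ℝ) ≤ A := Nat.cast_nonneg A
        have h3 := hC (((A : ℝ) + 1) * v n) (by nlinarith)
        rw [Real.mul_rpow (by positivity) (by linarith), ← mul_assoc] at h3
        exact h3)
  refine ⟨E, hE1, fun α hα hαE => ?_⟩
  obtain ⟨n0, hn0⟩ := hE2 α hα hαE
  refine ⟨n0, fun n hn x hx hw hmem => ?_⟩
  have h1 := hn0 n hn ⌊x⌋₊ hmem
  have h2 : 1 ≤ (v n) ^ θ := Real.one_le_rpow (hpos n) hθ0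
  have h3 : |((⌊x⌋₊ : ℕ) : ℝ) - x| ≤ 1 := by
    rw [abs_le]
    constructor
    · linarith [Nat.lt_floor_add_one x]
    · linarith [Nat.floor_le hx]
  have h4 : |((⌊x⌋₊ : ℕ) : ℝ) - α * v n| ≤ |((⌊x⌋₊ : ℕ) : ℝ) - x| + |x - α * v n| := by
    have := abs_add_le (((⌊x⌋₊ : ℕ) : ℝ) - x) (x - α * v n)
    simpa using this
  linarith

/-- The same with the lattice: no integer `t` of `S` satisfies `|t - α v_n| ≤ v_n ^ θ`; here `θ` may be negative. -/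
theorem windowsN (S : Set ℕ) {v : ℕ → ℝ} {s τ θ : ℝ} (hpos : ∀ n, 1 ≤ v n)
    (hτ : 0 ≤ τ) (hv : ExpLe v τ) (hs : 0 ≤ s) (hθ1 : θ < 1)
    (hS : ∀ ε : ℝ, 0 < ε → ∃ C : ℝ, ∀ X : ℝ, 1 ≤ X →
      ({t : ℕ | t ∈ S ∧ (t : ℝ) ≤ X}.ncard : ℝ) ≤ C * X ^ (s + ε)) :
    ∃ E : Set ℝ, dimH E ≤ ENNReal.ofReal ((s + τ) / (1 - θ)) ∧ ∀ α : ℝ, 0 < α → α ∉ E →
      ∃ n0 : ℕ, ∀ n : ℕ, n0 ≤ n → ∀ t : ℕ, |(t : ℝ) - α * v n| ≤ (v n) ^ θ → t ∉ S := by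
  obtain ⟨E, hE1, hE2⟩ := windowsV (fun _ => S) (fun _ (t : ℕ) => (t : ℝ)) (v := v) (s := s) (τ := τ) (θ := θ) 1 hpos hτ
    hv hs hθ1 (by
      intro A ε hε
      obtain ⟨C, hC⟩ := hS ε hε
      refine ⟨C * ((A : ℝ) + 1) ^ (s + ε), 0, fun n _ => ⟨?_, ?_⟩⟩
      · exact (Set.finite_Icc 0 ⌊((A : ℝ) + 1) * v n⌋₊).subset fun t ht => ⟨Nat.zero_le _, Nat.le_floor ht.2⟩
      · have h1 := hpos n
        have h2 : (0 : ℝ) ≤ A := Nat.cast_nonneg A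
        have h3 := hC (((A : ℝ) + 1) * v n) (by nlinarith)
        rw [Real.mul_rpow (by positivity) (by linarith), ← mul_assoc] at h3
        exact h3)
  refine ⟨E, hE1, fun α hα hαE => ?_⟩
  obtain ⟨n0, hn0⟩ := hE2 α hα hαE
  refine ⟨n0, fun n hn t ht hmem => ?_⟩
  have h1 := hn0 n hn t hmem
  rw [one_mul] at h1
  exact absurd ht (not_le.2 h1)

end Pool.Agent.V11326.WR
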