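import Mathlib

/-! Inequalities used in `Pool.Agent.Results.MP_b612d4_pr.NoiseBeatsDrift`. -/

open Filter
open scoped Topology

namespace Pool.Agent.V11326.Aloha

/-! ### elementary inequalities -/

/-- probability of exactly one success -/
noncomputable def qf (N : ℕ) (w : ℝ) : ℝ := N * w * (1 - w) ^ (N - 1)

theorem qf_nonneg (N : ℕ) (w : ℝ) (h0 : 0 ≤ w) (h1 : w ≤ 1) : 0 ≤ qf N w := by
  unfold qf
  have : 0 ≤ 1 - w := by linarith
  positivity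

theorem binom_term_le (N k : ℕ) (hk : k ≤ N) (w : ℝ) (h0 : 0 ≤ w) (h1 : w ≤ 1) :
    w ^ k * (1 - w) ^ (N - k) * (N.choose k : ℝ) ≤ 1 := by
  have h2 : 0 ≤ 1 - w := by linarith
  have h := add_pow w (1 - w) N
  rw [add_sub_cancel, one_pow] at h
  refine le_trans ?_ h.symm.le
  exact Finset.single_le_sum (f := fun m => w ^ m * (1 - w) ^ (N - m) * (N.choose m : ℝ))
    (fun i _ => by positivity) (Finset.mem_range.2 (show k < N + 1 by omega))

theorem qf_le_one (N : ℕ) (w : ℝ) (h0 : 0 ≤ w) (h1 : w ≤ 1) : qf N w ≤ 1 := by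
  rcases Nat.eq_zero_or_pos N with rfl | hN
  · simp [qf]
  · have := binom_term_le N 1 hN w h0 h1
    rw [Nat.choose_one_right, pow_one] at this
    unfold qf
    linarith

theorem qf_le (N : ℕ) (w : ℝ) (h0 : 0 ≤ w) (h1 : w ≤ 1) : qf N w ≤ N * w := by
  unfold qf
  have h2 : 0 ≤ 1 - w := by linarith
  have h3 : (1 - w) ^ (N - 1) ≤ 1 := pow_le_one₀ h2 (by linarith)
  have : 0 ≤ (N : ℝ) * w := by positivity
  nlinarith

theorem pow_sub_le (a b : ℝ) (hb : 0 ≤ b) (hab : b ≤ a) (n : ℕ) :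
    a ^ (n + 1) - b ^ (n + 1) ≤ (n + 1) * (a - b) * a ^ n := by
  have ha : 0 ≤ a := hb.trans hab
  induction n with
  | zero => simp
  | succ n ih =>
    have h1 : b ^ (n + 1) ≤ a ^ (n + 1) := pow_le_pow_left₀ hb hab _
    have h2 : 0 ≤ a - b := by linarith
    calc a ^ (n + 1 + 1) - b ^ (n + 1 + 1)
        = a * (a ^ (n + 1) - b ^ (n + 1)) + (a - b) * b ^ (n + 1) := by ring
      _ ≤ a * ((n + 1) * (a - b) * a ^ n) + (a - b) * a ^ (n + 1) := by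
          gcongr
      _ = ((n + 1 : ℕ) + 1) * (a - b) * a ^ (n + 1) := by push_cast; ring

theorem qf_diff (m : ℕ) (u e : ℝ) (hu0 : 0 ≤ u) (hu1 : u ≤ 1) (he0 : 0 ≤ e) (he1 : e ≤ 1 / 2) :
    qf (m + 2) ((1 - e) * u) - qf (m + 2) u ≤ 8 * e := by
  set v := (1 - e) * u with hv
  have hv0 : 0 ≤ v := by rw [hv]; apply mul_nonneg <;> linarith
  have hvu : v ≤ u := by rw [hv]; nlinarith
  have hv2 : u / 2 ≤ v := by rw [hv]; nlinarith
  have hb := binom_term_le (m + 2) 2 (by omega) (u / 2) (by linarith) (by linarith)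
  have e1 : m + 2 - 2 = m := by omega
  rw [e1, Nat.cast_choose_two] at hb
  unfold qf
  have e2 : m + 2 - 1 = m + 1 := by omega
  rw [e2]
  have hN : (0 : ℝ) ≤ ((m + 2 : ℕ) : ℝ) := Nat.cast_nonneg _
  have h1 := pow_sub_le (1 - v) (1 - u) (by linarith) (by linarith) m
  have h2 : (1 - v) ^ m ≤ (1 - u / 2) ^ m := pow_le_pow_left₀ (by linarith) (by linarith) m
  have h3 : 0 ≤ (1 - v) ^ (m + 1) := pow_nonneg (by linarith) _
  have hm0 : (0 : ℝ) ≤ m := Nat.cast_nonneg m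
  calc ((m + 2 : ℕ) : ℝ) * v * (1 - v) ^ (m + 1) - ((m + 2 : ℕ) : ℝ) * u * (1 - u) ^ (m + 1)
      ≤ ((m + 2 : ℕ) : ℝ) * u * (1 - v) ^ (m + 1) - ((m + 2 : ℕ) : ℝ) * u * (1 - u) ^ (m + 1) := by
        gcongr
    _ = ((m + 2 : ℕ) : ℝ) * u * ((1 - v) ^ (m + 1) - (1 - u) ^ (m + 1)) := by ring
    _ ≤ ((m + 2 : ℕ) : ℝ) * u * ((m + 1) * ((1 - v) - (1 - u)) * (1 - v) ^ m) := by
        gcongr
    _ = e * (((m + 2 : ℕ) : ℝ) * (m + 1) * u ^ 2 * (1 - v) ^ m) := by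
        rw [hv]; ring
    _ ≤ e * (((m + 2 : ℕ) : ℝ) * (m + 1) * u ^ 2 * (1 - u / 2) ^ m) := by
        gcongr
    _ = e * (8 * ((u / 2) ^ 2 * (1 - u / 2) ^ m *
          (((m + 2 : ℕ) : ℝ) * (((m + 2 : ℕ) : ℝ) - 1) / 2))) := by
        push_cast; ring
    _ ≤ e * (8 * 1) := by
        gcongr
    _ = 8 * e := by ring

/-- fourth root -/
noncomputable def f4 (x : ℝ) : ℝ := √(√x)

theorem f4_nonneg (x : ℝ) : 0 ≤ f4 x := Real.sqrt_nonneg _

theorem f4_pow (x : ℝ) (hx : 0 ≤ x) : f4 x ^ 4 = x := by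
  unfold f4
  calc (√(√x)) ^ 4 = ((√(√x)) ^ 2) ^ 2 := by ring
    _ = x := by rw [Real.sq_sqrt (Real.sqrt_nonneg _), Real.sq_sqrt hx]

theorem f4_mono {x y : ℝ} (h : x ≤ y) : f4 x ≤ f4 y :=
  Real.sqrt_le_sqrt (Real.sqrt_le_sqrt h)

theorem f4_of_pow (y : ℝ) (hy : 0 ≤ y) : f4 (y ^ 4) = y := by
  unfold f4
  have : y ^ 4 = (y ^ 2) ^ 2 := by ring
  rw [this, Real.sqrt_sq (by positivity), Real.sqrt_sq hy]

theorem le_of_pow4 {a b : ℝ} (hb : 0 ≤ b) (h : a ^ 4 ≤ b ^ 4) : a ≤ b :=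
  le_of_pow_le_pow_left₀ (by norm_num) hb h

theorem f4_add (y t : ℝ) (hy : 0 < y) (ht : 0 ≤ t) : f4 (y ^ 4 + t) ≤ y + t / (4 * y ^ 3) := by
  have h0 : 0 ≤ y + t / (4 * y ^ 3) := by positivity
  apply le_of_pow4 h0
  rw [f4_pow _ (by positivity)]
  set s := t / (4 * y ^ 3) with hs
  have hs0 : 0 ≤ s := by positivity
  have ht' : t = 4 * y ^ 3 * s := by rw [hs]; field_simp
  rw [ht']
  have : (y + s) ^ 4 = y ^ 4 + 4 * y ^ 3 * s + (6 * y ^ 2 * s ^ 2 + 4 * y * s ^ 3 + s ^ 4) := by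
    ring
  rw [this]
  have : 0 ≤ 6 * y ^ 2 * s ^ 2 + 4 * y * s ^ 3 + s ^ 4 := by positivity
  linarith

theorem f4_second (y t : ℝ) (hy : 0 < y) (ht : 0 ≤ t) (hty : t ≤ y ^ 4) :
    f4 (y ^ 4 + t) + f4 (y ^ 4 - t) ≤ 2 * y - t ^ 2 / (8 * y ^ 7) := by
  set a := f4 (y ^ 4 + t) with ha
  set b := f4 (y ^ 4 - t) with hb
  have ha0 : 0 ≤ a := f4_nonneg _
  have hb0 : 0 ≤ b := f4_nonneg _
  have ha4 : a ^ 4 = y ^ 4 + t := f4_pow _ (by positivity)
  have hb4 : b ^ 4 = y ^ 4 - t := f4_pow _ (by linarith)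
  -- s = t / y^4
  set s := t / y ^ 4 with hs
  have hs0 : 0 ≤ s := by positivity
  have hs1 : s ≤ 1 := by rw [hs, div_le_one (by positivity)]; exact hty
  have ht' : t = y ^ 4 * s := by rw [hs]; field_simp
  have hrhs : t ^ 2 / (8 * y ^ 7) = y * s ^ 2 / 8 := by rw [ht']; field_simp
  rw [hrhs]
  rw [ht'] at ha4 hb4
  -- a^2 b^2 ≤ y^4 (1 - s^2/2)
  have h1 : a ^ 2 * b ^ 2 ≤ y ^ 4 * (1 - s ^ 2 / 2) := by
    have h2 : 0 ≤ y ^ 4 * (1 - s ^ 2 / 2) := by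
      apply mul_nonneg (by positivity)
      nlinarith
    apply le_of_pow_le_pow_left₀ (n := 2) (by norm_num) h2
    calc (a ^ 2 * b ^ 2) ^ 2 = a ^ 4 * b ^ 4 := by ring
      _ = y ^ 8 * (1 - s ^ 2) := by rw [ha4, hb4]; ring
      _ ≤ y ^ 8 * (1 - s ^ 2 / 2) ^ 2 := by
          apply mul_le_mul_of_nonneg_left _ (by positivity)
          nlinarith [sq_nonneg (s ^ 2)]
      _ = (y ^ 4 * (1 - s ^ 2 / 2)) ^ 2 := by ring
  have h3 : a ^ 2 + b ^ 2 ≤ y ^ 2 * (2 - s ^ 2 / 4) := by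
    have h2 : 0 ≤ y ^ 2 * (2 - s ^ 2 / 4) := by
      apply mul_nonneg (by positivity)
      nlinarith
    apply le_of_pow_le_pow_left₀ (n := 2) (by norm_num) h2
    calc (a ^ 2 + b ^ 2) ^ 2 = a ^ 4 + b ^ 4 + 2 * (a ^ 2 * b ^ 2) := by ring
      _ ≤ (y ^ 4 + y ^ 4 * s) + (y ^ 4 - y ^ 4 * s) + 2 * (y ^ 4 * (1 - s ^ 2 / 2)) := by
          rw [ha4, hb4]; linarith
      _ = y ^ 4 * (4 - s ^ 2) := by ring
      _ ≤ y ^ 4 * (2 - s ^ 2 / 4) ^ 2 := by
          apply mul_le_mul_of_nonneg_left _ (by positivity)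
          nlinarith [sq_nonneg (s ^ 2)]
      _ = (y ^ 2 * (2 - s ^ 2 / 4)) ^ 2 := by ring
  have h5 : 0 ≤ 2 * y - y * s ^ 2 / 8 := by
    have : y * s ^ 2 / 8 ≤ y := by
      have : s ^ 2 ≤ 1 := by nlinarith
      nlinarith
    linarith
  apply le_of_pow_le_pow_left₀ (n := 2) (by norm_num) h5
  calc (a + b) ^ 2 ≤ 2 * (a ^ 2 + b ^ 2) := by nlinarith [sq_nonneg (a - b)]
    _ ≤ 2 * (y ^ 2 * (2 - s ^ 2 / 4)) := by linarith
    _ = y ^ 2 * (4 - s ^ 2 / 2) := by ring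
    _ ≤ y ^ 2 * (2 - s ^ 2 / 8) ^ 2 := by
        apply mul_le_mul_of_nonneg_left _ (by positivity)
        nlinarith [sq_nonneg (s ^ 2)]
    _ = (2 * y - y * s ^ 2 / 8) ^ 2 := by ring

/-! ### the protocol functions -/

noncomputable def hh (x : ℝ) : ℝ := x ^ (7 / 8 : ℝ) - 1

noncomputable def ee (x : ℝ) : ℝ := x ^ (-(1 / 4) : ℝ) / 2

theorem root8 (S : ℝ) (hS : 1 ≤ S) : ∃ r : ℝ, 1 ≤ r ∧ S = r ^ 8 ∧ hh S = r ^ 7 - 1 ∧
    ee S = 1 / (2 * r ^ 2) := by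
  have hS0 : 0 ≤ S := by linarith
  refine ⟨S ^ (1 / 8 : ℝ), Real.one_le_rpow hS (by norm_num), ?_, ?_, ?_⟩
  · rw [← Real.rpow_natCast, ← Real.rpow_mul hS0]
    norm_num
  · unfold hh
    rw [← Real.rpow_natCast, ← Real.rpow_mul hS0]
    norm_num
  · unfold ee
    rw [← Real.rpow_natCast (S ^ (1 / 8 : ℝ)) 2, ← Real.rpow_mul hS0, Real.rpow_neg hS0]
    norm_num
    ring

noncomputable def GG (R x : ℝ) : ℝ := 512 * f4 (x + R)

theorem GG_nonneg (R x : ℝ) : 0 ≤ GG R x := mul_nonneg (by norm_num) (f4_nonneg _)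

theorem GG_mono (R : ℝ) {x y : ℝ} (h : x ≤ y) : GG R x ≤ GG R y :=
  mul_le_mul_of_nonneg_left (f4_mono (by linarith)) (by norm_num)

/-- the three estimates on `G` -/
theorem GG_add (R S t : ℝ) (hS : 0 ≤ S) (hR : 0 < R) (ht : 0 ≤ t) :
    GG R (S + t) - GG R S ≤ 128 * t / f4 (S + R) ^ 3 := by
  have hy : 0 < f4 (S + R) := by
    unfold f4
    exact Real.sqrt_pos.2 (Real.sqrt_pos.2 (by linarith))
  have h := f4_add (f4 (S + R)) t hy ht
  rw [f4_pow _ (by linarith)] at h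
  unfold GG
  have e1 : S + t + R = S + R + t := by ring
  rw [e1]
  have : 128 * t / f4 (S + R) ^ 3 = 512 * (t / (4 * f4 (S + R) ^ 3)) := by
    field_simp; ring
  rw [this]
  linarith

theorem GG_second (R S t : ℝ) (hS : 0 ≤ S) (hR : 0 < R) (ht : 0 ≤ t) (htS : t ≤ S) :
    GG R (S + t) + GG R (S - t) - 2 * GG R S ≤ - (64 * t ^ 2 / f4 (S + R) ^ 7) := by
  have hy : 0 < f4 (S + R) := by
    unfold f4
    exact Real.sqrt_pos.2 (Real.sqrt_pos.2 (by linarith))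
  have h := f4_second (f4 (S + R)) t hy ht (by rw [f4_pow _ (by linarith)]; linarith)
  rw [f4_pow _ (by linarith)] at h
  unfold GG
  have e1 : S + t + R = S + R + t := by ring
  have e2 : S - t + R = S + R - t := by ring
  rw [e1, e2]
  have : 64 * t ^ 2 / f4 (S + R) ^ 7 = 512 * (t ^ 2 / (8 * f4 (S + R) ^ 7)) := by
    field_simp; ring
  rw [this]
  linarith

/-- the key algebraic estimate -/
theorem core_main (C p ρ : ℝ) (hC : 0 < C) (hp0 : 0 < p) (hp1 : p ≤ 1)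
    (hρ : 4096 * (1 + C) / p ≤ ρ) (N : ℕ) (hN : 2 ≤ N)
    (hη : ∀ S : ℝ, 1 ≤ S → S ≤ ρ ^ 8 → ∀ w : ℝ, 1 / (2 * S) ≤ w → w ≤ 1 →
      qf N w * (1 + 64 * ρ) ≤ 3 / 8 * p) (S : ℝ) (hS : 1 ≤ S) :
    (qf N ((1 - ee S) * (1 / S)) + qf N (1 / S)) / 2 - p
      + qf N (1 / S) / 2 * (GG (ρ ^ 8) (S - hh S) - GG (ρ ^ 8) S)
      + qf N ((1 - ee S) * (1 / S)) / 2 * (GG (ρ ^ 8) (S + hh S) - GG (ρ ^ 8) S)
      + (1 - (qf N ((1 - ee S) * (1 / S)) + qf N (1 / S)) / 2) *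
        (GG (ρ ^ 8) (S + C) - GG (ρ ^ 8) S) ≤ - p / 2 := by
  have hρ1 : 4096 * (1 + C) ≤ ρ * p := (div_le_iff₀ hp0).1 hρ
  have hρ4096 : 4096 ≤ ρ := by nlinarith
  have hρ0 : 0 < ρ := by linarith
  have hR : 0 < ρ ^ 8 := by positivity
  obtain ⟨r, hr1, hSr, hhr, her⟩ := root8 S hS
  have hr0 : 0 < r := by linarith
  have hS0 : 0 < S := by linarith
  have hu0 : 0 ≤ 1 / S := by positivity
  have hu1 : 1 / S ≤ 1 := by rw [div_le_one hS0]; exact hS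
  have he0 : 0 ≤ ee S := by rw [her]; positivity
  have he1 : ee S ≤ 1 / 2 := by
    rw [her]
    apply one_div_le_one_div_of_le (by norm_num)
    nlinarith
  have hv0 : 0 ≤ (1 - ee S) * (1 / S) := mul_nonneg (by linarith) hu0
  have hv1 : (1 - ee S) * (1 / S) ≤ 1 := by nlinarith
  have hvw : 1 / (2 * S) ≤ (1 - ee S) * (1 / S) := by
    have : 1 / (2 * S) = (1 / 2) * (1 / S) := by field_simp
    rw [this]
    apply mul_le_mul_of_nonneg_right _ hu0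
    linarith
  have huw : 1 / (2 * S) ≤ 1 / S := one_div_le_one_div_of_le hS0 (by linarith)
  set q0 := qf N ((1 - ee S) * (1 / S)) with hq0
  set q1 := qf N (1 / S) with hq1
  have hq00 : 0 ≤ q0 := qf_nonneg _ _ hv0 hv1
  have hq01 : q0 ≤ 1 := qf_le_one _ _ hv0 hv1
  have hq10 : 0 ≤ q1 := qf_nonneg _ _ hu0 hu1
  have hq11 : q1 ≤ 1 := qf_le_one _ _ hu0 hu1
  have hh0 : 0 ≤ hh S := by
    rw [hhr]
    have := one_le_pow₀ hr1 (n := 7)
    linarith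
  have hhS : hh S ≤ S := by
    rw [hhr, hSr]
    have : r ^ 7 * 1 ≤ r ^ 7 * r := mul_le_mul_of_nonneg_left hr1 (by positivity)
    nlinarith
  -- y
  set y := f4 (S + ρ ^ 8) with hy
  have hy4 : y ^ 4 = S + ρ ^ 8 := f4_pow _ (by positivity)
  have hyρ : ρ ^ 2 ≤ y := by
    apply le_of_pow4 (f4_nonneg _)
    rw [← hy, hy4]
    have : (ρ ^ 2) ^ 4 = ρ ^ 8 := by ring
    rw [this]; linarith
  have hyr : r ^ 2 ≤ y := by
    apply le_of_pow4 (f4_nonneg _)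
    rw [← hy, hy4]
    have : (r ^ 2) ^ 4 = S := by rw [hSr]; ring
    rw [this]; linarith
  have hy0 : 0 < y := lt_of_lt_of_le (by positivity) hyρ
  have hA : GG (ρ ^ 8) (S + C) - GG (ρ ^ 8) S ≤ p / 8 := by
    refine (GG_add (ρ ^ 8) S C hS0.le hR hC.le).trans ?_
    rw [← hy, div_le_iff₀ (by positivity)]
    have h1 : ρ ≤ y ^ 3 := by
      calc ρ = ρ * 1 := by ring
        _ ≤ ρ * ρ ^ 5 := by
            apply mul_le_mul_of_nonneg_left _ hρ0.le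
            exact one_le_pow₀ (by linarith)
        _ = (ρ ^ 2) ^ 3 := by ring
        _ ≤ y ^ 3 := pow_le_pow_left₀ (by positivity) hyρ 3
    have h2 : ρ * p ≤ y ^ 3 * p := mul_le_mul_of_nonneg_right h1 hp0.le
    nlinarith
  have hA0 : 0 ≤ GG (ρ ^ 8) (S + C) - GG (ρ ^ 8) S := by
    have := GG_mono (ρ ^ 8) (show S ≤ S + C by linarith)
    linarith
  have hB : GG (ρ ^ 8) (S + hh S) - GG (ρ ^ 8) S ≤ 128 * r := by
    refine (GG_add (ρ ^ 8) S (hh S) hS0.le hR hh0).trans ?_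
    rw [← hy, div_le_iff₀ (by positivity)]
    have h1 : (r ^ 2) ^ 3 ≤ y ^ 3 := pow_le_pow_left₀ (by positivity) hyr 3
    have h2 : hh S ≤ r ^ 7 := by rw [hhr]; linarith
    calc 128 * hh S ≤ 128 * r ^ 7 := by linarith
      _ = 128 * r * (r ^ 2) ^ 3 := by ring
      _ ≤ 128 * r * y ^ 3 := mul_le_mul_of_nonneg_left h1 (by positivity)
  have hB0 : 0 ≤ GG (ρ ^ 8) (S + hh S) - GG (ρ ^ 8) S := by
    have := GG_mono (ρ ^ 8) (show S ≤ S + hh S by linarith)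
    linarith
  have hD : GG (ρ ^ 8) (S - hh S) - GG (ρ ^ 8) S ≤ 0 := by
    have := GG_mono (ρ ^ 8) (show S - hh S ≤ S by linarith)
    linarith
  have hAterm : (1 - (q0 + q1) / 2) * (GG (ρ ^ 8) (S + C) - GG (ρ ^ 8) S) ≤ p / 8 := by
    calc (1 - (q0 + q1) / 2) * (GG (ρ ^ 8) (S + C) - GG (ρ ^ 8) S)
        ≤ 1 * (GG (ρ ^ 8) (S + C) - GG (ρ ^ 8) S) :=
          mul_le_mul_of_nonneg_right (by linarith) hA0
      _ ≤ p / 8 := by linarith
  rcases le_total S (ρ ^ 8) with hcase | hcase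
  · -- small S
    have hrρ : r ≤ ρ := by
      rw [hSr] at hcase
      exact le_of_pow_le_pow_left₀ (by norm_num) hρ0.le hcase
    have h0 := hη S hS hcase _ hvw hv1
    have h1 := hη S hS hcase _ huw hu1
    rw [← hq0] at h0
    rw [← hq1] at h1
    have h2 : q1 / 2 * (GG (ρ ^ 8) (S - hh S) - GG (ρ ^ 8) S) ≤ 0 :=
      mul_nonpos_of_nonneg_of_nonpos (by linarith) hD
    have h3 : q0 / 2 * (GG (ρ ^ 8) (S + hh S) - GG (ρ ^ 8) S) ≤ q0 / 2 * (128 * ρ) :=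
      mul_le_mul_of_nonneg_left (by linarith) (by linarith)
    nlinarith
  · -- large S
    have hrρ : ρ ≤ r := by
      rw [hSr] at hcase
      exact le_of_pow_le_pow_left₀ (by norm_num) hr0.le hcase
    have hsd : GG (ρ ^ 8) (S + hh S) + GG (ρ ^ 8) (S - hh S) - 2 * GG (ρ ^ 8) S ≤ -2 := by
      refine (GG_second (ρ ^ 8) S (hh S) hS0.le hR hh0 hhS).trans ?_
      rw [← hy]
      apply neg_le_neg
      rw [le_div_iff₀ (by positivity)]
      have h1 : y ≤ 5 / 4 * r ^ 2 := by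
        apply le_of_pow4 (by positivity)
        rw [hy4]
        have : (5 / 4 * r ^ 2) ^ 4 = (5 / 4) ^ 4 * r ^ 8 := by ring
        rw [this, ← hSr]
        norm_num
        linarith
      have h2 : y ^ 7 ≤ (5 / 4 * r ^ 2) ^ 7 := pow_le_pow_left₀ hy0.le h1 7
      have h3 : r ^ 7 / 2 ≤ hh S := by
        rw [hhr]
        have : (2 : ℝ) ≤ r ^ 7 := by
          calc (2 : ℝ) ≤ r := by linarith
            _ = r ^ 1 := by ring
            _ ≤ r ^ 7 := pow_le_pow_right₀ hr1 (by norm_num)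
        linarith
      have h4 : (r ^ 7 / 2) ^ 2 ≤ hh S ^ 2 := pow_le_pow_left₀ (by positivity) h3 2
      calc 2 * y ^ 7 ≤ 2 * (5 / 4 * r ^ 2) ^ 7 := by linarith
        _ = 2 * (5 / 4) ^ 7 * r ^ 14 := by ring
        _ ≤ 16 * r ^ 14 := by
            apply mul_le_mul_of_nonneg_right _ (by positivity)
            norm_num
        _ = 64 * (r ^ 7 / 2) ^ 2 := by ring
        _ ≤ 64 * hh S ^ 2 := by linarith
    have hdiff : q0 - q1 ≤ 8 * ee S := by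
      obtain ⟨m, rfl⟩ : ∃ m, N = m + 2 := ⟨N - 2, by omega⟩
      exact qf_diff m (1 / S) (ee S) hu0 hu1 he0 he1
    have hpos : (q0 - q1) / 2 * (1 + (GG (ρ ^ 8) (S + hh S) - GG (ρ ^ 8) S)) ≤ p / 8 := by
      have h1 : (q0 - q1) / 2 * (1 + (GG (ρ ^ 8) (S + hh S) - GG (ρ ^ 8) S)) ≤
          (8 * ee S) / 2 * (1 + (GG (ρ ^ 8) (S + hh S) - GG (ρ ^ 8) S)) :=
        mul_le_mul_of_nonneg_right (by linarith) (by linarith)
      have h2 : (8 * ee S) / 2 * (1 + (GG (ρ ^ 8) (S + hh S) - GG (ρ ^ 8) S)) ≤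
          (8 * ee S) / 2 * (1 + 128 * r) :=
        mul_le_mul_of_nonneg_left (by linarith) (by linarith)
      have h3 : (8 * ee S) / 2 * (1 + 128 * r) ≤ p / 8 := by
        rw [her]
        have e1 : 8 * (1 / (2 * r ^ 2)) / 2 * (1 + 128 * r) = (2 * (1 + 128 * r)) / r ^ 2 := by
          field_simp; norm_num
        rw [e1, div_le_iff₀ (by positivity)]
        have h5 : ρ * p ≤ r * p := mul_le_mul_of_nonneg_right hrρ hp0.le
        have h6 : 4096 ≤ r * p := by nlinarith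
        have h7 : 4096 * r ≤ r * p * r := mul_le_mul_of_nonneg_right h6 hr0.le
        nlinarith
      linarith
    have hq1sd : q1 / 2 * (GG (ρ ^ 8) (S + hh S) + GG (ρ ^ 8) (S - hh S) - 2 * GG (ρ ^ 8) S) ≤
        q1 / 2 * (-2) := mul_le_mul_of_nonneg_left hsd (by linarith)
    have key : (q0 + q1) / 2 - p
        + q1 / 2 * (GG (ρ ^ 8) (S - hh S) - GG (ρ ^ 8) S)
        + q0 / 2 * (GG (ρ ^ 8) (S + hh S) - GG (ρ ^ 8) S)
        = q1 - p + q1 / 2 * (GG (ρ ^ 8) (S + hh S) + GG (ρ ^ 8) (S - hh S) - 2 * GG (ρ ^ 8) S)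
          + (q0 - q1) / 2 * (1 + (GG (ρ ^ 8) (S + hh S) - GG (ρ ^ 8) S)) := by ring
    rw [key]
    linarith


/-- the Lyapunov function -/
noncomputable def VV (R : ℝ) (N : ℕ) (S : ℝ) : ℝ := 1 / N + GG R S / N ^ 2

theorem VV_nonneg (R : ℝ) (N : ℕ) (S : ℝ) : 0 ≤ VV R N S := by
  have := GG_nonneg R S
  unfold VV
  positivity

theorem VV_anti (R : ℝ) {M N : ℕ} (hM : 1 ≤ M) (h : M ≤ N) (S : ℝ) : VV R N S ≤ VV R M S := by
  have hM' : (0 : ℝ) < M := by exact_mod_cast hM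
  have h' : (M : ℝ) ≤ N := by exact_mod_cast h
  unfold VV
  apply add_le_add
  · exact one_div_le_one_div_of_le hM' h'
  · apply div_le_div_of_nonneg_left (GG_nonneg R S) (by positivity)
    exact pow_le_pow_left₀ hM'.le h' 2

theorem assemble_fin (n X Y K Q A G p E : ℝ) (hn : 0 < n)
    (main : n ^ 2 * (X - 1 / n) ≤ Q - p + 3 / n) (gpart : n ^ 2 * Y ≤ K + E)
    (h1 : Q - p + K + (1 - Q) * A - G ≤ -p / 2) (h2 : 3 / n + E ≤ p / 2) :
    X + Y + (1 - Q) * (A / n ^ 2) ≤ 1 / n + G / n ^ 2 := by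
  have hfin : n ^ 2 * (X + Y + (1 - Q) * (A / n ^ 2)) ≤ n ^ 2 * (1 / n + G / n ^ 2) := by
    have e1 : n ^ 2 * (1 / n + G / n ^ 2) = n ^ 2 * (1 / n) + G := by
      field_simp
    have e2 : n ^ 2 * ((1 - Q) * (A / n ^ 2)) = (1 - Q) * A := by
      field_simp
    rw [e1, mul_add, mul_add, e2]
    rw [mul_sub] at main
    linarith
  exact le_of_mul_le_mul_left hfin (by positivity)

/-- one-step inequality, given the two main estimates -/
theorem assemble (n p q0 q1 A B D G : ℝ) (hn : 2 ≤ n) (hp0 : 0 ≤ p) (hp1 : p ≤ 1)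
    (hq00 : 0 ≤ q0) (hq01 : q0 ≤ 1) (hq10 : 0 ≤ q1) (hq11 : q1 ≤ 1)
    (hA : 0 ≤ A) (hD : 0 ≤ D) (hDB : D ≤ B)
    (h1 : (q0 + q1) / 2 - p + q1 / 2 * (D - G) + q0 / 2 * (B - G)
      + (1 - (q0 + q1) / 2) * (A - G) ≤ - p / 2)
    (h2 : (3 + 8 * ((q0 + q1) / 2 * B)) / n ≤ p / 2) :
    1 / 2 * (q1 * (p * (1 / n + D / n ^ 2) + (1 - p) * (1 / (n - 1) + D / (n - 1) ^ 2))
      + (1 - q1) * (p * (1 / (n + 1) + A / (n + 1) ^ 2) + (1 - p) * (1 / n + A / n ^ 2)))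
    + 1 / 2 * (q0 * (p * (1 / n + B / n ^ 2) + (1 - p) * (1 / (n - 1) + B / (n - 1) ^ 2))
      + (1 - q0) * (p * (1 / (n + 1) + A / (n + 1) ^ 2) + (1 - p) * (1 / n + A / n ^ 2)))
    ≤ 1 / n + G / n ^ 2 := by
  have hn0 : 0 < n := by linarith
  have hn1 : 0 < n - 1 := by linarith
  have hB : 0 ≤ B := hD.trans hDB
  -- bounds on the g-parts
  have k1 : ∀ Y : ℝ, 0 ≤ Y → Y / n ^ 2 ≤ Y / (n - 1) ^ 2 := fun Y hY =>
    div_le_div_of_nonneg_left hY (by positivity) (pow_le_pow_left₀ hn1.le (by linarith) 2)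
  have k2 : A / (n + 1) ^ 2 ≤ A / n ^ 2 :=
    div_le_div_of_nonneg_left hA (by positivity) (pow_le_pow_left₀ hn0.le (by linarith) 2)
  have s1 : p * (1 / n + D / n ^ 2) + (1 - p) * (1 / (n - 1) + D / (n - 1) ^ 2) ≤
      p * (1 / n) + (1 - p) * (1 / (n - 1)) + D / (n - 1) ^ 2 := by
    have := mul_le_mul_of_nonneg_left (k1 D hD) hp0
    nlinarith
  have s2 : p * (1 / n + B / n ^ 2) + (1 - p) * (1 / (n - 1) + B / (n - 1) ^ 2) ≤
      p * (1 / n) + (1 - p) * (1 / (n - 1)) + B / (n - 1) ^ 2 := by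
    have := mul_le_mul_of_nonneg_left (k1 B hB) hp0
    nlinarith
  have s3 : p * (1 / (n + 1) + A / (n + 1) ^ 2) + (1 - p) * (1 / n + A / n ^ 2) ≤
      p * (1 / (n + 1)) + (1 - p) * (1 / n) + A / n ^ 2 := by
    have := mul_le_mul_of_nonneg_left k2 hp0
    nlinarith
  have t1 := mul_le_mul_of_nonneg_left s1 hq10
  have t2 := mul_le_mul_of_nonneg_left s2 hq00
  have t3 := mul_le_mul_of_nonneg_left s3 (show 0 ≤ 1 - q1 by linarith)
  have t4 := mul_le_mul_of_nonneg_left s3 (show 0 ≤ 1 - q0 by linarith)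
  -- n / (n-1), n/(n+1)
  have u1 : n ^ 2 / (n - 1) ^ 2 ≤ 1 + 8 / n := by
    rw [div_le_iff₀ (by positivity)]
    have : (1 + 8 / n) * (n - 1) ^ 2 = n ^ 2 + (6 * n ^ 2 - 15 * n + 8) / n := by
      field_simp; ring
    rw [this]
    have : 0 ≤ (6 * n ^ 2 - 15 * n + 8) / n := by
      apply div_nonneg _ hn0.le
      nlinarith
    linarith
  have u2 : n / (n - 1) ≤ 1 + 2 / n := by
    rw [div_le_iff₀ hn1]
    have : (1 + 2 / n) * (n - 1) = n + (n - 2) / n := by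
      field_simp; ring
    rw [this]
    have : 0 ≤ (n - 2) / n := div_nonneg (by linarith) hn0.le
    linarith
  have u3 : 1 - 1 / n ≤ n / (n + 1) := by
    rw [le_div_iff₀ (by linarith)]
    have : (1 - 1 / n) * (n + 1) = n - 1 / n := by
      field_simp; ring
    rw [this]
    have : 0 ≤ 1 / n := by positivity
    linarith
  set Q := (q0 + q1) / 2 with hQ
  have hQ0 : 0 ≤ Q := by rw [hQ]; linarith
  have hQ1 : Q ≤ 1 := by rw [hQ]; linarith
  -- main sum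
  have main : n ^ 2 * (Q * (p * (1 / n) + (1 - p) * (1 / (n - 1)))
      + (1 - Q) * (p * (1 / (n + 1)) + (1 - p) * (1 / n)) - 1 / n)
      ≤ Q - p + 3 / n := by
    have e : n ^ 2 * (Q * (p * (1 / n) + (1 - p) * (1 / (n - 1)))
      + (1 - Q) * (p * (1 / (n + 1)) + (1 - p) * (1 / n)) - 1 / n)
      = Q * (1 - p) * (n / (n - 1)) - (1 - Q) * p * (n / (n + 1)) := by
      have : n - 1 ≠ 0 := hn1.ne'
      field_simp
      ring
    rw [e]
    have v1 : Q * (1 - p) * (n / (n - 1)) ≤ Q * (1 - p) * (1 + 2 / n) :=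
      mul_le_mul_of_nonneg_left u2 (mul_nonneg hQ0 (by linarith))
    have v2 : (1 - Q) * p * (1 - 1 / n) ≤ (1 - Q) * p * (n / (n + 1)) :=
      mul_le_mul_of_nonneg_left u3 (mul_nonneg (by linarith) hp0)
    have v3 : Q * (1 - p) * (2 / n) ≤ 1 * (2 / n) := by
      apply mul_le_mul_of_nonneg_right _ (by positivity)
      nlinarith
    have v4 : (1 - Q) * p * (1 / n) ≤ 1 * (1 / n) := by
      apply mul_le_mul_of_nonneg_right _ (by positivity)
      nlinarith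
    have v5 : 3 / n = 2 / n + 1 / n := by ring
    rw [v5]
    nlinarith
  have gpart : n ^ 2 * ((q1 / 2 * D + q0 / 2 * B) / (n - 1) ^ 2) ≤
      q1 / 2 * D + q0 / 2 * B + 8 / n * (Q * B) := by
    have e : n ^ 2 * ((q1 / 2 * D + q0 / 2 * B) / (n - 1) ^ 2) =
        (q1 / 2 * D + q0 / 2 * B) * (n ^ 2 / (n - 1) ^ 2) := by ring
    rw [e]
    have w0 : 0 ≤ q1 / 2 * D + q0 / 2 * B := by positivity
    have w1 : q1 / 2 * D + q0 / 2 * B ≤ Q * B := by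
      have := mul_le_mul_of_nonneg_left hDB (show 0 ≤ q1 / 2 by linarith)
      rw [hQ]
      linarith
    calc (q1 / 2 * D + q0 / 2 * B) * (n ^ 2 / (n - 1) ^ 2)
        ≤ (q1 / 2 * D + q0 / 2 * B) * (1 + 8 / n) := mul_le_mul_of_nonneg_left u1 w0
      _ = q1 / 2 * D + q0 / 2 * B + 8 / n * (q1 / 2 * D + q0 / 2 * B) := by ring
      _ ≤ _ := by
          have : 8 / n * (q1 / 2 * D + q0 / 2 * B) ≤ 8 / n * (Q * B) :=
            mul_le_mul_of_nonneg_left w1 (by positivity)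
          linarith
  -- assemble
  have hsum : 1 / 2 * (q1 * (p * (1 / n + D / n ^ 2) + (1 - p) * (1 / (n - 1) + D / (n - 1) ^ 2))
      + (1 - q1) * (p * (1 / (n + 1) + A / (n + 1) ^ 2) + (1 - p) * (1 / n + A / n ^ 2)))
    + 1 / 2 * (q0 * (p * (1 / n + B / n ^ 2) + (1 - p) * (1 / (n - 1) + B / (n - 1) ^ 2))
      + (1 - q0) * (p * (1 / (n + 1) + A / (n + 1) ^ 2) + (1 - p) * (1 / n + A / n ^ 2)))
    ≤ (Q * (p * (1 / n) + (1 - p) * (1 / (n - 1)))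
      + (1 - Q) * (p * (1 / (n + 1)) + (1 - p) * (1 / n)))
      + (q1 / 2 * D + q0 / 2 * B) / (n - 1) ^ 2 + (1 - Q) * (A / n ^ 2) := by
    have e : (Q * (p * (1 / n) + (1 - p) * (1 / (n - 1)))
      + (1 - Q) * (p * (1 / (n + 1)) + (1 - p) * (1 / n)))
      + (q1 / 2 * D + q0 / 2 * B) / (n - 1) ^ 2 + (1 - Q) * (A / n ^ 2)
      = 1 / 2 * (q1 * (p * (1 / n) + (1 - p) * (1 / (n - 1)) + D / (n - 1) ^ 2)
        + (1 - q1) * (p * (1 / (n + 1)) + (1 - p) * (1 / n) + A / n ^ 2))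
      + 1 / 2 * (q0 * (p * (1 / n) + (1 - p) * (1 / (n - 1)) + B / (n - 1) ^ 2)
        + (1 - q0) * (p * (1 / (n + 1)) + (1 - p) * (1 / n) + A / n ^ 2)) := by
      rw [hQ]; ring
    rw [e]
    linarith
  refine hsum.trans ?_
  have e3 : (3 + 8 * (Q * B)) / n = 3 / n + 8 / n * (Q * B) := by ring
  rw [e3] at h2
  have e4 : Q - p + q1 / 2 * (D - G) + q0 / 2 * (B - G) + (1 - Q) * (A - G)
      = Q - p + (q1 / 2 * D + q0 / 2 * B) + (1 - Q) * A - G := by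
    rw [hQ]; ring
  rw [e4] at h1
  exact assemble_fin n _ _ _ Q A G p (8 / n * (Q * B)) hn0 main gpart h1 h2


/-! ### choice of the constants -/

theorem eventually_small (w0 c : ℝ) (hw0 : 0 < w0) (hw1 : w0 ≤ 1) (hc : 0 < c) :
    ∃ N0 : ℕ, ∀ N : ℕ, N0 ≤ N → (N : ℝ) * (1 - w0) ^ (N - 1) ≤ c := by
  have h1 := tendsto_self_mul_const_pow_of_lt_one (r := 1 - w0) (by linarith) (by linarith)
  have h2 := tendsto_pow_atTop_nhds_zero_of_lt_one (r := 1 - w0) (by linarith) (by linarith)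
  have h3 := h1.add h2
  rw [add_zero] at h3
  obtain ⟨m0, hm⟩ := eventually_atTop.1 (h3.eventually_le_const hc)
  refine ⟨m0 + 1, fun N hN => ?_⟩
  obtain ⟨m, rfl⟩ : ∃ m, N = m + 1 := ⟨N - 1, by omega⟩
  have := hm m (by omega)
  push_cast
  linarith

theorem exists_consts (C p : ℝ) (hC : 0 < C) (hp0 : 0 < p) (hp1 : p ≤ 1) :
    ∃ R : ℝ, 0 < R ∧ ∃ N0 : ℕ, 2 ≤ N0 ∧ ∀ N : ℕ, N0 ≤ N → ∀ S : ℝ, 1 ≤ S →
      ((qf N ((1 - ee S) * (1 / S)) + qf N (1 / S)) / 2 - p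
        + qf N (1 / S) / 2 * (GG R (S - hh S) - GG R S)
        + qf N ((1 - ee S) * (1 / S)) / 2 * (GG R (S + hh S) - GG R S)
        + (1 - (qf N ((1 - ee S) * (1 / S)) + qf N (1 / S)) / 2) *
          (GG R (S + C) - GG R S) ≤ - p / 2) ∧
      (3 + 8 * ((qf N ((1 - ee S) * (1 / S)) + qf N (1 / S)) / 2 * GG R (S + hh S))) / N
        ≤ p / 2 := by
  set ρ := 4096 * (1 + C) / p with hρ
  have hρ0 : 0 < ρ := by positivity
  have hρ1 : 1 ≤ ρ := by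
    rw [hρ, le_div_iff₀ hp0]
    nlinarith
  obtain ⟨N1, hN1⟩ := eventually_small (1 / (2 * ρ ^ 8)) (3 / 8 * p / (1 + 64 * ρ))
    (by positivity) (by
      rw [div_le_one (by positivity)]
      have := one_le_pow₀ hρ1 (n := 8)
      linarith) (by positivity)
  set δ := p / 16384 with hδ
  have hδ0 : 0 < δ := by positivity
  obtain ⟨N2, hN2⟩ := exists_nat_gt (ρ ^ 8 + 3 / δ ^ 4 + 12 / p)
  refine ⟨ρ ^ 8, by positivity, max 2 (max N1 N2), le_max_left _ _, fun N hN S hS => ?_⟩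
  have hNa : 2 ≤ N := (le_max_left _ _).trans hN
  have hNb : N1 ≤ N := (le_max_left _ _).trans ((le_max_right _ _).trans hN)
  have hNc : N2 ≤ N := (le_max_right _ _).trans ((le_max_right _ _).trans hN)
  have hS0 : 0 < S := by linarith
  constructor
  · refine core_main C p ρ hC hp0 hp1 le_rfl N hNa ?_ S hS
    intro S' hS' hSρ w hw hw1
    have hw0 : 1 / (2 * ρ ^ 8) ≤ w := by
      refine le_trans ?_ hw
      apply one_div_le_one_div_of_le (by linarith)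
      linarith
    have hpos : 0 < 1 / (2 * ρ ^ 8) := by positivity
    have h1 : qf N w ≤ 3 / 8 * p / (1 + 64 * ρ) := by
      refine le_trans ?_ (hN1 N hNb)
      unfold qf
      have h2 : (1 - w) ^ (N - 1) ≤ (1 - 1 / (2 * ρ ^ 8)) ^ (N - 1) :=
        pow_le_pow_left₀ (by linarith) (by linarith) _
      have h3 : 0 ≤ (1 - w) ^ (N - 1) := pow_nonneg (by linarith) _
      calc (N : ℝ) * w * (1 - w) ^ (N - 1) ≤ N * 1 * (1 - w) ^ (N - 1) := by
            gcongr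
        _ = N * (1 - w) ^ (N - 1) := by ring
        _ ≤ N * (1 - 1 / (2 * ρ ^ 8)) ^ (N - 1) := by gcongr
    rwa [le_div_iff₀ (by positivity)] at h1
  · obtain ⟨r, hr1, hSr, hhr, her⟩ := root8 S hS
    have hr0 : 0 < r := by linarith
    have hu0 : 0 ≤ 1 / S := by positivity
    have hu1 : 1 / S ≤ 1 := by rw [div_le_one hS0]; exact hS
    have he0 : 0 ≤ ee S := by rw [her]; positivity
    have he1 : ee S ≤ 1 / 2 := by
      rw [her]
      apply one_div_le_one_div_of_le (by norm_num)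
      nlinarith
    have hv0 : 0 ≤ (1 - ee S) * (1 / S) := mul_nonneg (by linarith) hu0
    have hvu : (1 - ee S) * (1 / S) ≤ 1 / S := by nlinarith
    have hv1 : (1 - ee S) * (1 / S) ≤ 1 := by linarith
    have hN0 : (0 : ℝ) ≤ N := Nat.cast_nonneg N
    set Q := (qf N ((1 - ee S) * (1 / S)) + qf N (1 / S)) / 2 with hQ
    have hQ0 : 0 ≤ Q := by
      have := qf_nonneg N _ hv0 hv1
      have := qf_nonneg N _ hu0 hu1
      rw [hQ]; linarith
    have hQ1 : Q ≤ 1 := by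
      have := qf_le_one N _ hv0 hv1
      have := qf_le_one N _ hu0 hu1
      rw [hQ]; linarith
    have hQS : Q * S ≤ N := by
      have h1 := qf_le N _ hv0 hv1
      have h2 := qf_le N _ hu0 hu1
      have h3 : (N : ℝ) * ((1 - ee S) * (1 / S)) ≤ N * (1 / S) :=
        mul_le_mul_of_nonneg_left hvu hN0
      have h4 : Q ≤ N * (1 / S) := by rw [hQ]; linarith
      calc Q * S ≤ N * (1 / S) * S := mul_le_mul_of_nonneg_right h4 hS0.le
        _ = N := by field_simp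
    have hhS : hh S ≤ S := by
      rw [hhr, hSr]
      have : r ^ 7 * 1 ≤ r ^ 7 * r := mul_le_mul_of_nonneg_left hr1 (by positivity)
      nlinarith
    have hNN : (N2 : ℝ) ≤ N := by exact_mod_cast hNc
    have hρ8 : 0 < ρ ^ 8 := by positivity
    have hδ4 : 0 < 3 / δ ^ 4 := by positivity
    have h12 : 0 < 12 / p := by positivity
    have hn1 : ρ ^ 8 ≤ N := by linarith
    have hn2 : 3 / δ ^ 4 ≤ N := by linarith
    have hn3 : 12 / p ≤ N := by linarith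
    have hNpos : (0 : ℝ) < N := by linarith
    have hN1' : (1 : ℝ) ≤ N := by
      have := one_le_pow₀ hρ1 (n := 8)
      linarith
    have hB : Q * GG (ρ ^ 8) (S + hh S) ≤ 512 * (δ * N) := by
      have h1 : GG (ρ ^ 8) (S + hh S) ≤ 512 * f4 (2 * S + ρ ^ 8) :=
        mul_le_mul_of_nonneg_left (f4_mono (by linarith)) (by norm_num)
      have h2 : Q * f4 (2 * S + ρ ^ 8) ≤ δ * N := by
        apply le_of_pow4 (by positivity)
        rw [mul_pow, f4_pow _ (by positivity)]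
        have h3 : Q ^ 4 ≤ Q := by
          calc Q ^ 4 = Q * Q ^ 3 := by ring
            _ ≤ Q * 1 := mul_le_mul_of_nonneg_left (pow_le_one₀ hQ0 hQ1) hQ0
            _ = Q := by ring
        have h4 : Q ^ 4 * (2 * S + ρ ^ 8) ≤ Q * (2 * S + ρ ^ 8) :=
          mul_le_mul_of_nonneg_right h3 (by positivity)
        have h5 : Q * (2 * S + ρ ^ 8) ≤ 3 * N := by
          have : Q * ρ ^ 8 ≤ 1 * ρ ^ 8 := mul_le_mul_of_nonneg_right hQ1 hρ8.le
          nlinarith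
        have h6 : 3 ≤ δ ^ 4 * N := by
          have := (div_le_iff₀ (by positivity)).1 hn2
          linarith
        have h7 : (1 : ℝ) ≤ N ^ 2 := one_le_pow₀ hN1'
        calc Q ^ 4 * (2 * S + ρ ^ 8) ≤ 3 * N := h4.trans h5
          _ ≤ (δ ^ 4 * N) * N := mul_le_mul_of_nonneg_right h6 hN0
          _ = (δ ^ 4 * N ^ 2) * 1 := by ring
          _ ≤ (δ ^ 4 * N ^ 2) * N ^ 2 := mul_le_mul_of_nonneg_left h7 (by positivity)
          _ = (δ * N) ^ 4 := by ring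
      calc Q * GG (ρ ^ 8) (S + hh S) ≤ Q * (512 * f4 (2 * S + ρ ^ 8)) :=
            mul_le_mul_of_nonneg_left h1 hQ0
        _ = 512 * (Q * f4 (2 * S + ρ ^ 8)) := by ring
        _ ≤ 512 * (δ * N) := by linarith
    rw [div_le_iff₀ hNpos]
    have h12' : 12 ≤ p * N := by
      have := (div_le_iff₀ hp0).1 hn3
      linarith
    rw [hδ] at hB
    linarith

end Pool.Agent.V11326.Aloha
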