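import Mathlib

/-!
Homogeneous Markov chains through the Ionescu-Tulcea construction, and the criterion
a superharmonic function cannot blow up along the trajectory.
-/

open MeasureTheory ProbabilityTheory Finset Filter Topology
open scoped ENNReal

namespace Pool.Agent.V11326

variable {E : Type*} [MeasurableSpace E]

/-- The transition of a homogeneous chain, as a kernel depending on the past up to time `n`. -/
noncomputable def pastKernel (κ : Kernel E E) (n : ℕ) :
    Kernel ((i : Finset.Iic n) → E) E :=
  κ.comap (fun h => h ⟨n, Finset.mem_Iic.mpr le_rfl⟩) (measurable_pi_apply _)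

instance (κ : Kernel E E) [IsMarkovKernel κ] (n : ℕ) : IsMarkovKernel (pastKernel κ n) := by
  unfold pastKernel; infer_instance

/-- The law on trajectories `ℕ → E` of the homogeneous Markov chain with transition kernel `κ`
started from `z`. -/
noncomputable def chainLaw (κ : Kernel E E) [IsMarkovKernel κ] (z : E) : Measure (ℕ → E) :=
  Kernel.trajMeasure (X := fun _ => E) (Measure.dirac z) (pastKernel κ)

instance (κ : Kernel E E) [IsMarkovKernel κ] (z : E) : IsProbabilityMeasure (chainLaw κ z) := by
  unfold chainLaw; infer_instance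

variable (κ : Kernel E E) [IsMarkovKernel κ] (z : E)

lemma chain_step (n : ℕ) (g : ((i : Finset.Iic n) → E) → ℝ≥0∞) (hg : Measurable g)
    (f : E → ℝ≥0∞) (hf : Measurable f) :
    ∫⁻ x, g (Preorder.frestrictLe n x) * f (x (n + 1)) ∂chainLaw κ z
      = ∫⁻ x, g (Preorder.frestrictLe n x) * ∫⁻ y, f y ∂κ (x n) ∂chainLaw κ z := by
  have hm : Measurable (fun p : ((i : Finset.Iic n) → E) × E => g p.1 * f p.2) :=
    (hg.comp measurable_fst).mul (hf.comp measurable_snd)
  have h := Kernel.map_frestrictLe_trajMeasure_compProd_eq_map_trajMeasure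
    (X := fun _ => E) (μ₀ := Measure.dirac z) (κ := pastKernel κ) (a := n)
  have h1 := congrArg (fun μ => ∫⁻ p, g p.1 * f p.2 ∂μ) h
  rw [Measure.lintegral_compProd hm, lintegral_map hm (by fun_prop),
    lintegral_map (by fun_prop) (by fun_prop)] at h1
  unfold chainLaw
  rw [← h1]
  refine lintegral_congr fun x => ?_
  have h2 : ∫⁻ b, g (Preorder.frestrictLe n x) * f b ∂(pastKernel κ n) (Preorder.frestrictLe n x)
      = g (Preorder.frestrictLe n x) *
        ∫⁻ b, f b ∂(pastKernel κ n) (Preorder.frestrictLe n x) := lintegral_const_mul _ hf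
  exact h2

/-- If `f` is superharmonic off `F`, then almost surely it is impossible that from time `m` on
the chain avoids `F` and `f` tends to infinity along it. -/
theorem escape_null (f : E → ℝ≥0∞) (hf : Measurable f) (hfin : ∀ y, f y ≠ ⊤) (F : Set E)
    (hF : MeasurableSet F) (hsup : ∀ y, y ∉ F → ∫⁻ w, f w ∂κ y ≤ f y) (m : ℕ) :
    ∀ᵐ x ∂chainLaw κ z, ¬ ((∀ n, m ≤ n → x n ∉ F) ∧ Tendsto (fun n => f (x n)) atTop (𝓝 ⊤)) := by
  classical
  -- for each bound `R` on `f (x m)`
  have key : ∀ R : ℕ, ∀ᵐ x ∂chainLaw κ z, ¬ (f (x m) ≤ (R : ℝ≥0∞) ∧ (∀ n, m ≤ n → x n ∉ F) ∧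
      Tendsto (fun n => f (x n)) atTop (𝓝 ⊤)) := by
    intro R
    -- indicator of the good past, at time `m + k`
    let A : (k : ℕ) → Set (ℕ → E) := fun k =>
      {x | f (x m) ≤ (R : ℝ≥0∞) ∧ ∀ i, i ≤ k → x (m + i) ∉ F}
    have hAm : ∀ k, MeasurableSet (A k) := by
      intro k
      refine MeasurableSet.inter ?_ ?_
      · exact measurableSet_le (hf.comp (measurable_pi_apply m)) measurable_const
      · have : {x : ℕ → E | ∀ i, i ≤ k → x (m + i) ∉ F}
            = ⋂ i, ⋂ (_ : i ≤ k), {x : ℕ → E | x (m + i) ∉ F} := by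
          ext x; simp
        have h2 : MeasurableSet (⋂ i, ⋂ (_ : i ≤ k), {x : ℕ → E | x (m + i) ∉ F}) := by
          refine MeasurableSet.iInter fun i => MeasurableSet.iInter fun _ => ?_
          have h3 : Measurable (fun x : ℕ → E => x (m + i)) := measurable_pi_apply (m + i)
          exact (h3 hF).compl
        rw [← this] at h2
        exact h2
    let G : ℕ → (ℕ → E) → ℝ≥0∞ := fun k x => (A k).indicator (fun _ => 1) x * f (x (m + k))
    have hGm : ∀ k, Measurable (G k) := fun k =>
      (measurable_const.indicator (hAm k)).mul (hf.comp (measurable_pi_apply _))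
    -- the past indicator as a function of the restriction
    have hpast : ∀ k, ∃ g : ((i : Finset.Iic (m + k)) → E) → ℝ≥0∞, Measurable g ∧
        ∀ x, (A k).indicator (fun _ => (1 : ℝ≥0∞)) x = g (Preorder.frestrictLe (m + k) x) := by
      intro k
      let B : Set ((i : Finset.Iic (m + k)) → E) :=
        {h | f (h ⟨m, Finset.mem_Iic.mpr (by omega)⟩) ≤ (R : ℝ≥0∞) ∧
          ∀ i : Fin (k + 1), h ⟨m + i, Finset.mem_Iic.mpr (by omega)⟩ ∉ F}
      have hB : MeasurableSet B := by
        refine MeasurableSet.inter ?_ ?_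
        · exact measurableSet_le (hf.comp (measurable_pi_apply _)) measurable_const
        · have h2 : MeasurableSet (⋂ i : Fin (k + 1),
              {h : ((i : Finset.Iic (m + k)) → E) |
                h ⟨m + i, Finset.mem_Iic.mpr (by omega)⟩ ∉ F}) := by
            refine MeasurableSet.iInter fun i => ?_
            have h3 : Measurable (fun h : ((i : Finset.Iic (m + k)) → E) =>
                h ⟨m + i, Finset.mem_Iic.mpr (by omega)⟩) := measurable_pi_apply _
            exact (h3 hF).compl
          convert h2 using 1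
          ext h
          rw [Set.mem_iInter]
          exact Iff.rfl
      refine ⟨B.indicator (fun _ => 1), measurable_const.indicator hB, fun x => ?_⟩
      by_cases hx : x ∈ A k
      · have hx' : Preorder.frestrictLe (m + k) x ∈ B :=
          ⟨hx.1, fun i => hx.2 i (by omega)⟩
        rw [Set.indicator_of_mem hx, Set.indicator_of_mem hx']
      · have hx' : Preorder.frestrictLe (m + k) x ∉ B := by
          intro hb
          exact hx ⟨hb.1, fun i hi => hb.2 ⟨i, by omega⟩⟩
        rw [Set.indicator_of_notMem hx, Set.indicator_of_notMem hx']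
    have hG0 : ∫⁻ x, G 0 x ∂chainLaw κ z ≤ (R : ℝ≥0∞) := by
      calc ∫⁻ x, G 0 x ∂chainLaw κ z ≤ ∫⁻ _x, (R : ℝ≥0∞) ∂chainLaw κ z := by
            refine lintegral_mono fun x => ?_
            simp only [G]
            by_cases hx : x ∈ A 0
            · rw [Set.indicator_of_mem hx, one_mul]; exact hx.1
            · rw [Set.indicator_of_notMem hx, zero_mul]; exact zero_le
        _ = (R : ℝ≥0∞) := by simp
    have hGs : ∀ k, ∫⁻ x, G (k + 1) x ∂chainLaw κ z ≤ ∫⁻ x, G k x ∂chainLaw κ z := by
      intro k
      obtain ⟨g, hg, hgA⟩ := hpast k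
      calc ∫⁻ x, G (k + 1) x ∂chainLaw κ z
          ≤ ∫⁻ x, g (Preorder.frestrictLe (m + k) x) * f (x (m + k + 1)) ∂chainLaw κ z := by
            refine lintegral_mono fun x => ?_
            simp only [G]
            rw [← hgA]
            have : m + (k + 1) = m + k + 1 := by ring
            rw [this]
            have hsub : A (k + 1) ⊆ A k := by
              intro y hy
              exact ⟨hy.1, fun i hi => hy.2 i (by omega)⟩
            have h5 : (A (k + 1)).indicator (fun _ => (1 : ℝ≥0∞)) x
                ≤ (A k).indicator (fun _ => (1 : ℝ≥0∞)) x := by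
              by_cases hx : x ∈ A (k + 1)
              · rw [Set.indicator_of_mem hx, Set.indicator_of_mem (hsub hx)]
              · rw [Set.indicator_of_notMem hx]; exact zero_le
            exact mul_le_mul' h5 le_rfl
        _ = ∫⁻ x, g (Preorder.frestrictLe (m + k) x) * ∫⁻ y, f y ∂κ (x (m + k))
              ∂chainLaw κ z := chain_step κ z (m + k) g hg f hf
        _ ≤ ∫⁻ x, G k x ∂chainLaw κ z := by
            refine lintegral_mono fun x => ?_
            simp only [G]
            rw [← hgA]
            by_cases hx : x ∈ A k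
            · rw [Set.indicator_of_mem hx, one_mul, one_mul]
              exact hsup _ (hx.2 k le_rfl)
            · rw [Set.indicator_of_notMem hx, zero_mul, zero_mul]
    have hGle : ∀ k, ∫⁻ x, G k x ∂chainLaw κ z ≤ (R : ℝ≥0∞) := by
      intro k
      induction k with
      | zero => exact hG0
      | succ k ih => exact (hGs k).trans ih
    have hlim : ∫⁻ x, liminf (fun k => G k x) atTop ∂chainLaw κ z ≤ (R : ℝ≥0∞) := by
      refine (lintegral_liminf_le hGm).trans ?_
      refine (liminf_le_liminf (Eventually.of_forall hGle)).trans ?_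
      simp
    have hae : ∀ᵐ x ∂chainLaw κ z, liminf (fun k => G k x) atTop < ⊤ :=
      ae_lt_top (Measurable.liminf hGm) (ne_top_of_le_ne_top (by simp) hlim)
    filter_upwards [hae] with x hx hcon
    obtain ⟨h1, h2, h3⟩ := hcon
    have hG : ∀ k, G k x = f (x (m + k)) := by
      intro k
      simp only [G]
      have : x ∈ A k := ⟨h1, fun i _ => h2 (m + i) (by omega)⟩
      rw [Set.indicator_of_mem this, one_mul]
    have h4 : Tendsto (fun k => G k x) atTop (𝓝 ⊤) := by
      simp only [hG]
      have : (fun k => f (x (m + k))) = (fun n => f (x n)) ∘ (fun k => m + k) := rfl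
      rw [this]
      exact h3.comp (tendsto_atTop_mono (fun k => Nat.le_add_left k m) tendsto_id)
    rw [h4.liminf_eq] at hx
    exact lt_irrefl _ hx
  have hall := ae_all_iff.mpr key
  filter_upwards [hall] with x hx hcon
  obtain ⟨R, hR⟩ := ENNReal.exists_nat_gt (hfin (x m))
  exact hx R ⟨hR.le, hcon.1, hcon.2⟩

end Pool.Agent.V11326
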