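import Pool.Agent.V11326.ProdWalk

/-!
A symmetric walk on a cycle of squarefree order with fast total variation profile spread out.
-/

open Finset

namespace Pool.Agent.V11326

section chars

variable {m : ℕ} (p : Fin m → ℕ) [∀ i, NeZero (p i)]

lemma single_sum_eq (x : (i : Fin m) → ZMod (p i)) :
    ∑ i, (Pi.single i (x i) : (i : Fin m) → ZMod (p i)) = x :=
  Finset.univ_sum_single x

lemma exists_coord (χ : AddChar ((i : Fin m) → ZMod (p i)) ℂ) (hχ : χ ≠ 0) :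
    ∃ i, ∑ k : ZMod (p i), χ (Pi.single i k) = 0 := by
  by_contra hcon
  push Not at hcon
  apply hχ
  have h1 : ∀ i, ∀ k : ZMod (p i), χ (Pi.single i k) = 1 := by
    intro i
    let ψ : AddChar (ZMod (p i)) ℂ :=
      χ.compAddMonoidHom (AddMonoidHom.single (fun i => ZMod (p i)) i)
    have h2 : ∑ k, ψ k ≠ 0 := hcon i
    have h3 := AddChar.sum_ne_zero_iff_eq_zero.mp h2
    intro k
    have : ψ k = 1 := by rw [h3]; rfl
    exact this
  ext x
  rw [← single_sum_eq p x]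
  have : ∀ s : Finset (Fin m), χ (∑ i ∈ s, (Pi.single i (x i) : (i : Fin m) → ZMod (p i))) = 1 := by
    intro s
    classical
    induction s using Finset.induction_on with
    | empty => simp
    | insert a s ha ih => rw [Finset.sum_insert ha, AddChar.map_add_eq_mul, ih, h1]; simp
  rw [this]; rfl

lemma hat_rer (hm : 0 < m) (χ : AddChar ((i : Fin m) → ZMod (p i)) ℂ) (hχ : χ ≠ 0)
    (hn : ∀ x, ‖χ x‖ ≤ 1) : ‖∑ g, (rer p g) • χ g‖ ≤ 1 - 1 / (m : ℝ) := by
  have hmR : (0 : ℝ) < m := by exact_mod_cast hm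
  rw [rer_integral, norm_smul, Real.norm_of_nonneg (by positivity)]
  obtain ⟨i0, hi0⟩ := exists_coord p χ hχ
  have key : ∀ i, ‖(1 / (p i : ℝ)) • ∑ k : ZMod (p i), χ (Pi.single i k)‖
      ≤ if i = i0 then 0 else 1 := by
    intro i
    split_ifs with h
    · subst h; rw [hi0]; simp
    · rw [norm_smul, Real.norm_of_nonneg (by positivity)]
      have h1 : ‖∑ k : ZMod (p i), χ (Pi.single i k)‖ ≤ ∑ k : ZMod (p i), (1 : ℝ) :=
        norm_sum_le_of_le _ fun k _ => hn _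
      have h2 := avg_const p i 1
      have hp0 : (0 : ℝ) ≤ 1 / (p i : ℝ) := by positivity
      exact (mul_le_mul_of_nonneg_left h1 hp0).trans h2.le
  have h3 : ‖∑ i, (1 / (p i : ℝ)) • ∑ k : ZMod (p i), χ (Pi.single i k)‖
      ≤ ∑ i : Fin m, (if i = i0 then (0 : ℝ) else 1) :=
    norm_sum_le_of_le _ fun i _ => key i
  have h4 : ∑ i : Fin m, (if i = i0 then (0 : ℝ) else 1) = (m : ℝ) - 1 := by
    have : ∀ i : Fin m, (if i = i0 then (0 : ℝ) else 1) = 1 - if i = i0 then 1 else 0 := by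
      intro i; split_ifs <;> norm_num
    simp only [this, Finset.sum_sub_distrib, Finset.sum_const, Finset.card_univ,
      Fintype.card_fin, nsmul_eq_mul, mul_one, Finset.sum_ite_eq', Finset.mem_univ, if_true]
  rw [h4] at h3
  calc 1 / (m : ℝ) * _ ≤ 1 / (m : ℝ) * ((m : ℝ) - 1) :=
        mul_le_mul_of_nonneg_left h3 (by positivity)
    _ = 1 - 1 / (m : ℝ) := by field_simp

lemma hat_mix (δ : ℝ) (h0 : 0 ≤ δ) (h1 : δ ≤ 1) (hm : 0 < m)
    (χ : AddChar ((i : Fin m) → ZMod (p i)) ℂ) (hχ : χ ≠ 0)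
    (hn : ∀ x, ‖χ x‖ ≤ 1) : ‖∑ g, (mix δ (rer p) g) • χ g‖ ≤ 1 - 1 / (m : ℝ) := by
  have hmR : (0 : ℝ) < m := by exact_mod_cast hm
  have e : ∑ g, (mix δ (rer p) g) • χ g = (1 - δ) • ∑ g, (rer p g) • χ g := by
    unfold mix
    simp only [add_smul, Finset.sum_add_distrib, mul_smul]
    rw [← Finset.smul_sum, ← Finset.smul_sum, ← Finset.smul_sum,
      AddChar.sum_eq_zero_iff_ne_zero.mpr hχ]
    simp
  rw [e, norm_smul, Real.norm_of_nonneg (by linarith)]
  have h2 := hat_rer p hm χ hχ hn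
  have h3 := norm_nonneg (∑ g, (rer p g) • χ g)
  nlinarith

end chars

/-- primes used in the construction -/
noncomputable def pr (m : ℕ) (i : Fin m) : ℕ := Nat.nth Nat.Prime (m + i)

lemma pr_prime (m : ℕ) (i : Fin m) : (pr m i).Prime := Nat.prime_nth_prime _

instance (m : ℕ) (i : Fin m) : NeZero (pr m i) := ⟨(pr_prime m i).ne_zero⟩

lemma pr_ge (m : ℕ) (i : Fin m) : m + 2 ≤ pr m i := by
  have := Nat.add_two_le_nth_prime (m + i)
  unfold pr
  omega

lemma pr_coprime (m : ℕ) : Pairwise (Function.onFun Nat.Coprime (pr m)) := by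
  intro i j hij
  refine (Nat.coprime_primes (pr_prime m i) (pr_prime m j)).mpr ?_
  intro h
  apply hij
  have : m + (i : ℕ) = m + (j : ℕ) := Nat.nth_injective Nat.infinite_setOfPred_prime h
  ext; omega

lemma pr_sum (m : ℕ) : ∑ j, 1 / (pr m j : ℝ) ≤ 1 := by
  rcases Nat.eq_zero_or_pos m with h | h
  · subst h; simp
  have hmR : (0 : ℝ) < m := by exact_mod_cast h
  have : ∀ j, 1 / (pr m j : ℝ) ≤ 1 / (m : ℝ) := by
    intro j
    apply one_div_le_one_div_of_le hmR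
    have := pr_ge m j
    exact_mod_cast (by omega : m ≤ pr m j)
  refine le_trans (Finset.sum_le_sum fun j _ => this j) ?_
  rw [Finset.sum_const, Finset.card_univ, Fintype.card_fin, nsmul_eq_mul]
  apply le_of_eq; field_simp

lemma SS_ge (m : ℕ) : (m : ℝ) - 1 ≤ SS (pr m) := by
  unfold SS
  rw [Finset.sum_sub_distrib]
  simp only [Finset.sum_const, Finset.card_univ, Fintype.card_fin, nsmul_eq_mul, mul_one]
  have := pr_sum m
  linarith

/-- `(1-1/m)^m ≥ 1/4` for even `m ≥ 2`. -/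
lemma quarter (k : ℕ) (hk : 1 ≤ k) : (1 / 4 : ℝ) ≤ (1 - 1 / ((2 * k : ℕ) : ℝ)) ^ (2 * k) := by
  have hkR : (1 : ℝ) ≤ k := by exact_mod_cast hk
  have h1 : (1 / 2 : ℝ) ≤ (1 - 1 / ((2 * k : ℕ) : ℝ)) ^ k := by
    have := one_add_mul_le_pow (a := -(1 / ((2 * k : ℕ) : ℝ))) (by
      have : 1 / ((2 * k : ℕ) : ℝ) ≤ 1 := by
        rw [div_le_one (by positivity)]; push_cast; linarith
      linarith) k
    have e : 1 + (k : ℝ) * -(1 / ((2 * k : ℕ) : ℝ)) = 1 / 2 := by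
      push_cast; field_simp; ring
    rw [e] at this
    simpa [sub_eq_add_neg] using this
  rw [mul_comm 2 k, pow_mul]
  rw [mul_comm k 2]
  nlinarith

lemma wlow (L : ℕ) (hL : 6 ≤ L) (t : ℕ) (ht : t ≤ 8 ^ L * L) :
    32 ≤ (1 - 1 / ((8 ^ L : ℕ) : ℝ)) ^ t * SS (pr (8 ^ L)) := by
  set m := 8 ^ L with hm
  have hm8 : 8 ^ 6 ≤ m := Nat.pow_le_pow_right (by norm_num) hL
  obtain ⟨k, hk⟩ : ∃ k, m = 2 * k := by
    refine ⟨4 * 8 ^ (L - 1), ?_⟩
    rw [hm]
    conv_lhs => rw [show L = (L - 1) + 1 by omega, pow_succ]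
    ring
  have hq := quarter k (by omega)
  rw [← hk] at hq
  set a : ℝ := 1 - 1 / (m : ℝ) with ha
  have hmR : (8 ^ 6 : ℝ) ≤ m := by exact_mod_cast hm8
  have ha0 : 0 ≤ a := by
    have : 1 / (m : ℝ) ≤ 1 := by
      rw [div_le_one (by linarith)]; linarith
    rw [ha]; linarith
  have ha1 : a ≤ 1 := by
    have : 0 ≤ 1 / (m : ℝ) := by positivity
    rw [ha]; linarith
  have h1 : a ^ (m * L) ≤ a ^ t := pow_le_pow_of_le_one ha0 ha1 ht
  have h2 : (1 / 4 : ℝ) ^ L ≤ a ^ (m * L) := by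
    rw [pow_mul]
    exact pow_le_pow_left₀ (by norm_num) hq L
  have h3 : (m : ℝ) / 2 ≤ SS (pr m) := by
    have := SS_ge m
    linarith
  have h4 : (1 / 4 : ℝ) ^ L * ((m : ℝ) / 2) ≤ a ^ t * SS (pr m) :=
    mul_le_mul (h2.trans h1) h3 (by positivity) (pow_nonneg ha0 t)
  have h5 : (1 / 4 : ℝ) ^ L * ((m : ℝ) / 2) = 2 ^ L / 2 := by
    rw [hm]; push_cast
    rw [← mul_div_assoc, ← mul_pow]
    norm_num
  have h6 : (2 : ℝ) ^ 6 ≤ 2 ^ L := pow_le_pow_right₀ (by norm_num) hL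
  rw [h5] at h4
  linarith

/-- The walks on cycles used for the counterexample. -/
theorem exists_cycle (L : ℕ) (hL : 6 ≤ L) : ∃ (n : ℕ) (_ : 2 ≤ n) (_ : NeZero n)
    (μ : ZMod n → ℝ), L ≤ n ∧ (∀ x, 0 < μ x) ∧ ∑ x, μ x = 1 ∧ (∀ x, μ (-x) = μ x) ∧
    (∀ j : ZMod n, j ≠ 0 → ‖∑ x, (μ x : ℂ) * ZMod.stdAddChar (j * x)‖
      ≤ 1 - 1 / ((8 ^ L : ℕ) : ℝ)) ∧
    (∀ t : ℕ, (t : ℝ) ≤ 0.7 * ((8 ^ L * L : ℕ) : ℝ) → 1 / 4 < tvU μ t) ∧
    (∀ t : ℕ, (t : ℝ) ≤ 0.4 * ((8 ^ L * L : ℕ) : ℝ) → 1 / 2 < tvU μ t) ∧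
    (∀ t : ℕ, 0.3 * ((8 ^ L * L : ℕ) : ℝ) ≤ t → tvU μ t ≤ 3 / 4) ∧
    (∀ ε : ℝ, 0 < ε → ∃ t : ℕ, tvU μ t ≤ ε) ∧ 3 / 4 < tvU μ 0 := by
  set m := 8 ^ L with hm
  have hm8 : 8 ^ 6 ≤ m := Nat.pow_le_pow_right (by norm_num) hL
  have hm0 : 0 < m := by omega
  set N := m * L with hN
  have hN1 : m ≤ N := Nat.le_mul_of_pos_right m (by omega)
  have hNR : (8 ^ 6 : ℝ) ≤ N := by exact_mod_cast hm8.trans hN1
  set δ : ℝ := 1 / (N : ℝ) with hδ
  have hδ0 : 0 < δ := by positivity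
  have hδ1 : δ ≤ 1 := by rw [hδ, div_le_one (by linarith)]; linarith
  set p := pr m with hp
  set n := ∏ i, p i with hn
  have hmn : m ≤ n := by
    have h0 : p ⟨0, hm0⟩ ∣ n := Finset.dvd_prod_of_mem p (Finset.mem_univ _)
    have hpos : 0 < n := Finset.prod_pos fun i _ => (pr_prime m i).pos
    have h1 : p ⟨0, hm0⟩ ≤ n := Nat.le_of_dvd hpos h0
    have h2 : m + 2 ≤ p ⟨0, hm0⟩ := pr_ge m ⟨0, hm0⟩
    omega
  have hnz : NeZero n := ⟨by omega⟩
  let e : ZMod n ≃+ ((i : Fin m) → ZMod (p i)) := (ZMod.prodEquivPi p (pr_coprime m)).toAddEquiv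
  set μ0 := mix δ (rer p) with hμ0
  have hpos : ∀ g, 0 < μ0 g := by
    intro g
    have h1 := rer_nonneg p g
    have h2 := card_pos' (G := (i : Fin m) → ZMod (p i))
    have h3 : 0 < δ * (1 / (Fintype.card ((i : Fin m) → ZMod (p i)) : ℝ)) := by positivity
    have h4 : 0 ≤ (1 - δ) * rer p g := mul_nonneg (by linarith) h1
    simp only [hμ0, mix]
    linarith
  have hLm : L ≤ m := (Nat.lt_pow_self (by norm_num : 1 < 8)).le
  have hrs := rer_sum p hm0
  have htv : ∀ t : ℕ, t ≤ m * L → 5 / 6 < tvU (rer p) t := fun t ht =>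
    tv_rer p (by omega) t (pr_sum m) (wlow L hL t ht)
  have htv1 : ∀ t : ℕ, tvU (rer p) t ≤ 1 := fun t => tvU_le_one _ (rer_nonneg p) hrs t
  have htm : ∀ t : ℕ, tvU (fun x => μ0 (e x)) t = (1 - δ) ^ t * tvU (rer p) t := by
    intro t
    rw [tvU_comp e μ0 t, hμ0, tvU_mix δ hδ1 _ hrs]
  have hber : ∀ t : ℕ, 1 - (t : ℝ) / N ≤ (1 - δ) ^ t := by
    intro t
    have := one_add_mul_le_pow (a := -δ) (by linarith) t
    have e1 : 1 + (t : ℝ) * -δ = 1 - (t : ℝ) / N := by rw [hδ]; ring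
    rw [e1] at this
    simpa [sub_eq_add_neg] using this
  refine ⟨n, by omega, hnz, fun x => μ0 (e x), by omega, fun x => hpos _, ?_, ?_, ?_, ?_, ?_, ?_, ?_, ?_⟩
  · have := Equiv.sum_comp e.toEquiv μ0
    rw [← mix_sum δ (rer p) hrs, ← hμ0, ← this]
    rfl
  · intro x
    simp only [map_neg, hμ0, mix, rer_neg]
  · intro j hj
    let χ : AddChar ((i : Fin m) → ZMod (p i)) ℂ :=
      (AddChar.mulShift ZMod.stdAddChar j).compAddMonoidHom e.symm.toAddMonoidHom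
    have hχ : χ ≠ 0 := by
      intro h0
      have h1 := ZMod.isPrimitive_stdAddChar n hj
      apply h1
      ext x
      have h2 : χ (e x) = 1 := by rw [h0]; rfl
      have h3 : χ (e x) = ZMod.stdAddChar (j * x) := by
        simp only [χ, AddChar.compAddMonoidHom_apply, AddChar.mulShift_apply]
        congr 2
        exact e.symm_apply_apply x
      rw [AddChar.mulShift_apply, ← h3, h2]; rfl
    have hχn : ∀ x, ‖χ x‖ ≤ 1 := by
      intro x
      simp only [χ, AddChar.compAddMonoidHom_apply, AddChar.mulShift_apply]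
      rw [ZMod.stdAddChar_apply]
      exact (Circle.norm_coe _).le
    have h := hat_mix p δ hδ0.le hδ1 hm0 χ hχ hχn
    have e2 : ∑ x, ((μ0 (e x) : ℝ) : ℂ) * ZMod.stdAddChar (j * x) = ∑ g, (μ0 g) • χ g := by
      rw [← Equiv.sum_comp e.toEquiv]
      refine Finset.sum_congr rfl fun x _ => ?_
      rw [Complex.real_smul]
      have h3 : χ (e x) = ZMod.stdAddChar (j * x) := by
        simp only [χ, AddChar.compAddMonoidHom_apply, AddChar.mulShift_apply]
        congr 2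
        exact e.symm_apply_apply x
      rw [← h3]
      rfl
    rw [e2]
    exact h
  · intro t ht
    rw [htm]
    have h1 : t ≤ m * L := by
      have : (t : ℝ) ≤ ((m * L : ℕ) : ℝ) := by
        have : (0 : ℝ) ≤ ((m * L : ℕ) : ℝ) := by positivity
        linarith
      exact_mod_cast this
    have h2 := htv t h1
    have h3 := hber t
    have h4 : (t : ℝ) / N ≤ 0.7 := by
      rw [div_le_iff₀ (by linarith)]; exact ht
    have h5 : (0.3 : ℝ) ≤ (1 - δ) ^ t := by linarith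
    nlinarith
  · intro t ht
    rw [htm]
    have h1 : t ≤ m * L := by
      have : (t : ℝ) ≤ ((m * L : ℕ) : ℝ) := by
        have : (0 : ℝ) ≤ ((m * L : ℕ) : ℝ) := by positivity
        linarith
      exact_mod_cast this
    have h2 := htv t h1
    have h3 := hber t
    have h4 : (t : ℝ) / N ≤ 0.4 := by
      rw [div_le_iff₀ (by linarith)]; exact ht
    have h5 : (0.6 : ℝ) ≤ (1 - δ) ^ t := by linarith
    nlinarith
  · intro t ht
    rw [htm]
    have h1 : (1 - δ) ^ t ≤ Real.exp (-(3 / 10)) := by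
      have h2 : (1 - δ) ≤ Real.exp (-δ) := Real.one_sub_le_exp_neg δ
      have h3 : (1 - δ) ^ t ≤ Real.exp (-δ) ^ t := pow_le_pow_left₀ (by linarith) h2 t
      rw [← Real.exp_nat_mul] at h3
      refine h3.trans (Real.exp_le_exp.mpr ?_)
      have : 3 / 10 ≤ (t : ℝ) * δ := by
        rw [hδ, mul_one_div, le_div_iff₀ (by linarith)]
        linarith
      linarith
    have h4 : Real.exp (-(3 / 10)) ≤ 3 / 4 := by
      rw [Real.exp_neg]
      have := Real.quadratic_le_exp_of_nonneg (show (0 : ℝ) ≤ 3 / 10 by norm_num)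
      rw [inv_le_comm₀ (Real.exp_pos _) (by norm_num)]
      linarith
    have h5 := htv1 t
    have h6 : 0 ≤ (1 - δ) ^ t := pow_nonneg (by linarith) t
    nlinarith
  · intro ε hε
    obtain ⟨t, ht⟩ := exists_pow_lt_of_lt_one hε (show 1 - δ < 1 by linarith)
    refine ⟨t, ?_⟩
    rw [htm]
    have h5 := htv1 t
    have h6 : 0 ≤ (1 - δ) ^ t := pow_nonneg (by linarith) t
    nlinarith
  · rw [htm, pow_zero, one_mul]
    have := htv 0 (Nat.zero_le _)
    linarith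

end Pool.Agent.V11326
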