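import Mathlib

/-!
Convolution powers on a finite abelian group, mixtures with the uniform law, total variation.
-/

open Finset

namespace Pool.Agent.V11326

section gen

variable {G : Type*} [AddCommGroup G] [Fintype G] [DecidableEq G]

/-- `t`-fold convolution power of `μ`. -/
noncomputable def cpow (μ : G → ℝ) : ℕ → G → ℝ
  | 0 => fun x => if x = 0 then 1 else 0
  | t + 1 => fun x => ∑ y, cpow μ t y * μ (x - y)

/-- total variation distance of `μ^{*t}` to uniform. -/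
noncomputable def tvU (μ : G → ℝ) (t : ℕ) : ℝ :=
  (1 / 2) * ∑ x, |cpow μ t x - 1 / (Fintype.card G : ℝ)|

/-- expectation of `f` under `μ^{*t}`. -/
noncomputable def ex (μ : G → ℝ) (t : ℕ) (f : G → ℝ) : ℝ := ∑ x, cpow μ t x * f x

/-- averaging operator. -/
noncomputable def TT (μ : G → ℝ) (f : G → ℝ) : G → ℝ := fun x => ∑ z, μ z * f (x + z)

/-- mean. -/
noncomputable def mean (f : G → ℝ) : ℝ := (∑ x, f x) / (Fintype.card G : ℝ)

lemma ex_zero (μ : G → ℝ) (f : G → ℝ) : ex μ 0 f = f 0 := by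
  simp [ex, cpow]

lemma ex_succ (μ : G → ℝ) (t : ℕ) (f : G → ℝ) : ex μ (t + 1) f = ex μ t (TT μ f) := by
  unfold ex TT
  simp only [cpow, Finset.sum_mul, Finset.mul_sum]
  rw [Finset.sum_comm]
  refine Finset.sum_congr rfl fun y _ => ?_
  rw [← Equiv.sum_comp (Equiv.addLeft y)]
  refine Finset.sum_congr rfl fun z _ => ?_
  simp [mul_assoc]

lemma ex_add (μ : G → ℝ) (t : ℕ) (f g : G → ℝ) :
    ex μ t (fun x => f x + g x) = ex μ t f + ex μ t g := by
  simp [ex, mul_add, Finset.sum_add_distrib]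

lemma ex_smul (μ : G → ℝ) (t : ℕ) (c : ℝ) (f : G → ℝ) :
    ex μ t (fun x => c * f x) = c * ex μ t f := by
  simp only [ex, Finset.mul_sum]
  exact Finset.sum_congr rfl fun x _ => by ring

lemma ex_sum {ι : Type*} (s : Finset ι) (μ : G → ℝ) (t : ℕ) (f : ι → G → ℝ) :
    ex μ t (fun x => ∑ i ∈ s, f i x) = ∑ i ∈ s, ex μ t (f i) := by
  simp only [ex, Finset.mul_sum]
  rw [Finset.sum_comm]

lemma ex_one (μ : G → ℝ) (hμ : ∑ x, μ x = 1) (t : ℕ) : ex μ t (fun _ => 1) = 1 := by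
  induction t with
  | zero => simp [ex_zero]
  | succ t ih => rw [ex_succ]; unfold TT; simpa [hμ] using ih

lemma ex_const (μ : G → ℝ) (hμ : ∑ x, μ x = 1) (t : ℕ) (c : ℝ) : ex μ t (fun _ => c) = c := by
  have := ex_smul μ t c (fun _ => 1)
  simp only [mul_one] at this
  rw [this, ex_one μ hμ, mul_one]

lemma mean_TT (μ : G → ℝ) (hμ : ∑ x, μ x = 1) (f : G → ℝ) : mean (TT μ f) = mean f := by
  unfold mean TT
  congr 1
  rw [Finset.sum_comm]
  have : ∀ z, ∑ x, μ z * f (x + z) = μ z * ∑ x, f x := by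
    intro z
    rw [← Finset.mul_sum]
    congr 1
    exact Equiv.sum_comp (Equiv.addRight z) f
  rw [Finset.sum_congr rfl fun z _ => this z, ← Finset.sum_mul, hμ, one_mul]

/-- mixture with uniform -/
noncomputable def mix (δ : ℝ) (μ : G → ℝ) : G → ℝ :=
  fun x => (1 - δ) * μ x + δ * (1 / (Fintype.card G : ℝ))

lemma card_ne : (Fintype.card G : ℝ) ≠ 0 := by
  have : 0 < Fintype.card G := Fintype.card_pos_iff.mpr ⟨0⟩
  exact_mod_cast this.ne'

lemma card_pos' : (0 : ℝ) < (Fintype.card G : ℝ) := by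
  have : 0 < Fintype.card G := Fintype.card_pos_iff.mpr ⟨0⟩
  exact_mod_cast this

lemma mix_sum (δ : ℝ) (μ : G → ℝ) (hμ : ∑ x, μ x = 1) : ∑ x, mix δ μ x = 1 := by
  unfold mix
  rw [Finset.sum_add_distrib, ← Finset.mul_sum, hμ, Finset.sum_const, Finset.card_univ,
    nsmul_eq_mul]
  have := card_ne (G := G)
  field_simp
  ring

lemma TT_mix (δ : ℝ) (μ : G → ℝ) (f : G → ℝ) :
    TT (mix δ μ) f = fun x => (1 - δ) * TT μ f x + δ * mean f := by
  funext x
  unfold TT mix mean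
  simp only [add_mul, Finset.sum_add_distrib]
  have h1 : ∑ z, (1 - δ) * μ z * f (x + z) = (1 - δ) * ∑ z, μ z * f (x + z) := by
    rw [Finset.mul_sum]; exact Finset.sum_congr rfl fun z _ => by ring
  have h2 : ∑ z, δ * (1 / (Fintype.card G : ℝ)) * f (x + z)
      = δ * ((∑ x, f x) / (Fintype.card G : ℝ)) := by
    rw [← Finset.mul_sum]
    have := Equiv.sum_comp (Equiv.addLeft x) f
    simp only [Equiv.coe_addLeft] at this
    rw [this]; ring
  rw [h1, h2]

lemma ex_mix (δ : ℝ) (μ : G → ℝ) (hμ : ∑ x, μ x = 1) (t : ℕ) (f : G → ℝ) :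
    ex (mix δ μ) t f - mean f = (1 - δ) ^ t * (ex μ t f - mean f) := by
  induction t generalizing f with
  | zero => simp [ex_zero]
  | succ t ih =>
    rw [ex_succ, TT_mix, ex_add, ex_smul, ex_const _ (mix_sum δ μ hμ)]
    have h := ih (TT μ f)
    rw [mean_TT μ hμ] at h
    rw [ex_succ μ]
    have : ex (mix δ μ) t (TT μ f) = (1 - δ) ^ t * (ex μ t (TT μ f) - mean f) + mean f := by
      linarith
    rw [this]
    ring

lemma ex_ind (μ : G → ℝ) (t : ℕ) (x : G) :
    ex μ t (fun y => if y = x then 1 else 0) = cpow μ t x := by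
  simp [ex]

lemma mean_ind (x : G) : mean (fun y : G => if y = x then (1 : ℝ) else 0)
    = 1 / (Fintype.card G : ℝ) := by
  simp [mean]

lemma cpow_mix (δ : ℝ) (μ : G → ℝ) (hμ : ∑ x, μ x = 1) (t : ℕ) (x : G) :
    cpow (mix δ μ) t x - 1 / (Fintype.card G : ℝ)
      = (1 - δ) ^ t * (cpow μ t x - 1 / (Fintype.card G : ℝ)) := by
  have h := ex_mix δ μ hμ t (fun y => if y = x then 1 else 0)
  rwa [ex_ind, ex_ind, mean_ind] at h

lemma tvU_mix (δ : ℝ) (hδ : δ ≤ 1) (μ : G → ℝ) (hμ : ∑ x, μ x = 1) (t : ℕ) :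
    tvU (mix δ μ) t = (1 - δ) ^ t * tvU μ t := by
  unfold tvU
  have : ∀ x, |cpow (mix δ μ) t x - 1 / (Fintype.card G : ℝ)|
      = (1 - δ) ^ t * |cpow μ t x - 1 / (Fintype.card G : ℝ)| := by
    intro x
    rw [cpow_mix δ μ hμ, abs_mul, abs_of_nonneg (pow_nonneg (by linarith) t)]
  rw [Finset.sum_congr rfl fun x _ => this x, ← Finset.mul_sum]
  ring

lemma cpow_nonneg (μ : G → ℝ) (hμ : ∀ x, 0 ≤ μ x) (t : ℕ) (x : G) : 0 ≤ cpow μ t x := by
  induction t generalizing x with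
  | zero => unfold cpow; split_ifs <;> norm_num
  | succ t ih => exact Finset.sum_nonneg fun y _ => mul_nonneg (ih y) (hμ _)

lemma cpow_sum (μ : G → ℝ) (hμ : ∑ x, μ x = 1) (t : ℕ) : ∑ x, cpow μ t x = 1 := by
  have := ex_one μ hμ t
  simpa [ex] using this

lemma tvU_le_one (μ : G → ℝ) (h0 : ∀ x, 0 ≤ μ x) (hμ : ∑ x, μ x = 1) (t : ℕ) :
    tvU μ t ≤ 1 := by
  unfold tvU
  have h1 : ∀ x, |cpow μ t x - 1 / (Fintype.card G : ℝ)|
      ≤ cpow μ t x + 1 / (Fintype.card G : ℝ) := by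
    intro x
    have a := cpow_nonneg μ h0 t x
    have b : (0 : ℝ) ≤ 1 / (Fintype.card G : ℝ) := by positivity
    rw [abs_le]; constructor <;> linarith
  have h2 : ∑ x, |cpow μ t x - 1 / (Fintype.card G : ℝ)|
      ≤ ∑ x, (cpow μ t x + 1 / (Fintype.card G : ℝ)) := Finset.sum_le_sum fun x _ => h1 x
  rw [Finset.sum_add_distrib, cpow_sum μ hμ, Finset.sum_const, Finset.card_univ,
    nsmul_eq_mul] at h2
  have := card_ne (G := G)
  have h3 : (Fintype.card G : ℝ) * (1 / (Fintype.card G : ℝ)) = 1 := by field_simp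
  linarith

/-- Lower bound of total variation by a test function between `0` and `1`. -/
lemma tvU_ge (μ : G → ℝ) (hμ : ∑ x, μ x = 1) (t : ℕ) (g : G → ℝ)
    (hg0 : ∀ x, 0 ≤ g x) (hg1 : ∀ x, g x ≤ 1) :
    ex μ t g - mean g ≤ tvU μ t := by
  have hs : ∑ x, (cpow μ t x - 1 / (Fintype.card G : ℝ)) = 0 := by
    rw [Finset.sum_sub_distrib, cpow_sum μ hμ, Finset.sum_const, Finset.card_univ,
      nsmul_eq_mul]
    have := card_ne (G := G)
    field_simp
    ring
  have e1 : ex μ t g - mean g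
      = ∑ x, (cpow μ t x - 1 / (Fintype.card G : ℝ)) * (g x - 1 / 2) := by
    have : ∑ x, (cpow μ t x - 1 / (Fintype.card G : ℝ)) * (g x - 1 / 2)
        = ∑ x, (cpow μ t x - 1 / (Fintype.card G : ℝ)) * g x
          - (1 / 2) * ∑ x, (cpow μ t x - 1 / (Fintype.card G : ℝ)) := by
      rw [Finset.mul_sum, ← Finset.sum_sub_distrib]
      exact Finset.sum_congr rfl fun x _ => by ring
    rw [this, hs]
    unfold ex mean
    rw [div_eq_mul_inv, Finset.sum_mul, ← Finset.sum_sub_distrib, mul_zero, sub_zero]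
    exact Finset.sum_congr rfl fun x _ => by ring
  rw [e1]
  unfold tvU
  rw [Finset.mul_sum]
  refine Finset.sum_le_sum fun x _ => ?_
  have h : (cpow μ t x - 1 / (Fintype.card G : ℝ)) * (g x - 1 / 2)
      ≤ |cpow μ t x - 1 / (Fintype.card G : ℝ)| * |g x - 1 / 2| := by
    rw [← abs_mul]; exact le_abs_self _
  have h2 : |g x - 1 / 2| ≤ 1 / 2 := by
    rw [abs_le]; constructor <;> linarith [hg0 x, hg1 x]
  have h3 := mul_le_mul_of_nonneg_left h2 (abs_nonneg (cpow μ t x - 1 / (Fintype.card G : ℝ)))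
  linarith

lemma ex_mono (μ : G → ℝ) (h0 : ∀ x, 0 ≤ μ x) (t : ℕ) (f g : G → ℝ) (h : ∀ x, f x ≤ g x) :
    ex μ t f ≤ ex μ t g :=
  Finset.sum_le_sum fun x _ => mul_le_mul_of_nonneg_left (h x) (cpow_nonneg μ h0 t x)

lemma mean_mono (f g : G → ℝ) (h : ∀ x, f x ≤ g x) : mean f ≤ mean g := by
  unfold mean
  exact div_le_div_of_nonneg_right (Finset.sum_le_sum fun x _ => h x) (card_pos' (G := G)).le

/-- second moment lower bound. -/
lemma tvU_second (μ : G → ℝ) (h0 : ∀ x, 0 ≤ μ x) (hμ : ∑ x, μ x = 1) (t : ℕ) (W : G → ℝ)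
    (w : ℝ) (hw : 0 < w) (h1 : ex μ t W = w) (h2 : ex μ t (fun x => W x ^ 2) ≤ w ^ 2 + w + 1)
    (h3 : mean (fun x => W x ^ 2) ≤ 1) : 1 - 4 * (w + 2) / w ^ 2 ≤ tvU μ t := by
  classical
  let g : G → ℝ := fun x => if w / 2 ≤ W x then 1 else 0
  have hg := tvU_ge μ hμ t g (fun x => by simp only [g]; split_ifs <;> norm_num)
    (fun x => by simp only [g]; split_ifs <;> norm_num)
  have hw2 : 0 < w ^ 2 := by positivity
  have a1 : ex μ t (fun x => (1 - 4) + (8 / w * W x + (-(4 / w ^ 2)) * W x ^ 2)) ≤ ex μ t g := by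
    refine ex_mono μ h0 t _ _ fun x => ?_
    simp only [g]
    have key : (1 - 4 : ℝ) + (8 / w * W x + (-(4 / w ^ 2)) * W x ^ 2)
        = 1 - 4 * (W x - w) ^ 2 / w ^ 2 := by
      field_simp; ring
    rw [key]
    split_ifs with hc
    · have : 0 ≤ 4 * (W x - w) ^ 2 / w ^ 2 := by positivity
      linarith
    · push Not at hc
      have : 1 ≤ 4 * (W x - w) ^ 2 / w ^ 2 := by
        rw [le_div_iff₀ hw2]
        nlinarith
      linarith
  rw [ex_add, ex_add, ex_smul, ex_smul, ex_const μ hμ, h1] at a1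
  have a2 : mean g ≤ mean (fun x => 4 / w ^ 2 * W x ^ 2) := by
    refine mean_mono _ _ fun x => ?_
    simp only [g]
    split_ifs with hc
    · rw [div_mul_eq_mul_div, le_div_iff₀ hw2]
      nlinarith
    · positivity
  have a3 : mean (fun x => 4 / w ^ 2 * W x ^ 2) = 4 / w ^ 2 * mean (fun x => W x ^ 2) := by
    unfold mean
    rw [← Finset.mul_sum]; ring
  have b1 : 4 / w ^ 2 * ex μ t (fun x => W x ^ 2) ≤ 4 / w ^ 2 * (w ^ 2 + w + 1) :=
    mul_le_mul_of_nonneg_left h2 (by positivity)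
  have b2 : 4 / w ^ 2 * mean (fun x => W x ^ 2) ≤ 4 / w ^ 2 * 1 :=
    mul_le_mul_of_nonneg_left h3 (by positivity)
  have b3 : 8 / w * w = 8 := by field_simp
  have b4 : 4 / w ^ 2 * (w ^ 2 + w + 1) + 4 / w ^ 2 * 1 = 4 + 4 * (w + 2) / w ^ 2 := by
    field_simp; ring
  linarith

end gen

section transport

variable {G H : Type*} [AddCommGroup G] [Fintype G] [DecidableEq G]
  [AddCommGroup H] [Fintype H] [DecidableEq H]

lemma cpow_comp (e : H ≃+ G) (μ : G → ℝ) (t : ℕ) (x : H) :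
    cpow (fun y => μ (e y)) t x = cpow μ t (e x) := by
  induction t generalizing x with
  | zero => simp [cpow]
  | succ t ih =>
    simp only [cpow]
    rw [← Equiv.sum_comp e.toEquiv]
    refine Finset.sum_congr rfl fun y _ => ?_
    rw [ih]
    simp

lemma tvU_comp (e : H ≃+ G) (μ : G → ℝ) (t : ℕ) :
    tvU (fun y => μ (e y)) t = tvU μ t := by
  unfold tvU
  congr 1
  rw [← Equiv.sum_comp e.toEquiv, Fintype.card_congr e.toEquiv]
  refine Finset.sum_congr rfl fun y _ => ?_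
  rw [cpow_comp]
  rfl

end transport

end Pool.Agent.V11326
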