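import Pool.Agent.V11326.GroupWalk

/-!
The walk on a product of cyclic groups which re-randomises a uniformly chosen coordinate.
-/

open Finset

namespace Pool.Agent.V11326

section prod

variable {m : ℕ} (p : Fin m → ℕ) [∀ i, NeZero (p i)]

/-- re-randomise a uniformly chosen coordinate -/
noncomputable def rer (g : (i : Fin m) → ZMod (p i)) : ℝ :=
  (1 / (m : ℝ)) * ∑ i, (1 / (p i : ℝ)) * ∑ k : ZMod (p i), if g = Pi.single i k then 1 else 0

lemma rer_nonneg (g : (i : Fin m) → ZMod (p i)) : 0 ≤ rer p g := by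
  unfold rer
  refine mul_nonneg (by positivity) (Finset.sum_nonneg fun i _ => mul_nonneg (by positivity)
    (Finset.sum_nonneg fun k _ => ?_))
  split_ifs <;> norm_num

lemma rer_neg (g : (i : Fin m) → ZMod (p i)) : rer p (-g) = rer p g := by
  unfold rer
  congr 1
  refine Finset.sum_congr rfl fun i _ => ?_
  congr 1
  rw [← Equiv.sum_comp (Equiv.neg (ZMod (p i)))]
  refine Finset.sum_congr rfl fun k _ => ?_
  have : (-g = Pi.single i ((Equiv.neg (ZMod (p i))) k)) ↔ (g = Pi.single i k) := by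
    simp only [Equiv.neg_apply, Pi.single_neg, neg_inj]
  simp only [this]

/-- integrate against `rer`. -/
lemma rer_integral {E : Type*} [AddCommGroup E] [Module ℝ E]
    (F : ((i : Fin m) → ZMod (p i)) → E) :
    ∑ g, rer p g • F g
      = (1 / (m : ℝ)) • ∑ i, (1 / (p i : ℝ)) • ∑ k : ZMod (p i), F (Pi.single i k) := by
  unfold rer
  simp only [mul_smul, Finset.sum_smul, Finset.smul_sum]
  rw [Finset.sum_comm]
  refine Finset.sum_congr rfl fun i _ => ?_
  rw [Finset.sum_comm]
  refine Finset.sum_congr rfl fun k _ => ?_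
  simp [ite_smul]

lemma rer_sum (hm : 0 < m) : ∑ g, rer p g = 1 := by
  have h := rer_integral p (fun _ => (1 : ℝ))
  simp only [smul_eq_mul, mul_one, Finset.sum_const, Finset.card_univ, ZMod.card,
    nsmul_eq_mul] at h
  rw [h]
  have : ∀ i : Fin m, 1 / (p i : ℝ) * (p i : ℝ) = 1 := fun i => by
    have := NeZero.ne (p i)
    have : (p i : ℝ) ≠ 0 := by exact_mod_cast this
    field_simp
  simp only [this, Finset.sum_const, Finset.card_univ, Fintype.card_fin, nsmul_eq_mul, mul_one]
  have : (m : ℝ) ≠ 0 := by exact_mod_cast hm.ne'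
  field_simp

lemma TT_rer (f : ((i : Fin m) → ZMod (p i)) → ℝ) (x : (i : Fin m) → ZMod (p i)) :
    TT (rer p) f x = (1 / (m : ℝ)) * ∑ i, (1 / (p i : ℝ)) *
      ∑ k : ZMod (p i), f (x + Pi.single i k) := by
  have h := rer_integral p (fun g => f (x + g))
  simp only [smul_eq_mul] at h
  exact h

/-- the centred indicator of a zero coordinate -/
noncomputable def phi (j : Fin m) (x : (i : Fin m) → ZMod (p i)) : ℝ :=
  (if x j = 0 then 1 else 0) - 1 / (p j : ℝ)

lemma phi_single_ne (i j : Fin m) (h : i ≠ j) (x : (i : Fin m) → ZMod (p i)) (k : ZMod (p i)) :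
    phi p j (x + Pi.single i k) = phi p j x := by
  unfold phi
  have : (x + (Pi.single i k : (i : Fin m) → ZMod (p i))) j = x j := by
    simp [Pi.add_apply, Pi.single_eq_of_ne (Ne.symm h)]
  rw [this]

lemma sum_phi_single (j : Fin m) (x : (i : Fin m) → ZMod (p i)) :
    ∑ k : ZMod (p j), phi p j (x + Pi.single j k) = 0 := by
  unfold phi
  have : ∀ k : ZMod (p j), (x + (Pi.single j k : (i : Fin m) → ZMod (p i))) j = x j + k := by
    intro k; simp
  simp only [this]
  rw [Finset.sum_sub_distrib]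
  have h1 : ∑ k : ZMod (p j), (if x j + k = 0 then (1 : ℝ) else 0) = 1 := by
    have : ∀ k, (x j + k = 0) ↔ (k = - x j) := fun k => by
      constructor
      · intro h; exact (neg_eq_of_add_eq_zero_right h).symm
      · intro h; simp [h]
    simp [this]
  rw [h1, Finset.sum_const, Finset.card_univ, ZMod.card, nsmul_eq_mul]
  have := NeZero.ne (p j)
  have : (p j : ℝ) ≠ 0 := by exact_mod_cast this
  field_simp
  ring

lemma avg_const (i : Fin m) (c : ℝ) : (1 / (p i : ℝ)) * ∑ _k : ZMod (p i), c = c := by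
  rw [Finset.sum_const, Finset.card_univ, ZMod.card, nsmul_eq_mul]
  have := NeZero.ne (p i)
  have : (p i : ℝ) ≠ 0 := by exact_mod_cast this
  field_simp

lemma TT_phi (hm : 0 < m) (j : Fin m) :
    TT (rer p) (phi p j) = fun x => (1 - 1 / (m : ℝ)) * phi p j x := by
  funext x
  rw [TT_rer]
  have : ∀ i, (1 / (p i : ℝ)) * ∑ k : ZMod (p i), phi p j (x + Pi.single i k)
      = phi p j x - if i = j then phi p j x else 0 := by
    intro i
    split_ifs with h
    · subst h; rw [sum_phi_single]; ring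
    · rw [Finset.sum_congr rfl fun k _ => phi_single_ne p i j h x k, avg_const]; ring
  rw [Finset.sum_congr rfl fun i _ => this i, Finset.sum_sub_distrib]
  simp only [Finset.sum_const, Finset.card_univ, Fintype.card_fin, nsmul_eq_mul,
    Finset.sum_ite_eq', Finset.mem_univ, if_true]
  have : (m : ℝ) ≠ 0 := by exact_mod_cast hm.ne'
  field_simp

lemma TT_phi_phi (hm : 0 < m) (j k : Fin m) (hjk : j ≠ k) :
    TT (rer p) (fun x => phi p j x * phi p k x)
      = fun x => (1 - 2 / (m : ℝ)) * (phi p j x * phi p k x) := by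
  funext x
  rw [TT_rer]
  have : ∀ i, (1 / (p i : ℝ)) * ∑ l : ZMod (p i),
      (phi p j (x + Pi.single i l) * phi p k (x + Pi.single i l))
      = phi p j x * phi p k x - (if i = j then phi p j x * phi p k x else 0)
        - (if i = k then phi p j x * phi p k x else 0) := by
    intro i
    by_cases h : i = j
    · subst h
      rw [Finset.sum_congr rfl fun l _ => by rw [phi_single_ne p i k hjk], ← Finset.sum_mul,
        sum_phi_single]
      simp [hjk]
    · by_cases h' : i = k
      · subst h'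
        rw [Finset.sum_congr rfl fun l _ => by rw [phi_single_ne p i j h], ← Finset.mul_sum,
          sum_phi_single]
        simp [h]
      · rw [Finset.sum_congr rfl fun l _ => by
          rw [phi_single_ne p i j h, phi_single_ne p i k h'], avg_const]
        simp [h, h']
  rw [Finset.sum_congr rfl fun i _ => this i, Finset.sum_sub_distrib, Finset.sum_sub_distrib]
  simp only [Finset.sum_const, Finset.card_univ, Fintype.card_fin, nsmul_eq_mul,
    Finset.sum_ite_eq', Finset.mem_univ, if_true]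
  have : (m : ℝ) ≠ 0 := by exact_mod_cast hm.ne'
  field_simp
  ring

lemma phi_sq (j : Fin m) (x : (i : Fin m) → ZMod (p i)) :
    phi p j x * phi p j x
      = (1 - 2 / (p j : ℝ)) * phi p j x + (1 / (p j : ℝ)) * (1 - 1 / (p j : ℝ)) := by
  unfold phi
  split_ifs <;> ring

lemma ex_phi (hm : 0 < m) (t : ℕ) (j : Fin m) :
    ex (rer p) t (phi p j) = (1 - 1 / (m : ℝ)) ^ t * (1 - 1 / (p j : ℝ)) := by
  induction t with
  | zero => rw [ex_zero]; simp [phi]
  | succ t ih => rw [ex_succ, TT_phi p hm, ex_smul, ih]; ring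

lemma ex_phi_phi (hm : 0 < m) (t : ℕ) (j k : Fin m) (hjk : j ≠ k) :
    ex (rer p) t (fun x => phi p j x * phi p k x)
      = (1 - 2 / (m : ℝ)) ^ t * ((1 - 1 / (p j : ℝ)) * (1 - 1 / (p k : ℝ))) := by
  induction t with
  | zero => rw [ex_zero]; simp [phi]
  | succ t ih => rw [ex_succ, TT_phi_phi p hm j k hjk, ex_smul, ih]; ring

lemma ex_phi_sq (hm : 0 < m) (t : ℕ) (j : Fin m) :
    ex (rer p) t (fun x => phi p j x * phi p j x)
      = (1 - 2 / (p j : ℝ)) * ((1 - 1 / (m : ℝ)) ^ t * (1 - 1 / (p j : ℝ)))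
        + (1 / (p j : ℝ)) * (1 - 1 / (p j : ℝ)) := by
  have : (fun x => phi p j x * phi p j x) = fun x =>
    (1 - 2 / (p j : ℝ)) * phi p j x + (1 / (p j : ℝ)) * (1 - 1 / (p j : ℝ)) := by
    funext x; exact phi_sq p j x
  rw [this, ex_add, ex_smul, ex_const _ (rer_sum p hm), ex_phi p hm]

/-- the test function -/
noncomputable def WW (x : (i : Fin m) → ZMod (p i)) : ℝ := ∑ j, phi p j x

/-- value of the test function at zero -/
noncomputable def SS : ℝ := ∑ j : Fin m, (1 - 1 / (p j : ℝ))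

lemma ex_WW (hm : 0 < m) (t : ℕ) : ex (rer p) t (WW p) = (1 - 1 / (m : ℝ)) ^ t * SS p := by
  have : WW p = fun x => ∑ j ∈ Finset.univ, phi p j x := rfl
  rw [this, ex_sum]
  simp only [ex_phi p hm, SS, Finset.mul_sum]

lemma mean_eq_zero_phi (hm : 0 < m) (j : Fin m) : mean (phi p j) = 0 := by
  have h := mean_TT (rer p) (rer_sum p hm) (phi p j)
  rw [TT_phi p hm] at h
  have h2 : mean (fun x => (1 - 1 / (m : ℝ)) * phi p j x) = (1 - 1 / (m : ℝ)) * mean (phi p j) := by
    unfold mean; rw [← Finset.mul_sum]; ring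
  rw [h2] at h
  have : (m : ℝ) ≠ 0 := by exact_mod_cast hm.ne'
  have h3 : (1 / (m : ℝ)) * mean (phi p j) = 0 := by linarith
  rcases mul_eq_zero.mp h3 with h4 | h4
  · exact absurd h4 (by positivity)
  · exact h4

lemma mean_phi_phi (hm : 0 < m) (j k : Fin m) (hjk : j ≠ k) :
    mean (fun x => phi p j x * phi p k x) = 0 := by
  have h := mean_TT (rer p) (rer_sum p hm) (fun x => phi p j x * phi p k x)
  rw [TT_phi_phi p hm j k hjk] at h
  have h2 : mean (fun x => (1 - 2 / (m : ℝ)) * (phi p j x * phi p k x))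
      = (1 - 2 / (m : ℝ)) * mean (fun x => phi p j x * phi p k x) := by
    unfold mean; rw [← Finset.mul_sum]; ring
  rw [h2] at h
  have : (m : ℝ) ≠ 0 := by exact_mod_cast hm.ne'
  have h3 : (2 / (m : ℝ)) * mean (fun x => phi p j x * phi p k x) = 0 := by linarith
  rcases mul_eq_zero.mp h3 with h4 | h4
  · exact absurd h4 (by positivity)
  · exact h4

lemma mean_add' {G : Type*} [Fintype G] (f g : G → ℝ) :
    mean (fun x => f x + g x) = mean f + mean g := by
  unfold mean; rw [Finset.sum_add_distrib]; ring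

lemma mean_smul' {G : Type*} [Fintype G] (c : ℝ) (f : G → ℝ) :
    mean (fun x => c * f x) = c * mean f := by
  unfold mean; rw [← Finset.mul_sum]; ring

lemma mean_sum' {G ι : Type*} [Fintype G] (s : Finset ι) (f : ι → G → ℝ) :
    mean (fun x => ∑ i ∈ s, f i x) = ∑ i ∈ s, mean (f i) := by
  unfold mean
  rw [Finset.sum_comm, Finset.sum_div]

lemma mean_phi_sq (hm : 0 < m) (j : Fin m) :
    mean (fun x => phi p j x * phi p j x) = (1 / (p j : ℝ)) * (1 - 1 / (p j : ℝ)) := by
  have : (fun x => phi p j x * phi p j x) = fun x =>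
    (1 - 2 / (p j : ℝ)) * phi p j x + (1 / (p j : ℝ)) * (1 - 1 / (p j : ℝ)) := by
    funext x; exact phi_sq p j x
  rw [this, mean_add', mean_smul', mean_eq_zero_phi p hm]
  unfold mean
  rw [Finset.sum_const, Finset.card_univ, nsmul_eq_mul]
  have := card_ne (G := ((i : Fin m) → ZMod (p i)))
  field_simp
  ring

lemma WW_sq (x : (i : Fin m) → ZMod (p i)) :
    WW p x ^ 2 = ∑ j, ∑ k, phi p j x * phi p k x := by
  unfold WW
  rw [sq, Finset.sum_mul_sum]

lemma p_pos (j : Fin m) : (0 : ℝ) < (p j : ℝ) := by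
  exact_mod_cast Nat.pos_of_ne_zero (NeZero.ne (p j))

lemma p_inv_le (j : Fin m) : 1 / (p j : ℝ) ≤ 1 := by
  rw [div_le_one (p_pos p j)]
  exact_mod_cast Nat.one_le_iff_ne_zero.mpr (NeZero.ne (p j))

lemma mean_WW_sq (hm : 0 < m) (hp : ∑ j, 1 / (p j : ℝ) ≤ 1) :
    mean (fun x => WW p x ^ 2) ≤ 1 := by
  have : (fun x => WW p x ^ 2) = fun x => ∑ j ∈ Finset.univ, ∑ k ∈ Finset.univ,
      phi p j x * phi p k x := by
    funext x; exact WW_sq p x
  rw [this, mean_sum']
  refine le_trans (Finset.sum_le_sum fun j _ => ?_) hp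
  rw [mean_sum', Finset.sum_eq_single j]
  · rw [mean_phi_sq p hm]
    have h1 : (0 : ℝ) < 1 / (p j : ℝ) := by have := p_pos p j; positivity
    nlinarith
  · intro k _ hk
    exact mean_phi_phi p hm j k (Ne.symm hk)
  · intro h; exact absurd (Finset.mem_univ _) h

lemma ex_WW_sq (hm : 2 ≤ m) (t : ℕ) (hp : ∑ j, 1 / (p j : ℝ) ≤ 1) :
    ex (rer p) t (fun x => WW p x ^ 2)
      ≤ ((1 - 1 / (m : ℝ)) ^ t * SS p) ^ 2 + (1 - 1 / (m : ℝ)) ^ t * SS p + 1 := by
  have hm0 : 0 < m := by omega
  have hmR : (2 : ℝ) ≤ m := by exact_mod_cast hm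
  have : (fun x => WW p x ^ 2) = fun x => ∑ j ∈ Finset.univ, ∑ k ∈ Finset.univ,
      phi p j x * phi p k x := by
    funext x; exact WW_sq p x
  rw [this, ex_sum]
  set a : ℝ := 1 - 1 / (m : ℝ) with ha
  have ha0 : 0 ≤ a := by
    have : 1 / (m : ℝ) ≤ 1 := by rw [div_le_one (by linarith)]; linarith
    rw [ha]; linarith
  set q : Fin m → ℝ := fun j => 1 - 1 / (p j : ℝ) with hq
  have hq0 : ∀ j, 0 ≤ q j := fun j => by have := p_inv_le p j; simp only [hq]; linarith
  have hq1 : ∀ j, q j ≤ 1 := fun j => by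
    have h1 : (0 : ℝ) < 1 / (p j : ℝ) := by have := p_pos p j; positivity
    simp only [hq]; linarith
  have h2m : (1 - 2 / (m : ℝ)) ^ t ≤ a ^ t * a ^ t := by
    rw [← mul_pow]
    refine pow_le_pow_left₀ ?_ ?_ t
    · have : 2 / (m : ℝ) ≤ 1 := by rw [div_le_one (by linarith)]; linarith
      linarith
    · rw [ha]
      have : (1 - 1 / (m : ℝ)) * (1 - 1 / (m : ℝ)) = 1 - 2 / (m : ℝ) + (1 / (m : ℝ)) ^ 2 := by ring
      rw [this]
      have : (0 : ℝ) ≤ (1 / (m : ℝ)) ^ 2 := by positivity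
      linarith
  have key : ∀ j, ex (rer p) t (fun x => ∑ k ∈ Finset.univ, phi p j x * phi p k x)
      ≤ (a ^ t * q j) * (a ^ t * SS p) + a ^ t * q j + 1 / (p j : ℝ) := by
    intro j
    rw [ex_sum]
    have hterm : ∀ k, ex (rer p) t (fun x => phi p j x * phi p k x)
        ≤ (a ^ t * q j) * (a ^ t * q k) + if k = j then (a ^ t * q j + 1 / (p j : ℝ)) else 0 := by
      intro k
      split_ifs with h
      · subst h
        rw [ex_phi_sq p hm0]
        have h1 : (0 : ℝ) < 1 / (p k : ℝ) := by have := p_pos p k; positivity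
        have e1 : 2 / (p k : ℝ) = 2 * (1 / (p k : ℝ)) := by ring
        have hat : 0 ≤ a ^ t := pow_nonneg ha0 t
        have z1 : 0 ≤ a ^ t * q k := mul_nonneg hat (hq0 k)
        have z2 : 0 ≤ (a ^ t * q k) * (a ^ t * q k) := mul_nonneg z1 z1
        have z3 : 0 ≤ 1 / (p k : ℝ) * (a ^ t * q k) := mul_nonneg h1.le z1
        have z4 : 1 / (p k : ℝ) * (1 - 1 / (p k : ℝ)) ≤ 1 / (p k : ℝ) := by nlinarith
        have z5 : (1 - 2 / (p k : ℝ)) * (a ^ t * (1 - 1 / (p k : ℝ)))
            = a ^ t * q k - 2 * (1 / (p k : ℝ) * (a ^ t * q k)) := by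
          simp only [hq]; ring
        rw [z5]
        linarith
      · rw [ex_phi_phi p hm0 t j k (Ne.symm h)]
        have hqq : 0 ≤ q j * q k := mul_nonneg (hq0 j) (hq0 k)
        have := mul_le_mul_of_nonneg_right h2m hqq
        simp only [hq] at this ⊢
        nlinarith
    refine le_trans (Finset.sum_le_sum fun k _ => hterm k) ?_
    rw [Finset.sum_add_distrib]
    simp only [Finset.sum_ite_eq', Finset.mem_univ, if_true]
    rw [← Finset.mul_sum, ← Finset.mul_sum]
    have : ∑ k, q k = SS p := rfl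
    rw [this]
    linarith
  refine le_trans (Finset.sum_le_sum fun j _ => key j) ?_
  rw [Finset.sum_add_distrib, Finset.sum_add_distrib, ← Finset.sum_mul, ← Finset.mul_sum]
  have : ∑ k, q k = SS p := rfl
  rw [this]
  nlinarith

lemma tv_rer (hm : 2 ≤ m) (t : ℕ) (hp : ∑ j, 1 / (p j : ℝ) ≤ 1)
    (hw : 32 ≤ (1 - 1 / (m : ℝ)) ^ t * SS p) : 5 / 6 < tvU (rer p) t := by
  have hm0 : 0 < m := by omega
  set w := (1 - 1 / (m : ℝ)) ^ t * SS p with hwdef
  have h := tvU_second (rer p) (rer_nonneg p) (rer_sum p hm0) t (WW p) w (by linarith)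
    (ex_WW p hm0 t) (ex_WW_sq p hm t hp) (mean_WW_sq p hm0 hp)
  have hw2 : 0 < w ^ 2 := by positivity
  have : 4 * (w + 2) / w ^ 2 < 1 / 6 := by
    rw [div_lt_div_iff₀ hw2 (by norm_num)]
    nlinarith
  linarith

end prod

end Pool.Agent.V11326
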